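import Pool.Agent.H16.UN.Dat

/-!
# Module BEx: exactness with coefficients in `B`

PROOF of `bbd`.  For each `b : κ` let `F b : Finset 𝒮.J` be the finite set of `𝒮.c_rec (v b) (hv b)`, and
`F = ⋃ F b` (`Finset.univ.biUnion`); then `𝒮.c l (v b) = 0` for `l ∉ F` and
`v b = ∑ l ∈ F, 𝒮.u l * 𝒮.j (𝒮.c l (v b))` (enlarging the set only adds zero terms).  With `W l` the
vectors given by `h`, put `w b = ∑ l ∈ F, 𝒮.u l * 𝒮.j (W l b)`.  It has entries in `B` (`𝒮.hu`,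
`Setup.Br`), the right support, and
`(w ᵥ* A.map j) b = ∑ a, ∑ l, u l * j (W l a) * j (A a b) = ∑ l, u l * j ((W l ᵥ* A) b) = v b`.

PROOF of `bex`.  For each `l` the vector `c_l ∘ v` satisfies `(c_l ∘ v) ᵥ* A = 0`
(`c_l` of `∑ a, v a * j (A a b) = 0`, with `𝒮.c_mul` and additivity) and is supported in degree `i`; the
hypothesis gives `w_l`; apply `bbd`.
-/

namespace Pool.Agent.H16.UN

open Matrix

variable {R S : Type} [Ring R] [StarRing R] [Ring S] [StarRing S]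

/-- a `B`-valued vector all whose components are boundaries is a boundary -/
theorem bbd (𝒮 : Setup R S) {κ : Type} [Fintype κ] [DecidableEq κ] (g : κ → ℤ) (A : Matrix κ κ R)
    (i' : ℤ) (v : κ → S) (hv : ∀ b, v b ∈ 𝒮.B)
    (h : ∀ l, ∃ w : κ → R, (∀ b, w b ≠ 0 → g b = i') ∧ w ᵥ* A = fun b => 𝒮.c l (v b)) :
    ∃ w : κ → S, (∀ b, w b ∈ 𝒮.B) ∧ (∀ b, w b ≠ 0 → g b = i') ∧ w ᵥ* A.map 𝒮.j = v := by
  classical
  choose F hF0 hF using fun b => 𝒮.c_rec (v b) (hv b)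
  choose W hW1 hW2 using h
  refine ⟨fun b => ∑ l ∈ Finset.univ.biUnion F, 𝒮.u l * 𝒮.j (W l b), ?_, ?_, ?_⟩
  · intro b
    exact sum_mem fun l _ => 𝒮.Br _ (𝒮.hu l)
  · intro b hb
    obtain ⟨l, -, hl⟩ := Finset.exists_ne_zero_of_sum_ne_zero hb
    refine hW1 l b ?_
    intro h0
    apply hl
    rw [h0, map_zero, mul_zero]
  · funext b
    have e1 : ∀ l, ∑ a, 𝒮.u l * 𝒮.j (W l a) * 𝒮.j (A a b) = 𝒮.u l * 𝒮.j (𝒮.c l (v b)) := by
      intro l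
      have h1 : 𝒮.c l (v b) = ∑ a, W l a * A a b := by
        have h2 := congrFun (hW2 l) b
        exact h2.symm
      rw [h1, map_sum, Finset.mul_sum]
      refine Finset.sum_congr rfl fun a _ => ?_
      rw [map_mul, mul_assoc]
    have e2 : v b = ∑ l ∈ Finset.univ.biUnion F, 𝒮.u l * 𝒮.j (𝒮.c l (v b)) := by
      have h3 : ∑ l ∈ F b, 𝒮.u l * 𝒮.j (𝒮.c l (v b)) =
          ∑ l ∈ Finset.univ.biUnion F, 𝒮.u l * 𝒮.j (𝒮.c l (v b)) := by
        refine Finset.sum_subset (Finset.subset_biUnion_of_mem F (Finset.mem_univ b)) ?_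
        intro l _ hl
        rw [hF0 b l hl, map_zero, mul_zero]
      rw [← h3]
      exact hF b
    have e3 : ((fun b => ∑ l ∈ Finset.univ.biUnion F, 𝒮.u l * 𝒮.j (W l b)) ᵥ* A.map 𝒮.j) b =
        ∑ a, (∑ l ∈ Finset.univ.biUnion F, 𝒮.u l * 𝒮.j (W l a)) * 𝒮.j (A a b) := rfl
    rw [e3]
    simp only [Finset.sum_mul]
    rw [Finset.sum_comm]
    simp only [e1]
    exact e2.symm

/-- exactness over `R` implies exactness with coefficients in `B` -/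
theorem bex (𝒮 : Setup R S) {κ : Type} [Fintype κ] [DecidableEq κ] (g : κ → ℤ) (A : Matrix κ κ R)
    (i i' : ℤ) (h : ∀ v : κ → R, (∀ b, v b ≠ 0 → g b = i) → v ᵥ* A = 0 →
      ∃ w : κ → R, (∀ b, w b ≠ 0 → g b = i') ∧ w ᵥ* A = v)
    (v : κ → S) (hv : ∀ b, v b ∈ 𝒮.B) (hi : ∀ b, v b ≠ 0 → g b = i)
    (h0 : v ᵥ* A.map 𝒮.j = 0) :
    ∃ w : κ → S, (∀ b, w b ∈ 𝒮.B) ∧ (∀ b, w b ≠ 0 → g b = i') ∧ w ᵥ* A.map 𝒮.j = v := by
  refine bbd 𝒮 g A i' v hv fun l => h _ ?_ ?_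
  · intro b hb
    refine hi b ?_
    intro h0
    apply hb
    show 𝒮.c l (v b) = 0
    rw [h0, map_zero]
  · funext b
    have h1 : ∑ a, v a * 𝒮.j (A a b) = 0 := congrFun h0 b
    have h2 : ∑ a, 𝒮.c l (v a) * A a b = 0 := by
      have h3 : ∑ a, 𝒮.c l (v a) * A a b = 𝒮.c l (∑ a, v a * 𝒮.j (A a b)) := by
        rw [map_sum]
        exact Finset.sum_congr rfl fun a _ => (𝒮.c_mul l (v a) (hv a) (A a b)).symm
      rw [h3, h1, map_zero]
    exact h2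

end Pool.Agent.H16.UN
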