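import Pool.Agent.H16.UN.Def

/-! # Elementary facts (module Bas) -/

namespace Pool.Agent.H16.UN

open Matrix

theorem sg_zero : sg 0 = 1 := by simp [sg]

theorem sg_one : sg 1 = -1 := by simp [sg]

theorem sg_neg (a : ℤ) : sg (-a) = sg a := by simp [sg]

theorem sg_add (a b : ℤ) : sg (a + b) = sg a * sg b := by
  unfold sg
  by_cases ha : Even a <;> by_cases hb : Even b <;> simp [ha, hb, Int.even_add]

theorem sg_sub (a b : ℤ) : sg (a - b) = sg a * sg b := by
  rw [sub_eq_add_neg, sg_add, sg_neg]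

theorem sg_succ (a : ℤ) : sg (a + 1) = - sg a := by
  rw [sg_add, sg_one]; ring

theorem sg_cases (a : ℤ) : sg a = 1 ∨ sg a = -1 := by
  unfold sg; by_cases ha : Even a <;> simp [ha]

theorem sg_mul_self (a : ℤ) : sg a * sg a = 1 := by
  rcases sg_cases a with h | h <;> simp [h]

theorem sg_nat (s : ℕ) : ((-1 : ℤ)) ^ s = sg s := by
  unfold sg
  rcases Nat.even_or_odd s with h | h
  · have h' : Even (s : ℤ) := by exact_mod_cast h
    simp [h.neg_one_pow, h']
  · have h' : ¬ Even (s : ℤ) := by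
      rw [Int.not_even_iff_odd]; exact_mod_cast h
    simp [h.neg_one_pow, h']

/-- `(n^2) ≡ n` for signs -/
theorem sg_mul_self' (a : ℤ) : sg (a * a) = sg a := by
  unfold sg
  by_cases ha : Even a <;> simp [ha, Int.even_mul]

theorem sg_mul_comm (a b : ℤ) : sg (a * b) = sg (b * a) := by rw [mul_comm]

section

variable {R : Type} [Ring R]

theorem eps_mul_eps (X : FC R) : X.eps * X.eps = 1 := by
  unfold FC.eps
  rw [diagonal_mul_diagonal, ← diagonal_one]
  congr 1
  funext a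
  rw [← Int.cast_mul, sg_mul_self]; simp

theorem eps_apply_left (X : FC R) {n : Type} (G : Matrix X.ι n R) (a : X.ι) (b : n) :
    (X.eps * G) a b = sg (X.deg a) • G a b := by
  unfold FC.eps
  rw [diagonal_mul, zsmul_eq_mul]

theorem eps_apply_right (X : FC R) {n : Type} (G : Matrix n X.ι R) (a : n) (b : X.ι) :
    (G * X.eps) a b = sg (X.deg b) • G a b := by
  unfold FC.eps
  rw [mul_diagonal, zsmul_eq_mul]
  exact ((Int.cast_commute _ _).eq).symm

theorem eps_D (X : FC R) : X.eps * X.D = -(X.D * X.eps) := by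
  ext a b
  rw [eps_apply_left, Matrix.neg_apply, eps_apply_right]
  by_cases h : X.D a b = 0
  · simp [h]
  · rw [X.hdeg a b h, sg_succ]; simp

/-- a form of degree `q` commutes with the sign matrices up to `sg q` -/
theorem eps_HF {X Y : FC R} {q : ℤ} {G : Matrix X.ι Y.ι R} (h : HF X Y q G) :
    X.eps * G = sg q • (G * Y.eps) := by
  ext a b
  rw [eps_apply_left, Matrix.smul_apply, eps_apply_right, smul_smul]
  by_cases h0 : G a b = 0
  · simp [h0]
  · rw [← h a b h0, sg_add, mul_assoc, sg_mul_self, mul_one]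

theorem eps_HM {X Y : FC R} {F : Matrix X.ι Y.ι R} (h : HM X Y F) :
    X.eps * F = F * Y.eps := by
  ext a b
  rw [eps_apply_left, eps_apply_right]
  by_cases h0 : F a b = 0
  · simp [h0]
  · rw [h a b h0]

theorem HF_add {X Y : FC R} {q : ℤ} {G G' : Matrix X.ι Y.ι R} (h : HF X Y q G)
    (h' : HF X Y q G') : HF X Y q (G + G') := by
  intro a b hab
  by_cases h0 : G a b = 0
  · exact h' a b (by intro h1; apply hab; simp [h0, h1])
  · exact h a b h0

theorem HF_neg {X Y : FC R} {q : ℤ} {G : Matrix X.ι Y.ι R} (h : HF X Y q G) :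
    HF X Y q (-G) := fun a b hab => h a b (by intro h1; apply hab; simp [h1])

theorem HF_sub {X Y : FC R} {q : ℤ} {G G' : Matrix X.ι Y.ι R} (h : HF X Y q G)
    (h' : HF X Y q G') : HF X Y q (G - G') := by
  rw [sub_eq_add_neg]; exact HF_add h (HF_neg h')

theorem HF_zero (X Y : FC R) (q : ℤ) : HF X Y q 0 := fun a b h => absurd rfl h

theorem HF_zsmul {X Y : FC R} {q : ℤ} {G : Matrix X.ι Y.ι R} (n : ℤ) (h : HF X Y q G) :
    HF X Y q (n • G) := fun a b hab => h a b (by intro h1; apply hab; simp [h1])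

/-- composition of a form with a map on the left -/
theorem HF_mul_left {X Y Z : FC R} {q : ℤ} {F : Matrix Z.ι X.ι R} {G : Matrix X.ι Y.ι R}
    (hF : HM Z X F) (h : HF X Y q G) : HF Z Y q (F * G) := by
  intro a b hab
  rw [Matrix.mul_apply] at hab
  obtain ⟨c, -, hc⟩ := Finset.exists_ne_zero_of_sum_ne_zero hab
  have h1 : F a c ≠ 0 := left_ne_zero_of_mul hc
  have h2 : G c b ≠ 0 := right_ne_zero_of_mul hc
  rw [hF a c h1]; exact h c b h2

theorem HM_mul {X Y Z : FC R} {F : Matrix Z.ι X.ι R} {G : Matrix X.ι Y.ι R}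
    (hF : HM Z X F) (h : HM X Y G) : HM Z Y (F * G) := by
  intro a b hab
  rw [Matrix.mul_apply] at hab
  obtain ⟨c, -, hc⟩ := Finset.exists_ne_zero_of_sum_ne_zero hab
  have h1 : F a c ≠ 0 := left_ne_zero_of_mul hc
  have h2 : G c b ≠ 0 := right_ne_zero_of_mul hc
  rw [hF a c h1]; exact h c b h2

theorem HM_one (X : FC R) : HM X X 1 := by
  intro a b h
  have : a = b := by by_contra h1; exact h (Matrix.one_apply_ne h1)
  rw [this]

theorem IsMap_one (X : FC R) : IsMap X X 1 := ⟨HM_one X, by simp⟩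

theorem IsMap.mul {X Y Z : FC R} {F : Matrix X.ι Y.ι R} {G : Matrix Y.ι Z.ι R}
    (hF : IsMap X Y F) (hG : IsMap Y Z G) : IsMap X Z (F * G) :=
  ⟨HM_mul hF.hom hG.hom, by
    rw [← Matrix.mul_assoc, hF.comm, Matrix.mul_assoc, hG.comm, Matrix.mul_assoc]⟩

end

section star

variable {R : Type} [Ring R] [StarRing R]

theorem eps_conj (X : FC R) : X.epsᴴ = X.eps := by
  unfold FC.eps
  rw [diagonal_conjTranspose]
  congr 1
  funext a
  simp

theorem eps_Dh (X : FC R) : X.eps * X.Dᴴ = -(X.Dᴴ * X.eps) := by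
  have h := congrArg conjTranspose (eps_D X)
  rw [conjTranspose_mul, conjTranspose_neg, conjTranspose_mul, eps_conj] at h
  rw [h, neg_neg]

/-- composition of a form with a map on the right -/
theorem HF_mul_right {X Y Z : FC R} {q : ℤ} {F : Matrix Z.ι Y.ι R} {G : Matrix X.ι Y.ι R}
    (hF : HM Z Y F) (h : HF X Y q G) : HF X Z q (G * Fᴴ) := by
  intro a b hab
  rw [Matrix.mul_apply] at hab
  obtain ⟨c, -, hc⟩ := Finset.exists_ne_zero_of_sum_ne_zero hab
  have h1 : G a c ≠ 0 := left_ne_zero_of_mul hc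
  have h2 : F b c ≠ 0 := by
    have := right_ne_zero_of_mul hc
    intro h0; apply this; simp [h0]
  rw [hF b c h2]; exact h a c h1

theorem TT_TT (X Y : FC R) (G : Matrix X.ι Y.ι R) : TT Y X (TT X Y G) = G := by
  ext a b
  simp only [TT, Matrix.of_apply, star_zsmul, star_star, smul_smul]
  rw [mul_comm (Y.deg b) (X.deg a), sg_mul_self, one_smul]

theorem TT_add (X Y : FC R) (G G' : Matrix X.ι Y.ι R) :
    TT X Y (G + G') = TT X Y G + TT X Y G' := by
  ext a b; simp [TT]

theorem TT_neg (X Y : FC R) (G : Matrix X.ι Y.ι R) : TT X Y (-G) = -TT X Y G := by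
  ext a b; simp [TT]

theorem TT_sub (X Y : FC R) (G G' : Matrix X.ι Y.ι R) :
    TT X Y (G - G') = TT X Y G - TT X Y G' := by
  ext a b; simp [TT, smul_sub]

theorem TT_zero (X Y : FC R) : TT X Y 0 = 0 := by ext a b; simp [TT]

theorem TT_zsmul (X Y : FC R) (n : ℤ) (G : Matrix X.ι Y.ι R) :
    TT X Y (n • G) = n • TT X Y G := by
  ext a b
  simp only [TT, Matrix.of_apply, Matrix.smul_apply, star_zsmul, smul_smul]
  rw [mul_comm]

theorem HF_TT {X Y : FC R} {q : ℤ} {G : Matrix X.ι Y.ι R} (h : HF X Y q G) :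
    HF Y X q (TT X Y G) := by
  intro b a hab
  have h1 : G a b ≠ 0 := by intro h0; apply hab; simp [TT, h0]
  rw [add_comm]; exact h a b h1

theorem dd_add (X Y : FC R) (G G' : Matrix X.ι Y.ι R) :
    dd X Y (G + G') = dd X Y G + dd X Y G' := by
  unfold dd; simp only [Matrix.mul_add, Matrix.add_mul]; abel

theorem dd_neg (X Y : FC R) (G : Matrix X.ι Y.ι R) : dd X Y (-G) = -dd X Y G := by
  unfold dd; simp only [Matrix.mul_neg, Matrix.neg_mul]; abel

theorem dd_sub (X Y : FC R) (G G' : Matrix X.ι Y.ι R) :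
    dd X Y (G - G') = dd X Y G - dd X Y G' := by
  rw [sub_eq_add_neg, dd_add, dd_neg, sub_eq_add_neg]

theorem dd_zero (X Y : FC R) : dd X Y 0 = 0 := by simp [dd]

theorem dd_zsmul (X Y : FC R) (n : ℤ) (G : Matrix X.ι Y.ι R) :
    dd X Y (n • G) = n • dd X Y G := by
  unfold dd; simp only [Matrix.mul_smul, Matrix.smul_mul, smul_add]

theorem HF_dd {X Y : FC R} {q : ℤ} {G : Matrix X.ι Y.ι R} (h : HF X Y q G) :
    HF X Y (q + 1) (dd X Y G) := by
  unfold dd
  apply HF_add
  · intro a b hab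
    rw [Matrix.mul_apply] at hab
    obtain ⟨c, -, hc⟩ := Finset.exists_ne_zero_of_sum_ne_zero hab
    have h1 := X.hdeg a c (left_ne_zero_of_mul hc)
    have h2 := h c b (right_ne_zero_of_mul hc)
    omega
  · intro a b hab
    rw [Matrix.mul_apply] at hab
    obtain ⟨c, -, hc⟩ := Finset.exists_ne_zero_of_sum_ne_zero hab
    have h1 : G a c ≠ 0 := by
      intro h0; apply left_ne_zero_of_mul hc; rw [eps_apply_left, h0]; simp
    have h2 : Y.D b c ≠ 0 := by
      intro h0; apply right_ne_zero_of_mul hc; simp [h0]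
    have h3 := h a c h1
    have h4 := Y.hdeg b c h2
    omega

theorem dd_dd (X Y : FC R) (G : Matrix X.ι Y.ι R) : dd X Y (dd X Y G) = 0 := by
  unfold dd
  have hY : Y.Dᴴ * Y.Dᴴ = 0 := by rw [← conjTranspose_mul, Y.hD]; simp
  simp only [Matrix.mul_add, Matrix.add_mul]
  have e1 : X.D * (X.D * G) = 0 := by rw [← Matrix.mul_assoc, X.hD]; simp
  have e2 : X.eps * (X.eps * G * Y.Dᴴ) * Y.Dᴴ = 0 := by
    rw [Matrix.mul_assoc, Matrix.mul_assoc (X.eps * G), hY]; simp
  have e3 : X.eps * (X.D * G) * Y.Dᴴ = -(X.D * (X.eps * G * Y.Dᴴ)) := by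
    rw [← Matrix.mul_assoc X.eps, eps_D]
    simp only [Matrix.neg_mul, Matrix.mul_assoc]
  rw [e1, e2, e3]
  abel

theorem TT_dd (X Y : FC R) (G : Matrix X.ι Y.ι R) :
    TT X Y (dd X Y G) = dd Y X (TT X Y G) := by
  ext b a
  simp only [TT, dd, Matrix.of_apply, Matrix.add_apply, star_add, smul_add]
  rw [add_comm]
  congr 1
  · rw [Matrix.mul_apply, Matrix.mul_apply, star_sum, Finset.smul_sum]
    refine Finset.sum_congr rfl fun c _ => ?_
    rw [star_mul, conjTranspose_apply, star_star, eps_apply_left, star_zsmul, Matrix.of_apply]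
    by_cases h0 : Y.D b c = 0
    · simp [h0]
    · rw [mul_smul_comm, mul_smul_comm, smul_smul, Y.hdeg b c h0, mul_add, mul_one, sg_add,
        mul_assoc, sg_mul_self, mul_one]
  · rw [Matrix.mul_apply, Matrix.mul_apply, star_sum, Finset.smul_sum]
    refine Finset.sum_congr rfl fun c _ => ?_
    rw [star_mul, eps_apply_left, conjTranspose_apply, Matrix.of_apply]
    by_cases h0 : X.D a c = 0
    · simp [h0]
    · rw [smul_mul_assoc, smul_mul_assoc, smul_smul, X.hdeg a c h0, add_mul, one_mul, sg_add,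
        mul_comm]

theorem TT_mul_left {X Y Z : FC R} {F : Matrix Z.ι X.ι R} (hF : HM Z X F)
    (G : Matrix X.ι Y.ι R) : TT Z Y (F * G) = TT X Y G * Fᴴ := by
  ext b a
  simp only [TT, Matrix.of_apply, Matrix.mul_apply, star_sum, Finset.smul_sum]
  refine Finset.sum_congr rfl fun c _ => ?_
  rw [star_mul, conjTranspose_apply, smul_mul_assoc]
  by_cases h0 : F a c = 0
  · simp [h0]
  · rw [hF a c h0]

theorem TT_mul_right {X Y Z : FC R} {F : Matrix Z.ι Y.ι R} (hF : HM Z Y F)
    (G : Matrix X.ι Y.ι R) : TT X Z (G * Fᴴ) = F * TT X Y G := by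
  ext b a
  simp only [TT, Matrix.of_apply, Matrix.mul_apply, star_sum, Finset.smul_sum]
  refine Finset.sum_congr rfl fun c _ => ?_
  rw [star_mul, conjTranspose_apply, star_star, mul_smul_comm]
  by_cases h0 : F b c = 0
  · simp [h0]
  · rw [hF b c h0]

theorem dd_mul_left {X Y Z : FC R} {F : Matrix Z.ι X.ι R} (hF : IsMap Z X F)
    (G : Matrix X.ι Y.ι R) : dd Z Y (F * G) = F * dd X Y G := by
  unfold dd
  rw [Matrix.mul_add, ← Matrix.mul_assoc, hF.comm, Matrix.mul_assoc, ← Matrix.mul_assoc Z.eps,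
    eps_HM hF.hom]
  simp only [Matrix.mul_assoc]

theorem dd_mul_right {X Y Z : FC R} {F : Matrix Z.ι Y.ι R} (hF : IsMap Z Y F)
    (G : Matrix X.ι Y.ι R) : dd X Z (G * Fᴴ) = dd X Y G * Fᴴ := by
  unfold dd
  have h : Fᴴ * Z.Dᴴ = Y.Dᴴ * Fᴴ := by
    rw [← conjTranspose_mul, hF.comm, conjTranspose_mul]
  rw [Matrix.add_mul]
  simp only [Matrix.mul_assoc, h]

end star

end Pool.Agent.H16.UN
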