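import Pool.Agent.H16.UN.Dat

/-!
# Module NMp: the chain map `𝒟.N`

`sym = ψ 0 + TT (ψ 0)` of any quadratic structure `q`: homogeneous of degree `m`, `TT sym = sym`,
`dd sym = 0` (`dd (ψ 0) = ψ 1 - TT (ψ 1)` and `TT_dd`: `dd (TT ψ 0) = TT (ψ 1) - ψ 1`).
`N = sym * Q`, `Q = (TT Y X P').map j`, and `Q` is the inverse of `(TT X Y P).map j` (`𝒟.pair.swap`).
* `N * (TT X Y P).map j = sym`.
* `N` is a chain map of degree 0: degrees are clear (`sym a c ≠ 0`: `deg a + deg c = m`; `Q c b ≠ 0`: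
  `deg c + deg b = m`).  `D_X N = N D_Y`: put `T = (TT X Y P).map j` (index `Y × X`); `dd T = 0` gives
  `D_Y T = - ε_Y T D_Xᴴ = - sg m • T ε_X D_Xᴴ` (`eps_HF`), so
  `Q D_Y = Q D_Y T Q = - sg m • ε_X D_Xᴴ Q`; and `D_X sym = - ε_X sym D_Xᴴ`, hence
  `N D_Y = sym Q D_Y = - sg m • sym ε_X D_Xᴴ Q = - ε_X sym D_Xᴴ Q = D_X sym Q = D_X N`
  (`eps_HF`: `ε_X sym = sg m • sym ε_X`, `sg m * sg m = 1`).
* entries of `N` in `B`: `Setup.Br`, sums.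
-/

namespace Pool.Agent.H16.UN

open Matrix

variable {R S : Type} [Ring R] [StarRing R] [Ring S] [StarRing S]

theorem sym_HF {S : Type} [Ring S] [StarRing S] {E : FC S} {m : ℤ} (q : Quad E m) :
    HF E E m q.sym := by
  have h0 : HF E E m (q.ψ 0) := by
    have h := q.hom 0
    rwa [Nat.cast_zero, add_zero] at h
  exact HF_add h0 (HF_TT h0)

theorem sym_TT {S : Type} [Ring S] [StarRing S] {E : FC S} {m : ℤ} (q : Quad E m) :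
    TT E E q.sym = q.sym := by
  unfold Quad.sym
  rw [TT_add, TT_TT, add_comm]

theorem sym_dd {S : Type} [Ring S] [StarRing S] {E : FC S} {m : ℤ} (q : Quad E m) :
    dd E E q.sym = 0 := by
  unfold Quad.sym
  rw [dd_add, ← TT_dd, q.cyc 0, TT_add, TT_zsmul, TT_TT]
  simp only [zero_add, pow_one, neg_smul, one_smul]
  abel

theorem tr_sym {S : Type} [Ring S] [StarRing S] {E : FC S} {m : ℤ} (q : Quad E m) :
    q.tr.sym = q.sym := by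
  show TT E E (q.ψ 0) + TT E E (TT E E (q.ψ 0)) = q.ψ 0 + TT E E (q.ψ 0)
  rw [TT_TT, add_comm]

theorem sym_B {𝒮 : Setup R S} {m : ℤ} (𝒟 : Dat 𝒮 m) (a b : 𝒟.X.ι) : 𝒟.q1.sym a b ∈ 𝒮.B :=
  𝒮.B.add_mem (𝒟.b1 0 a b) (𝒮.Bz _ (𝒮.Bs _ (𝒟.b1 0 b a)))

theorem N_B {𝒮 : Setup R S} {m : ℤ} (𝒟 : Dat 𝒮 m) (a : 𝒟.X.ι) (b : 𝒟.Y.ι) :
    𝒟.N a b ∈ 𝒮.B := by
  unfold Dat.N
  rw [Matrix.mul_apply]
  exact AddSubgroup.sum_mem _ fun c _ => 𝒮.Br _ (sym_B 𝒟 a c)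

private theorem NMp_QT {𝒮 : Setup R S} {m : ℤ} (𝒟 : Dat 𝒮 m) :
    (TT 𝒟.Y 𝒟.X 𝒟.P').map 𝒮.j * (TT 𝒟.X 𝒟.Y 𝒟.P).map 𝒮.j = 1 := by
  rw [← Matrix.map_mul, 𝒟.pair.swap.mul', Matrix.map_one _ (map_zero _) (map_one _)]

private theorem NMp_TQ {𝒮 : Setup R S} {m : ℤ} (𝒟 : Dat 𝒮 m) :
    (TT 𝒟.X 𝒟.Y 𝒟.P).map 𝒮.j * (TT 𝒟.Y 𝒟.X 𝒟.P').map 𝒮.j = 1 := by
  rw [← Matrix.map_mul, 𝒟.pair.swap.mul, Matrix.map_one _ (map_zero _) (map_one _)]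

theorem N_T {𝒮 : Setup R S} {m : ℤ} (𝒟 : Dat 𝒮 m) :
    𝒟.N * (TT 𝒟.X 𝒟.Y 𝒟.P).map 𝒮.j = 𝒟.q1.sym := by
  unfold Dat.N
  rw [Matrix.mul_assoc, NMp_QT, Matrix.mul_one]

/-- `Q D_Y = - sg m • ε_X D_Xᴴ Q` for an inverse `Q` of a closed form `T` -/
private theorem NMp_comm {S : Type} [Ring S] [StarRing S] {X Y : FC S} {m : ℤ}
    {T : Matrix Y.ι X.ι S} {Q : Matrix X.ι Y.ι S} (hT : HF Y X m T) (h1 : Q * T = 1)
    (h2 : T * Q = 1) (hd : dd Y X T = 0) {s : Matrix X.ι X.ι S} (hs : HF X X m s)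
    (hsd : dd X X s = 0) : X.D * (s * Q) = s * Q * Y.D := by
  unfold dd at hd hsd
  rw [eps_HF hT] at hd
  rw [eps_HF hs] at hsd
  have e1 : Q * (Y.D * T + sg m • (T * X.eps) * X.Dᴴ) * Q = 0 := by
    rw [hd, Matrix.mul_zero, Matrix.zero_mul]
  have e2 : Q * (Y.D * T) * Q = Q * Y.D := by
    rw [Matrix.mul_assoc, Matrix.mul_assoc, h2, Matrix.mul_one]
  have e3 : Q * (sg m • (T * X.eps) * X.Dᴴ) * Q = sg m • (X.eps * X.Dᴴ * Q) := by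
    rw [Matrix.smul_mul, Matrix.mul_smul, Matrix.smul_mul]
    congr 1
    calc Q * (T * X.eps * X.Dᴴ) * Q = (Q * T) * X.eps * X.Dᴴ * Q := by
          simp only [Matrix.mul_assoc]
      _ = _ := by rw [h1, Matrix.one_mul]
  rw [Matrix.mul_add, Matrix.add_mul, e2, e3] at e1
  have e4 : Q * Y.D = -(sg m • (X.eps * X.Dᴴ * Q)) := eq_neg_of_add_eq_zero_left e1
  have e5 : X.D * s = -(sg m • (s * X.eps) * X.Dᴴ) := eq_neg_of_add_eq_zero_left hsd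
  rw [← Matrix.mul_assoc, e5, Matrix.mul_assoc s, e4]
  simp only [Matrix.neg_mul, Matrix.mul_neg, Matrix.smul_mul, Matrix.mul_smul, Matrix.mul_assoc]

theorem N_isMap {𝒮 : Setup R S} {m : ℤ} (𝒟 : Dat 𝒮 m) :
    IsMap (𝒟.X.map 𝒮.j) (𝒟.Y.map 𝒮.j) 𝒟.N where
  hom := by
    intro a b hab
    unfold Dat.N at hab
    rw [Matrix.mul_apply] at hab
    obtain ⟨c, -, hc⟩ := Finset.exists_ne_zero_of_sum_ne_zero hab
    have h1 : 𝒟.X.deg a + 𝒟.X.deg c = m := sym_HF 𝒟.q1 a c (left_ne_zero_of_mul hc)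
    have h2 : 𝒟.X.deg c + 𝒟.Y.deg b = m :=
      (𝒟.pair.swap.hom'.map 𝒮.j) c b (right_ne_zero_of_mul hc)
    show 𝒟.X.deg a = 𝒟.Y.deg b
    omega
  comm := NMp_comm (X := 𝒟.X.map 𝒮.j) (Y := 𝒟.Y.map 𝒮.j) (𝒟.pair.swap.hom.map 𝒮.j)
    (NMp_QT 𝒟) (NMp_TQ 𝒟)
    (by
      rw [dd_map 𝒮.jstar, 𝒟.pair.swap.closed]
      ext a b
      exact map_zero 𝒮.j)
    (sym_HF 𝒟.q1) (sym_dd 𝒟.q1)

end Pool.Agent.H16.UN
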