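import Pool.Agent.H16.UN.NH
import Pool.Agent.H16.UN.BEx
import Pool.Agent.H16.UN.NMp

/-!
# Module Bet: the null-homotopy `β`

PROOF.  `G = (F.map j) * 𝒟.N : Z → B ⊗ Y` is a chain map of degree 0 (`IsMap.mul`, `hF.map`,
`N_isMap`) with entries in `B` (`𝒮.Bl`).  Apply `nh` with the complex `Z.map 𝒮.j`, `κ = 𝒟.Y.ι`,
`g = fun b => - 𝒟.Y.deg b`, `A = 𝒟.Y.D.map 𝒮.j`, `s = fun _ => 1`, `q = 0`: `G A = D_Z G`; rows of degree
`n` are supported in `g = - n`, and `g = q - 1 - n` means degree `n + 1` in `Y`.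
`h1`: for `n > k` use `bex` with `hY n` (`𝒟.Y.Ex n`, in the grading `g = -deg`).
`h0`: `deg a = k`, `z = Pi.single a 1` is in `Z.Hom k`; `hK z` says that all components
`𝒮.c l (((j ∘ (z ᵥ* F)) ᵥ* N) b)` of the row `G a = (j ∘ (z ᵥ* F)) ᵥ* N` are boundaries of degree `k`
in `Y`; use `bbd`.
This gives `H` with entries in `B`, `Z.deg a - Y.deg b = -1` on its support, and
`D_Z H + H D_Y = G`.  Put `β = H * T`, `T = (TT X Y P).map j` (homogeneous of degree `m` as a form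
`Y × X`): degree `m - 1`, entries in `B` (`Setup.Br`), and
`F sym = F N T = G T = D_Z H T + H D_Y T = D_Z β - H ε_Y T D_Xᴴ = D_Z β + ε_Z β D_Xᴴ = dd β`, because
`dd T = 0` (`𝒟.pair.swap.closed`, `dd_map`) and `ε_Z H = - H ε_Y` (`H` raises the degree by one,
entrywise with `eps_apply_left`, `eps_apply_right`, `sg_succ`).
-/

namespace Pool.Agent.H16.UN

open Matrix

variable {R S : Type} [Ring R] [StarRing R] [Ring S] [StarRing S]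

/-- the null-homotopy of `F sym(q1)` -/
theorem bet {𝒮 : Setup R S} {m : ℤ} (𝒟 : Dat 𝒮 m) (k : ℤ) (hY : ∀ i, k < i → 𝒟.Y.Ex i)
    (Z : FC R) (F : Matrix Z.ι 𝒟.X.ι R) (hF : IsMap Z 𝒟.X F) (hZ : ∀ a, k ≤ Z.deg a)
    (hK : ∀ z, Z.Hom k z → ∀ l, 𝒟.Y.Bd k (𝒟.st l (z ᵥ* F))) :
    ∃ β : Matrix Z.ι 𝒟.X.ι S, (∀ a b, β a b ∈ 𝒮.B) ∧
      HF (Z.map 𝒮.j) (𝒟.X.map 𝒮.j) (m - 1) β ∧
      dd (Z.map 𝒮.j) (𝒟.X.map 𝒮.j) β = F.map 𝒮.j * 𝒟.q1.sym := by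
  have hFj := hF.map 𝒮.j
  have hGm : IsMap (Z.map 𝒮.j) (𝒟.Y.map 𝒮.j) (F.map 𝒮.j * 𝒟.N) := hFj.mul (N_isMap 𝒟)
  have hGB : ∀ a b, (F.map 𝒮.j * 𝒟.N) a b ∈ 𝒮.B := fun a b => by
    rw [Matrix.mul_apply]
    exact AddSubgroup.sum_mem _ fun c _ => 𝒮.Bl _ _ (N_B 𝒟 c b)
  obtain ⟨H, hHB, hHd, hHe⟩ := nh 𝒮.B (Z.map 𝒮.j) (fun b => - 𝒟.Y.deg b) (𝒟.Y.D.map 𝒮.j)
    (fun _ => 1) (fun _ => Or.inl rfl) k 0 hZ (fun a b x hx => 𝒮.Bl _ _ hx)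
    (F.map 𝒮.j * 𝒟.N) hGB
    (fun a b h => by
      have h1 : Z.deg a = 𝒟.Y.deg b := hGm.hom a b h
      show Z.deg a + -𝒟.Y.deg b = 0
      omega)
    (fun a b => by
      rw [one_smul]
      exact (congrFun (congrFun hGm.comm a) b).symm)
    (fun a ha => by
      obtain ⟨w, hw1, hw2, hw3⟩ := bbd 𝒮 𝒟.Y.deg 𝒟.Y.D (k + 1) ((F.map 𝒮.j * 𝒟.N) a) (hGB a)
        (fun l => by
          have hz : Z.Hom k (Pi.single a 1) := fun c hc => by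
            have : c = a := by
              by_contra h
              exact hc (Pi.single_eq_of_ne h 1)
            rw [this]; exact ha
          obtain ⟨w, h1, h2⟩ := hK _ hz l
          refine ⟨w, h1, ?_⟩
          rw [h2]
          funext b
          unfold Dat.st
          rw [Matrix.mul_apply_eq_vecMul]
          congr 2
          funext c
          have e : ((Pi.single a (1 : R) : Z.ι → R) ᵥ* F) c = F a c := by
            rw [Matrix.single_one_vecMul]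
            rfl
          rw [e]
          rfl)
      refine ⟨w, hw1, fun b hb => ?_, hw3⟩
      have := hw2 b hb
      omega)
    (fun n hn v hv hi h0 => by
      obtain ⟨w, hw1, hw2, hw3⟩ := bex 𝒮 𝒟.Y.deg 𝒟.Y.D n (n + 1)
        (fun v hv h0 => hY n hn v ⟨hv, h0⟩) v hv
        (fun b hb => by
          have := hi b hb
          omega) h0
      refine ⟨w, hw1, fun b hb => ?_, hw3⟩
      have := hw2 b hb
      omega)
  have hHe' : (Z.map 𝒮.j).D * H + H * 𝒟.Y.D.map 𝒮.j = F.map 𝒮.j * 𝒟.N := by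
    rw [← hHe]
    congr 1
    ext a b
    simp
  obtain ⟨T, hT⟩ : ∃ T : Matrix 𝒟.Y.ι 𝒟.X.ι S, T = (TT 𝒟.X 𝒟.Y 𝒟.P).map 𝒮.j := ⟨_, rfl⟩
  have hTh : HF (𝒟.Y.map 𝒮.j) (𝒟.X.map 𝒮.j) m T := hT ▸ 𝒟.pair.swap.hom.map 𝒮.j
  have hTd : 𝒟.Y.D.map 𝒮.j * T = -((𝒟.Y.map 𝒮.j).eps * T * (𝒟.X.map 𝒮.j).Dᴴ) := by
    have h1 : dd (𝒟.Y.map 𝒮.j) (𝒟.X.map 𝒮.j) T = 0 := by
      rw [hT, dd_map 𝒮.jstar, 𝒟.pair.swap.closed]
      ext a b
      simp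
    unfold dd at h1
    exact eq_neg_of_add_eq_zero_left h1
  have hNT : 𝒟.N * T = 𝒟.q1.sym := hT ▸ N_T 𝒟
  have hHeps : (Z.map 𝒮.j).eps * H = -(H * (𝒟.Y.map 𝒮.j).eps) := by
    ext a b
    have e1 : ((Z.map 𝒮.j).eps * H) a b = sg (Z.deg a) • H a b :=
      eps_apply_left (Z.map 𝒮.j) H a b
    have e2 : (H * (𝒟.Y.map 𝒮.j).eps) a b = sg (𝒟.Y.deg b) • H a b :=
      eps_apply_right (𝒟.Y.map 𝒮.j) H a b
    have e3 : (-(H * (𝒟.Y.map 𝒮.j).eps)) a b = -((H * (𝒟.Y.map 𝒮.j).eps) a b) := rfl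
    rw [e1, e3, e2]
    by_cases h0 : H a b = 0
    · rw [h0]; simp
    · have h1 : Z.deg a + -𝒟.Y.deg b = 0 - 1 := hHd a b h0
      have h2 : 𝒟.Y.deg b = Z.deg a + 1 := by omega
      rw [h2, sg_succ, neg_smul, neg_neg]
  refine ⟨H * T, fun a b => ?_, fun a b hab => ?_, ?_⟩
  · rw [Matrix.mul_apply]
    refine AddSubgroup.sum_mem _ fun c _ => ?_
    rw [hT]
    exact 𝒮.Br _ (hHB a c)
  · rw [Matrix.mul_apply] at hab
    obtain ⟨c, -, hc⟩ := Finset.exists_ne_zero_of_sum_ne_zero hab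
    have h1 : Z.deg a + -𝒟.Y.deg c = 0 - 1 := hHd a c (left_ne_zero_of_mul hc)
    have h2 : 𝒟.Y.deg c + 𝒟.X.deg b = m := hTh c b (right_ne_zero_of_mul hc)
    show Z.deg a + 𝒟.X.deg b = m - 1
    omega
  · unfold dd
    calc (Z.map 𝒮.j).D * (H * T) + (Z.map 𝒮.j).eps * (H * T) * (𝒟.X.map 𝒮.j).Dᴴ
        = (Z.map 𝒮.j).D * H * T + ((Z.map 𝒮.j).eps * H) * (T * (𝒟.X.map 𝒮.j).Dᴴ) := by
          simp only [Matrix.mul_assoc]
      _ = (Z.map 𝒮.j).D * H * T + H * (-((𝒟.Y.map 𝒮.j).eps * T * (𝒟.X.map 𝒮.j).Dᴴ)) := by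
          rw [hHeps]
          simp only [Matrix.mul_assoc, Matrix.neg_mul, Matrix.mul_neg]
      _ = ((Z.map 𝒮.j).D * H + H * 𝒟.Y.D.map 𝒮.j) * T := by
          rw [← hTd, Matrix.add_mul, Matrix.mul_assoc H]
      _ = F.map 𝒮.j * 𝒟.q1.sym := by
          rw [hHe', Matrix.mul_assoc, hNT]

end Pool.Agent.H16.UN
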