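import Pool.Agent.H16.UN.Dat

/-!
# Module CFm: the extended form on the cone

PROOF.  Write `ε, ε_Z` for the sign matrices of `X.map j`, `Z.map j`; the sign matrix of the cone is
`diag(ε, -ε_Z)` (see `Surg.pair` in Dat.lean), its differential `[[D, 0], [F, -D_Z]]`.  Put
`φ = [[f, α], [β, ε_Z t]]` with `α a b = sg (X.deg a * (Z.deg b + 1)) • star (β b a)`, i.e. the right upper
block is the transpose `TT` (in the cone) of the left lower block `β`.
* `toBlocks₁₁`, `B`-valued, homogeneous: clear (`β` has degree `m - 1` and the degrees of `Z` are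
  raised by one, `t` has degree `m - 2`).
* `TT φ = φ`: the blocks 11, 12, 21 by construction (`TT f = f`, `TT_TT`); the block 22, entrywise, with
  `n = Z.deg a`, `n' = Z.deg b`: `sg((n+1)(n'+1)) • star (sg n' • t b a) = - sg n • sg(n n') • star (t b a)
  = - sg n • (TT t) a b = sg n • t a b`.
* `dd φ = 0`, blockwise, `D'' φ + ε'' φ D''ᴴ` with `D''ᴴ = [[Dᴴ, Fᴴ], [0, -D_Zᴴ]]`:
  (11) `D f + ε f Dᴴ = dd f = 0`.
  (21) `F f - D_Z β - ε_Z β Dᴴ = F f - dd β = 0`.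
  (12) is the `TT` of (21): the block 12 of `dd φ` is determined by the block 21, because
  `TT (dd φ) = dd (TT φ) = dd φ` (`TT_dd`), or compute directly.
  (22) `F α - D_Z ε_Z t - ε_Z (β Fᴴ - ε_Z t D_Zᴴ) = F α + ε_Z D_Z t - ε_Z β Fᴴ + t D_Zᴴ
  = ε_Z (D_Z t + ε_Z t D_Zᴴ) + F α - ε_Z β Fᴴ = ε_Z (dd t - β Fᴴ + ε_Z F α)` (`ε_Z ε_Z = 1`,
  `ε_Z D_Z = - D_Z ε_Z`), and `ε_Z F α = TT (β Fᴴ)` on `Z × Z`: entrywise
  `sg n • ∑ c, F a c * sg(X.deg c * (n' + 1)) • star (β b c)` with `X.deg c = n` when `F a c ≠ 0`, which is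
  `sg n * sg(n n' + n) = sg(n n')` times `∑ c, F a c * star (β b c) = star ((β Fᴴ) b a)`.  So (22) is
  `ε_Z (dd t - (β Fᴴ - TT (β Fᴴ))) = 0`.
(`F` stands for `F.map j` everywhere.)
-/

namespace Pool.Agent.H16.UN

open Matrix

variable {R S : Type} [Ring R] [StarRing R] [Ring S] [StarRing S]

private theorem CFm_dd {T : Type} [Ring T] [StarRing T] (X Z : FC T) (F : Matrix Z.ι X.ι T)
    (hF : IsMap Z X F) (f : Matrix X.ι X.ι T) (hfT : TT X X f = f) (hfd : dd X X f = 0)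
    (β : Matrix Z.ι X.ι T) (hβd : dd Z X β = F * f) (t : Matrix Z.ι Z.ι T)
    (htd : dd Z Z t = β * Fᴴ - TT Z Z (β * Fᴴ)) :
    fromBlocks X.D 0 F (-Z.D) * fromBlocks f (X.eps * TT Z X β) β (Z.eps * t) +
      fromBlocks X.eps 0 0 (-Z.eps) * fromBlocks f (X.eps * TT Z X β) β (Z.eps * t) *
        (fromBlocks X.D 0 F (-Z.D))ᴴ = 0 := by
  rw [fromBlocks_conjTranspose, fromBlocks_multiply, fromBlocks_multiply, fromBlocks_multiply,
    fromBlocks_add, ← fromBlocks_zero]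
  have hX : X.eps * (X.eps * TT Z X β) = TT Z X β := by
    rw [← Matrix.mul_assoc, eps_mul_eps, Matrix.one_mul]
  have hZ : Z.eps * (Z.eps * t) = t := by
    rw [← Matrix.mul_assoc, eps_mul_eps, Matrix.one_mul]
  congr 1
  · have h := hfd
    unfold dd at h
    simpa using h
  · have h1 : dd X Z (TT Z X β) = f * Fᴴ := by
      rw [← TT_dd, hβd, TT_mul_left hF.hom, hfT]
    unfold dd at h1
    have h2 : X.D * (X.eps * TT Z X β) = -(X.eps * (X.D * TT Z X β)) := by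
      rw [← Matrix.mul_assoc, ← Matrix.mul_assoc, eps_D, Matrix.neg_mul, neg_neg]
    have h3 : X.eps * (X.eps * TT Z X β * Z.Dᴴ) = TT Z X β * Z.Dᴴ := by
      rw [← Matrix.mul_assoc, hX]
    have h4 : X.eps * (X.D * TT Z X β) + X.eps * (X.eps * TT Z X β * Z.Dᴴ) =
        X.eps * (f * Fᴴ) := by
      rw [← Matrix.mul_add, h1]
    rw [h3] at h4
    simp only [Matrix.zero_mul, add_zero, conjTranspose_neg, Matrix.mul_neg, h2, hX]
    rw [Matrix.mul_assoc X.eps f, ← h4]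
    abel
  · have h := hβd
    unfold dd at h
    simp only [Matrix.zero_mul, zero_add, Matrix.neg_mul, conjTranspose_zero, Matrix.mul_zero,
      add_zero]
    rw [← h]
    abel
  · have h1 : F * (X.eps * TT Z X β) = Z.eps * TT Z Z (β * Fᴴ) := by
      rw [← Matrix.mul_assoc, ← eps_HM hF.hom, Matrix.mul_assoc, TT_mul_right hF.hom]
    have h2 : Z.D * (Z.eps * t) = -(Z.eps * (Z.D * t)) := by
      rw [← Matrix.mul_assoc, ← Matrix.mul_assoc, eps_D, Matrix.neg_mul, neg_neg]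
    have h3 : Z.eps * (Z.eps * t * Z.Dᴴ) = t * Z.Dᴴ := by
      rw [← Matrix.mul_assoc, hZ]
    have h4 : Z.eps * (Z.D * t) + Z.eps * (Z.eps * t * Z.Dᴴ) =
        Z.eps * (β * Fᴴ) - Z.eps * TT Z Z (β * Fᴴ) := by
      rw [← Matrix.mul_add, ← Matrix.mul_sub, ← htd]
      rfl
    rw [h3] at h4
    simp only [Matrix.zero_mul, zero_add, Matrix.neg_mul, conjTranspose_neg, Matrix.mul_neg,
      neg_neg, h1, h2, hZ]
    have h5 : Z.eps * β * Fᴴ = Z.eps * (β * Fᴴ) := Matrix.mul_assoc _ _ _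
    rw [h5]
    have h6 : t * Z.Dᴴ = Z.eps * (β * Fᴴ) - Z.eps * TT Z Z (β * Fᴴ) - Z.eps * (Z.D * t) := by
      rw [← h4]
      abel
    rw [h6]
    abel

/-- the form `[[f, α], [β, t]]` on the cone of `F` -/
theorem cform (𝒮 : Setup R S) (X Z : FC R) (F : Matrix Z.ι X.ι R) (hF : IsMap Z X F) (m : ℤ)
    (f : Matrix X.ι X.ι S) (hfB : ∀ a b, f a b ∈ 𝒮.B)
    (hf : HF (X.map 𝒮.j) (X.map 𝒮.j) m f) (hfT : TT (X.map 𝒮.j) (X.map 𝒮.j) f = f)
    (hfd : dd (X.map 𝒮.j) (X.map 𝒮.j) f = 0)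
    (β : Matrix Z.ι X.ι S) (hβB : ∀ a b, β a b ∈ 𝒮.B)
    (hβ : HF (Z.map 𝒮.j) (X.map 𝒮.j) (m - 1) β)
    (hβd : dd (Z.map 𝒮.j) (X.map 𝒮.j) β = F.map 𝒮.j * f)
    (t : Matrix Z.ι Z.ι S) (htB : ∀ a b, t a b ∈ 𝒮.B)
    (ht : HF (Z.map 𝒮.j) (Z.map 𝒮.j) (m - 2) t) (htT : TT (Z.map 𝒮.j) (Z.map 𝒮.j) t = -t)
    (htd : dd (Z.map 𝒮.j) (Z.map 𝒮.j) t =
      β * (F.map 𝒮.j)ᴴ - TT (Z.map 𝒮.j) (Z.map 𝒮.j) (β * (F.map 𝒮.j)ᴴ)) :
    ∃ φ : Matrix (X.ι ⊕ Z.ι) (X.ι ⊕ Z.ι) S, φ.toBlocks₁₁ = f ∧ (∀ a b, φ a b ∈ 𝒮.B) ∧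
      HF ((FC.cone Z X F hF).map 𝒮.j) ((FC.cone Z X F hF).map 𝒮.j) m φ ∧
      TT ((FC.cone Z X F hF).map 𝒮.j) ((FC.cone Z X F hF).map 𝒮.j) φ = φ ∧
      dd ((FC.cone Z X F hF).map 𝒮.j) ((FC.cone Z X F hF).map 𝒮.j) φ = 0 := by
  have hFj : IsMap (Z.map 𝒮.j) (X.map 𝒮.j) (F.map 𝒮.j) := hF.map 𝒮.j
  have hsgB : ∀ (n : ℤ) (x : S), x ∈ 𝒮.B → sg n • x ∈ 𝒮.B := fun n x hx =>
    𝒮.B.zsmul_mem hx _
  refine ⟨fromBlocks f ((X.map 𝒮.j).eps * TT (Z.map 𝒮.j) (X.map 𝒮.j) β) β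
    ((Z.map 𝒮.j).eps * t), toBlocks_fromBlocks₁₁ _ _ _ _, ?_, ?_, ?_, ?_⟩
  · rintro (a | a) (b | b)
    · exact hfB a b
    · rw [fromBlocks_apply₁₂, eps_apply_left]
      exact hsgB _ _ (hsgB _ _ (𝒮.Bs _ (hβB b a)))
    · exact hβB a b
    · rw [fromBlocks_apply₂₂, eps_apply_left]
      exact hsgB _ _ (htB a b)
  · rintro (a | a) (b | b) h
    · exact hf a b h
    · rw [fromBlocks_apply₁₂, eps_apply_left] at h
      have h1 : β b a ≠ 0 := by
        intro h0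
        apply h
        simp [TT, h0]
      have h2 : Z.deg b + X.deg a = m - 1 := hβ b a h1
      show X.deg a + (Z.deg b + 1) = m
      omega
    · have h2 : Z.deg a + X.deg b = m - 1 := hβ a b h
      show Z.deg a + 1 + X.deg b = m
      omega
    · rw [fromBlocks_apply₂₂, eps_apply_left] at h
      have h1 : t a b ≠ 0 := by
        intro h0
        apply h
        simp [h0]
      have h2 : Z.deg a + Z.deg b = m - 2 := ht a b h1
      show Z.deg a + 1 + (Z.deg b + 1) = m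
      omega
  · have hs : ∀ x : ℤ, sg (x + 1) = -sg x := sg_succ
    ext (a | a) (b | b)
    · exact congrFun (congrFun hfT a) b
    · rw [fromBlocks_apply₁₂, eps_apply_left]
      show sg ((Z.deg b + 1) * X.deg a) • star (β b a) =
        sg (X.deg a) • (sg (Z.deg b * X.deg a) • star (β b a))
      rw [smul_smul, ← sg_add]
      congr 2
      ring
    · show sg (X.deg b * (Z.deg a + 1)) • star (((X.map 𝒮.j).eps *
        TT (Z.map 𝒮.j) (X.map 𝒮.j) β) b a) = β a b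
      rw [eps_apply_left]
      show sg (X.deg b * (Z.deg a + 1)) • star (sg (X.deg b) •
        (sg (Z.deg a * X.deg b) • star (β a b))) = β a b
      rw [star_zsmul, star_zsmul, star_star, smul_smul, smul_smul, ← sg_add, ← sg_add]
      have e : X.deg b * (Z.deg a + 1) + X.deg b + Z.deg a * X.deg b =
          (X.deg b * (Z.deg a + 1)) + (X.deg b * (Z.deg a + 1)) := by ring
      rw [e, sg_add, sg_mul_self, one_smul]
    · show sg ((Z.deg b + 1) * (Z.deg a + 1)) • star (((Z.map 𝒮.j).eps * t) b a) =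
        ((Z.map 𝒮.j).eps * t) a b
      rw [eps_apply_left, eps_apply_left]
      show sg ((Z.deg b + 1) * (Z.deg a + 1)) • star (sg (Z.deg b) • t b a) =
        sg (Z.deg a) • t a b
      have h1 : sg (Z.deg b * Z.deg a) • star (t b a) = -t a b := congrFun (congrFun htT a) b
      have h2 : t a b = -(sg (Z.deg b * Z.deg a) • star (t b a)) := by rw [h1, neg_neg]
      rw [h2, star_zsmul, smul_smul, smul_neg, smul_smul, ← neg_smul]
      congr 1
      have e : (Z.deg b + 1) * (Z.deg a + 1) = Z.deg b * Z.deg a + (Z.deg b + Z.deg a + 1) := by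
        ring
      rw [e, sg_add, sg_succ, sg_add]
      rcases sg_cases (Z.deg b) with h3 | h3 <;> rw [h3] <;> ring
  · have hDc : ((FC.cone Z X F hF).map 𝒮.j).D =
        fromBlocks (X.map 𝒮.j).D 0 (F.map 𝒮.j) (-(Z.map 𝒮.j).D) := by
      ext (a | a) (b | b)
      · rfl
      · exact map_zero 𝒮.j
      · rfl
      · exact map_neg 𝒮.j _
    have hEc : ((FC.cone Z X F hF).map 𝒮.j).eps =
        fromBlocks (X.map 𝒮.j).eps 0 0 (-(Z.map 𝒮.j).eps) := by
      have e1 : (-(Z.map 𝒮.j).eps) = diagonal fun a => ((sg (Z.deg a + 1) : ℤ) : S) := by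
        ext a b
        by_cases hab : a = b
        · subst hab
          simp [FC.eps, sg_succ]
        · simp [FC.eps, hab]
      rw [e1]
      unfold FC.eps
      rw [fromBlocks_diagonal]
      congr 1
      funext a
      rcases a with a | a <;> rfl
    unfold dd
    rw [hDc, hEc]
    exact CFm_dd (X.map 𝒮.j) (Z.map 𝒮.j) (F.map 𝒮.j) hFj f hfT hfd β hβd t htd

end Pool.Agent.H16.UN
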