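import Pool.Agent.H16.UN.Str

/-!
# Module Cob: the cobordism of a surgery

PROOF.  Strict Lagrangian (`nullCob_strict`) of `s.dat.quad - 𝒟.quad` on
`((X ⊕ Z) ⊕ (Y ⊕ Z)) ⊕ (X ⊕ Y)`: `L = X ⊕ (Y ⊕ Z)`, the complex `(𝒟.X.map j).sum (cocone.map j)`,
`I (x, (y, w)) = (((x, 0), (y, w)), (x, y))`, i.e. `I = fromBlocks`-matrix of zeros and ones.  It is a chain
map: the differential of the cone restricted to `X` is `D_X`, that of the cocone is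
`(y, w) ↦ (y D_Y, y C + w D_W)`, whose first component is `y D_Y`.
`I ψ̂ Iᴴ = 0` for all `i`, where `ψ̂ = s.dat.quad.ψ i ⊕ -𝒟.quad.ψ i`: on `X × X`:
`(s.q.ψ i)₁₁ - q1.ψ i = 0` (`s.res`); on `(Y ⊕ Z) × (Y ⊕ Z)`: `fromBlocks (q2.ψ i) 0 0 0` minus the same
(`pr_conj`); on `X × (Y ⊕ Z)` (only `i = 0`): `(P, 0) - (P, 0)` since `s.dat.P = fromBlocks P 0 0 1`; on
`(Y ⊕ Z) × X`: `0`.
Complement: `κ = Z ⊕ (X ⊕ Y)`, `I' (z, (x', y')) = (((0, z), (0, 0)), (x', y'))`;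
`U (((x₁,z₁),(y₁,w₁)),(x₂,y₂)) = (x₁,(y₁,w₁))`, `U' (..) = (z₁, (x₂ - x₁, y₂ - y₁))`.
`W = I' Φ̂ Iᴴ`, `Φ̂ = Φ'' ⊕ -Φ`: row `z`: `b` on `x` (`b = (s.q.sym)₂₁`), `0` on `y`, `1` on `w` (from the
block `P'' = fromBlocks P 0 0 1`; its transpose contributes only to rows of `Y ⊕ Z`); rows `(x', y')`:
`-Φ` on `(x, y)`, `0` on `w`.  The inverse `W' : L × κ`: `(x, y)`-rows: `0` on `z`, `-V` on `(x', y')`; `w`-rows: `1` on
`z`, `(b, 0) V` on `(x', y')`.  ADVICE: choose `L` with the index `(X ⊕ Y) ⊕ Z` if you prefer (then `W` and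
`W'` are 2 x 2 block matrices); any `FC` with these data is fine.
-/

namespace Pool.Agent.H16.UN

open Matrix

section mats

variable {A : Type} [Ring A] [StarRing A] {x y z : Type} [Fintype x] [Fintype y] [Fintype z]
  [DecidableEq x] [DecidableEq y] [DecidableEq z]

/-- the Lagrangian, first part -/
private def Cob_J (A : Type) [Ring A] (x y z : Type) [DecidableEq x] [DecidableEq y]
    [DecidableEq z] : Matrix ((x ⊕ y) ⊕ z) ((x ⊕ z) ⊕ (y ⊕ z)) A :=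
  fromRows (fromBlocks (fromCols 1 0) 0 0 (fromCols 1 0)) (fromCols 0 (fromCols 0 1))

/-- the Lagrangian and its complement, second part -/
private def Cob_K (A : Type) [Ring A] (x y z : Type) [DecidableEq x] [DecidableEq y] :
    Matrix ((x ⊕ y) ⊕ z) (x ⊕ y) A := fromRows 1 0

/-- the complement, first part -/
private def Cob_J' (A : Type) [Ring A] (x y z : Type) [DecidableEq z] :
    Matrix ((x ⊕ y) ⊕ z) ((x ⊕ z) ⊕ (y ⊕ z)) A :=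
  fromRows 0 (fromCols (fromCols 0 1) 0)

/-- the first part of the retraction to the complement -/
private def Cob_U (A : Type) [Ring A] (x y z : Type) [DecidableEq x] [DecidableEq y]
    [DecidableEq z] : Matrix ((x ⊕ z) ⊕ (y ⊕ z)) ((x ⊕ y) ⊕ z) A :=
  fromRows (fromRows (fromCols (fromCols (-1) 0) 0) (fromCols 0 1))
    (fromRows (fromCols (fromCols 0 (-1)) 0) 0)

private lemma Cob_star (q : Prop) [Decidable q] : star (if q then (1 : A) else 0) =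
    if q then 1 else 0 := by
  split_ifs <;> simp

private lemma Cob_JMJ (a : Matrix x x A) (α : Matrix x z A) (β : Matrix z x A) (δ : Matrix z z A)
    (b11 : Matrix x y A) (b12 : Matrix x z A) (b21 : Matrix z y A) (b22 : Matrix z z A)
    (c11 : Matrix y x A) (c12 : Matrix y z A) (c21 : Matrix z x A) (c22 : Matrix z z A)
    (d11 : Matrix y y A) (d12 : Matrix y z A) (d21 : Matrix z y A) (d22 : Matrix z z A) :
    Cob_J A x y z * fromBlocks (fromBlocks a α β δ) (fromBlocks b11 b12 b21 b22)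
      (fromBlocks c11 c12 c21 c22) (fromBlocks d11 d12 d21 d22) * (Cob_J A x y z)ᴴ =
    fromBlocks (fromBlocks a b11 c11 d11) (fromRows b12 d12) (fromCols c21 d21) d22 := by
  ext ((i | i) | i) ((j | j) | j) <;>
    simp [Cob_J, Matrix.mul_apply, Matrix.one_apply, Cob_star]

private lemma Cob_J'MJ (a : Matrix x x A) (α : Matrix x z A) (β : Matrix z x A)
    (δ : Matrix z z A) (b11 : Matrix x y A) (b12 : Matrix x z A) (b21 : Matrix z y A)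
    (b22 : Matrix z z A) (C : Matrix (y ⊕ z) (x ⊕ z) A) (D : Matrix (y ⊕ z) (y ⊕ z) A) :
    Cob_J' A x y z * fromBlocks (fromBlocks a α β δ) (fromBlocks b11 b12 b21 b22)
      C D * (Cob_J A x y z)ᴴ =
    fromBlocks 0 0 (fromCols β b21) b22 := by
  ext ((i | i) | i) ((j | j) | j) <;>
    simp [Cob_J, Cob_J', Matrix.mul_apply, Matrix.one_apply, Cob_star]

omit [Fintype z] [DecidableEq z] in
private lemma Cob_KMK (M : Matrix (x ⊕ y) (x ⊕ y) A) :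
    Cob_K A x y z * M * (Cob_K A x y z)ᴴ = fromBlocks M 0 0 0 := by
  unfold Cob_K
  rw [conjTranspose_fromRows_eq_fromCols_conjTranspose, fromRows_mul, fromRows_mul_fromCols]
  simp

private lemma Cob_JJ : Cob_J A x y z * (Cob_J A x y z)ᴴ = 1 := by
  ext ((i | i) | i) ((j | j) | j) <;>
    simp [Cob_J, Matrix.mul_apply, Matrix.one_apply, Cob_star, eq_comm]

private lemma Cob_J'J : Cob_J' A x y z * (Cob_J A x y z)ᴴ = 0 := by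
  ext ((i | i) | i) ((j | j) | j) <;>
    simp [Cob_J, Cob_J', Matrix.mul_apply, Matrix.one_apply, Cob_star]

omit [StarRing A] [Fintype z] [DecidableEq z] in
private lemma Cob_KU : Cob_K A x y z * fromCols (1 : Matrix (x ⊕ y) (x ⊕ y) A) 0 =
    fromBlocks 1 0 0 (0 : Matrix z z A) := by
  unfold Cob_K
  rw [fromRows_mul_fromCols]
  simp

omit [StarRing A] in
private lemma Cob_J'U : Cob_J' A x y z * Cob_U A x y z +
    Cob_K A x y z * fromCols (1 : Matrix (x ⊕ y) (x ⊕ y) A) 0 = 1 := by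
  rw [Cob_KU]
  ext ((i | i) | i) ((j | j) | j) <;>
    simp [Cob_J', Cob_U, Matrix.mul_apply, Matrix.one_apply]

omit [StarRing A] in
private lemma Cob_JU : Cob_J A x y z * Cob_U A x y z +
    Cob_K A x y z * fromCols (1 : Matrix (x ⊕ y) (x ⊕ y) A) 0 = 0 := by
  rw [Cob_KU]
  ext ((i | i) | i) ((j | j) | j) <;>
    simp [Cob_J, Cob_U, Matrix.mul_apply, Matrix.one_apply]

private lemma Cob_UI : fromRows (Cob_J A x y z)ᴴ 0 * fromCols (Cob_J A x y z) (Cob_K A x y z) +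
    fromRows (Cob_U A x y z) (fromCols (1 : Matrix (x ⊕ y) (x ⊕ y) A) 0) *
      fromCols (Cob_J' A x y z) (Cob_K A x y z) = 1 := by
  ext (((i | i) | (i | i)) | (i | i)) (((j | j) | (j | j)) | (j | j)) <;>
    simp [Cob_K, Cob_J, Cob_J', Cob_U, Matrix.mul_apply, Matrix.one_apply, Cob_star] <;>
    (rcases eq_or_ne i j with h | h
     · subst h
       simp
     · simp [h, h.symm])

omit [StarRing A] in
private lemma Cob_comm (a : Matrix x x A) (b : Matrix y y A) (c : Matrix y z A)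
    (w : Matrix z z A) (f : Matrix z x A) (e : Matrix z z A) :
    fromBlocks (fromBlocks a 0 0 b) (fromRows 0 c) 0 w *
        fromCols (Cob_J A x y z) (Cob_K A x y z) =
      fromCols (Cob_J A x y z) (Cob_K A x y z) *
        fromBlocks (fromBlocks (fromBlocks a 0 f e) 0 0 (fromBlocks b c 0 w)) 0 0
          (fromBlocks a 0 0 b) := by
  ext ((i | i) | i) (((j | j) | (j | j)) | (j | j)) <;>
    simp [Cob_K, Cob_J, Matrix.mul_apply, Matrix.one_apply]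

private lemma Cob_fc (M : Matrix ((x ⊕ z) ⊕ (y ⊕ z)) ((x ⊕ z) ⊕ (y ⊕ z)) A)
    (N : Matrix (x ⊕ y) (x ⊕ y) A) (J : Matrix ((x ⊕ y) ⊕ z) ((x ⊕ z) ⊕ (y ⊕ z)) A) :
    fromCols J (Cob_K A x y z) * fromBlocks M 0 0 N *
        (fromCols (Cob_J A x y z) (Cob_K A x y z))ᴴ =
      J * M * (Cob_J A x y z)ᴴ + fromBlocks N 0 0 0 := by
  rw [conjTranspose_fromCols_eq_fromRows_conjTranspose, fromCols_mul_fromBlocks,
    fromCols_mul_fromRows, ← Cob_KMK N]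
  simp

omit [StarRing A] in
private lemma Cob_inv {w : Type} [Fintype w] [DecidableEq w] (Φ V : Matrix w w A)
    (B : Matrix z w A) (h : Φ * V = 1) :
    fromBlocks (-Φ) 0 B (1 : Matrix z z A) *
      fromBlocks (-V) 0 (B * V) (1 : Matrix z z A) = 1 := by
  rw [fromBlocks_multiply, Matrix.neg_mul, Matrix.mul_neg, neg_neg, h]
  simp only [Matrix.zero_mul, Matrix.mul_zero, add_zero, zero_add, Matrix.mul_neg,
    Matrix.one_mul, neg_add_cancel, fromBlocks_one]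

omit [StarRing A] in
private lemma Cob_inv' {w : Type} [Fintype w] [DecidableEq w] (Φ V : Matrix w w A)
    (B : Matrix z w A) (h : V * Φ = 1) :
    fromBlocks (-V) 0 (B * V) (1 : Matrix z z A) *
      fromBlocks (-Φ) 0 B (1 : Matrix z z A) = 1 := by
  rw [fromBlocks_multiply, Matrix.neg_mul, Matrix.mul_neg, neg_neg, h, Matrix.mul_neg,
    Matrix.mul_assoc, h]
  simp only [Matrix.zero_mul, Matrix.mul_zero, add_zero, zero_add, Matrix.mul_one,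
    Matrix.one_mul, neg_add_cancel, fromBlocks_one]

end mats

variable {R S : Type} [Ring R] [StarRing R] [Ring S] [StarRing S] {𝒮 : Setup R S} {m : ℤ}

section lag

/-- the Lagrangian complex -/
@[reducible] private def Cob_L {𝒟 : Dat 𝒮 m} (s : Surg 𝒟) : FC R where
  ι := (𝒟.X.ι ⊕ 𝒟.Y.ι) ⊕ s.Z.ι
  deg := Sum.elim (Sum.elim 𝒟.X.deg 𝒟.Y.deg) fun a => m - s.Z.deg a - 1
  D := fromBlocks (fromBlocks 𝒟.X.D 0 0 𝒟.Y.D) (fromRows 0 (𝒟.Pᴴ * s.Fᴴ * s.Z.eps)) 0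
    (-(s.Z.Dᴴ * s.Z.eps))
  hdeg := by
    rintro ((a | a) | a) ((b | b) | b) h
    · exact 𝒟.X.hdeg a b h
    · exact absurd rfl h
    · exact absurd rfl h
    · exact absurd rfl h
    · exact 𝒟.Y.hdeg a b h
    · exact (FC.cocone 𝒟.pair s.Z s.F s.hF).hdeg (Sum.inl a) (Sum.inr b) h
    · exact absurd rfl h
    · exact absurd rfl h
    · exact (FC.cocone 𝒟.pair s.Z s.F s.hF).hdeg (Sum.inr a) (Sum.inr b) h
  hD := by
    have h := (FC.cocone 𝒟.pair s.Z s.F s.hF).hD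
    rw [fromBlocks_multiply, ← fromBlocks_zero, fromBlocks_inj] at h
    obtain ⟨-, h2, -, h4⟩ := h
    rw [Matrix.zero_mul, zero_add] at h4
    rw [fromBlocks_multiply, fromBlocks_multiply, fromBlocks_mul_fromRows, fromRows_mul, h4,
      fromRows_mul]
    simp only [Matrix.zero_mul, Matrix.mul_zero, zero_add, add_zero, 𝒟.X.hD, 𝒟.Y.hD,
      fromBlocks_zero]
    have e : fromRows (0 : Matrix 𝒟.X.ι s.Z.ι R) (𝒟.Y.D * (𝒟.Pᴴ * s.Fᴴ * s.Z.eps)) +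
        fromRows 0 (𝒟.Pᴴ * s.Fᴴ * s.Z.eps * -(s.Z.Dᴴ * s.Z.eps)) = 0 := by
      ext (i | i) j
      · simp
      · have := congrFun (congrFun h2 i) j
        simpa using this
    rw [e, fromRows_zero, fromBlocks_zero]

private lemma Cob_isMap {𝒟 : Dat 𝒮 m} (s : Surg 𝒟) :
    IsMap ((Cob_L s).map 𝒮.j) (s.dat.E.sum 𝒟.E)
      (fromCols (Cob_J S 𝒟.X.ι 𝒟.Y.ι s.Z.ι) (Cob_K S 𝒟.X.ι 𝒟.Y.ι s.Z.ι)) where
  hom := by
    rintro ((a | a) | a) (((b | b) | (b | b)) | (b | b)) h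
    all_goals first
      | exact absurd rfl h
      | (have h' : a = b := by
           by_contra h1
           exact h (Matrix.one_apply_ne h1)
         subst h'
         rfl)
      | (have h' : a = b := by
           by_contra h1
           exact h (Matrix.one_apply_ne fun h2 => h1 (Sum.inl.inj h2))
         subst h'
         rfl)
      | (have h' : a = b := by
           by_contra h1
           exact h (Matrix.one_apply_ne fun h2 => h1 (Sum.inr.inj h2))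
         subst h'
         rfl)
  comm := by
    have e1 : ((Cob_L s).map 𝒮.j).D = fromBlocks (fromBlocks (𝒟.X.D.map 𝒮.j) 0 0 (𝒟.Y.D.map 𝒮.j))
        (fromRows 0 ((𝒟.Pᴴ * s.Fᴴ * s.Z.eps).map 𝒮.j)) 0 ((-(s.Z.Dᴴ * s.Z.eps)).map 𝒮.j) := by
      show (fromBlocks (fromBlocks 𝒟.X.D 0 0 𝒟.Y.D) (fromRows 0 (𝒟.Pᴴ * s.Fᴴ * s.Z.eps)) 0
        (-(s.Z.Dᴴ * s.Z.eps))).map 𝒮.j = _
      ext ((i | i) | i) ((j | j) | j) <;> first | rfl | exact map_zero 𝒮.j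
    have e2 : (s.dat.E.sum 𝒟.E).D = fromBlocks (fromBlocks (fromBlocks (𝒟.X.D.map 𝒮.j) 0
        (s.F.map 𝒮.j) ((-s.Z.D).map 𝒮.j)) 0 0 (fromBlocks (𝒟.Y.D.map 𝒮.j)
          ((𝒟.Pᴴ * s.Fᴴ * s.Z.eps).map 𝒮.j) 0 ((-(s.Z.Dᴴ * s.Z.eps)).map 𝒮.j))) 0 0
            (fromBlocks (𝒟.X.D.map 𝒮.j) 0 0 (𝒟.Y.D.map 𝒮.j)) := by
      show fromBlocks (fromBlocks ((fromBlocks 𝒟.X.D 0 s.F (-s.Z.D)).map 𝒮.j) 0 0
        ((fromBlocks 𝒟.Y.D (𝒟.Pᴴ * s.Fᴴ * s.Z.eps) 0 (-(s.Z.Dᴴ * s.Z.eps))).map 𝒮.j)) 0 0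
          (fromBlocks (𝒟.X.D.map 𝒮.j) 0 0 (𝒟.Y.D.map 𝒮.j)) = _
      rw [fromBlocks_map, fromBlocks_map, Matrix.map_zero _ (map_zero 𝒮.j),
        Matrix.map_zero _ (map_zero 𝒮.j)]
    rw [e1, e2]
    exact Cob_comm _ _ _ _ _ _

private lemma Cob_h0 {𝒟 : Dat 𝒮 m} (s : Surg 𝒟) (i : ℕ) :
    fromCols (Cob_J S 𝒟.X.ι 𝒟.Y.ι s.Z.ι) (Cob_K S 𝒟.X.ι 𝒟.Y.ι s.Z.ι) *
      (s.dat.quad.sum 𝒟.quad.neg).ψ i *
      (fromCols (Cob_J S 𝒟.X.ι 𝒟.Y.ι s.Z.ι) (Cob_K S 𝒟.X.ι 𝒟.Y.ι s.Z.ι))ᴴ = 0 := by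
  have e2 : (𝒟.q2.pull (s.pr.map 𝒮.j)).ψ i = fromBlocks (𝒟.q2.ψ i) 0 0 0 :=
    pr_conj 𝒮.j (k := s.Z.ι) (𝒟.q2.ψ i)
  have e3 : s.q.ψ i = fromBlocks (𝒟.q1.ψ i) (s.q.ψ i).toBlocks₁₂ (s.q.ψ i).toBlocks₂₁
      (s.q.ψ i).toBlocks₂₂ := by
    rw [← s.res i]
    exact (fromBlocks_toBlocks _).symm
  have e4 : (if i = 0 then (fromBlocks 𝒟.P 0 0 (1 : Matrix s.Z.ι s.Z.ι R)).map 𝒮.j else 0) =
      fromBlocks (if i = 0 then 𝒟.P.map 𝒮.j else 0) 0 0 (if i = 0 then 1 else 0) := by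
    by_cases hi : i = 0
    · rw [if_pos hi, if_pos hi, if_pos hi, fromBlocks_map, Matrix.map_zero _ (map_zero 𝒮.j),
        Matrix.map_zero _ (map_zero 𝒮.j), Matrix.map_one _ (map_zero 𝒮.j) (map_one 𝒮.j)]
    · rw [if_neg hi, if_neg hi, if_neg hi, fromBlocks_zero]
  have e : (s.dat.quad.sum 𝒟.quad.neg).ψ i = fromBlocks (fromBlocks (fromBlocks (𝒟.q1.ψ i)
      (s.q.ψ i).toBlocks₁₂ (s.q.ψ i).toBlocks₂₁ (s.q.ψ i).toBlocks₂₂)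
        (fromBlocks (if i = 0 then 𝒟.P.map 𝒮.j else 0) 0 0 (if i = 0 then 1 else 0))
          (fromBlocks 0 0 0 0) (fromBlocks (𝒟.q2.ψ i) 0 0 0)) 0 0
      (-fromBlocks (𝒟.q1.ψ i) (if i = 0 then 𝒟.P.map 𝒮.j else 0) 0 (𝒟.q2.ψ i)) := by
    rw [← e2, ← e3, ← e4, fromBlocks_zero]
    rfl
  rw [e, Cob_fc, Cob_JMJ, fromBlocks_add]
  simp

private lemma Cob_sym {𝒟 : Dat 𝒮 m} (s : Surg 𝒟) : ∃ (C : Matrix (𝒟.Y.ι ⊕ s.Z.ι)
    (𝒟.X.ι ⊕ s.Z.ι) S) (D : Matrix (𝒟.Y.ι ⊕ s.Z.ι) (𝒟.Y.ι ⊕ s.Z.ι) S),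
    (s.dat.quad.sum 𝒟.quad.neg).sym = fromBlocks (fromBlocks (fromBlocks s.q.sym.toBlocks₁₁
      s.q.sym.toBlocks₁₂ s.q.sym.toBlocks₂₁ s.q.sym.toBlocks₂₂)
        (fromBlocks (𝒟.P.map 𝒮.j) 0 0 1) C D) 0 0 (-𝒟.quad.sym) := by
  have e4 : (fromBlocks 𝒟.P 0 0 (1 : Matrix s.Z.ι s.Z.ι R)).map 𝒮.j =
      fromBlocks (𝒟.P.map 𝒮.j) 0 0 1 := by
    rw [fromBlocks_map, Matrix.map_zero _ (map_zero 𝒮.j),
        Matrix.map_zero _ (map_zero 𝒮.j), Matrix.map_one _ (map_zero 𝒮.j) (map_one 𝒮.j)]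
  refine ⟨TT (s.dat.X.map 𝒮.j) (s.dat.Y.map 𝒮.j)
    ((fromBlocks 𝒟.P 0 0 (1 : Matrix s.Z.ι s.Z.ι R)).map 𝒮.j),
    (𝒟.q2.pull (s.pr.map 𝒮.j)).ψ 0 + TT (s.dat.Y.map 𝒮.j) (s.dat.Y.map 𝒮.j)
      ((𝒟.q2.pull (s.pr.map 𝒮.j)).ψ 0), ?_⟩
  rw [fromBlocks_toBlocks, ← e4]
  have e5 : (s.dat.quad.sum 𝒟.quad.neg).sym = fromBlocks (s.dat.quad.ψ 0) 0 0 (-𝒟.quad.ψ 0) +
      TT (s.dat.E.sum 𝒟.E) (s.dat.E.sum 𝒟.E) (fromBlocks (s.dat.quad.ψ 0) 0 0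
        (-𝒟.quad.ψ 0)) := rfl
  have e6 : s.dat.quad.ψ 0 = fromBlocks (s.q.ψ 0)
      ((fromBlocks 𝒟.P 0 0 (1 : Matrix s.Z.ι s.Z.ι R)).map 𝒮.j) 0
        ((𝒟.q2.pull (s.pr.map 𝒮.j)).ψ 0) := rfl
  have e7 : s.dat.quad.ψ 0 + TT s.dat.E s.dat.E (s.dat.quad.ψ 0) = fromBlocks s.q.sym
      ((fromBlocks 𝒟.P 0 0 (1 : Matrix s.Z.ι s.Z.ι R)).map 𝒮.j)
      (TT (s.dat.X.map 𝒮.j) (s.dat.Y.map 𝒮.j)
        ((fromBlocks 𝒟.P 0 0 (1 : Matrix s.Z.ι s.Z.ι R)).map 𝒮.j))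
      ((𝒟.q2.pull (s.pr.map 𝒮.j)).ψ 0 + TT (s.dat.Y.map 𝒮.j) (s.dat.Y.map 𝒮.j)
        ((𝒟.q2.pull (s.pr.map 𝒮.j)).ψ 0)) := by
    rw [e6, TT_blocks, fromBlocks_add, TT_zero, add_zero, zero_add]
    rfl
  rw [e5, TT_blocks, fromBlocks_add, TT_zero, TT_zero, TT_neg, e7]
  congr 1
  · exact add_zero _
  · exact add_zero _
  · unfold Quad.sym
    rw [neg_add]

end lag

/-- a surgery does not change the class in the L-group -/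
theorem surg_cob {𝒟 : Dat 𝒮 m} (s : Surg 𝒟) (V : Matrix 𝒟.E.ι 𝒟.E.ι S)
    (h1 : 𝒟.quad.sym * V = 1) (h2 : V * 𝒟.quad.sym = 1) :
    NullCob (s.dat.quad.sum 𝒟.quad.neg) := by
  have hW : ∀ (I' I : Matrix ((𝒟.X.ι ⊕ 𝒟.Y.ι) ⊕ s.Z.ι) (s.dat.E.sum 𝒟.E).ι S),
      I' = fromCols (Cob_J' S 𝒟.X.ι 𝒟.Y.ι s.Z.ι) (Cob_K S 𝒟.X.ι 𝒟.Y.ι s.Z.ι) →
      I = fromCols (Cob_J S 𝒟.X.ι 𝒟.Y.ι s.Z.ι) (Cob_K S 𝒟.X.ι 𝒟.Y.ι s.Z.ι) →
      I' * (s.dat.quad.sum 𝒟.quad.neg).sym * Iᴴ =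
        fromBlocks (-𝒟.quad.sym) 0 (fromCols s.q.sym.toBlocks₂₁ 0) 1 := by
    rintro I' I rfl rfl
    obtain ⟨C, D, h⟩ := Cob_sym s
    rw [h, Cob_fc, Cob_J'MJ, fromBlocks_add]
    simp
  let V' : Matrix (𝒟.X.ι ⊕ 𝒟.Y.ι) (𝒟.X.ι ⊕ 𝒟.Y.ι) S := V
  refine nullCob_strict _ ((Cob_L s).map 𝒮.j)
    (fromCols (Cob_J S 𝒟.X.ι 𝒟.Y.ι s.Z.ι) (Cob_K S 𝒟.X.ι 𝒟.Y.ι s.Z.ι)) (Cob_isMap s) (Cob_h0 s)
    (fromCols (Cob_J' S 𝒟.X.ι 𝒟.Y.ι s.Z.ι) (Cob_K S 𝒟.X.ι 𝒟.Y.ι s.Z.ι))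
    (fromRows (Cob_J S 𝒟.X.ι 𝒟.Y.ι s.Z.ι)ᴴ 0)
    (fromRows (Cob_U S 𝒟.X.ι 𝒟.Y.ι s.Z.ι)
      (fromCols (1 : Matrix (𝒟.X.ι ⊕ 𝒟.Y.ι) (𝒟.X.ι ⊕ 𝒟.Y.ι) S) 0))
    ?_ ?_ ?_ ?_ Cob_UI (fromBlocks (-V') 0
      ((fromCols s.q.sym.toBlocks₂₁ 0 : Matrix s.Z.ι (𝒟.X.ι ⊕ 𝒟.Y.ι) S) * V') 1) ?_ ?_
  · rw [fromCols_mul_fromRows, Cob_JJ, Matrix.mul_zero, add_zero]
  · rw [fromCols_mul_fromRows, Cob_J'U]
  · rw [fromCols_mul_fromRows, Cob_JU]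
  · rw [fromCols_mul_fromRows, Cob_J'J, Matrix.mul_zero, add_zero]
  · rw [hW _ _ rfl rfl]
    exact Cob_inv _ _ _ h1
  · rw [hW _ _ rfl rfl]
    exact Cob_inv' _ _ _ h2

end Pool.Agent.H16.UN
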