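import Pool.Agent.H16.UN.Bas

/-!
# Module CtA: contractible matrices

* `contr_of_unit`: `K = M H₀ + H₀ M` commutes with `M` (`M M = 0`: both products are `M H₀ M`), hence
  so does its inverse `V` (`V M = V M K V = V K M V = M V`); `H = H₀ V` satisfies `M H + H M = M H₀ V + H₀ M V = K V = 1`.
* `contr_conj`: if `A M' = M A` with `A A' = 1`, `A' A = 1` then `M' = A' M A`; `H' = A' H A`.
* `contr_reindex`: transport along an equivalence of the index types.
* `contr_sum`: `H = fromBlocks H₁ 0 0 H₂`.
-/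

namespace Pool.Agent.H16.UN

open Matrix

theorem contr_of_unit {S : Type} [Ring S] {n : Type} [Fintype n] [DecidableEq n]
    (M H₀ V : Matrix n n S) (hM : M * M = 0) (h : (M * H₀ + H₀ * M) * V = 1)
    (h' : V * (M * H₀ + H₀ * M) = 1) : Contr M := by
  have e1 : (M * H₀ + H₀ * M) * M = M * (M * H₀ + H₀ * M) := by
    rw [Matrix.add_mul, Matrix.mul_add, Matrix.mul_assoc H₀ M M, hM, ← Matrix.mul_assoc M M H₀,
      hM, Matrix.mul_zero, Matrix.zero_mul, add_zero, zero_add, Matrix.mul_assoc]
  have e2 : V * M = M * V := by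
    calc V * M = V * M * ((M * H₀ + H₀ * M) * V) := by rw [h, Matrix.mul_one]
      _ = V * (M * (M * H₀ + H₀ * M)) * V := by simp only [Matrix.mul_assoc]
      _ = V * ((M * H₀ + H₀ * M) * M) * V := by rw [e1]
      _ = (V * (M * H₀ + H₀ * M)) * (M * V) := by simp only [Matrix.mul_assoc]
      _ = M * V := by rw [h', Matrix.one_mul]
  refine ⟨H₀ * V, ?_⟩
  rw [Matrix.mul_assoc H₀ V M, e2, ← Matrix.mul_assoc M H₀ V, ← Matrix.mul_assoc H₀ M V,
    ← Matrix.add_mul, h]

theorem contr_conj {S : Type} [Ring S] {n n' : Type} [Fintype n] [DecidableEq n] [Fintype n']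
    [DecidableEq n'] {M : Matrix n n S} {M' : Matrix n' n' S} (A : Matrix n n' S)
    (A' : Matrix n' n S) (h1 : A * A' = 1) (h2 : A' * A = 1) (hc : A * M' = M * A)
    (h : Contr M) : Contr M' := by
  obtain ⟨H, hH⟩ := h
  have e : M' = A' * (M * A) := by
    rw [← hc, ← Matrix.mul_assoc, h2, Matrix.one_mul]
  refine ⟨A' * H * A, ?_⟩
  have e1 : M' * (A' * H * A) = A' * (M * H) * A := by
    calc M' * (A' * H * A) = A' * M * (A * A') * (H * A) := by
          rw [e]
          simp only [Matrix.mul_assoc]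
      _ = A' * (M * H) * A := by
          rw [h1, Matrix.mul_one]
          simp only [Matrix.mul_assoc]
  have e2 : A' * H * A * M' = A' * (H * M) * A := by
    calc A' * H * A * M' = A' * H * (A * A') * (M * A) := by
          rw [e]
          simp only [Matrix.mul_assoc]
      _ = A' * (H * M) * A := by
          rw [h1, Matrix.mul_one]
          simp only [Matrix.mul_assoc]
  rw [e1, e2, ← Matrix.add_mul, ← Matrix.mul_add, hH, Matrix.mul_one, h2]

theorem contr_reindex {S : Type} [Ring S] {n n' : Type} [Fintype n] [DecidableEq n] [Fintype n']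
    [DecidableEq n'] (e : n' ≃ n) {M : Matrix n n S} (h : Contr M) :
    Contr (M.submatrix e e) := by
  obtain ⟨H, hH⟩ := h
  refine ⟨H.submatrix e e, ?_⟩
  rw [Matrix.submatrix_mul_equiv, Matrix.submatrix_mul_equiv]
  change (M * H + H * M).submatrix e e = 1
  rw [hH, Matrix.submatrix_one_equiv]

theorem contr_sum {S : Type} [Ring S] {n n' : Type} [Fintype n] [DecidableEq n] [Fintype n']
    [DecidableEq n'] {M : Matrix n n S} {M' : Matrix n' n' S} (h : Contr M) (h' : Contr M') :
    Contr (fromBlocks M 0 0 M') := by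
  obtain ⟨H, hH⟩ := h
  obtain ⟨H', hH'⟩ := h'
  refine ⟨fromBlocks H 0 0 H', ?_⟩
  rw [fromBlocks_multiply, fromBlocks_multiply, fromBlocks_add]
  simp only [Matrix.mul_zero, Matrix.zero_mul, add_zero, zero_add]
  rw [hH, hH', fromBlocks_one]

end Pool.Agent.H16.UN
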