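import Pool.Agent.H16.UN.Ops

/-! # Nilpotent data, words, surgery data (module Dat) -/

namespace Pool.Agent.H16.UN

open Matrix

section cone

variable {R : Type} [Ring R]

/-- the mapping cone of `F : Z → X` -/
@[reducible] def FC.cone (Z X : FC R) (F : Matrix Z.ι X.ι R) (hF : IsMap Z X F) : FC R where
  ι := X.ι ⊕ Z.ι
  deg := Sum.elim X.deg fun a => Z.deg a + 1
  D := fromBlocks X.D 0 F (-Z.D)
  hdeg := by
    rintro (a | a) (b | b) h
    · exact X.hdeg a b h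
    · exact absurd rfl h
    · have := hF.hom a b h
      simp [this]
    · have := Z.hdeg a b (by intro h0; apply h; simp [h0])
      simp [this]
  hD := by
    rw [fromBlocks_multiply]
    simp [X.hD, Z.hD, hF.comm]

end cone

section

variable {R : Type} [Ring R] [StarRing R]

theorem Pair.YD {X Y : FC R} {m : ℤ} {P : Matrix X.ι Y.ι R} {P' : Matrix Y.ι X.ι R}
    (h : Pair X Y m P P') : Y.D * Pᴴ = -(Pᴴ * X.Dᴴ * X.eps) := by
  have h1 := congrArg conjTranspose h.closed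
  unfold dd at h1
  simp only [conjTranspose_add, conjTranspose_mul, conjTranspose_conjTranspose, eps_conj,
    conjTranspose_zero] at h1
  have h2 : Pᴴ * X.Dᴴ * X.eps + Y.D * (Pᴴ * X.eps) * X.eps = 0 := by
    rw [← Matrix.add_mul, h1, Matrix.zero_mul]
  have h3 : Y.D * (Pᴴ * X.eps) * X.eps = Y.D * Pᴴ := by
    rw [Matrix.mul_assoc, Matrix.mul_assoc, eps_mul_eps, Matrix.mul_one]
  rw [h3] at h2
  rw [eq_neg_iff_add_eq_zero, add_comm]
  exact h2

/-- the dual of the mapping cone: `Y ⊕ (Z[1])^dual` -/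
@[reducible] def FC.cocone {X Y : FC R} {m : ℤ} {P : Matrix X.ι Y.ι R} {P' : Matrix Y.ι X.ι R}
    (h : Pair X Y m P P') (Z : FC R) (F : Matrix Z.ι X.ι R) (hF : IsMap Z X F) : FC R where
  ι := Y.ι ⊕ Z.ι
  deg := Sum.elim Y.deg fun a => m - Z.deg a - 1
  D := fromBlocks Y.D (Pᴴ * Fᴴ * Z.eps) 0 (-(Z.Dᴴ * Z.eps))
  hdeg := by
    rintro (a | a) (b | b) hab
    · exact Y.hdeg a b hab
    · have h1 : (Pᴴ * Fᴴ) a b ≠ 0 := by
        intro h0; apply hab
        show (Pᴴ * Fᴴ * Z.eps) a b = 0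
        rw [eps_apply_right, h0, smul_zero]
      rw [Matrix.mul_apply] at h1
      obtain ⟨c, -, hc⟩ := Finset.exists_ne_zero_of_sum_ne_zero h1
      have h2 : P c a ≠ 0 := by
        have := left_ne_zero_of_mul hc
        intro h0; apply this; simp [h0]
      have h3 : F b c ≠ 0 := by
        have := right_ne_zero_of_mul hc
        intro h0; apply this; simp [h0]
      have h4 := h.hom c a h2
      have h5 := hF.hom b c h3
      simp only [Sum.elim_inl, Sum.elim_inr]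
      omega
    · exact absurd rfl hab
    · have h1 : Z.D b a ≠ 0 := by
        intro h0; apply hab
        show (-(Z.Dᴴ * Z.eps)) a b = 0
        rw [Matrix.neg_apply, eps_apply_right, conjTranspose_apply, h0]; simp
      have h2 := Z.hdeg b a h1
      simp only [Sum.elim_inr]
      omega
  hD := by
    have hZ : Z.Dᴴ * Z.Dᴴ = 0 := by rw [← conjTranspose_mul, Z.hD]; simp
    rw [fromBlocks_multiply]
    have e1 : Y.D * (Pᴴ * Fᴴ * Z.eps) + Pᴴ * Fᴴ * Z.eps * -(Z.Dᴴ * Z.eps) = 0 := by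
      have a1 : X.eps * Fᴴ = Fᴴ * Z.eps := by
        rw [← eps_conj X, ← conjTranspose_mul, ← eps_HM hF.hom, conjTranspose_mul, eps_conj]
      have a2 : X.Dᴴ * Fᴴ = Fᴴ * Z.Dᴴ := by
        rw [← conjTranspose_mul, ← hF.comm, conjTranspose_mul]
      have a3 : Z.eps * (Z.Dᴴ * Z.eps) = -Z.Dᴴ := by
        rw [← Matrix.mul_assoc, eps_Dh, Matrix.neg_mul, Matrix.mul_assoc, eps_mul_eps,
          Matrix.mul_one]
      have a4 : Y.D * (Pᴴ * Fᴴ * Z.eps) = -(Pᴴ * (Fᴴ * Z.Dᴴ)) := by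
        calc Y.D * (Pᴴ * Fᴴ * Z.eps) = (Y.D * Pᴴ) * (Fᴴ * Z.eps) := by
              simp only [Matrix.mul_assoc]
          _ = -(Pᴴ * X.Dᴴ * X.eps) * (Fᴴ * Z.eps) := by rw [h.YD]
          _ = -(Pᴴ * (X.Dᴴ * ((X.eps * Fᴴ) * Z.eps))) := by
              simp only [Matrix.mul_assoc, Matrix.neg_mul]
          _ = -(Pᴴ * (X.Dᴴ * Fᴴ)) := by
              rw [a1, Matrix.mul_assoc Fᴴ, eps_mul_eps, Matrix.mul_one]
          _ = _ := by rw [a2]
      rw [a4, Matrix.mul_neg, Matrix.mul_assoc (Pᴴ * Fᴴ), a3, Matrix.mul_neg, neg_neg,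
        Matrix.mul_assoc]
      exact neg_add_cancel _
    have e2 : -(Z.Dᴴ * Z.eps) * -(Z.Dᴴ * Z.eps) = 0 := by
      rw [Matrix.neg_mul, Matrix.mul_neg, neg_neg, Matrix.mul_assoc, ← Matrix.mul_assoc Z.eps,
        eps_Dh, Matrix.neg_mul, Matrix.mul_neg, ← Matrix.mul_assoc, ← Matrix.mul_assoc, hZ]
      simp
    rw [e1, e2]
    simp [Y.hD]

end

/-- The setting: a ring homomorphism `j : R → S` of rings with involution, a subgroup `B ⊆ S`
stable under the involution and under multiplication by `R`, free as a right `R`-module (a frame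
`b = ∑ u l * j (c l b)`), and without Tate cohomology (`b = π b + star (π (star b))`). -/
structure Setup (R S : Type) [Ring R] [StarRing R] [Ring S] [StarRing S] where
  j : R →+* S
  jstar : ∀ r, j (star r) = star (j r)
  B : AddSubgroup S
  Bl : ∀ r, ∀ b ∈ B, j r * b ∈ B
  Bs : ∀ b ∈ B, star b ∈ B
  J : Type
  u : J → S
  hu : ∀ l, u l ∈ B
  c : J → S →+ R
  c_mul : ∀ l, ∀ b ∈ B, ∀ r, c l (b * j r) = c l b * r
  c_rec : ∀ b ∈ B, ∃ F : Finset J, (∀ l ∉ F, c l b = 0) ∧ b = ∑ l ∈ F, u l * j (c l b)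
  π : S →+ S
  hπ : ∀ b ∈ B, π b ∈ B
  tate : ∀ b ∈ B, π b + star (π (star b)) = b

section

variable {R S : Type} [Ring R] [StarRing R] [Ring S] [StarRing S]

theorem Setup.Br (𝒮 : Setup R S) (r : R) {b : S} (hb : b ∈ 𝒮.B) : b * 𝒮.j r ∈ 𝒮.B := by
  have h := 𝒮.Bs _ (𝒮.Bl (star r) _ (𝒮.Bs _ hb))
  rwa [star_mul, star_star, 𝒮.jstar, star_star] at h

theorem Setup.Bz (𝒮 : Setup R S) (n : ℤ) {b : S} (hb : b ∈ 𝒮.B) : n • b ∈ 𝒮.B :=
  𝒮.B.zsmul_mem hb n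

/-- A datum: a complex `X` with its dual `Y` (perfect pairing `P` of degree `m`), and `B`-valued
quadratic structures `q1` on `X`, `q2` on `Y`. -/
structure Dat (𝒮 : Setup R S) (m : ℤ) where
  X : FC R
  Y : FC R
  P : Matrix X.ι Y.ι R
  P' : Matrix Y.ι X.ι R
  pair : Pair X Y m P P'
  q1 : Quad (X.map 𝒮.j) m
  q2 : Quad (Y.map 𝒮.j) m
  b1 : ∀ s a b, q1.ψ s a b ∈ 𝒮.B
  b2 : ∀ s a b, q2.ψ s a b ∈ 𝒮.B

theorem Pair.swap {X Y : FC R} {m : ℤ} {P : Matrix X.ι Y.ι R} {P' : Matrix Y.ι X.ι R}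
    (h : Pair X Y m P P') : Pair Y X m (TT X Y P) (TT Y X P') where
  hom := HF_TT h.hom
  hom' := HF_TT h.hom'
  mul := by
    ext b b'
    have h1 : (P' * P) b' b = (1 : Matrix Y.ι Y.ι R) b' b := by rw [h.mul']
    rw [Matrix.mul_apply] at h1
    have h2 : (1 : Matrix Y.ι Y.ι R) b b' = star ((1 : Matrix Y.ι Y.ι R) b' b) := by
      by_cases hb : b = b'
      · subst hb; simp
      · rw [Matrix.one_apply_ne hb, Matrix.one_apply_ne (Ne.symm hb), star_zero]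
    rw [h2, ← h1, star_sum, Matrix.mul_apply]
    refine Finset.sum_congr rfl fun a _ => ?_
    simp only [TT, Matrix.of_apply]
    rw [smul_mul_smul_comm, star_mul]
    by_cases h3 : P a b = 0
    · simp [h3]
    by_cases h4 : P' b' a = 0
    · simp [h4]
    have h5 := h.hom a b h3
    have h6 := h.hom' b' a h4
    have h7 : Y.deg b = Y.deg b' := by omega
    rw [h7, mul_comm (Y.deg b') (X.deg a), sg_mul_self, one_smul]
  mul' := by
    ext a a'
    have h1 : (P * P') a' a = (1 : Matrix X.ι X.ι R) a' a := by rw [h.mul]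
    rw [Matrix.mul_apply] at h1
    have h2 : (1 : Matrix X.ι X.ι R) a a' = star ((1 : Matrix X.ι X.ι R) a' a) := by
      by_cases hb : a = a'
      · subst hb; simp
      · rw [Matrix.one_apply_ne hb, Matrix.one_apply_ne (Ne.symm hb), star_zero]
    rw [h2, ← h1, star_sum, Matrix.mul_apply]
    refine Finset.sum_congr rfl fun b _ => ?_
    simp only [TT, Matrix.of_apply]
    rw [smul_mul_smul_comm, star_mul]
    by_cases h3 : P a' b = 0
    · simp [h3]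
    by_cases h4 : P' b a = 0
    · simp [h4]
    have h5 := h.hom a' b h3
    have h6 := h.hom' b a h4
    have h7 : X.deg a = X.deg a' := by omega
    rw [h7, mul_comm (Y.deg b) (X.deg a'), sg_mul_self, one_smul]
  closed := by rw [← TT_dd, h.closed, TT_zero]

/-- exchange the roles of `X` and `Y` -/
@[reducible] def Dat.swap {𝒮 : Setup R S} {m : ℤ} (𝒟 : Dat 𝒮 m) : Dat 𝒮 m where
  X := 𝒟.Y
  Y := 𝒟.X
  P := TT 𝒟.X 𝒟.Y 𝒟.P
  P' := TT 𝒟.Y 𝒟.X 𝒟.P'
  pair := 𝒟.pair.swap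
  q1 := 𝒟.q2.tr
  q2 := 𝒟.q1.tr
  b1 := fun s a b => 𝒮.Bz _ (𝒮.Bs _ (𝒟.b2 s b a))
  b2 := fun s a b => 𝒮.Bz _ (𝒮.Bs _ (𝒟.b1 s b a))

theorem Quad.tr_tr {E : FC R} {m : ℤ} (q : Quad E m) : q.tr.tr = q :=
  Quad.ext' fun s => TT_TT _ _ _

theorem Dat.swap_swap {𝒮 : Setup R S} {m : ℤ} (𝒟 : Dat 𝒮 m) : 𝒟.swap.swap = 𝒟 := by
  obtain ⟨X, Y, P, P', pair, q1, q2, b1, b2⟩ := 𝒟
  simp only [Dat.swap, TT_TT, Quad.tr_tr]

/-- the total complex over `S` -/
@[reducible] def Dat.E {𝒮 : Setup R S} {m : ℤ} (𝒟 : Dat 𝒮 m) : FC S :=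
  (𝒟.X.map 𝒮.j).sum (𝒟.Y.map 𝒮.j)

/-- the quadratic structure `[[q1, P],[0, q2]]` on `X ⊕ Y` over `S` -/
def Dat.quad {𝒮 : Setup R S} {m : ℤ} (𝒟 : Dat 𝒮 m) : Quad 𝒟.E m where
  ψ := fun s => fromBlocks (𝒟.q1.ψ s) (if s = 0 then 𝒟.P.map 𝒮.j else 0) 0 (𝒟.q2.ψ s)
  hom := fun s => by
    refine HF_blocks (𝒟.q1.hom s) ?_ (HF_zero _ _ _) (𝒟.q2.hom s)
    by_cases hs : s = 0
    · subst hs
      rw [if_pos rfl, Nat.cast_zero, add_zero]
      exact 𝒟.pair.hom.map 𝒮.j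
    · rw [if_neg hs]
      exact HF_zero _ _ _
  cyc := fun s => by
    have h : dd (𝒟.X.map 𝒮.j) (𝒟.Y.map 𝒮.j) (if s = 0 then 𝒟.P.map 𝒮.j else 0) = 0 := by
      by_cases hs : s = 0
      · rw [if_pos hs, dd_map 𝒮.jstar, 𝒟.pair.closed]
        ext a b; simp
      · rw [if_neg hs, dd_zero]
    rw [dd_blocks, TT_blocks, h, 𝒟.q1.cyc, 𝒟.q2.cyc, fromBlocks_smul, fromBlocks_add,
      if_neg (Nat.succ_ne_zero s), TT_zero, TT_zero]
    simp [dd_zero]

/-- the `S`-linear chain map `X → S ⊗ Y` given by the symmetrization of `q1` -/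
def Dat.N {𝒮 : Setup R S} {m : ℤ} (𝒟 : Dat 𝒮 m) : Matrix 𝒟.X.ι 𝒟.Y.ι S :=
  𝒟.q1.sym * (TT 𝒟.Y 𝒟.X 𝒟.P').map 𝒮.j

/-- the letters: the components of `X → B ⊗ Y` in the frame -/
def Dat.st {𝒮 : Setup R S} {m : ℤ} (𝒟 : Dat 𝒮 m) (l : 𝒮.J) (x : 𝒟.X.ι → R) : 𝒟.Y.ι → R :=
  fun b => 𝒮.c l (((fun a => 𝒮.j (x a)) ᵥ* 𝒟.N) b)

end

section homology

variable {R : Type} [Ring R]

/-- `v` is supported in degree `i` -/
def FC.Hom (X : FC R) (i : ℤ) (v : X.ι → R) : Prop := ∀ a, v a ≠ 0 → X.deg a = i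

/-- `v` is a cycle of degree `i` -/
def FC.Cyc (X : FC R) (i : ℤ) (v : X.ι → R) : Prop := X.Hom i v ∧ v ᵥ* X.D = 0

/-- `v` is a boundary of degree `i` -/
def FC.Bd (X : FC R) (i : ℤ) (v : X.ι → R) : Prop := ∃ w, X.Hom (i + 1) w ∧ w ᵥ* X.D = v

/-- `H_i(X) = 0` -/
def FC.Ex (X : FC R) (i : ℤ) : Prop := ∀ v, X.Cyc i v → X.Bd i v

/-- `H^i(X^*) = 0` for the dual complex -/
def FC.CoEx [StarRing R] (X : FC R) (i : ℤ) : Prop :=
  ∀ v, X.Hom i v → v ᵥ* X.Dᴴ = 0 → ∃ w, X.Hom (i - 1) w ∧ w ᵥ* X.Dᴴ = v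

end homology

section words

variable {R S : Type} [Ring R] [StarRing R] [Ring S] [StarRing S] {𝒮 : Setup R S} {m : ℤ}

/-- `W Q p 𝒟 x`: the vector `x` on `X` is obtained from a starting vector (on `X` for even `p`, on
`Y` for odd `p`) satisfying the condition `Q` by an alternating word of length `p` -/
def W (Q : (Z : FC R) → (Z.ι → R) → Prop) : ℕ → (𝒟 : Dat 𝒮 m) → (𝒟.X.ι → R) → Prop
  | 0, 𝒟, x => Q 𝒟.X x
  | p + 1, 𝒟, x => ∃ (y : 𝒟.Y.ι → R) (l : 𝒮.J), W Q p 𝒟.swap y ∧ x = 𝒟.swap.st l y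

/-- the datum is nilpotent: all words of length `r` vanish -/
def Dat.Nilp (𝒟 : Dat 𝒮 m) : Prop :=
  ∃ r : ℕ, (∀ x, W (fun _ _ => True) r 𝒟 x → x = 0) ∧
    (∀ y, W (fun _ _ => True) r 𝒟.swap y → y = 0)

/-- all words of length `p` starting from cycles of degree `k` and ending in `X` are boundaries -/
def Dat.VX (𝒟 : Dat 𝒮 m) (k : ℤ) (p : ℕ) : Prop :=
  ∀ x, W (fun Z v => Z.Cyc k v) p 𝒟 x → 𝒟.X.Bd k x

end words

section surgery

variable {R S : Type} [Ring R] [StarRing R] [Ring S] [StarRing S] {𝒮 : Setup R S} {m : ℤ}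

/-- surgery data on `X`: a chain map `F : Z → X` and an extension of `q1` to its cone -/
structure Surg (𝒟 : Dat 𝒮 m) where
  Z : FC R
  F : Matrix Z.ι 𝒟.X.ι R
  hF : IsMap Z 𝒟.X F
  q : Quad ((FC.cone Z 𝒟.X F hF).map 𝒮.j) m
  b : ∀ s a b, q.ψ s a b ∈ 𝒮.B
  res : ∀ s, (q.ψ s).toBlocks₁₁ = 𝒟.q1.ψ s

theorem Surg.pair {𝒟 : Dat 𝒮 m} (s : Surg 𝒟) :
    Pair (FC.cone s.Z 𝒟.X s.F s.hF) (FC.cocone 𝒟.pair s.Z s.F s.hF) m
      (fromBlocks 𝒟.P 0 0 1) (fromBlocks 𝒟.P' 0 0 1) where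
  hom := by
    rintro (a | a) (b | b) h
    · exact 𝒟.pair.hom a b h
    · exact absurd rfl h
    · exact absurd rfl h
    · have : a = b := by by_contra h1; exact h (Matrix.one_apply_ne h1)
      subst this
      simp only [Sum.elim_inr]; omega
  hom' := by
    rintro (a | a) (b | b) h
    · exact 𝒟.pair.hom' a b h
    · exact absurd rfl h
    · exact absurd rfl h
    · have : a = b := by by_contra h1; exact h (Matrix.one_apply_ne h1)
      subst this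
      simp only [Sum.elim_inr]; omega
  mul := by rw [fromBlocks_multiply]; simp [𝒟.pair.mul]
  mul' := by rw [fromBlocks_multiply]; simp [𝒟.pair.mul']
  closed := by
    have he : (FC.cone s.Z 𝒟.X s.F s.hF).eps = fromBlocks 𝒟.X.eps 0 0 (-s.Z.eps) := by
      unfold FC.eps
      have h1 : -diagonal (fun a => ((sg (s.Z.deg a) : ℤ) : R)) =
          diagonal fun a => ((sg (s.Z.deg a + 1) : ℤ) : R) := by
        rw [diagonal_neg]
        congr 1; funext a; simp [sg_succ]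
      rw [h1, fromBlocks_diagonal]
      congr 1
      funext a
      rcases a with a | a <;> rfl
    unfold dd
    rw [he]
    show fromBlocks 𝒟.X.D 0 s.F (-s.Z.D) * fromBlocks 𝒟.P 0 0 1 +
      fromBlocks 𝒟.X.eps 0 0 (-s.Z.eps) * fromBlocks 𝒟.P 0 0 1 *
        (fromBlocks 𝒟.Y.D (𝒟.Pᴴ * s.Fᴴ * s.Z.eps) 0 (-(s.Z.Dᴴ * s.Z.eps)))ᴴ = 0
    rw [fromBlocks_conjTranspose, fromBlocks_multiply, fromBlocks_multiply, fromBlocks_multiply,
      fromBlocks_add]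
    have h2 : 𝒟.X.D * 𝒟.P + 𝒟.X.eps * 𝒟.P * 𝒟.Y.Dᴴ = 0 := 𝒟.pair.closed
    have h3 : s.F * 𝒟.P + -s.Z.eps * (𝒟.Pᴴ * s.Fᴴ * s.Z.eps)ᴴ = 0 := by
      simp only [conjTranspose_mul, conjTranspose_conjTranspose, eps_conj]
      rw [Matrix.neg_mul, ← Matrix.mul_assoc, ← Matrix.mul_assoc, eps_mul_eps, Matrix.one_mul]
      exact add_neg_cancel _
    have h4 : -s.Z.D + -s.Z.eps * (-(s.Z.Dᴴ * s.Z.eps))ᴴ = 0 := by
      simp only [conjTranspose_mul, conjTranspose_conjTranspose, conjTranspose_neg, eps_conj]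
      rw [Matrix.neg_mul, Matrix.mul_neg, neg_neg, ← Matrix.mul_assoc, eps_mul_eps,
        Matrix.one_mul]
      exact neg_add_cancel _
    simp only [Matrix.mul_zero, Matrix.zero_mul, Matrix.mul_one, add_zero, zero_add,
      conjTranspose_zero, h2, h3, h4]
    exact fromBlocks_zero

/-- the projection `Y'' → Y` -/
theorem Surg.pr {𝒟 : Dat 𝒮 m} (s : Surg 𝒟) :
    IsMap (FC.cocone 𝒟.pair s.Z s.F s.hF) 𝒟.Y (fromRows 1 0) where
  hom := by
    rintro (a | a) b h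
    · have : a = b := by by_contra h1; exact h (Matrix.one_apply_ne h1)
      subst this; rfl
    · exact absurd rfl h
  comm := by
    show fromBlocks 𝒟.Y.D (𝒟.Pᴴ * s.Fᴴ * s.Z.eps) 0 (-(s.Z.Dᴴ * s.Z.eps)) * fromRows 1 0 = _
    rw [fromBlocks_mul_fromRows, fromRows_mul]
    simp

omit [StarRing R] in
theorem pr_conj (j : R →+* S) {n k : Type} [Fintype n] [DecidableEq n] (M : Matrix n n S) :
    (fromRows (1 : Matrix n n R) (0 : Matrix k n R)).map j * M *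
      ((fromRows (1 : Matrix n n R) (0 : Matrix k n R)).map j)ᴴ = fromBlocks M 0 0 0 := by
  have e : ((fromRows (1 : Matrix n n R) (0 : Matrix k n R)).map j) =
      fromRows (1 : Matrix n n S) 0 := by
    ext (a | a) b
    · by_cases h : a = b
      · subst h; simp
      · simp [h]
    · simp
  rw [e, conjTranspose_fromRows_eq_fromCols_conjTranspose, fromRows_mul,
    fromRows_mul_fromCols]
  simp

/-- the result of the surgery -/
@[reducible] def Surg.dat {𝒟 : Dat 𝒮 m} (s : Surg 𝒟) : Dat 𝒮 m where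
  X := FC.cone s.Z 𝒟.X s.F s.hF
  Y := FC.cocone 𝒟.pair s.Z s.F s.hF
  P := fromBlocks 𝒟.P 0 0 1
  P' := fromBlocks 𝒟.P' 0 0 1
  pair := s.pair
  q1 := s.q
  q2 := 𝒟.q2.pull (s.pr.map 𝒮.j)
  b1 := s.b
  b2 := by
    intro i a b
    have e := pr_conj 𝒮.j (k := s.Z.ι) (𝒟.q2.ψ i)
    have e2 : (𝒟.q2.pull (s.pr.map 𝒮.j)).ψ i = fromBlocks (𝒟.q2.ψ i) 0 0 0 := e
    rw [e2]
    rcases a with a | a <;> rcases b with b | b
    · exact 𝒟.b2 i a b
    all_goals exact 𝒮.B.zero_mem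

end surgery

end Pool.Agent.H16.UN
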