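import Pool.Agent.H16.UN.Bas

/-! # Base change, sums, operations on quadratic structures (module Ops) -/

namespace Pool.Agent.H16.UN

open Matrix

section map

variable {R S : Type} [Ring R] [Ring S]

@[simp] theorem FC.map_ι (f : R →+* S) (X : FC R) : (X.map f).ι = X.ι := rfl
@[simp] theorem FC.map_deg (f : R →+* S) (X : FC R) : (X.map f).deg = X.deg := rfl
@[simp] theorem FC.map_D (f : R →+* S) (X : FC R) : (X.map f).D = X.D.map f := rfl

theorem FC.map_eps (f : R →+* S) (X : FC R) : (X.map f).eps = X.eps.map f := by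
  have h : X.eps.map f = diagonal fun a => f ((sg (X.deg a) : ℤ) : R) := by
    unfold FC.eps
    rw [Matrix.diagonal_map (map_zero f)]
  rw [h]
  unfold FC.eps
  congr 1
  funext a
  rw [map_intCast]

theorem HF.map {X Y : FC R} {q : ℤ} {G : Matrix X.ι Y.ι R} (h : HF X Y q G) (f : R →+* S) :
    HF (X.map f) (Y.map f) q (G.map f) := fun a b hab => h a b fun h0 => hab (by
      rw [Matrix.map_apply, h0, map_zero])

theorem HM.map {X Y : FC R} {G : Matrix X.ι Y.ι R} (h : HM X Y G) (f : R →+* S) :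
    HM (X.map f) (Y.map f) (G.map f) := fun a b hab => h a b fun h0 => hab (by
      rw [Matrix.map_apply, h0, map_zero])

theorem IsMap.map {X Y : FC R} {G : Matrix X.ι Y.ι R} (h : IsMap X Y G) (f : R →+* S) :
    IsMap (X.map f) (Y.map f) (G.map f) :=
  ⟨h.hom.map f, by
    show X.D.map f * G.map f = G.map f * Y.D.map f
    rw [← Matrix.map_mul, h.comm, Matrix.map_mul]⟩

variable [StarRing R] [StarRing S]

theorem map_conj {f : R →+* S} (hf : ∀ r, f (star r) = star (f r)) {m n : Type}
    (G : Matrix m n R) : (Gᴴ).map f = (G.map f)ᴴ := by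
  ext a b; simp [hf]

theorem dd_map {f : R →+* S} (hf : ∀ r, f (star r) = star (f r)) (X Y : FC R)
    (G : Matrix X.ι Y.ι R) : dd (X.map f) (Y.map f) (G.map f) = (dd X Y G).map f := by
  unfold dd
  rw [FC.map_eps]
  show X.D.map f * G.map f + X.eps.map f * G.map f * (Y.D.map f)ᴴ = _
  rw [← map_conj hf, ← Matrix.map_mul, ← Matrix.map_mul, ← Matrix.map_mul]
  ext a b
  exact (map_add f _ _).symm

theorem TT_map {f : R →+* S} (hf : ∀ r, f (star r) = star (f r)) (X Y : FC R)
    (G : Matrix X.ι Y.ι R) : TT (X.map f) (Y.map f) (G.map f) = (TT X Y G).map f := by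
  ext b a
  show sg (X.deg a * Y.deg b) • star (f (G a b)) = f (sg (X.deg a * Y.deg b) • star (G a b))
  rw [map_zsmul, hf]

end map

section sum

variable {R : Type} [Ring R] [StarRing R]

theorem TT_blocks (X Y X' Y' : FC R) (a : Matrix X.ι X'.ι R) (b : Matrix X.ι Y'.ι R)
    (c : Matrix Y.ι X'.ι R) (d : Matrix Y.ι Y'.ι R) :
    TT (X.sum Y) (X'.sum Y') (fromBlocks a b c d) =
      fromBlocks (TT X X' a) (TT Y X' c) (TT X Y' b) (TT Y Y' d) := by
  ext (i | i) (j | j) <;> rfl

theorem sum_eps (X Y : FC R) : (X.sum Y).eps = fromBlocks X.eps 0 0 Y.eps := by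
  unfold FC.eps
  rw [fromBlocks_diagonal]
  congr 1
  funext a
  rcases a with a | a <;> rfl

theorem dd_blocks (X Y X' Y' : FC R) (a : Matrix X.ι X'.ι R) (b : Matrix X.ι Y'.ι R)
    (c : Matrix Y.ι X'.ι R) (d : Matrix Y.ι Y'.ι R) :
    dd (X.sum Y) (X'.sum Y') (fromBlocks a b c d) =
      fromBlocks (dd X X' a) (dd X Y' b) (dd Y X' c) (dd Y Y' d) := by
  unfold dd
  rw [sum_eps]
  show fromBlocks X.D 0 0 Y.D * fromBlocks a b c d +
    fromBlocks X.eps 0 0 Y.eps * fromBlocks a b c d * (fromBlocks X'.D 0 0 Y'.D)ᴴ = _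
  rw [fromBlocks_conjTranspose, fromBlocks_multiply, fromBlocks_multiply, fromBlocks_multiply,
    fromBlocks_add]
  simp

theorem HF_blocks {X Y X' Y' : FC R} {q : ℤ} {a : Matrix X.ι X'.ι R} {b : Matrix X.ι Y'.ι R}
    {c : Matrix Y.ι X'.ι R} {d : Matrix Y.ι Y'.ι R} (ha : HF X X' q a) (hb : HF X Y' q b)
    (hc : HF Y X' q c) (hd : HF Y Y' q d) :
    HF (X.sum Y) (X'.sum Y') q (fromBlocks a b c d) := by
  rintro (i | i) (j | j) h
  · exact ha i j h
  · exact hb i j h
  · exact hc i j h
  · exact hd i j h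

end sum

section quad

variable {R : Type} [Ring R] [StarRing R]

theorem Quad.ext' {E : FC R} {m : ℤ} {q q' : Quad E m} (h : ∀ s, q.ψ s = q'.ψ s) : q = q' := by
  cases q; cases q'
  congr
  funext s; exact h s

/-- the negative of a quadratic structure -/
def Quad.neg {E : FC R} {m : ℤ} (q : Quad E m) : Quad E m where
  ψ := fun s => -q.ψ s
  hom := fun s => HF_neg (q.hom s)
  cyc := fun s => by
    rw [dd_neg, TT_neg, q.cyc, smul_neg, neg_add]

/-- the transposed quadratic structure `T ψ` -/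
def Quad.tr {E : FC R} {m : ℤ} (q : Quad E m) : Quad E m where
  ψ := fun s => TT E E (q.ψ s)
  hom := fun s => HF_TT (q.hom s)
  cyc := fun s => by
    rw [← TT_dd, q.cyc, TT_add, TT_zsmul]

/-- the orthogonal sum -/
def Quad.sum {E E' : FC R} {m : ℤ} (q : Quad E m) (q' : Quad E' m) : Quad (E.sum E') m where
  ψ := fun s => fromBlocks (q.ψ s) 0 0 (q'.ψ s)
  hom := fun s => HF_blocks (q.hom s) (HF_zero _ _ _) (HF_zero _ _ _) (q'.hom s)
  cyc := fun s => by
    rw [dd_blocks, TT_blocks, q.cyc, q'.cyc, fromBlocks_smul, fromBlocks_add]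
    simp [dd_zero, TT_zero]

/-- the pullback along a chain map -/
def Quad.pull {E E' : FC R} {m : ℤ} (q : Quad E m) {I : Matrix E'.ι E.ι R} (hI : IsMap E' E I) :
    Quad E' m where
  ψ := fun s => I * q.ψ s * Iᴴ
  hom := fun s => HF_mul_right hI.hom (HF_mul_left hI.hom (q.hom s))
  cyc := fun s => by
    rw [dd_mul_right hI, dd_mul_left hI, q.cyc, TT_mul_right hI.hom, TT_mul_left hI.hom]
    simp only [Matrix.mul_add, Matrix.add_mul, Matrix.mul_smul, Matrix.smul_mul, Matrix.mul_assoc]

/-- the trivial quadratic structure on the empty complex -/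
def Quad.nil (R : Type) [Ring R] [StarRing R] (m : ℤ) : Quad (FC.zero R) m where
  ψ := fun _ => 0
  hom := fun _ => HF_zero _ _ _
  cyc := fun s => by rw [dd_zero, TT_zero]; simp

end quad

/-- The class of the quadratic Poincare complex `(E, q)` in the group `L_m(R)` (cobordism group of
`m`-dimensional quadratic Poincare complexes of based free modules) is zero: it becomes
null-cobordant after adding a null-cobordant complex. -/
def LZero {R : Type} [Ring R] [StarRing R] {E : FC R} {m : ℤ} (q : Quad E m) : Prop :=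
  Poinc q ∧ ∃ (N : FC R) (ν : Quad N m), Poinc ν ∧ NullCob ν ∧ NullCob (q.sum ν)

end Pool.Agent.H16.UN
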