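import Pool.Agent.H16.UN.NH
import Pool.Agent.H16.UN.Ops
import Pool.Agent.H16.UN.Dat

/-!
# Module Ctr: contractible complexes

* `contr_of_ex`: apply `nh` with `B = ⊤`, `Z = X`, `κ = X.ι`, `g = fun a => - X.deg a`, `A = X.D`,
  `s = fun _ => 1`, `q = 0`, `G = 1` and `k` smaller than all degrees (finite index type; then `h0` is
  void); `h1` is exactness.  It gives `X.D H + H X.D = 1`.
* `lzero_of_contr`: `Poinc q`: the matrix `[[D, Φ], [0, D']]` with `D` and `D' = sg m • ε Dᴴ` contractible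
  (`Dᴴ Hᴴ + Hᴴ Dᴴ = 1`, so `D'' = sg m ε Dᴴ` has the contraction `H'' = sg m • Hᴴ ε`:
  `D' H'' + H'' D' = ε Dᴴ Hᴴ ε + Hᴴ Dᴴ = ..`; if `H` is not homogeneous use `ε Dᴴ = -Dᴴ ε` and the
  contraction `sg m • (ε Hᴴ' ..)`: simplest is to note `ε D ᴴ` is conjugate to `Dᴴ` up to signs, or to
  replace `H` by its part of degree `+1` first, for which `ε Hᴴ = -Hᴴ ε`).  A block triangular
  `M = [[D, Φ], [0, D']]` with `M M = 0` and contractible diagonal blocks is contractible: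
  `H₀ = [[H, 0], [0, H'']]` gives `M H₀ + H₀ M = [[1, x], [0, 1]]` (then as in `contr_of_unit`: prove
  privately that `M M = 0` and `(M H₀ + H₀ M)` invertible imply `Contr M`).  `M M = 0`: `dd Φ = 0` for the
  symmetrization (`dd (ψ 0) = ψ 1 - TT (ψ 1)`, `TT_dd`).
  `NullCob q`: `L = FC.zero S`, `I = 0`, `η = 0`; the total matrix is `D` on the index
  `(Empty ⊕ E) ⊕ Empty`.  `LZero q`: `N = FC.zero S`, `Quad.nil`; `NullCob` and `Poinc` of the empty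
  complex are trivial (index empty, `Subsingleton.elim`), `NullCob (q.sum nil)` as before
  (`q.sum nil` lives on a complex which is contractible too).
-/

namespace Pool.Agent.H16.UN

open Matrix

private theorem Ctr_unit {S : Type} [Ring S] {n : Type} [Fintype n] [DecidableEq n]
    {M : Matrix n n S} (hM : M * M = 0) (H₀ V : Matrix n n S)
    (h : (M * H₀ + H₀ * M) * V = 1) (h' : V * (M * H₀ + H₀ * M) = 1) : Contr M := by
  obtain ⟨U, hU⟩ : ∃ U, U = M * H₀ + H₀ * M := ⟨_, rfl⟩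
  rw [← hU] at h h'
  have c1 : M * U = U * M := by
    rw [hU, Matrix.mul_add, Matrix.add_mul, ← Matrix.mul_assoc, hM, Matrix.zero_mul, zero_add,
      Matrix.mul_assoc H₀ M M, hM, Matrix.mul_zero, add_zero, Matrix.mul_assoc]
  have c2 : V * M = M * V := by
    calc V * M = V * M * (U * V) := by rw [h, Matrix.mul_one]
      _ = V * (M * U) * V := by simp only [Matrix.mul_assoc]
      _ = V * (U * M) * V := by rw [c1]
      _ = (V * U) * (M * V) := by simp only [Matrix.mul_assoc]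
      _ = M * V := by rw [h', Matrix.one_mul]
  refine ⟨H₀ * V, ?_⟩
  calc M * (H₀ * V) + H₀ * V * M = (M * H₀ + H₀ * M) * V := by
        rw [Matrix.mul_assoc H₀ V M, c2, Matrix.add_mul, Matrix.mul_assoc, Matrix.mul_assoc]
    _ = 1 := by rw [← hU, h]

private theorem Ctr_sym {S : Type} [Ring S] [StarRing S] {E : FC S} {m : ℤ} (q : Quad E m) :
    dd E E q.sym = 0 := by
  unfold Quad.sym
  rw [dd_add, ← TT_dd, q.cyc 0, TT_add, TT_zsmul, TT_TT]
  simp only [zero_add, pow_one, neg_smul, one_smul]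
  abel

private theorem Ctr_HF {S : Type} [Ring S] [StarRing S] {E : FC S} {m : ℤ} (q : Quad E m) :
    HF E E m q.sym := by
  have h := q.hom 0
  rw [Nat.cast_zero, add_zero] at h
  exact HF_add h (HF_TT h)

private theorem Ctr_null {S : Type} [Ring S] [StarRing S] {E : FC S} {m : ℤ} (q : Quad E m)
    (h : Contr E.D) : NullCob q := by
  obtain ⟨H, hH⟩ := h
  refine ⟨FC.zero S, 0, fun _ => 0, ⟨fun a => a.elim, ?_⟩, fun s a => a.elim, fun s => ?_, ?_⟩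
  · ext a; exact a.elim
  · ext a; exact a.elim
  · refine ⟨fromBlocks (fromBlocks 0 0 0 H) 0 0 0, ?_⟩
    rw [fromBlocks_multiply, fromBlocks_multiply, fromBlocks_multiply, fromBlocks_multiply,
      fromBlocks_add]
    ext ((a | a) | a) ((b | b) | b)
    · exact a.elim
    · exact a.elim
    · exact a.elim
    · exact b.elim
    · have h1 := congrFun (congrFun hH a) b
      rw [Matrix.add_apply] at h1
      simp only [fromBlocks_apply₁₁, Matrix.add_apply, fromBlocks_apply₂₂, Matrix.zero_mul,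
        Matrix.mul_zero, zero_add, add_zero]
      rw [h1]
      by_cases hab : a = b
      · subst hab; rw [Matrix.one_apply_eq, Matrix.one_apply_eq]
      · rw [Matrix.one_apply_ne hab, Matrix.one_apply_ne]
        intro h2
        exact hab (Sum.inr_injective (Sum.inl_injective h2))
    · exact b.elim
    · exact a.elim
    · exact a.elim
    · exact a.elim

private theorem Ctr_poinc {S : Type} [Ring S] [StarRing S] {E : FC S} {m : ℤ} (q : Quad E m)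
    (h : Contr E.D) : Poinc q := by
  obtain ⟨H, hH⟩ := h
  obtain ⟨D, hD⟩ : ∃ D, D = E.D := ⟨_, rfl⟩
  obtain ⟨ε, hε⟩ : ∃ ε, ε = E.eps := ⟨_, rfl⟩
  obtain ⟨Φ, hΦ⟩ : ∃ Φ, Φ = q.sym := ⟨_, rfl⟩
  obtain ⟨s, hs⟩ : ∃ s, s = sg m := ⟨_, rfl⟩
  have hDD : D * D = 0 := by rw [hD, E.hD]
  have hεε : ε * ε = 1 := by rw [hε, eps_mul_eps]
  have hεD : ε * Dᴴ = -(Dᴴ * ε) := by rw [hε, hD, eps_Dh]
  have hDD' : Dᴴ * Dᴴ = 0 := by rw [← conjTranspose_mul, hDD, conjTranspose_zero]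
  have hss : s * s = 1 := by rw [hs, sg_mul_self]
  have hΦD : D * Φ + Φ * (s • (ε * Dᴴ)) = 0 := by
    have e1 := Ctr_sym q
    unfold dd at e1
    rw [eps_HF (Ctr_HF q), ← hΦ, ← hD, ← hε, ← hs] at e1
    rw [Matrix.mul_smul, ← Matrix.mul_assoc, ← e1, Matrix.smul_mul]
  have hH2 : Hᴴ * Dᴴ + Dᴴ * Hᴴ = 1 := by
    rw [← conjTranspose_mul, ← conjTranspose_mul, ← conjTranspose_add, hD, hH,
      conjTranspose_one]
  have hM' : (s • (ε * Dᴴ)) * (s • (ε * Dᴴ)) = 0 := by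
    rw [Matrix.smul_mul, Matrix.mul_smul, smul_smul, hss, one_smul]
    calc ε * Dᴴ * (ε * Dᴴ) = ε * Dᴴ * -(Dᴴ * ε) := by rw [hεD]
      _ = -(ε * (Dᴴ * Dᴴ) * ε) := by simp only [Matrix.mul_neg, Matrix.mul_assoc]
      _ = 0 := by rw [hDD']; simp
  -- the lower block is contractible
  have hlow : Contr (s • (ε * Dᴴ)) := by
    obtain ⟨N, hN⟩ : ∃ N, N = ε * (Dᴴ * Hᴴ) * ε - Dᴴ * Hᴴ := ⟨_, rfl⟩
    have hQ : Dᴴ * Hᴴ * Dᴴ = Dᴴ := by
      have e := congrArg (fun X => X * Dᴴ) hH2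
      simp only [Matrix.add_mul, Matrix.one_mul] at e
      rw [Matrix.mul_assoc Hᴴ, hDD', Matrix.mul_zero, zero_add] at e
      exact e
    have hDε : Dᴴ * ε = -(ε * Dᴴ) := by rw [hεD, neg_neg]
    have hQQ : Dᴴ * Hᴴ * (Dᴴ * Hᴴ) = Dᴴ * Hᴴ := by
      rw [← Matrix.mul_assoc, hQ]
    have a1 : (ε * (Dᴴ * Hᴴ) * ε) * (ε * (Dᴴ * Hᴴ) * ε) = ε * (Dᴴ * Hᴴ) * ε := by
      calc (ε * (Dᴴ * Hᴴ) * ε) * (ε * (Dᴴ * Hᴴ) * ε)
          = ε * (Dᴴ * Hᴴ) * (ε * ε) * (Dᴴ * Hᴴ) * ε := by simp only [Matrix.mul_assoc]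
        _ = ε * (Dᴴ * Hᴴ * (Dᴴ * Hᴴ)) * ε := by rw [hεε, Matrix.mul_one]; simp only [Matrix.mul_assoc]
        _ = _ := by rw [hQQ]
    have a2 : (Dᴴ * Hᴴ) * (ε * (Dᴴ * Hᴴ) * ε) = ε * (Dᴴ * Hᴴ) * ε := by
      calc (Dᴴ * Hᴴ) * (ε * (Dᴴ * Hᴴ) * ε) = Dᴴ * Hᴴ * (ε * Dᴴ) * Hᴴ * ε := by
            simp only [Matrix.mul_assoc]
        _ = -(Dᴴ * Hᴴ * Dᴴ * ε * Hᴴ * ε) := by
            rw [hεD]; simp only [Matrix.mul_neg, Matrix.neg_mul, Matrix.mul_assoc]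
        _ = -(Dᴴ * ε * Hᴴ * ε) := by rw [hQ]
        _ = ε * (Dᴴ * Hᴴ) * ε := by
            rw [hDε]; simp only [Matrix.neg_mul, Matrix.mul_assoc, neg_neg]
    have a3 : (ε * (Dᴴ * Hᴴ) * ε) * (Dᴴ * Hᴴ) = Dᴴ * Hᴴ := by
      calc (ε * (Dᴴ * Hᴴ) * ε) * (Dᴴ * Hᴴ) = ε * (Dᴴ * Hᴴ) * (ε * Dᴴ) * Hᴴ := by
            simp only [Matrix.mul_assoc]
        _ = -(ε * (Dᴴ * Hᴴ * Dᴴ) * ε * Hᴴ) := by
            rw [hεD]; simp only [Matrix.mul_neg, Matrix.neg_mul, Matrix.mul_assoc]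
        _ = -(ε * Dᴴ * ε * Hᴴ) := by rw [hQ]
        _ = Dᴴ * (ε * ε) * Hᴴ := by
            rw [hεD]; simp only [Matrix.neg_mul, Matrix.mul_assoc, neg_neg]
        _ = Dᴴ * Hᴴ := by rw [hεε, Matrix.mul_one]
    have hNN : N * N = 0 := by
      rw [hN, Matrix.sub_mul, Matrix.mul_sub, Matrix.mul_sub, a1, a2, a3, hQQ]
      abel
    have hU : (s • (ε * Dᴴ)) * (s • (Hᴴ * ε)) + (s • (Hᴴ * ε)) * (s • (ε * Dᴴ)) = 1 + N := by
      rw [Matrix.smul_mul, Matrix.mul_smul, smul_smul, hss, one_smul, Matrix.smul_mul,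
        Matrix.mul_smul, smul_smul, hss, one_smul]
      have b1 : ε * Dᴴ * (Hᴴ * ε) = ε * (Dᴴ * Hᴴ) * ε := by simp only [Matrix.mul_assoc]
      have b2 : Hᴴ * ε * (ε * Dᴴ) = Hᴴ * Dᴴ := by
        rw [Matrix.mul_assoc, ← Matrix.mul_assoc ε, hεε, Matrix.one_mul]
      rw [b1, b2, hN, ← hH2]
      abel
    refine Ctr_unit hM' (s • (Hᴴ * ε)) (1 - N) ?_ ?_
    · rw [hU, Matrix.add_mul, Matrix.mul_sub, Matrix.mul_sub, hNN]
      simp only [Matrix.mul_one, Matrix.one_mul]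
      abel
    · rw [hU, Matrix.sub_mul, Matrix.mul_add, Matrix.mul_add, hNN]
      simp only [Matrix.mul_one, Matrix.one_mul]
      abel
  obtain ⟨H', hH'⟩ := hlow
  unfold Poinc
  rw [← hΦ, ← hD, ← hε, ← hs]
  have hMM : fromBlocks D Φ 0 (s • (ε * Dᴴ)) * fromBlocks D Φ 0 (s • (ε * Dᴴ)) = 0 := by
    rw [fromBlocks_multiply, hDD, hΦD, hM']
    simp
  have hU : fromBlocks D Φ 0 (s • (ε * Dᴴ)) * fromBlocks H 0 0 H' +
      fromBlocks H 0 0 H' * fromBlocks D Φ 0 (s • (ε * Dᴴ)) =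
      fromBlocks 1 (Φ * H' + H * Φ) 0 1 := by
    rw [fromBlocks_multiply, fromBlocks_multiply, fromBlocks_add]
    simp only [Matrix.mul_zero, Matrix.zero_mul, add_zero, zero_add]
    rw [hH', hD, hH]
  refine Ctr_unit hMM (fromBlocks H 0 0 H') (fromBlocks 1 (-(Φ * H' + H * Φ)) 0 1) ?_ ?_
  · rw [hU, fromBlocks_multiply]
    simp
  · rw [hU, fromBlocks_multiply]
    simp

theorem contr_of_ex {R : Type} [Ring R] (X : FC R) (h : ∀ i, X.Ex i) : Contr X.D := by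
  classical
  obtain ⟨k, hk⟩ : ∃ k : ℤ, ∀ a, k < X.deg a := by
    obtain ⟨M, hM⟩ := (Set.finite_range X.deg).bddBelow
    exact ⟨M - 1, fun a => by have := hM ⟨a, rfl⟩; omega⟩
  obtain ⟨H, -, -, hH⟩ := nh (⊤ : AddSubgroup R) X (fun a => -X.deg a) X.D (fun _ => 1)
    (fun _ => Or.inl rfl) k 0 (fun a => (hk a).le) (fun _ _ _ _ => trivial) 1
    (fun _ _ => trivial)
    (fun a b hab => by
      have : a = b := by by_contra h1; exact hab (Matrix.one_apply_ne h1)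
      subst this; omega)
    (fun a b => by rw [Matrix.one_mul, Matrix.mul_one, one_smul])
    (fun a ha => absurd ha (hk a).ne')
    (fun n _ v _ hv hvA => by
      obtain ⟨w, hw, hwA⟩ := h n v ⟨fun a ha => by have := hv a ha; omega, hvA⟩
      exact ⟨w, fun _ => trivial, fun b hb => by have := hw b hb; omega, hwA⟩)
  refine ⟨H, ?_⟩
  rw [← hH]
  congr 1
  ext a b
  rw [Matrix.of_apply, one_smul]

theorem lzero_of_contr {S : Type} [Ring S] [StarRing S] {E : FC S} {m : ℤ} (q : Quad E m)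
    (h : Contr E.D) : LZero q := by
  have h0 : Contr (FC.zero S).D := ⟨0, by ext a; exact a.elim⟩
  refine ⟨Ctr_poinc q h, FC.zero S, Quad.nil S m, Ctr_poinc _ h0, Ctr_null _ h0,
    Ctr_null _ ?_⟩
  obtain ⟨H, hH⟩ := h
  refine ⟨fromBlocks H 0 0 0, ?_⟩
  show fromBlocks E.D 0 0 0 * fromBlocks H 0 0 0 + fromBlocks H 0 0 0 * fromBlocks E.D 0 0 0 = 1
  rw [fromBlocks_multiply, fromBlocks_multiply, fromBlocks_add]
  simp only [Matrix.mul_zero, Matrix.zero_mul, add_zero, hH]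
  rw [← fromBlocks_one]
  congr 1
  ext a; exact a.elim

end Pool.Agent.H16.UN
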