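import Mathlib

/-!
# Quadratic L-theory with matrices (MP_c13a79_gt, Theorem U)

Everything is written with matrices over a ring with involution `star`.  A finite free complex is a
finite graded index set with a differential matrix acting on row vectors from the right.
-/

namespace Pool.Agent.H16.UN

open Matrix

/-- `sg n = (-1)^n`. -/
def sg (n : ℤ) : ℤ := if Even n then 1 else -1

/-- A finite complex of based finitely generated free (left) modules: row vectors indexed by `ι`,
graded by `deg`, with differential `v ↦ v ᵥ* D` lowering the degree by one. -/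
structure FC (R : Type) [Ring R] where
  /-- the basis -/
  ι : Type
  [ft : Fintype ι]
  [de : DecidableEq ι]
  /-- degrees of the basis elements -/
  deg : ι → ℤ
  /-- the differential -/
  D : Matrix ι ι R
  hdeg : ∀ a b, D a b ≠ 0 → deg a = deg b + 1
  hD : D * D = 0

attribute [instance] FC.ft FC.de

section basic

variable {R S : Type} [Ring R] [Ring S]

/-- the sign matrix of a complex: `(-1)^deg` on the diagonal -/
def FC.eps (X : FC R) : Matrix X.ι X.ι R := diagonal fun a => ((sg (X.deg a) : ℤ) : R)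

/-- base change along a ring homomorphism -/
@[reducible] def FC.map (f : R →+* S) (X : FC R) : FC S where
  ι := X.ι
  deg := X.deg
  D := X.D.map f
  hdeg := fun a b h => X.hdeg a b fun h0 => h (by simp [h0])
  hD := by rw [← Matrix.map_mul, X.hD]; ext; simp

/-- the empty complex -/
@[reducible] def FC.zero (R : Type) [Ring R] : FC R where
  ι := Empty
  deg := fun a => a.elim
  D := 0
  hdeg := fun a => a.elim
  hD := by simp

/-- direct sum -/
@[reducible] def FC.sum (X Y : FC R) : FC R where
  ι := X.ι ⊕ Y.ι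
  deg := Sum.elim X.deg Y.deg
  D := fromBlocks X.D 0 0 Y.D
  hdeg := by
    rintro (a | a) (b | b) h
    · exact X.hdeg a b h
    · exact absurd rfl h
    · exact absurd rfl h
    · exact Y.hdeg a b h
  hD := by rw [fromBlocks_multiply]; simp [X.hD, Y.hD]

/-- a matrix of forms `X × Y → R` (or a map) is homogeneous of degree `q` as a form: entries only
between degrees with sum `q` -/
def HF (X Y : FC R) (q : ℤ) (G : Matrix X.ι Y.ι R) : Prop :=
  ∀ a b, G a b ≠ 0 → X.deg a + Y.deg b = q

/-- `F : X → Y` is homogeneous of degree `0` as a map -/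
def HM (X Y : FC R) (F : Matrix X.ι Y.ι R) : Prop := ∀ a b, F a b ≠ 0 → X.deg a = Y.deg b

/-- chain map of degree 0, acting on row vectors by `v ↦ v ᵥ* F` -/
structure IsMap (X Y : FC R) (F : Matrix X.ι Y.ι R) : Prop where
  hom : HM X Y F
  comm : X.D * F = F * Y.D

/-- a square matrix (a differential) is contractible -/
def Contr {n : Type} [Fintype n] [DecidableEq n] (M : Matrix n n R) : Prop :=
  ∃ H : Matrix n n R, M * H + H * M = 1

end basic

section forms

variable {R : Type} [Ring R] [StarRing R]

/-- the differential of sesquilinear forms `X × Y → R`: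
`(dd G)(x, y) = G(dx, y) + (-1)^|x| G(x, dy)` -/
def dd (X Y : FC R) (G : Matrix X.ι Y.ι R) : Matrix X.ι Y.ι R :=
  X.D * G + X.eps * G * Y.Dᴴ

/-- the transposition of forms: `(TT G)(y, x) = (-1)^(|x||y|) star G(x, y)` -/
def TT (X Y : FC R) (G : Matrix X.ι Y.ι R) : Matrix Y.ι X.ι R :=
  Matrix.of fun b a => sg (X.deg a * Y.deg b) • star (G a b)

/-- a perfect pairing `P` (with inverse `P'`) of degree `m` of the complexes `X`, `Y`: it identifies `Y`
with the dual of `X` -/
structure Pair (X Y : FC R) (m : ℤ) (P : Matrix X.ι Y.ι R) (P' : Matrix Y.ι X.ι R) : Prop where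
  hom : HF X Y m P
  hom' : HF Y X m P'
  mul : P * P' = 1
  mul' : P' * P = 1
  closed : dd X Y P = 0

/-- A quadratic structure of degree `m` on a complex `E`, in the sense of Ranicki: a cycle of degree
`m` in `W ⊗ Form(E)`, i.e. forms `ψ s` of degree `m + s` with
`dd (ψ s) = ψ (s+1) + (-1)^(s+1) TT (ψ (s+1))`. -/
structure Quad (E : FC R) (m : ℤ) where
  /-- the components -/
  ψ : ℕ → Matrix E.ι E.ι R
  hom : ∀ s : ℕ, HF E E (m + s) (ψ s)
  cyc : ∀ s : ℕ, dd E E (ψ s) = ψ (s + 1) + (-1 : ℤ) ^ (s + 1) • TT E E (ψ (s + 1))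

/-- the symmetrization `(1+T)ψ₀` of a quadratic structure -/
def Quad.sym {E : FC R} {m : ℤ} (q : Quad E m) : Matrix E.ι E.ι R := q.ψ 0 + TT E E (q.ψ 0)

/-- the quadratic complex `(E, ψ)` is Poincare: the cone of the adjoint `E → E^dual` of the
symmetrization is contractible -/
def Poinc {E : FC R} {m : ℤ} (q : Quad E m) : Prop :=
  Contr (fromBlocks E.D q.sym 0 (sg m • (E.eps * E.Dᴴ)))

/-- `(E, ψ)` is null-cobordant: there are a complex `L`, a chain map `I : L → E` and forms `η s` on
`L` of degree `m - 1 + s` with `I^* ψ = boundary of η` such that the complex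
`L → E → L^dual` (with maps `I`, `Φ I^*` and homotopy `(1+T) η₀`) is contractible. -/
def NullCob {E : FC R} {m : ℤ} (q : Quad E m) : Prop :=
  ∃ (L : FC R) (I : Matrix L.ι E.ι R) (η : ℕ → Matrix L.ι L.ι R),
    IsMap L E I ∧ (∀ s : ℕ, HF L L (m - 1 + s) (η s)) ∧
    (∀ s : ℕ, I * q.ψ s * Iᴴ =
      dd L L (η s) + (η (s + 1) + (-1 : ℤ) ^ (s + 1) • TT L L (η (s + 1)))) ∧
    Contr (fromBlocks (fromBlocks (-L.D) I 0 E.D)
      (fromRows (η 0 + TT L L (η 0)) (q.sym * Iᴴ)) 0 (sg m • (L.eps * L.Dᴴ)))

end forms

end Pool.Agent.H16.UN
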