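import Pool.Agent.H16.UN.LZt

/-!
# Module Swp: exchanging `X` and `Y`

PROOF.  `𝒟.swap.quad` on `Y ⊕ X` has components
`[[TT (q2.ψ s), δ_{s0} TT P], [0, TT (q1.ψ s)]]`.  Its transpose `𝒟.swap.quad.tr` has components
`[[q2.ψ s, 0], [δ_{s0} P, q1.ψ s]]` (`TT_blocks`, `TT_TT`, `TT_map`), and the pull back along the exchange
`A = fromBlocks 0 1 1 0 : X ⊕ Y → Y ⊕ X` is `[[q1.ψ s, δ_{s0} P], [0, q2.ψ s]]`, i.e. `𝒟.quad`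
(`Quad.ext'`).  So use `lzero_tr` and `lzero_pull`.
-/

namespace Pool.Agent.H16.UN

open Matrix

variable {R S : Type} [Ring R] [StarRing R] [Ring S] [StarRing S]

omit [StarRing S] in
/-- the exchange of the two summands is a chain map -/
theorem isMap_exch (X Y : FC S) :
    IsMap (X.sum Y) (Y.sum X) (fromBlocks 0 1 1 0) where
  hom := by
    rintro (a | a) (b | b) h
    · exact absurd rfl h
    · exact HM_one X a b h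
    · exact HM_one Y a b h
    · exact absurd rfl h
  comm := by
    show fromBlocks X.D 0 0 Y.D * fromBlocks 0 1 1 0 = fromBlocks 0 1 1 0 * fromBlocks Y.D 0 0 X.D
    rw [fromBlocks_multiply, fromBlocks_multiply]
    simp

omit [StarRing S] in
theorem exch_mul (X Y : Type) [Fintype X] [Fintype Y] [DecidableEq X] [DecidableEq Y] :
    (fromBlocks 0 1 1 0 : Matrix (X ⊕ Y) (Y ⊕ X) S) *
      (fromBlocks 0 1 1 0 : Matrix (Y ⊕ X) (X ⊕ Y) S) = 1 := by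
  rw [fromBlocks_multiply]
  simp

theorem exch_conj (X Y : Type) [Fintype X] [Fintype Y] [DecidableEq X] [DecidableEq Y]
    (a : Matrix Y Y S) (b : Matrix Y X S) (c : Matrix X Y S) (d : Matrix X X S) :
    (fromBlocks 0 1 1 0 : Matrix (X ⊕ Y) (Y ⊕ X) S) * fromBlocks a b c d *
      (fromBlocks 0 1 1 0 : Matrix (X ⊕ Y) (Y ⊕ X) S)ᴴ = fromBlocks d c b a := by
  rw [fromBlocks_conjTranspose, fromBlocks_multiply, fromBlocks_multiply]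
  simp

theorem swap_tr_pull {𝒮 : Setup R S} {m : ℤ} (𝒟 : Dat 𝒮 m) :
    𝒟.swap.quad.tr.pull (isMap_exch (𝒟.X.map 𝒮.j) (𝒟.Y.map 𝒮.j)) = 𝒟.quad := by
  apply Quad.ext'
  intro s
  show (fromBlocks 0 1 1 0 : Matrix (𝒟.X.ι ⊕ 𝒟.Y.ι) (𝒟.Y.ι ⊕ 𝒟.X.ι) S) *
      TT ((𝒟.Y.map 𝒮.j).sum (𝒟.X.map 𝒮.j)) ((𝒟.Y.map 𝒮.j).sum (𝒟.X.map 𝒮.j))
        (fromBlocks (TT (𝒟.Y.map 𝒮.j) (𝒟.Y.map 𝒮.j) (𝒟.q2.ψ s))
          (if s = 0 then (TT 𝒟.X 𝒟.Y 𝒟.P).map 𝒮.j else 0) 0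
          (TT (𝒟.X.map 𝒮.j) (𝒟.X.map 𝒮.j) (𝒟.q1.ψ s))) *
      (fromBlocks 0 1 1 0 : Matrix (𝒟.X.ι ⊕ 𝒟.Y.ι) (𝒟.Y.ι ⊕ 𝒟.X.ι) S)ᴴ =
    fromBlocks (𝒟.q1.ψ s) (if s = 0 then 𝒟.P.map 𝒮.j else 0) 0 (𝒟.q2.ψ s)
  rw [TT_blocks, TT_TT, TT_TT, TT_zero, exch_conj]
  congr 1
  by_cases hs : s = 0
  · rw [if_pos hs, if_pos hs, ← TT_map 𝒮.jstar, TT_TT]
  · rw [if_neg hs, if_neg hs, TT_zero]

theorem lzero_swap {𝒮 : Setup R S} {m : ℤ} (𝒟 : Dat 𝒮 m) (h : LZero 𝒟.swap.quad) :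
    LZero 𝒟.quad := by
  have h1 := lzero_tr _ h
  have h2 := lzero_pull 𝒟.swap.quad.tr (isMap_exch (𝒟.X.map 𝒮.j) (𝒟.Y.map 𝒮.j))
    (isMap_exch (𝒟.Y.map 𝒮.j) (𝒟.X.map 𝒮.j)) (exch_mul _ _) (exch_mul _ _) h1
  rwa [swap_tr_pull] at h2

end Pool.Agent.H16.UN
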