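import Pool.Agent.H16.UN.Stp
import Pool.Agent.H16.UN.Swp
import Pool.Agent.H16.UN.Ctr

/-!
# Module Dsc: the descent

`level`: induction on `p`.  `p = 0`: `𝒟.swap.VX k 0` says that `𝒟.Y` is exact in degree `k`; `step0` and
the hypothesis.  `p + 1`: `step` gives `𝒟'` with `𝒟'.VX k p`; apply the induction hypothesis to
`𝒟'.swap` (`Dat.swap_swap`, `nilp_swap`) to get `LZero 𝒟'.swap.quad`, then `lzero_swap`.
`main`: let `d` be as in `good.top` and `k₁` with `d < m - 2 * k` for all `k ≤ k₁`.  If `X`, `Y` are exact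
above `k₁` they are exact in all degrees: by downward induction with `good.top` (for `X` with the pair
`𝒟.pair`, for `Y` with `𝒟.pair.swap`); then `contr_of_ex` for `X` and `Y`, so `𝒟.E` is contractible
(block diagonal, base change of a contraction along `j`) and `lzero_of_contr`.  By induction on `n : ℕ`:
`LZero` for all nilpotent data which are exact above `k₁ + n`: `level` with `k = k₁ + n + 1` and `p = r`
from nilpotency (a word of length `r` from cycles is a word from arbitrary vectors, hence `0`, a boundary).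
Every datum is exact above the maximum of its finitely many degrees (a vector supported in a degree
which does not occur is `0`).
-/

namespace Pool.Agent.H16.UN

open Matrix

variable {R S : Type} [Ring R] [StarRing R] [Ring S] [StarRing S] {𝒮 : Setup R S} {m : ℤ}

private theorem Dsc_W_true (Q : (Z : FC R) → (Z.ι → R) → Prop) (p : ℕ) :
    ∀ (𝒟 : Dat 𝒮 m) (x : 𝒟.X.ι → R), W Q p 𝒟 x → W (fun _ _ => True) p 𝒟 x := by
  induction p with
  | zero => intro 𝒟 x _; exact trivial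
  | succ p ih =>
    intro 𝒟 x h
    obtain ⟨y, l, hy, hx⟩ := h
    exact ⟨y, l, ih 𝒟.swap y hy, hx⟩

omit [StarRing R] in
private theorem Dsc_bd_zero (X : FC R) (i : ℤ) : X.Bd i 0 :=
  ⟨0, fun a h => absurd rfl h, by simp⟩

omit [StarRing R] in
private theorem Dsc_bdd (X : FC R) : ∃ M : ℤ, ∀ i, M < i → X.Ex i := by
  refine ⟨∑ a, |X.deg a|, fun i hi v hv => ?_⟩
  have h0 : v = 0 := by
    funext a
    by_contra ha
    have h1 := hv.1 a ha
    have h2 : |X.deg a| ≤ ∑ a, |X.deg a| :=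
      Finset.single_le_sum (f := fun a => |X.deg a|) (fun _ _ => abs_nonneg _) (Finset.mem_univ a)
    have h3 := le_abs_self (X.deg a)
    omega
  rw [h0]
  exact Dsc_bd_zero X i

theorem level (good : Good R) (k : ℤ)
    (hlow : ∀ 𝒟' : Dat 𝒮 m, 𝒟'.Nilp → (∀ i, k ≤ i → 𝒟'.X.Ex i) → (∀ i, k ≤ i → 𝒟'.Y.Ex i) →
      LZero 𝒟'.quad) (p : ℕ) (𝒟 : Dat 𝒮 m) (hn : 𝒟.Nilp) (hX : ∀ i, k < i → 𝒟.X.Ex i)
    (hY : ∀ i, k < i → 𝒟.Y.Ex i) (h : 𝒟.swap.VX k p) : LZero 𝒟.quad := by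
  induction p generalizing 𝒟 with
  | zero =>
    have hk : 𝒟.Y.Ex k := fun v hv => h v hv
    have hY' : ∀ i, k ≤ i → 𝒟.Y.Ex i := by
      intro i hi
      rcases eq_or_lt_of_le hi with rfl | hi
      · exact hk
      · exact hY i hi
    obtain ⟨𝒟', h1, h2, h3, h4⟩ := step0 good 𝒟 hn k hX hY'
    exact h4 (hlow 𝒟' h1 h2 h3)
  | succ p ih =>
    obtain ⟨𝒟', h1, h2, h3, h4, h5⟩ := step good 𝒟 hn k hX hY p h
    refine h5 (lzero_swap 𝒟' (ih 𝒟'.swap (nilp_swap h1) h3 h2 ?_))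
    rw [Dat.swap_swap]
    exact h4

/-- the bottom case: everything is exact -/
private theorem Dsc_base {d : ℤ}
    (hd : ∀ (X Y : FC R) (m : ℤ) (P : Matrix X.ι Y.ι R) (P' : Matrix Y.ι X.ι R),
      Pair X Y m P P' → ∀ k : ℤ, (∀ i, k < i → Y.Ex i) → d < m - 2 * k → X.Ex k)
    (k₁ : ℤ) (hk : d < m - 2 * k₁) (𝒟 : Dat 𝒮 m) (hX : ∀ i, k₁ < i → 𝒟.X.Ex i)
    (hY : ∀ i, k₁ < i → 𝒟.Y.Ex i) : LZero 𝒟.quad := by
  have key : ∀ n : ℕ, (∀ i, k₁ - n < i → 𝒟.X.Ex i) ∧ (∀ i, k₁ - n < i → 𝒟.Y.Ex i) := by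
    intro n
    induction n with
    | zero =>
      refine ⟨fun i hi => hX i ?_, fun i hi => hY i ?_⟩
      · simpa using hi
      · simpa using hi
    | succ n ih =>
      obtain ⟨ih1, ih2⟩ := ih
      have e1 : 𝒟.X.Ex (k₁ - n) :=
        hd 𝒟.X 𝒟.Y m 𝒟.P 𝒟.P' 𝒟.pair (k₁ - n) ih2 (by omega)
      have e2 : 𝒟.Y.Ex (k₁ - n) :=
        hd 𝒟.Y 𝒟.X m _ _ 𝒟.pair.swap (k₁ - n) ih1 (by omega)
      refine ⟨fun i hi => ?_, fun i hi => ?_⟩
      · by_cases h : k₁ - n < i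
        · exact ih1 i h
        · have : i = k₁ - n := by push_cast at hi; omega
          rw [this]; exact e1
      · by_cases h : k₁ - n < i
        · exact ih2 i h
        · have : i = k₁ - n := by push_cast at hi; omega
          rw [this]; exact e2
  have aX : ∀ i, 𝒟.X.Ex i := fun i => (key (k₁ - i + 1).toNat).1 i (by
    have := Int.self_le_toNat (k₁ - i + 1)
    omega)
  have aY : ∀ i, 𝒟.Y.Ex i := fun i => (key (k₁ - i + 1).toNat).2 i (by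
    have := Int.self_le_toNat (k₁ - i + 1)
    omega)
  obtain ⟨H, hH⟩ := contr_of_ex 𝒟.X aX
  obtain ⟨H', hH'⟩ := contr_of_ex 𝒟.Y aY
  apply lzero_of_contr
  refine ⟨(fromBlocks (H.map 𝒮.j) 0 0 (H'.map 𝒮.j) :
    Matrix (𝒟.X.ι ⊕ 𝒟.Y.ι) (𝒟.X.ι ⊕ 𝒟.Y.ι) S), ?_⟩
  have f1 : 𝒟.X.D.map 𝒮.j * H.map 𝒮.j + H.map 𝒮.j * 𝒟.X.D.map 𝒮.j = 1 := by
    rw [← Matrix.map_mul, ← Matrix.map_mul, ← Matrix.map_add 𝒮.j (map_add 𝒮.j), hH]
    simp
  have f2 : 𝒟.Y.D.map 𝒮.j * H'.map 𝒮.j + H'.map 𝒮.j * 𝒟.Y.D.map 𝒮.j = 1 := by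
    rw [← Matrix.map_mul, ← Matrix.map_mul, ← Matrix.map_add 𝒮.j (map_add 𝒮.j), hH']
    simp
  show (fromBlocks (𝒟.X.D.map 𝒮.j) 0 0 (𝒟.Y.D.map 𝒮.j) :
      Matrix (𝒟.X.ι ⊕ 𝒟.Y.ι) (𝒟.X.ι ⊕ 𝒟.Y.ι) S) * fromBlocks (H.map 𝒮.j) 0 0 (H'.map 𝒮.j) +
    fromBlocks (H.map 𝒮.j) 0 0 (H'.map 𝒮.j) *
      (fromBlocks (𝒟.X.D.map 𝒮.j) 0 0 (𝒟.Y.D.map 𝒮.j) :
      Matrix (𝒟.X.ι ⊕ 𝒟.Y.ι) (𝒟.X.ι ⊕ 𝒟.Y.ι) S) = 1
  rw [fromBlocks_multiply, fromBlocks_multiply, fromBlocks_add]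
  simp only [Matrix.mul_zero, Matrix.zero_mul, add_zero, zero_add]
  rw [f1, f2, fromBlocks_one]

/-- **nilpotent data are zero in the L-group** -/
theorem main (good : Good R) (𝒟 : Dat 𝒮 m) (hn : 𝒟.Nilp) : LZero 𝒟.quad := by
  obtain ⟨d, hd⟩ := good.top
  obtain ⟨k₁, hk⟩ : ∃ k₁ : ℤ, d < m - 2 * k₁ := ⟨(m - d - 1) / 2, by omega⟩
  have key : ∀ n : ℕ, ∀ 𝒟 : Dat 𝒮 m, 𝒟.Nilp → (∀ i, k₁ + n < i → 𝒟.X.Ex i) →
      (∀ i, k₁ + n < i → 𝒟.Y.Ex i) → LZero 𝒟.quad := by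
    intro n
    induction n with
    | zero =>
      intro 𝒟 _ hX hY
      refine Dsc_base hd k₁ hk 𝒟 (fun i hi => hX i ?_) (fun i hi => hY i ?_)
      · simpa using hi
      · simpa using hi
    | succ n ih =>
      intro 𝒟 hn hX hY
      obtain ⟨r, hr1, hr2⟩ := id hn
      refine level good (k₁ + n + 1) ?_ r 𝒟 hn ?_ ?_ ?_
      · intro 𝒟' hn' hX' hY'
        exact ih 𝒟' hn' (fun i hi => hX' i (by omega)) (fun i hi => hY' i (by omega))
      · intro i hi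
        exact hX i (by push_cast; omega)
      · intro i hi
        exact hY i (by push_cast; omega)
      · intro x hx
        have h0 : x = 0 := hr2 x (Dsc_W_true _ r _ x hx)
        rw [h0]
        exact Dsc_bd_zero _ _
  obtain ⟨M, hM⟩ := Dsc_bdd 𝒟.X
  obtain ⟨M', hM'⟩ := Dsc_bdd 𝒟.Y
  refine key (max M M' - k₁).toNat 𝒟 hn (fun i hi => hM i ?_) (fun i hi => hM' i ?_)
  · have := Int.self_le_toNat (max M M' - k₁)
    have := le_max_left M M'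
    omega
  · have := Int.self_le_toNat (max M M' - k₁)
    have := le_max_right M M'
    omega

end Pool.Agent.H16.UN
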