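import Pool.Agent.H16.UN.NH
import Pool.Agent.H16.UN.BEx

/-!
# Module FVan: closed `B`-valued forms of small degree on `Z × Z` are exact

PROOF.  Apply `nh` with `B = 𝒮.B`, the complex `Z.map 𝒮.j`, `κ = Z.ι`, `g = Z.deg`,
`A = (Z.Dᴴ).map 𝒮.j` (which is `((Z.map 𝒮.j).D)ᴴ`, `map_conj 𝒮.jstar`), `s = sg`.
`dd G = 0` reads `(Z.D G) a b + sg (deg a) • (G Dᴴ) a b = 0` (`eps_apply_left`), i.e.
`(G A) a b = - sg (deg a) • (Z.D G) a b = sg (deg a - 1) • (Z.D G) a b`.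
`h1`: for `n > k` and `v` supported in degree `q - n` (`< m - k`) use `bex` with `hco (q - n)`
(`Z.CoEx` is exactly the hypothesis of `bex`, `i' = q - n - 1 = q - 1 - n`).
`h0`: for `deg a = k` the row `G a` is supported in degree `q - k < m - k` and `(G A) a = ± (Z.D G) a = 0`,
because `Z.D a c ≠ 0` would give `deg c = k - 1 < k`; again `bex`.
The conclusion of `nh` is `Z.D H + sg(deg) • (H A) = G`, i.e. `dd H = G` (`eps_apply_left`).
-/

namespace Pool.Agent.H16.UN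

open Matrix

variable {R S : Type} [Ring R] [StarRing R] [Ring S] [StarRing S]

/-- closed forms of degree `≤ m - 1` on `Z × Z` are exact -/
theorem fvan (𝒮 : Setup R S) (Z : FC R) (k m : ℤ) (hZ : ∀ a, k ≤ Z.deg a)
    (hco : ∀ i, i < m - k → Z.CoEx i) (q : ℤ) (hq : q ≤ m - 1) (G : Matrix Z.ι Z.ι S)
    (hGB : ∀ a b, G a b ∈ 𝒮.B) (hG : HF (Z.map 𝒮.j) (Z.map 𝒮.j) q G)
    (hd : dd (Z.map 𝒮.j) (Z.map 𝒮.j) G = 0) :
    ∃ H : Matrix Z.ι Z.ι S, (∀ a b, H a b ∈ 𝒮.B) ∧ HF (Z.map 𝒮.j) (Z.map 𝒮.j) (q - 1) H ∧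
      dd (Z.map 𝒮.j) (Z.map 𝒮.j) H = G := by
  have hA : ((Z.map 𝒮.j).D)ᴴ = (Z.Dᴴ).map 𝒮.j := (map_conj 𝒮.jstar Z.D).symm
  have hcl : ∀ a b, (G * (Z.Dᴴ).map 𝒮.j) a b =
      sg ((Z.map 𝒮.j).deg a - 1) • ((Z.map 𝒮.j).D * G) a b := by
    intro a b
    have e1 : ((Z.map 𝒮.j).D * G + (Z.map 𝒮.j).eps * G * ((Z.map 𝒮.j).D)ᴴ) a b = 0 :=
      congrFun (congrFun hd a) b
    rw [hA, Matrix.add_apply, Matrix.mul_assoc, eps_apply_left] at e1
    have e2 := eq_neg_of_add_eq_zero_right e1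
    have e3 : sg ((Z.map 𝒮.j).deg a) • (sg ((Z.map 𝒮.j).deg a) • (G * (Z.Dᴴ).map 𝒮.j) a b) =
        (G * (Z.Dᴴ).map 𝒮.j) a b := by
      rw [smul_smul, sg_mul_self, one_smul]
    rw [← e3, e2, sg_sub, sg_one, mul_neg, mul_one, neg_smul, smul_neg]
  have hrow : ∀ a, G a ᵥ* (Z.Dᴴ).map 𝒮.j = fun b => (G * (Z.Dᴴ).map 𝒮.j) a b := fun a => rfl
  obtain ⟨H, h1, h2, h3⟩ := nh 𝒮.B (Z.map 𝒮.j) Z.deg ((Z.Dᴴ).map 𝒮.j) sg sg_cases k q hZ
    (fun a b x hx => 𝒮.Bl (Z.D a b) x hx) G hGB hG hcl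
    (fun a ha => by
      have hdeg : Z.deg a = k := ha
      have e0 : q - k - 1 = q - 1 - k := by ring
      have hc := hco (q - k) (by omega)
      have h4 := bex 𝒮 Z.deg Z.Dᴴ (q - k) (q - k - 1) hc (G a) (fun b => hGB a b)
        (fun b hb => by
          have h5 : Z.deg a + Z.deg b = q := hG a b hb
          omega)
        (by
          rw [hrow]
          funext b
          have h6 : ((Z.map 𝒮.j).D * G) a b = 0 := by
            rw [Matrix.mul_apply]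
            refine Finset.sum_eq_zero fun c _ => ?_
            by_cases hc : (Z.map 𝒮.j).D a c = 0
            · rw [hc, zero_mul]
            · have h7 : Z.deg a = Z.deg c + 1 := (Z.map 𝒮.j).hdeg a c hc
              have h8 := hZ c
              omega
          rw [hcl a b, h6, smul_zero]
          rfl)
      rw [e0] at h4
      exact h4)
    (fun n hn v hv hv2 hv3 => by
      have e0 : q - n - 1 = q - 1 - n := by ring
      have hc := hco (q - n) (by omega)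
      have h4 := bex 𝒮 Z.deg Z.Dᴴ (q - n) (q - n - 1) hc v hv hv2 hv3
      rw [e0] at h4
      exact h4)
  refine ⟨H, h1, h2, ?_⟩
  have h4 : (Z.map 𝒮.j).eps * H * ((Z.map 𝒮.j).D)ᴴ =
      Matrix.of (fun a b => sg ((Z.map 𝒮.j).deg a) • (H * (Z.Dᴴ).map 𝒮.j) a b) := by
    ext a b
    rw [hA, Matrix.mul_assoc, eps_apply_left, Matrix.of_apply]
  unfold dd
  rw [h4]
  exact h3

end Pool.Agent.H16.UN
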