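import Pool.Agent.H16.UN.GUf

/-!
# Amalgams: nilpotency from the normal form (module GAm)
-/

namespace Pool.Agent.H16.UN

open Matrix Pool.Agent.H17.LTh

noncomputable section

variable {G : Type} [Group G]

/-- `g` is a product of `n` factors, alternately in `A ∖ B` and in `B ∖ A`, the first one in
`A ∖ B` -/
def Alt : ℕ → Subgroup G → Subgroup G → G → Prop
  | 0, _, _, g => g = 1
  | n + 1, A, B, g => ∃ a h, a ∈ A ∧ a ∉ B ∧ Alt n B A h ∧ g = a * h

/-- the subgroups `A`, `B` of `G` generate their amalgam `A *_C B`, `C = A ∩ B`: no alternating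
product of `n > 0` factors in `A ∖ B` and `B ∖ A` is trivial -/
def IsAmalgam (A B : Subgroup G) : Prop := ∀ n, 0 < n → ¬ Alt n A B 1 ∧ ¬ Alt n B A 1

theorem IsAmalgam.symm {A B : Subgroup G} (h : IsAmalgam A B) : IsAmalgam B A :=
  fun n hn => (h n hn).symm

theorem alt_mul_right {n : ℕ} : ∀ {A B : Subgroup G} {g c : G}, Alt (n + 1) A B g → c ∈ A → c ∈ B →
    Alt (n + 1) A B (g * c) := by
  induction n with
  | zero =>
    rintro A B g c ⟨a, h, ha, hb, h1, rfl⟩ hA hB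
    have h1 : h = 1 := h1
    subst h1
    refine ⟨a * c, 1, A.mul_mem ha hA, fun hh => hb ?_, rfl, by group⟩
    exact (Subgroup.mul_mem_cancel_right B hB).1 hh
  | succ n ih =>
    rintro A B g c ⟨a, h, ha, hb, h1, rfl⟩ hA hB
    exact ⟨a, h * c, ha, hb, ih h1 hB hA, by group⟩

theorem alt_no_eq (n : ℕ) : ∀ {A B : Subgroup G}, IsAmalgam A B → ∀ {k : ℕ} {g h : G}, 0 < k →
    Alt k A B g → Alt n B A h → g ≠ h := by
  induction n with
  | zero =>
    intro A B hAB k g h hk hg hh he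
    have hh : h = 1 := hh
    subst hh; subst he
    exact (hAB k hk).1 hg
  | succ n ih =>
    rintro A B hAB k g h hk hg ⟨b, h', hb, ha, h1, rfl⟩ he
    refine ih hAB.symm (k := k + 1) (g := b⁻¹ * g) (Nat.succ_pos _) ?_ h1
      (by rw [he]; group)
    exact ⟨b⁻¹, g, B.inv_mem hb, fun hh => ha (by simpa using A.inv_mem hh), hg, rfl⟩

/-- products with different first letters are different -/
theorem alt_disj {A B : Subgroup G} (hAB : IsAmalgam A B) {n n' : ℕ} {u u' h h' c c' : G}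
    (hu : u ∈ A) (hu' : u' ∈ A) (hh : Alt n B A h) (hh' : Alt n' B A h') (hcA : c ∈ A)
    (hcB : c ∈ B) (hcA' : c' ∈ A) (hcB' : c' ∈ B) (he : u * (h * c) = u' * (h' * c')) :
    u⁻¹ * u' ∈ B := by
  by_contra hv
  have hd : Alt (n' + 1) A B (u⁻¹ * u' * h') :=
    ⟨u⁻¹ * u', h', A.mul_mem (A.inv_mem hu) hu', hv, hh', rfl⟩
  have hd2 : Alt (n' + 1) A B (u⁻¹ * u' * h' * (c' * c⁻¹)) :=
    alt_mul_right hd (A.mul_mem hcA' (A.inv_mem hcA)) (B.mul_mem hcB' (B.inv_mem hcB))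
  refine alt_no_eq n hAB (Nat.succ_pos _) hd2 hh ?_
  have : h * c = u⁻¹ * (u' * (h' * c')) := by rw [← he]; group
  calc u⁻¹ * u' * h' * (c' * c⁻¹) = (u⁻¹ * (u' * (h' * c'))) * c⁻¹ := by group
    _ = h := by rw [← this]; group

/-- the index type of an alternating product -/
def AI : ℕ → Type → Type → Type
  | 0, ι, _ => ι
  | n + 1, ι, κ => AI n κ ι

/-- `v N N' N ...` with `n` factors -/
def AP {S : Type} [Ring S] : (n : ℕ) → {ι κ : Type} → [Fintype ι] → [Fintype κ] → Matrix ι κ S →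
    Matrix κ ι S → (ι → S) → (AI n ι κ → S)
  | 0, _, _, _, _, _, _, v => v
  | n + 1, _, _, _, _, N, N', v => AP n N' N (v ᵥ* N)

theorem AP_add {S : Type} [Ring S] (n : ℕ) : ∀ {ι κ : Type} [Fintype ι] [Fintype κ]
    (N : Matrix ι κ S) (N' : Matrix κ ι S) (v v' : ι → S),
    AP n N N' (v + v') = AP n N N' v + AP n N N' v' := by
  induction n with
  | zero => intro ι κ _ _ N N' v v'; rfl
  | succ n ih =>
    intro ι κ _ _ N N' v v'
    show AP n N' N ((v + v') ᵥ* N) = AP n N' N (v ᵥ* N) + AP n N' N (v' ᵥ* N)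
    rw [Matrix.add_vecMul, ih]

theorem AP_smul {S : Type} [Ring S] (n : ℕ) : ∀ {ι κ : Type} [Fintype ι] [Fintype κ]
    (N : Matrix ι κ S) (N' : Matrix κ ι S) (s : S) (v : ι → S),
    AP n N N' (s • v) = s • AP n N N' v := by
  induction n with
  | zero => intro ι κ _ _ N N' s v; rfl
  | succ n ih =>
    intro ι κ _ _ N N' s v
    show AP n N' N ((s • v) ᵥ* N) = s • AP n N' N (v ᵥ* N)
    rw [Matrix.smul_vecMul, ih]

theorem AP_zero {S : Type} [Ring S] (n : ℕ) {ι κ : Type} [Fintype ι] [Fintype κ]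
    (N : Matrix ι κ S) (N' : Matrix κ ι S) : AP n N N' 0 = 0 := by
  have h := AP_smul n N N' 0 0
  rwa [zero_smul, zero_smul] at h

theorem AP_of_pow {S : Type} [Ring S] {ι κ : Type} [Fintype ι] [Fintype κ] [DecidableEq ι]
    (N : Matrix ι κ S) (N' : Matrix κ ι S) (r : ℕ) :
    ∀ v : ι → S, v ᵥ* (N * N') ^ r = 0 → AP (2 * r) N N' v = 0 := by
  induction r with
  | zero => intro v hv; rw [pow_zero, Matrix.vecMul_one] at hv; exact hv
  | succ r ih =>
    intro v hv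
    show AP (2 * r) N N' ((v ᵥ* N) ᵥ* N') = 0
    refine ih _ ?_
    rw [pow_succ', ← Matrix.vecMul_vecMul, ← Matrix.vecMul_vecMul] at hv
    exact hv

variable {w : G →* ℤˣ}

theorem supp_zero {U : Set G} : SuppIn U (0 : RG w) := fun _ h => absurd rfl h

theorem supp_sum {U : Set G} {κ : Type} (s : Finset κ) (f : κ → RG w)
    (h : ∀ k ∈ s, SuppIn U (f k)) : SuppIn U (∑ k ∈ s, f k) :=
  (BU w U).sum_mem h

/-- the support of a product -/
theorem supp_mul {U V : Set G} {x y : RG w} (hx : SuppIn U x) (hy : SuppIn V y) :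
    SuppIn {g | ∃ u ∈ U, ∃ v ∈ V, g = u * v} (x * y) := by
  have e : x = ∑ g ∈ x.co.support, GR.single g (x.co g) :=
    (MonoidAlgebra.sum_coeff_single x).symm
  rw [e, Finset.sum_mul]
  refine supp_sum _ _ fun g hg k hk => ?_
  rw [co_single_mul] at hk
  exact ⟨g, hx g (left_ne_zero_of_mul hk), g⁻¹ * k, hy _ (right_ne_zero_of_mul hk), by group⟩

/-- the support of an alternating product -/
theorem supp_AP (n : ℕ) : ∀ {A B : Subgroup G} {ι κ : Type} [Fintype ι] [Fintype κ]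
    (N : Matrix ι κ (RG w)) (N' : Matrix κ ι (RG w)) (_ : ∀ a b, SuppIn {g | g ∈ A ∧ g ∉ B} (N a b))
    (_ : ∀ a b, SuppIn {g | g ∈ B ∧ g ∉ A} (N' a b)) (Q : Set G) (v : ι → RG w)
    (_ : ∀ a, SuppIn Q (v a)) (x : AI n ι κ),
    SuppIn {g | ∃ q ∈ Q, ∃ h, Alt n A B h ∧ g = q * h} (AP n N N' v x) := by
  induction n with
  | zero =>
    intro A B ι κ _ _ N N' hN hN' Q v hv x g hg
    exact ⟨g, hv x g hg, 1, rfl, by group⟩
  | succ n ih =>
    intro A B ι κ _ _ N N' hN hN' Q v hv x g hg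
    have h1 : ∀ b, SuppIn {g | ∃ u ∈ Q, ∃ v ∈ {g | g ∈ A ∧ g ∉ B}, g = u * v} ((v ᵥ* N) b) :=
      fun b => supp_sum _ _ fun a _ => supp_mul (hv a) (hN a b)
    obtain ⟨q', ⟨q, hq, a, ha, rfl⟩, h, hh, rfl⟩ :=
      ih N' N hN' hN _ (v ᵥ* N) h1 x g hg
    exact ⟨q, hq, a * h, ⟨a, h, ha.1, ha.2, hh, rfl⟩, by group⟩

theorem inc_inj {C : Subgroup G} {x : RC w C} (h : inc w C x = 0) : x = 0 := by
  refine GR.ext fun c => ?_
  rw [← co_inc, h]; rfl

theorem single_mul_zero {g : G} {x : RG w} (h : GR.single g 1 * x = 0) : x = 0 := by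
  refine GR.ext fun k => ?_
  have h1 : (GR.single g 1 * x : RG w).co (g * k) = 0 := by rw [h]; rfl
  rw [co_single_mul, one_mul, inv_mul_cancel_left] at h1
  exact h1

theorem kills_of_AP (n : ℕ) : ∀ {A B C : Subgroup G} (_ : IsAmalgam A B) (_ : ∀ g, g ∈ C ↔ g ∈ A ∧ g ∈ B)
    {ι κ : Type} [Fintype ι] [Fintype κ]
    (N : Matrix ι κ (RG w)) (N' : Matrix κ ι (RG w)) (_ : ∀ a b, SuppIn {g | g ∈ A ∧ g ∉ B} (N a b))
    (_ : ∀ a b, SuppIn {g | g ∈ B ∧ g ∉ A} (N' a b)) (v : ι → RC w C)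
    (_ : AP n N N' (fun a => inc w C (v a)) = 0), Kills n N N' v := by
  induction n with
  | zero =>
    intro A B C hAB hC ι κ _ _ N N' hN hN' v h
    show v = 0
    funext a
    exact inc_inj (congrFun h a)
  | succ n ih =>
    intro A B C hAB hC ι κ _ _ N N' hN hN' v h g
    set V : κ → RG w := (fun a => inc w C (v a)) ᵥ* N with hV
    have h : AP n N' N V = 0 := h
    refine ih hAB.symm (fun g => by rw [hC, and_comm]) N' N hN' hN _ ?_
    show AP n N' N (fun b => inc w C (comp w C g (V b))) = 0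
    -- the support of `V`
    have hVs : ∀ b, SuppIn {g | g ∈ A ∧ g ∉ B} (V b) := by
      intro b
      refine supp_sum _ _ fun a _ => ?_
      exact BU_left (C := C) (U := {g | g ∈ A ∧ g ∉ B}) (fun c hc u hu =>
        ⟨A.mul_mem ((hC c).1 hc).1 hu.1, fun hh => hu.2
          ((Subgroup.mul_mem_cancel_left B ((hC c).1 hc).2).1 hh)⟩) _ (hN a b)
    by_cases hg : g ∈ A ∧ g ∉ B
    swap
    · have h0 : (fun b => inc w C (comp w C g (V b))) = 0 := by
        funext b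
        have : comp w C g (V b) = 0 := by
          refine GR.ext fun c => ?_
          rw [co_comp]
          by_contra hne
          have h1 := hVs b _ hne
          have hc := (hC c).1 c.2
          exact hg ⟨(Subgroup.mul_mem_cancel_right A hc.1).1 h1.1,
            fun hh => h1.2 (B.mul_mem hh hc.2)⟩
        rw [this, map_zero]; rfl
      rw [h0, AP_zero]
    set V₁ : κ → RG w := fun b => inc w C (comp w C g (V b)) with hV₁
    set V₂ : κ → RG w := V - (GR.single g 1 : RG w) • V₁ with hV₂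
    have hsum : (GR.single g 1 : RG w) • AP n N' N V₁ + AP n N' N V₂ = 0 := by
      rw [← AP_smul, ← AP_add, hV₂, add_sub_cancel, h]
    -- supports
    have s1 : ∀ b, SuppIn {g | g ∈ C} (V₁ b) := by
      intro b k hk
      by_contra hkC
      exact hk (co_inc_of_not_mem _ hkC)
    have s2 : ∀ b, SuppIn {k | (k ∈ A ∧ k ∉ B) ∧ g⁻¹ * k ∉ C} (V₂ b) := by
      classical
      intro b k hk
      have e : (V₂ b).co k + (GR.single g 1 * V₁ b).co k = (V b).co k := by
        rw [← Finsupp.add_apply, ← GR.co_add]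
        congr 2
        show V b - GR.single g 1 * V₁ b + GR.single g 1 * V₁ b = V b
        rw [sub_add_cancel]
      rw [hV₁, co_part] at e
      by_cases hk2 : g⁻¹ * k ∈ C
      · rw [if_pos hk2] at e
        exact absurd (by linarith) hk
      · rw [if_neg hk2, add_zero] at e
        exact ⟨hVs b k (by rw [← e]; exact hk), hk2⟩
    have p1 := supp_AP n N' N hN' hN _ V₁ s1
    have p2 := supp_AP n N' N hN' hN _ V₂ s2
    funext x
    refine single_mul_zero (g := g) ?_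
    refine GR.ext fun k => ?_
    have hs := congrArg (fun y : RG w => y.co k) (congrFun hsum x)
    have hs : (GR.single g 1 * AP n N' N V₁ x : RG w).co k + (AP n N' N V₂ x).co k = 0 := hs
    by_contra hne
    have hne2 : (AP n N' N V₂ x).co k ≠ 0 := by
      intro h0; rw [h0, add_zero] at hs; exact hne hs
    obtain ⟨q, ⟨⟨hqA, hqB⟩, hqC⟩, h', hh', e'⟩ := p2 x k hne2
    rw [co_single_mul, one_mul] at hne
    obtain ⟨c, hc, h'', hh'', e''⟩ := p1 x _ hne
    have hc' := (hC c).1 hc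
    have e3 : (g * c) * (h'' * 1) = q * (h' * 1) := by
      rw [mul_one, mul_one, ← e', mul_assoc, ← e'']; group
    have := alt_disj hAB (A.mul_mem hg.1 hc'.1) hqA hh'' hh' A.one_mem B.one_mem A.one_mem
      B.one_mem e3
    apply hqC
    have h5 : g⁻¹ * q = c * ((g * c)⁻¹ * q) := by group
    rw [h5, hC]
    refine ⟨?_, B.mul_mem hc'.2 this⟩
    rw [← h5]
    exact A.mul_mem (A.inv_mem hg.1) hqA

variable {A B : Subgroup G} {m : ℤ}

/-- for an amalgam, nilpotency can be read off in the matrices over `ℤ[G]` -/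
theorem UF0.nilpotent_of_pow (hAB : IsAmalgam A B)
    (F : UF0 w (A ⊓ B) {g | g ∈ A ∧ g ∉ B} {g | g ∈ B ∧ g ∉ A} m) (r : ℕ)
    (h : (F.N₁ * F.N₂) ^ r = 0) : F.Nilpotent := by
  have cA : ∀ (D E : Subgroup G) (hC : ∀ g ∈ A ⊓ B, g ∈ D ∧ g ∈ E) {x : RG w} (r : RC w (A ⊓ B)),
      SuppIn {g | g ∈ D ∧ g ∉ E} x → SuppIn {g | g ∈ D ∧ g ∉ E} (x * inc w (A ⊓ B) r) := by
    intro D E hC x r hx g hg
    have h1 : SuppIn {g | g ∈ A ⊓ B} (inc w (A ⊓ B) r) := fun k hk => by
      by_contra hkC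
      exact hk (co_inc_of_not_mem _ hkC)
    obtain ⟨u, hu, v, hv, rfl⟩ := supp_mul hx h1 g hg
    have hv' := hC v hv
    exact ⟨D.mul_mem hu.1 hv'.1, fun hh => hu.2 ((Subgroup.mul_mem_cancel_right E hv'.2).1 hh)⟩
  have sT : ∀ (D E : Subgroup G) {x : RG w}, SuppIn {g | g ∈ D ∧ g ∉ E} x →
      SuppIn {g | g ∈ D ∧ g ∉ E} (star x) := by
    intro D E x hx
    exact BU_star (U := {g | g ∈ D ∧ g ∉ E}) (fun u hu => ⟨D.inv_mem hu.1,
      fun hh => hu.2 (by simpa using E.inv_mem hh)⟩) hx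
  have n1 : ∀ a b, SuppIn {g | g ∈ A ∧ g ∉ B} (F.N₁ a b) := by
    intro a b
    refine supp_sum _ _ fun c _ => cA A B (fun g hg => ⟨hg.1, hg.2⟩) _ ?_
    exact (BU w _).add_mem (F.supp1 0 a c)
      ((BU w _).zsmul_mem (sT A B (F.supp1 0 c a)) _)
  have n2 : ∀ a b, SuppIn {g | g ∈ B ∧ g ∉ A} (F.N₂ a b) := by
    intro a b
    refine supp_sum _ _ fun c _ => cA B A (fun g hg => ⟨hg.2, hg.1⟩) _ ?_
    exact (BU w _).add_mem (F.supp2 0 a c)
      ((BU w _).zsmul_mem (sT B A (F.supp2 0 c a)) _)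
  refine ⟨2 * r, fun v => ?_⟩
  refine kills_of_AP (2 * r) hAB (fun g => Subgroup.mem_inf) F.N₁ F.N₂ n1 n2 v ?_
  refine AP_of_pow _ _ r _ ?_
  rw [h, Matrix.vecMul_zero]

end

end Pool.Agent.H16.UN
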