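import Pool.Agent.H16.UN.Good
import Pool.Agent.H17.L0.Defs

/-!
# Group level definitions (module GDf)

`G` a group, `C` a subgroup, `w` an orientation character of `G`; `ℤ[C] → ℤ[G]` is `inc`; the
component of `x ∈ ℤ[G]` in the left coset `g C` is `comp g x ∈ ℤ[C]`.
-/

namespace Pool.Agent.H16.UN

open Matrix Pool.Agent.H17.LTh

noncomputable section

variable {G : Type} [Group G]

/-- the group ring `ℤ[C]` of a subgroup, with the involution given by the restriction of `w` -/
abbrev RC (w : G →* ℤˣ) (C : Subgroup G) : Type := GR ℤ C (w.comp C.subtype)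

/-- the group ring `ℤ[G]` with the involution `star (∑ x_g g) = ∑ w(g) x_g g⁻¹` -/
abbrev RG (w : G →* ℤˣ) : Type := GR ℤ G w

/-- the inclusion `ℤ[C] → ℤ[G]` -/
def inc (w : G →* ℤˣ) (C : Subgroup G) : RC w C →+* RG w :=
  MonoidAlgebra.mapDomainRingHom ℤ C.subtype

/-- the component of `x` in the coset `g C`: the coefficient of `comp g x` at `c` is that of `x` at
`g c` -/
def comp (w : G →* ℤˣ) (C : Subgroup G) (g : G) : RG w →+ RC w C where
  toFun x := MonoidAlgebra.comapDomain (fun c : C => g * c)
    (fun _ _ h => Subtype.ext (mul_left_cancel h)) x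
  map_zero' := MonoidAlgebra.comapDomain_zero _ _
  map_add' _ _ := MonoidAlgebra.comapDomain_add _ _ _ _

variable {w : G →* ℤˣ} {C : Subgroup G}

theorem inc_single (c : C) (r : ℤ) :
    inc w C (GR.single c r : RC w C) = (GR.single (c : G) r : RG w) :=
  MonoidAlgebra.mapDomain_single ..

theorem co_comp (g : G) (x : RG w) (c : C) : (comp w C g x).co c = x.co (g * c) := rfl

/-- `x` is supported in `U` -/
def SuppIn (U : Set G) (x : RG w) : Prop := ∀ g, x.co g ≠ 0 → g ∈ U

end

end Pool.Agent.H16.UN
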