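import Pool.Agent.H16.UN.GAm
import Pool.Agent.H16.UN.Dsc

/-!
# The theorem at the group level, with the condition on `ℤ[C]` as a hypothesis (module GFi)
-/

namespace Pool.Agent.H16.UN

open Matrix Pool.Agent.H17.LTh

noncomputable section

variable {G : Type} [Group G] {w : G →* ℤˣ} {C : Subgroup G} {m : ℤ}

theorem zero_general (good : Good (RC w C)) {U U₁ U₂ : Set G} (h1 : U₁ ⊆ U) (h2 : U₂ ⊆ U)
    (hl : ∀ c ∈ C, ∀ u ∈ U, c * u ∈ U) (hi : ∀ u ∈ U, u⁻¹ ∈ U) (hu : ∀ u ∈ U, u * u ≠ 1)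
    (F : UF0 w C U₁ U₂ m) (h : F.Nilpotent) : LZero F.total :=
  main good (F.dat h1 h2 hl hi hu) (F.dat_nilp h1 h2 hl hi hu h)

theorem zero_amalgam {A B : Subgroup G} (hAB : IsAmalgam A B)
    (good : Good (RC w (A ⊓ B))) (hu : ∀ g, g ∈ A ∨ g ∈ B → g ∉ A ⊓ B → g * g ≠ 1)
    (F : UF0 w (A ⊓ B) {g | g ∈ A ∧ g ∉ B} {g | g ∈ B ∧ g ∉ A} m)
    (h : ∃ r, (F.N₁ * F.N₂) ^ r = 0) : LZero F.total := by
  obtain ⟨r, hr⟩ := h
  refine zero_general good (U := {g | (g ∈ A ∧ g ∉ B) ∨ (g ∈ B ∧ g ∉ A)})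
    (fun g hg => Or.inl hg) (fun g hg => Or.inr hg) ?_ ?_ ?_ F (F.nilpotent_of_pow hAB r hr)
  · rintro c hc u (hu | hu)
    · exact Or.inl ⟨A.mul_mem hc.1 hu.1, fun hh => hu.2
        ((Subgroup.mul_mem_cancel_left B hc.2).1 hh)⟩
    · exact Or.inr ⟨B.mul_mem hc.2 hu.1, fun hh => hu.2
        ((Subgroup.mul_mem_cancel_left A hc.1).1 hh)⟩
  · rintro u (hu | hu)
    · exact Or.inl ⟨A.inv_mem hu.1, fun hh => hu.2 (by simpa using B.inv_mem hh)⟩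
    · exact Or.inr ⟨B.inv_mem hu.1, fun hh => hu.2 (by simpa using A.inv_mem hh)⟩
  · rintro u (h | h)
    · exact hu u (Or.inl h.1) fun hh => h.2 hh.2
    · exact hu u (Or.inr h.1) fun hh => h.2 hh.1

end

end Pool.Agent.H16.UN
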