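import Pool.Agent.H16.UN.GDf

/-!
# The setting `ℤ[C] ⊆ ℤ[G]`, `B = ℤ[U]` (module GSe)
-/

namespace Pool.Agent.H16.UN

open Matrix Pool.Agent.H17.LTh

noncomputable section

variable {G : Type} [Group G] {w : G →* ℤˣ} {C : Subgroup G}

theorem co_single_mul (x : RG w) (r : ℤ) (g h : G) :
    (GR.single g r * x).co h = r * x.co (g⁻¹ * h) :=
  MonoidAlgebra.coeff_single_mul_apply (R := ℤ) (G := G) x r g h

theorem co_mul_single (x : RG w) (r : ℤ) (g h : G) :
    (x * GR.single g r).co h = x.co (h * g⁻¹) * r :=
  MonoidAlgebra.coeff_mul_single_apply (R := ℤ) (G := G) x r g h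

theorem co_mul_singleC (x : RC w C) (r : ℤ) (g h : C) :
    (x * GR.single g r).co h = x.co (h * g⁻¹) * r :=
  MonoidAlgebra.coeff_mul_single_apply (R := ℤ) (G := C) x r g h

theorem co_star (x : RG w) (h : G) : (star x).co h = ((w h : ℤˣ) : ℤ) * x.co h⁻¹ := by
  classical
  induction x using GR.induction with
  | zero => rw [star_zero]; simp
  | single g r =>
    rw [GR.star_single, GR.co_single, GR.co_single]
    by_cases hg : g⁻¹ = h
    · subst hg
      rw [if_pos rfl, inv_inv, if_pos rfl, map_inv, Int.units_inv_eq_self, smul_eq_mul]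
    · rw [if_neg hg, if_neg (fun h2 => hg (by rw [h2, inv_inv])), mul_zero]
  | add x y hx hy => rw [star_add, GR.co_add, GR.co_add, Finsupp.add_apply, hx, hy,
      Finsupp.add_apply, mul_add]

theorem inc_star (r : RC w C) : inc w C (star r) = star (inc w C r) := by
  induction r using GR.induction with
  | zero => rw [star_zero, map_zero, star_zero]
  | single g r => rw [GR.star_single, inc_single, inc_single, GR.star_single]; rfl
  | add x y hx hy => rw [star_add, map_add, map_add, star_add, hx, hy]

theorem comp_mul (g : G) (b : RG w) (r : RC w C) :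
    comp w C g (b * inc w C r) = comp w C g b * r := by
  induction r using GR.induction with
  | zero => rw [map_zero, mul_zero, mul_zero, map_zero]
  | single c r =>
    rw [inc_single]
    refine GR.ext fun d => ?_
    rw [co_comp, co_mul_single, co_mul_singleC, co_comp]
    simp [mul_assoc]
  | add x y hx hy => rw [map_add, mul_add, mul_add, map_add, hx, hy]

theorem co_inc (r : RC w C) (c : C) : (inc w C r).co c = r.co c := by
  classical
  induction r using GR.induction with
  | zero => rw [map_zero]; simp
  | single g r =>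
    rw [inc_single, GR.co_single, GR.co_single]
    simp only [Subtype.coe_inj]
  | add x y hx hy => rw [map_add, GR.co_add, GR.co_add, Finsupp.add_apply, hx, hy,
      Finsupp.add_apply]

theorem co_inc_of_not_mem (r : RC w C) {g : G} (hg : g ∉ C) : (inc w C r).co g = 0 := by
  classical
  induction r using GR.induction with
  | zero => rw [map_zero]; simp
  | single c r =>
    rw [inc_single, GR.co_single, if_neg (fun h => hg (by rw [← h]; exact c.2))]
  | add x y hx hy => rw [map_add, GR.co_add, Finsupp.add_apply, hx, hy, add_zero]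

/-- `u * inc (comp u x)` is the part of `x` in the coset `u C` -/
theorem co_part (u : G) (x : RG w) (g : G) [Decidable (u⁻¹ * g ∈ C)] :
    (GR.single u 1 * inc w C (comp w C u x)).co g = if u⁻¹ * g ∈ C then x.co g else 0 := by
  rw [co_single_mul, one_mul]
  by_cases h : u⁻¹ * g ∈ C
  · rw [if_pos h]
    have := co_inc (comp w C u x) ⟨u⁻¹ * g, h⟩
    rw [co_comp] at this
    simpa using this
  · rw [if_neg h, co_inc_of_not_mem _ h]

/-- the part of `x` with support in `U` -/
def part (U : Set G) [DecidablePred (· ∈ U)] : RG w →+ RG w where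
  toFun x := MonoidAlgebra.ofCoeff (x.co.filter (· ∈ U))
  map_zero' := by
    refine GR.ext fun g => ?_
    show (Finsupp.filter _ (0 : G →₀ ℤ)) g = 0
    rw [Finsupp.filter_zero]; rfl
  map_add' x y := by
    refine GR.ext fun g => ?_
    show (Finsupp.filter _ (x.co + y.co)) g = (Finsupp.filter _ x.co) g + (Finsupp.filter _ y.co) g
    rw [Finsupp.filter_add]; rfl

theorem co_part' (U : Set G) [DecidablePred (· ∈ U)] (x : RG w) (g : G) :
    (part U x).co g = if g ∈ U then x.co g else 0 :=
  Finsupp.filter_apply _ _ _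

/-- the additive group of the elements supported in `U` -/
def BU (w : G →* ℤˣ) (U : Set G) : AddSubgroup (RG w) where
  carrier := {x | SuppIn U x}
  zero_mem' := fun g h => absurd rfl h
  add_mem' := by
    intro x y hx hy g h
    by_contra hg
    apply h
    rw [GR.co_add, Finsupp.add_apply, not_not.1 fun h' => hg (hx g h'),
      not_not.1 fun h' => hg (hy g h'), add_zero]
  neg_mem' := by
    intro x hx g h
    refine hx g fun h' => h ?_
    have : (-x + x).co g = 0 := by rw [neg_add_cancel]; rfl
    rw [GR.co_add, Finsupp.add_apply, h', add_zero] at this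
    exact this

theorem mem_BU {U : Set G} {x : RG w} : x ∈ BU w U ↔ SuppIn U x := Iff.rfl

theorem BU_single {U : Set G} {g : G} (hg : g ∈ U) (r : ℤ) : (GR.single g r : RG w) ∈ BU w U := by
  classical
  intro h hh
  rw [GR.co_single] at hh
  by_cases e : g = h
  · rwa [← e]
  · rw [if_neg e] at hh; exact absurd rfl hh

theorem BU_left {U : Set G} (hU : ∀ c ∈ C, ∀ u ∈ U, c * u ∈ U) (r : RC w C) {b : RG w}
    (hb : b ∈ BU w U) : inc w C r * b ∈ BU w U := by
  induction r using GR.induction with
  | zero => rw [map_zero, zero_mul]; exact (BU w U).zero_mem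
  | single c r =>
    rw [inc_single]
    intro g hg
    rw [co_single_mul] at hg
    have h1 := hb _ (right_ne_zero_of_mul hg)
    have h2 := hU _ c.2 _ h1
    rwa [mul_inv_cancel_left] at h2
  | add x y hx hy => rw [map_add, add_mul]; exact (BU w U).add_mem hx hy

theorem BU_star {U : Set G} (hU : ∀ u ∈ U, u⁻¹ ∈ U) {b : RG w} (hb : b ∈ BU w U) :
    star b ∈ BU w U := by
  intro g hg
  rw [co_star] at hg
  have h1 := hU _ (hb _ (right_ne_zero_of_mul hg))
  rwa [inv_inv] at h1

/-- the representative of a left coset -/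
def rep (l : G ⧸ C) : G := Quotient.out l

theorem rep_mem (g : G) : (rep (g : G ⧸ C))⁻¹ * g ∈ C :=
  QuotientGroup.eq.1 (Quotient.out_eq (g : G ⧸ C))

theorem rep_unique {l : G ⧸ C} {g : G} (h : (rep l)⁻¹ * g ∈ C) : (g : G ⧸ C) = l := by
  rw [← QuotientGroup.eq.2 h]
  exact Quotient.out_eq l

theorem rep_mem_U {U : Set G} (hl : ∀ c ∈ C, ∀ u ∈ U, c * u ∈ U) (hi : ∀ u ∈ U, u⁻¹ ∈ U) {g : G}
    (hg : g ∈ U) : rep (g : G ⧸ C) ∈ U := by
  have h1 := hl _ (rep_mem g) _ (hi g hg)
  rw [mul_assoc, mul_inv_cancel, mul_one] at h1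
  have h2 := hi _ h1
  rwa [inv_inv] at h2

theorem tate_aux {U H : Set G} [DecidablePred (· ∈ H)]
    (hH : ∀ g ∈ U, (g ∈ H ∧ g⁻¹ ∉ H) ∨ (g ∉ H ∧ g⁻¹ ∈ H)) {b : RG w} (hb : b ∈ BU w U) :
    part H b + star (part H (star b)) = b := by
  refine GR.ext fun g => ?_
  rw [GR.co_add, Finsupp.add_apply, co_star, co_part', co_part', co_star]
  have h1 : ((w g : ℤˣ) : ℤ) * (((w g⁻¹ : ℤˣ) : ℤ) * b.co g⁻¹⁻¹) = b.co g := by
    rw [← mul_assoc, ← Units.val_mul, ← map_mul, mul_inv_cancel, map_one, Units.val_one, one_mul,
      inv_inv]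
  by_cases hg : b.co g = 0
  · rw [mul_ite, h1, hg, mul_zero, ite_self, ite_self, add_zero]
  · rw [mul_ite, h1, mul_zero]
    rcases hH g (hb g hg) with ⟨h2, h3⟩ | ⟨h2, h3⟩
    · rw [if_pos h2, if_neg h3, add_zero]
    · rw [if_neg h2, if_pos h3, zero_add]

/-- the setting of the surgery argument -/
def gsetup (w : G →* ℤˣ) (C : Subgroup G) (U : Set G) (hl : ∀ c ∈ C, ∀ u ∈ U, c * u ∈ U)
    (hi : ∀ u ∈ U, u⁻¹ ∈ U) (h2 : ∀ u ∈ U, u * u ≠ 1) : Setup (RC w C) (RG w) :=
  letI : LinearOrder G := IsWellOrder.linearOrder WellOrderingRel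
  letI : DecidablePred (· ∈ U) := Classical.decPred _
  { j := inc w C
    jstar := inc_star
    B := BU w U
    Bl := fun r _ hb => BU_left hl r hb
    Bs := fun _ hb => BU_star hi hb
    J := G ⧸ C
    u := fun l => if rep l ∈ U then GR.single (rep l) 1 else 0
    hu := by
      intro l
      by_cases h : rep l ∈ U
      · rw [if_pos h]; exact BU_single h 1
      · rw [if_neg h]; exact (BU w U).zero_mem
    c := fun l => comp w C (rep l)
    c_mul := fun l b _ r => comp_mul _ _ _
    c_rec := by
      classical
      intro b hb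
      refine ⟨Finset.image (fun g : G => (QuotientGroup.mk g : G ⧸ C)) b.co.support, ?_, ?_⟩
      · intro l hl'
        refine GR.ext fun c => ?_
        rw [co_comp]
        by_contra h
        apply hl'
        rw [Finset.mem_image]
        refine ⟨rep l * (c : G), Finsupp.mem_support_iff.2 h, ?_⟩
        exact rep_unique (by rw [inv_mul_cancel_left]; exact c.2)
      · refine GR.ext fun g => ?_
        have hs : ∀ (s : Finset (G ⧸ C)) (f : G ⧸ C → RG w),
            (∑ l ∈ s, f l).co g = ∑ l ∈ s, (f l).co g := by
          intro s f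
          induction s using Finset.induction_on with
          | empty => rfl
          | insert a s ha ih =>
            rw [Finset.sum_insert ha, Finset.sum_insert ha, GR.co_add, Finsupp.add_apply, ih]
        rw [hs]
        by_cases hg : b.co g = 0
        · rw [hg]
          symm
          refine Finset.sum_eq_zero fun l _ => ?_
          by_cases h : rep l ∈ U
          · rw [if_pos h, co_part]
            split_ifs <;> simp [hg]
          · rw [if_neg h, zero_mul]; rfl
        · rw [Finset.sum_eq_single (g : G ⧸ C)]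
          · rw [if_pos (rep_mem_U hl hi (hb g hg)), co_part, if_pos (rep_mem g)]
          · intro l _ hne
            by_cases h : rep l ∈ U
            · rw [if_pos h, co_part, if_neg]
              intro h'
              exact hne (rep_unique h').symm
            · rw [if_neg h, zero_mul]; rfl
          · intro h
            exact absurd (Finset.mem_image.2 ⟨g, Finsupp.mem_support_iff.2 hg, rfl⟩) h
    π := part {g | g ∈ U ∧ g < g⁻¹}
    hπ := by
      intro b hb g hg
      rw [co_part'] at hg
      by_cases h : g ∈ {g | g ∈ U ∧ g < g⁻¹}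
      · exact h.1
      · rw [if_neg h] at hg; exact absurd rfl hg
    tate := by
      intro b hb
      refine tate_aux (fun g hg => ?_) hb
      have hne : g ≠ g⁻¹ := fun h => h2 g hg (by nth_rewrite 2 [h]; exact mul_inv_cancel g)
      rcases lt_or_gt_of_ne hne with h | h
      · left
        refine ⟨⟨hg, h⟩, fun h' => ?_⟩
        have h3 := h'.2
        rw [inv_inv] at h3
        exact lt_asymm h h3
      · right
        refine ⟨fun h' => lt_asymm h h'.2, ⟨hi g hg, ?_⟩⟩
        rw [inv_inv]
        exact h }

end

end Pool.Agent.H16.UN
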