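import Pool.Agent.H16.UN.GSe
import Pool.Agent.H16.UN.NMp

/-!
# Unilateral forms over `ℤ[C]` with values in `ℤ[G]` (module GUf)
-/

namespace Pool.Agent.H16.UN

open Matrix Pool.Agent.H17.LTh

noncomputable section

variable {G : Type} [Group G]

/-- the quadratic structure `[[ψ₁, P],[0, ψ₂]]` on `X ⊕ Y` over `S` -/
def tot {R S : Type} [Ring R] [StarRing R] [Ring S] [StarRing S] {j : R →+* S}
    (hj : ∀ r, j (star r) = star (j r)) {X Y : FC R} {m : ℤ} {P : Matrix X.ι Y.ι R}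
    {P' : Matrix Y.ι X.ι R} (h : Pair X Y m P P') (q1 : Quad (X.map j) m)
    (q2 : Quad (Y.map j) m) : Quad ((X.map j).sum (Y.map j)) m where
  ψ := fun s => fromBlocks (q1.ψ s) (if s = 0 then P.map j else 0) 0 (q2.ψ s)
  hom := fun s => by
    refine HF_blocks (q1.hom s) ?_ (HF_zero _ _ _) (q2.hom s)
    by_cases hs : s = 0
    · subst hs
      rw [if_pos rfl, Nat.cast_zero, add_zero]
      exact h.hom.map j
    · rw [if_neg hs]
      exact HF_zero _ _ _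
  cyc := fun s => by
    have h : dd (X.map j) (Y.map j) (if s = 0 then P.map j else 0) = 0 := by
      by_cases hs : s = 0
      · rw [if_pos hs, dd_map hj, h.closed]
        ext a b; simp
      · rw [if_neg hs, dd_zero]
    rw [dd_blocks, TT_blocks, h, q1.cyc, q2.cyc, fromBlocks_smul, fromBlocks_add,
      if_neg (Nat.succ_ne_zero s), TT_zero, TT_zero]
    simp [dd_zero]

/-- A unilateral quadratic form of degree `m` over `ℤ[C]` with values in `(ℤ[U₁], ℤ[U₂])`: complexes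
`X`, `Y` of based f.g. free `ℤ[C]`-modules, dual to each other by a perfect pairing `P` of degree
`m`, and quadratic structures of degree `m` on `ℤ[G] ⊗ X` with values in `ℤ[U₁]` and on `ℤ[G] ⊗ Y`
with values in `ℤ[U₂]`. -/
structure UF0 (w : G →* ℤˣ) (C : Subgroup G) (U₁ U₂ : Set G) (m : ℤ) where
  /-- the first complex -/
  X : FC (RC w C)
  /-- the second complex -/
  Y : FC (RC w C)
  /-- the pairing `X × Y → ℤ[C]` -/
  P : Matrix X.ι Y.ι (RC w C)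
  /-- its inverse -/
  P' : Matrix Y.ι X.ι (RC w C)
  pair : Pair X Y m P P'
  /-- the form on `X` -/
  q1 : Quad (X.map (inc w C)) m
  /-- the form on `Y` -/
  q2 : Quad (Y.map (inc w C)) m
  supp1 : ∀ s a b, SuppIn U₁ (q1.ψ s a b)
  supp2 : ∀ s a b, SuppIn U₂ (q2.ψ s a b)

variable {w : G →* ℤˣ} {C : Subgroup G} {U₁ U₂ U : Set G} {m : ℤ}

/-- the quadratic complex `(ℤ[G] ⊗ (X ⊕ Y), [[ψ₁, P],[0, ψ₂]])` over `ℤ[G]` -/
def UF0.total (F : UF0 w C U₁ U₂ m) :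
    Quad ((F.X.map (inc w C)).sum (F.Y.map (inc w C))) m :=
  tot inc_star F.pair F.q1 F.q2

/-- the adjoint `X → ℤ[G] ⊗ Y` of the symmetrization of `q1` -/
def UF0.N₁ (F : UF0 w C U₁ U₂ m) : Matrix F.X.ι F.Y.ι (RG w) :=
  F.q1.sym * (TT F.Y F.X F.P').map (inc w C)

/-- the adjoint `Y → ℤ[G] ⊗ X` of the symmetrization of `q2` -/
def UF0.N₂ (F : UF0 w C U₁ U₂ m) : Matrix F.Y.ι F.X.ι (RG w) :=
  F.q2.sym * F.P'.map (inc w C)

/-- the component in the coset `g C` of the vector `v N` -/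
def letter {ι κ : Type} [Fintype ι] (N : Matrix ι κ (RG w)) (g : G) (v : ι → RC w C) :
    κ → RC w C :=
  fun b => comp w C g (((fun a => inc w C (v a)) ᵥ* N) b)

/-- all alternating words of length `r` in the letters of `N`, `N'` (starting with `N`) kill `v` -/
def Kills : (r : ℕ) → {ι κ : Type} → [Fintype ι] → [Fintype κ] → Matrix ι κ (RG w) →
    Matrix κ ι (RG w) → (ι → RC w C) → Prop
  | 0, _, _, _, _, _, _, v => v = 0
  | r + 1, _, _, _, _, N, N', v => ∀ g : G, Kills r N' N (letter N g v)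

/-- nilpotency: for some `r` the iterated map `X → ℤ[G] ⊗_C Y → ℤ[G] ⊗_C ℤ[G] ⊗_C X → ...` with
`r` factors is zero -/
def UF0.Nilpotent (F : UF0 w C U₁ U₂ m) : Prop :=
  ∃ r : ℕ, ∀ v : F.X.ι → RC w C, Kills r F.N₁ F.N₂ v

theorem letter_zero {ι κ : Type} [Fintype ι] (N : Matrix ι κ (RG w)) (g : G) :
    letter N g (0 : ι → RC w C) = 0 := by
  have h : (fun a => inc w C ((0 : ι → RC w C) a)) = 0 := by funext a; exact map_zero _
  funext b
  unfold letter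
  rw [h, Matrix.zero_vecMul]
  exact map_zero _

theorem Kills.succ {r : ℕ} : ∀ {ι κ : Type} [Fintype ι] [Fintype κ] {N : Matrix ι κ (RG w)}
    {N' : Matrix κ ι (RG w)} {v : ι → RC w C}, Kills r N N' v → Kills (r + 1) N N' v := by
  induction r with
  | zero =>
    intro ι κ _ _ N N' v h g
    have h : v = 0 := h
    show letter N g v = 0
    rw [h, letter_zero]
  | succ r ih => intro ι κ _ _ N N' v h g; exact ih (h g)

/-- the datum of a unilateral form -/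
@[reducible] def UF0.dat (F : UF0 w C U₁ U₂ m) (h1 : U₁ ⊆ U) (h2 : U₂ ⊆ U)
    (hl : ∀ c ∈ C, ∀ u ∈ U, c * u ∈ U) (hi : ∀ u ∈ U, u⁻¹ ∈ U) (hu : ∀ u ∈ U, u * u ≠ 1) :
    Dat (gsetup w C U hl hi hu) m where
  X := F.X
  Y := F.Y
  P := F.P
  P' := F.P'
  pair := F.pair
  q1 := F.q1
  q2 := F.q2
  b1 := fun s a b g hg => h1 (F.supp1 s a b g hg)
  b2 := fun s a b g hg => h2 (F.supp2 s a b g hg)

theorem swap_N {R S : Type} [Ring R] [StarRing R] [Ring S] [StarRing S] {𝒮 : Setup R S}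
    (𝒟 : Dat 𝒮 m) : 𝒟.swap.N = 𝒟.q2.sym * 𝒟.P'.map 𝒮.j := by
  show 𝒟.q2.tr.sym * (TT 𝒟.X 𝒟.Y (TT 𝒟.Y 𝒟.X 𝒟.P')).map 𝒮.j = _
  rw [TT_TT, tr_sym]

theorem swap_swap_N {R S : Type} [Ring R] [StarRing R] [Ring S] [StarRing S] {𝒮 : Setup R S}
    (𝒟 : Dat 𝒮 m) : 𝒟.swap.swap.N = 𝒟.N := by
  show 𝒟.q1.tr.tr.sym * (TT 𝒟.Y 𝒟.X (TT 𝒟.X 𝒟.Y (TT 𝒟.Y 𝒟.X 𝒟.P'))).map 𝒮.j = _
  rw [TT_TT, tr_sym, tr_sym]
  rfl

/-- words of a datum are killed -/
theorem kills_word {𝒮 : Setup (RC w C) (RG w)} (e : 𝒮.J → G) (hj : 𝒮.j = inc w C)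
    (hc : ∀ l, 𝒮.c l = comp w C (e l)) (p : ℕ) :
    ∀ (𝒟 : Dat 𝒮 m) (q : ℕ),
      (∀ v : 𝒟.X.ι → RC w C, Kills (p + q) 𝒟.N 𝒟.swap.N v) →
      (∀ v : 𝒟.Y.ι → RC w C, Kills (p + q) 𝒟.swap.N 𝒟.N v) →
      ∀ x : 𝒟.X.ι → RC w C, W (fun _ _ => True) p 𝒟 x → Kills q 𝒟.N 𝒟.swap.N x := by
  induction p with
  | zero => intro 𝒟 q h _ x _; have := h x; rwa [zero_add] at this
  | succ p ih =>
    intro 𝒟 q h h' x hx
    obtain ⟨y, l, hy, rfl⟩ := hx
    have h3 : Kills (q + 1) 𝒟.swap.N 𝒟.swap.swap.N y := by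
      refine ih 𝒟.swap (q + 1) ?_ ?_ y hy
      · intro v
        have := h' v
        rw [show p + 1 + q = p + (q + 1) by ring] at this
        rw [swap_swap_N]; exact this
      · intro v
        have := h v
        rw [show p + 1 + q = p + (q + 1) by ring] at this
        rw [swap_swap_N]; exact this
    have h4 := h3 (e l)
    rw [swap_swap_N] at h4
    have h5 : 𝒟.swap.st l y = letter 𝒟.swap.N (e l) y := by
      unfold Dat.st letter
      rw [hc, hj]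
    rw [h5]
    exact h4

theorem UF0.dat_nilp (F : UF0 w C U₁ U₂ m) (h1 : U₁ ⊆ U) (h2 : U₂ ⊆ U)
    (hl : ∀ c ∈ C, ∀ u ∈ U, c * u ∈ U) (hi : ∀ u ∈ U, u⁻¹ ∈ U) (hu : ∀ u ∈ U, u * u ≠ 1)
    (h : F.Nilpotent) : (F.dat h1 h2 hl hi hu).Nilp := by
  obtain ⟨r, hr⟩ := h
  have e2 : (F.dat h1 h2 hl hi hu).swap.N = F.N₂ := swap_N _
  have e3 : (F.dat h1 h2 hl hi hu).swap.swap.N = F.N₁ := swap_swap_N _
  have a1 : ∀ v, Kills (r + 1) F.N₁ F.N₂ v := fun v => (hr v).succ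
  have a2 : ∀ v : F.Y.ι → RC w C, Kills (r + 1) F.N₂ F.N₁ v := fun v g => hr _
  have hc : ∀ l, (gsetup w C U hl hi hu).c l = comp w C (rep l) := fun l => rfl
  refine ⟨r + 1, ?_, ?_⟩
  · intro x hx
    have := kills_word (𝒮 := gsetup w C U hl hi hu) rep rfl hc (r + 1) (F.dat h1 h2 hl hi hu) 0
      (by intro v; rw [e2]; exact a1 v) (by intro v; rw [e2]; exact a2 v) x hx
    exact this
  · intro x hx
    have := kills_word (𝒮 := gsetup w C U hl hi hu) rep rfl hc (r + 1)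
      (F.dat h1 h2 hl hi hu).swap 0
      (by intro v; rw [e2, e3]; exact a2 v) (by intro v; rw [e2, e3]; exact a1 v) x hx
    exact this

end

end Pool.Agent.H16.UN
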