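import Pool.Agent.H16.UN.Dat

/-! # The properties of the coefficient ring used by the surgery argument (module Good) -/

namespace Pool.Agent.H16.UN

open Matrix

/-- The properties (g1), (g2), (g3) of a ring with involution `R`.

* `res`: submodules of the homology in the top degree `k` of a complex `X` (exact above `k`) have
  finite free resolutions `Z` in degrees `≥ k`, with a chain map `F : Z → X` inducing the inclusion;
* `aus` (Auslander's condition): if `X`, `Y` are dual of degree `m` and `Y` is exact above `k` (so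
  that `H_k(X) = Ext^(m-2k)(N, R)`), the dual of such a `Z` is exact in degrees `< m - k`;
* `top`: `H_k(X) = 0` in this situation when `m - 2k` is large. -/
structure Good (R : Type) [Ring R] [StarRing R] : Prop where
  res : ∀ (X : FC R) (k : ℤ) (K : Submodule R (X.ι → R)),
    (∀ v ∈ K, X.Cyc k v) → (∀ v, X.Bd k v → v ∈ K) → (∀ i, k < i → X.Ex i) →
    ∃ (Z : FC R) (F : Matrix Z.ι X.ι R), IsMap Z X F ∧ (∀ a, k ≤ Z.deg a) ∧
      (∀ i, k < i → Z.Ex i) ∧ (∀ z, Z.Hom k z → z ᵥ* F ∈ K) ∧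
      (∀ v ∈ K, ∃ z, Z.Hom k z ∧ X.Bd k (v - z ᵥ* F)) ∧
      (∀ z, Z.Hom k z → X.Bd k (z ᵥ* F) → Z.Bd k z)
  aus : ∀ (X Y : FC R) (m : ℤ) (P : Matrix X.ι Y.ι R) (P' : Matrix Y.ι X.ι R),
    Pair X Y m P P' → ∀ k : ℤ, (∀ i, k < i → Y.Ex i) →
    ∀ (Z : FC R) (F : Matrix Z.ι X.ι R), IsMap Z X F → (∀ a, k ≤ Z.deg a) →
      (∀ i, k < i → Z.Ex i) → (∀ z, Z.Hom k z → X.Bd k (z ᵥ* F) → Z.Bd k z) →
      ∀ i, i < m - k → Z.CoEx i
  top : ∃ d : ℤ, ∀ (X Y : FC R) (m : ℤ) (P : Matrix X.ι Y.ι R) (P' : Matrix Y.ι X.ι R),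
    Pair X Y m P P' → ∀ k : ℤ, (∀ i, k < i → Y.Ex i) → d < m - 2 * k → X.Ex k

/-- poly-infinite-cyclic groups: the trivial group, and every group with a poly-infinite-cyclic
normal subgroup whose quotient is infinite cyclic -/
inductive PolyZ : (G : Type) → [Group G] → Prop
  | triv (G : Type) [Group G] [Subsingleton G] : PolyZ G
  | ext (G : Type) [Group G] (N : Subgroup G) [N.Normal] (e : G ⧸ N ≃* Multiplicative ℤ) :
      PolyZ N → PolyZ G

end Pool.Agent.H16.UN
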