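import Pool.Agent.H16.UN.HDf
import Pool.Agent.H16.UN.Ops

/-!
# The forms of the theorem (module HUf)
-/

namespace Pool.Agent.H16.UN

open Matrix

variable {R S : Type} [Ring R] [StarRing R] [Ring S] [StarRing S]

/-- A unilateral quadratic form of degree `m` over `R` with values in the subsets `B₁`, `B₂`, `B₀` of
`S` (`j : R → S` a homomorphism of rings with involution): complexes `X`, `Y` of based f.g. free
`R`-modules, dual to each other by a perfect pairing `P` of degree `m` (with inverse `P'`), quadratic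
structures `q1` on `X` with values in `B₁` and `q2` on `Y` with values in `B₂`, and a closed form `κ` of
degree `m` on `X × Y` with values in `B₀`. -/
structure UForm (j : R →+* S) (B₁ B₂ B₀ : Set S) (m : ℤ) where
  star_j : ∀ r, j (star r) = star (j r)
  /-- the first complex -/
  X : FC R
  /-- the second complex -/
  Y : FC R
  /-- the pairing `X × Y → R` -/
  P : Matrix X.ι Y.ι R
  /-- its inverse -/
  P' : Matrix Y.ι X.ι R
  pair : Pair X Y m P P'
  /-- the form on `X` -/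
  q1 : Quad (X.map j) m
  /-- the form on `Y` -/
  q2 : Quad (Y.map j) m
  /-- the form on `X × Y` -/
  κ : Matrix X.ι Y.ι S
  homκ : HF (X.map j) (Y.map j) m κ
  closedκ : dd (X.map j) (Y.map j) κ = 0
  mem1 : ∀ s a b, q1.ψ s a b ∈ B₁
  mem2 : ∀ s a b, q2.ψ s a b ∈ B₂
  memκ : ∀ a b, κ a b ∈ B₀

/-- the quadratic structure `[[ψ₁, Q],[0, ψ₂]]` on `X ⊕ Y`, `Q` a closed form -/
def totQ {X Y : FC S} {m : ℤ} (q1 : Quad X m) (q2 : Quad Y m) (Q : Matrix X.ι Y.ι S)
    (h : HF X Y m Q) (hd : dd X Y Q = 0) : Quad (X.sum Y) m where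
  ψ := fun s => fromBlocks (q1.ψ s) (if s = 0 then Q else 0) 0 (q2.ψ s)
  hom := fun s => by
    refine HF_blocks (q1.hom s) ?_ (HF_zero _ _ _) (q2.hom s)
    by_cases hs : s = 0
    · subst hs
      rw [if_pos rfl, Nat.cast_zero, add_zero]
      exact h
    · rw [if_neg hs]
      exact HF_zero _ _ _
  cyc := fun s => by
    have h : dd X Y (if s = 0 then Q else 0) = 0 := by
      by_cases hs : s = 0
      · rw [if_pos hs, hd]
      · rw [if_neg hs, dd_zero]
    rw [dd_blocks, TT_blocks, h, q1.cyc, q2.cyc, fromBlocks_smul, fromBlocks_add,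
      if_neg (Nat.succ_ne_zero s), TT_zero, TT_zero]
    simp [dd_zero]

variable {j : R →+* S} {B₁ B₂ B₀ : Set S} {m : ℤ}

theorem UForm.hom_tot (F : UForm j B₁ B₂ B₀ m) :
    HF (F.X.map j) (F.Y.map j) m (F.P.map j + F.κ) := by
  intro a b h
  by_cases h1 : (F.P.map j) a b = 0
  · refine F.homκ a b fun h2 => h ?_
    show (F.P.map j) a b + F.κ a b = 0
    rw [h1, h2, add_zero]
  · exact F.pair.hom.map j a b h1

theorem UForm.dd_tot (F : UForm j B₁ B₂ B₀ m) :
    dd (F.X.map j) (F.Y.map j) (F.P.map j + F.κ) = 0 := by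
  have h1 : dd (F.X.map j) (F.Y.map j) (F.P.map j) = 0 := by
    rw [dd_map F.star_j, F.pair.closed]; ext a b; simp
  rw [dd_add, h1, F.closedκ, add_zero]

/-- the quadratic complex `(S ⊗ (X ⊕ Y), [[ψ₁, P + κ],[0, ψ₂]])` over `S` -/
def UForm.total (F : UForm j B₁ B₂ B₀ m) : Quad ((F.X.map j).sum (F.Y.map j)) m :=
  totQ F.q1 F.q2 (F.P.map j + F.κ) F.hom_tot F.dd_tot

/-- the symmetrization of `[[ψ₁, κ],[0, ψ₂]]`, composed with the inverse of the symmetrization of
`[[0, P],[0, 0]]`: an endomorphism of `S ⊗ (X ⊕ Y)` -/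
def UForm.N (F : UForm j B₁ B₂ B₀ m) : Matrix (F.X.ι ⊕ F.Y.ι) (F.X.ι ⊕ F.Y.ι) S :=
  fromBlocks F.q1.sym F.κ (TT (F.X.map j) (F.Y.map j) F.κ) F.q2.sym *
    (fromBlocks 0 (TT F.Y F.X F.P') F.P' 0).map j

/-- nilpotency -/
def UForm.Nilpotent (F : UForm j B₁ B₂ B₀ m) : Prop := ∃ r : ℕ, F.N ^ r = 0

open Pool.Agent.H17.LTh in
/-- `ℤ[U]`, the elements of `ℤ[G]` with support in `U` -/
def ZS {G : Type} [Group G] (w : G →* ℤˣ) (U : Set G) : Set (RG w) := {x | SuppIn U x}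

/-- the unilateral quadratic forms of degree `m` over `ℤ[C]`, `C = A ∩ B`, with values in
`ℤ[A ∖ C]`, `ℤ[B ∖ C]`, `ℤ[V]` -/
abbrev SForm {G : Type} [Group G] (w : G →* ℤˣ) (A B : Subgroup G) (V : Set G) (m : ℤ) : Type 1 :=
  UForm (inc w (A ⊓ B)) (ZS w {g | g ∈ A ∧ g ∉ B}) (ZS w {g | g ∈ B ∧ g ∉ A}) (ZS w V) m

end Pool.Agent.H16.UN
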