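import Pool.Agent.H16.UN.HWd
import Pool.Agent.H16.UN.HUf
import Pool.Agent.H16.UN.GFi

/-!
# The base change (module HBc)
-/

namespace Pool.Agent.H16.UN

open Matrix Pool.Agent.H17.LTh

noncomputable section

theorem isMap_of_forms {S : Type} [Ring S] [StarRing S] {X Z Y : FC S} {m : ℤ}
    {G : Matrix X.ι Y.ι S} {P : Matrix Z.ι Y.ι S} {P' : Matrix Y.ι Z.ι S} (hG : HF X Y m G)
    (hGd : dd X Y G = 0) (hP : HF Z Y m P) (hP' : HF Y Z m P') (h1 : P * P' = 1)
    (h2 : P' * P = 1) (hPd : dd Z Y P = 0) : IsMap X Z (G * P') where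
  hom := by
    intro a c h
    rw [Matrix.mul_apply] at h
    obtain ⟨b, -, hb⟩ := Finset.exists_ne_zero_of_sum_ne_zero h
    have e1 := hG a b (left_ne_zero_of_mul hb)
    have e2 := hP' b c (right_ne_zero_of_mul hb)
    omega
  comm := by
    unfold dd at hGd hPd
    have a1 : X.D * G = -(sg m • (G * (Y.eps * Y.Dᴴ))) := by
      rw [eq_neg_of_add_eq_zero_left hGd, eps_HF hG, Matrix.smul_mul, Matrix.mul_assoc]
    have a2 : Z.D * P = -(sg m • (P * (Y.eps * Y.Dᴴ))) := by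
      rw [eq_neg_of_add_eq_zero_left hPd, eps_HF hP, Matrix.smul_mul, Matrix.mul_assoc]
    have a3 : P' * Z.D = -(sg m • ((Y.eps * Y.Dᴴ) * P')) := by
      calc P' * Z.D = P' * (Z.D * P) * P' := by
            rw [Matrix.mul_assoc, Matrix.mul_assoc, h1, Matrix.mul_one]
        _ = -(sg m • ((P' * P) * (Y.eps * Y.Dᴴ) * P')) := by
            rw [a2]
            simp only [Matrix.mul_neg, Matrix.neg_mul, Matrix.mul_smul, Matrix.smul_mul,
              Matrix.mul_assoc]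
        _ = _ := by rw [h2, Matrix.one_mul]
    calc X.D * (G * P') = (X.D * G) * P' := (Matrix.mul_assoc _ _ _).symm
      _ = -(sg m • (G * (Y.eps * Y.Dᴴ) * P')) := by
          rw [a1, Matrix.neg_mul, Matrix.smul_mul]
      _ = G * (P' * Z.D) := by
          rw [a3, Matrix.mul_neg, Matrix.mul_smul, Matrix.mul_assoc]
      _ = _ := (Matrix.mul_assoc _ _ _).symm

theorem IsMap.add {S : Type} [Ring S] {X Y : FC S} {F F' : Matrix X.ι Y.ι S} (h : IsMap X Y F)
    (h' : IsMap X Y F') : IsMap X Y (F + F') where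
  hom := by
    intro a b hab
    by_cases h0 : F a b = 0
    · exact h'.hom a b fun h1 => hab (by show F a b + F' a b = 0; rw [h0, h1, add_zero])
    · exact h.hom a b h0
  comm := by rw [Matrix.mul_add, Matrix.add_mul, h.comm, h'.comm]

theorem IsMap.neg {S : Type} [Ring S] {X Y : FC S} {F : Matrix X.ι Y.ι S} (h : IsMap X Y F) :
    IsMap X Y (-F) where
  hom := fun a b hab => h.hom a b fun h1 => hab (by show -(F a b) = 0; rw [h1, neg_zero])
  comm := by rw [Matrix.mul_neg, Matrix.neg_mul, h.comm]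

theorem IsMap.geom {S : Type} [Ring S] {X : FC S} {F : Matrix X.ι X.ι S} (h : IsMap X X F)
    (k : ℕ) : IsMap X X (∑ i ∈ Finset.range k, F ^ i) := by
  have hp : ∀ i : ℕ, IsMap X X (F ^ i) := by
    intro i
    induction i with
    | zero => rw [pow_zero]; exact IsMap_one X
    | succ i ih => rw [pow_succ]; exact ih.mul h
  induction k with
  | zero =>
    rw [Finset.sum_range_zero]
    exact ⟨fun a b h => absurd rfl h, by rw [Matrix.mul_zero, Matrix.zero_mul]⟩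
  | succ k ih => rw [Finset.sum_range_succ]; exact ih.add (hp k)

/-- `(κ P')ᴴ = (T P') (T κ)` -/
theorem conj_eq {S : Type} [Ring S] [StarRing S] {X Y Z : FC S} {m : ℤ} {κ : Matrix X.ι Y.ι S}
    {P' : Matrix Y.ι Z.ι S} (hκ : HF X Y m κ) (hP' : HF Y Z m P') :
    (κ * P')ᴴ = TT Y Z P' * TT X Y κ := by
  ext c a
  rw [conjTranspose_apply, Matrix.mul_apply, Matrix.mul_apply, star_sum]
  refine Finset.sum_congr rfl fun b _ => ?_
  simp only [TT, Matrix.of_apply]
  rw [smul_mul_smul_comm, star_mul]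
  by_cases h3 : κ a b = 0
  · simp [h3]
  by_cases h4 : P' b c = 0
  · simp [h4]
  have h5 := hκ a b h3
  have h6 := hP' b c h4
  have h7 : X.deg a = Z.deg c := by omega
  rw [h7, mul_comm (Y.deg b) (Z.deg c), sg_mul_self, one_smul]

variable {G : Type} [Group G] {w : G →* ℤˣ} {A B : Subgroup G} {V : Set G} {m : ℤ}

theorem supp_geom {X : Type} [Fintype X] [DecidableEq X] {M : Submonoid G}
    {ρ : Matrix X X (RG w)} (h : ∀ a b, SuppIn {g | g ∈ M} (ρ a b)) (k : ℕ) :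
    ∀ a b, SuppIn {g | g ∈ M} ((∑ i ∈ Finset.range k, (-ρ) ^ i) a b) := by
  have hp : ∀ (i : ℕ) (a b : X), SuppIn {g | g ∈ M} (((-ρ) ^ i) a b) := by
    intro i
    induction i with
    | zero =>
      intro a b
      rw [pow_zero]
      by_cases hab : a = b
      · subst hab
        rw [Matrix.one_apply_eq]
        exact BU_single (U := {g | g ∈ M}) M.one_mem 1
      · rw [Matrix.one_apply_ne hab]
        exact supp_zero
    | succ i ih =>
      intro a b
      rw [pow_succ]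
      refine supp_sum _ _ fun c _ => ?_
      intro g hg
      obtain ⟨u, hu, v, hv, rfl⟩ := supp_mul (ih a c) ((BU w {g | g ∈ M}).neg_mem (h c b)) g hg
      exact M.mul_mem hu hv
  intro a b
  rw [Matrix.sum_apply]
  exact supp_sum _ _ fun i _ => hp i a b

/-- the union of the conjugates of `A ∖ C` -/
def VU (A B : Subgroup G) (V : Set G) : Set G :=
  {g | ∃ x ∈ VM A B V, ∃ u, (u ∈ A ∧ u ∉ B) ∧ ∃ y ∈ VM A B V, g = x * u * y⁻¹}

/-- the form after the base change -/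
def SForm.base (F : SForm w A B V m)
    {σ : Matrix F.X.ι F.X.ι (RG w)} (hσ : IsMap (F.X.map (inc w (A ⊓ B))) (F.X.map (inc w (A ⊓ B))) σ)
    (hs : ∀ a b, SuppIn {g | g ∈ VM A B V} (σ a b)) :
    UF0 w (A ⊓ B) (VU A B V) {g | g ∈ B ∧ g ∉ A} m where
  X := F.X
  Y := F.Y
  P := F.P
  P' := F.P'
  pair := F.pair
  q1 := F.q1.pull hσ
  q2 := F.q2
  supp1 := by
    intro s a b
    refine supp_sum _ _ fun c _ => ?_
    have h1 : SuppIn {g | ∃ x ∈ {g | g ∈ VM A B V}, ∃ u ∈ {g | g ∈ A ∧ g ∉ B}, g = x * u}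
        ((σ * F.q1.ψ s) a c) := supp_sum _ _ fun d _ => supp_mul (hs a d) (F.mem1 s d c)
    have h2 : SuppIn {g | ∃ y ∈ VM A B V, g = y⁻¹} (σᴴ c b) := by
      intro g hg
      rw [conjTranspose_apply, co_star] at hg
      exact ⟨g⁻¹, hs b c _ (right_ne_zero_of_mul hg), (inv_inv g).symm⟩
    intro g hg
    obtain ⟨u, ⟨x, hx, u', hu', rfl⟩, v, ⟨y, hy, rfl⟩, rfl⟩ := supp_mul h1 h2 g hg
    exact ⟨x, hx, u', hu', y, hy, rfl⟩
  supp2 := F.mem2

theorem supp_mul_inc {C : Subgroup G} {U : Set G} (hU : ∀ u ∈ U, ∀ c ∈ C, u * c ∈ U) {x : RG w}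
    (hx : SuppIn U x) (r : RC w C) : SuppIn U (x * inc w C r) := by
  intro g hg
  have h1 : SuppIn {g | g ∈ C} (inc w C r) := fun k hk => by
    by_contra hkC
    exact hk (co_inc_of_not_mem _ hkC)
  obtain ⟨u, hu, v, hv, rfl⟩ := supp_mul hx h1 g hg
  exact hU u hu v hv

theorem SForm.N_eq (F : SForm w A B V m) :
    F.N = fromBlocks (F.κ * F.P'.map (inc w (A ⊓ B)))
      (F.q1.sym * (TT F.Y F.X F.P').map (inc w (A ⊓ B))) (F.q2.sym * F.P'.map (inc w (A ⊓ B)))
      (TT (F.X.map (inc w (A ⊓ B))) (F.Y.map (inc w (A ⊓ B))) F.κ *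
        (TT F.Y F.X F.P').map (inc w (A ⊓ B))) := by
  unfold UForm.N
  rw [fromBlocks_map, fromBlocks_multiply]
  simp

theorem SForm.N_supp (hS : Splits A B V) (F : SForm w A B V m) (a b : F.X.ι ⊕ F.Y.ι) :
    SuppIn (Ltr A B V (sXY F.X.ι F.Y.ι a) (sXY F.X.ι F.Y.ι b)) (F.N a b) := by
  have hr : ∀ (i j : Bool), ∀ u ∈ Ltr A B V i j, ∀ c ∈ A ⊓ B, u * c ∈ Ltr A B V i j :=
    fun i j u hu c hc => ltr_mul_right hS hu hc.1 hc.2
  have hi : ∀ (i j : Bool) {x : RG w}, SuppIn (Ltr A B V i j) x →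
      SuppIn (Ltr A B V (!j) (!i)) (star x) := by
    intro i j x hx g hg
    rw [co_star] at hg
    have h1 := ltr_inv (hx _ (right_ne_zero_of_mul hg))
    rwa [inv_inv] at h1
  rw [SForm.N_eq]
  rcases a with a | a <;> rcases b with b | b
  · refine supp_sum _ _ fun c _ => supp_mul_inc (hr false false) (F.memκ a c) _
  · refine supp_sum _ _ fun c _ => supp_mul_inc (hr false true) ?_ _
    exact (BU w _).add_mem (F.mem1 0 a c)
      ((BU w _).zsmul_mem (hi false true (F.mem1 0 c a)) _)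
  · refine supp_sum _ _ fun c _ => supp_mul_inc (hr true false) ?_ _
    exact (BU w _).add_mem (F.mem2 0 a c)
      ((BU w _).zsmul_mem (hi true false (F.mem2 0 c a)) _)
  · refine supp_sum _ _ fun c _ => supp_mul_inc (hr true true) ?_ _
    exact (BU w _).zsmul_mem (hi false false (F.memκ c a)) _

theorem block_pull {S : Type} [Ring S] [StarRing S] {n k : Type} [Fintype n] [Fintype k]
    [DecidableEq n] [DecidableEq k] (a M : Matrix n n S) (P : Matrix n k S) (q : Matrix k k S) :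
    fromBlocks a 0 0 (1 : Matrix k k S) * fromBlocks M P 0 q *
      (fromBlocks a 0 0 (1 : Matrix k k S))ᴴ = fromBlocks (a * M * aᴴ) (a * P) 0 q := by
  rw [fromBlocks_conjTranspose, fromBlocks_multiply, fromBlocks_multiply]
  simp

theorem SForm.zero (hS : Splits A B V) (good : Good (RC w (A ⊓ B)))
    (h2 : ∀ g : G, g * g = 1 → g = 1) (F : SForm w A B V m) (hF : F.Nilpotent) :
    LZero F.total := by
  obtain ⟨r, hr⟩ := hF
  have hTK : ∀ v : F.X.ι ⊕ F.Y.ι → RC w (A ⊓ B), TK (sXY F.X.ι F.Y.ι) F.N r v := by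
    intro v
    rw [← pj_sum (sXY F.X.ι F.Y.ι) v]
    refine TK_add ?_ ?_
    · exact TK_of_pow hS (fun g => Subgroup.mem_inf) _ F.N (SForm.N_supp hS F) r false _ (pj_pj _ _ _)
        (by rw [hr, Matrix.vecMul_zero])
    · exact TK_of_pow hS (fun g => Subgroup.mem_inf) _ F.N (SForm.N_supp hS F) r true _ (pj_pj _ _ _)
        (by rw [hr, Matrix.vecMul_zero])
  rw [SForm.N_eq] at hTK
  obtain ⟨hρ, hρ', hK⟩ := words_base hTK
  -- names
  obtain ⟨Xs, hXs⟩ : ∃ Z : FC (RG w), Z = F.X.map (inc w (A ⊓ B)) := ⟨_, rfl⟩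
  set Pm : Matrix F.X.ι F.Y.ι (RG w) := F.P.map (inc w (A ⊓ B)) with hPm
  set Pm' : Matrix F.Y.ι F.X.ι (RG w) := F.P'.map (inc w (A ⊓ B)) with hPm'
  set Q : Matrix F.X.ι F.Y.ι (RG w) := (TT F.Y F.X F.P').map (inc w (A ⊓ B)) with hQ
  set Tκ : Matrix F.Y.ι F.X.ι (RG w) :=
    TT (F.X.map (inc w (A ⊓ B))) (F.Y.map (inc w (A ⊓ B))) F.κ with hTκ
  set σ := ∑ i ∈ Finset.range r, (-(F.κ * Pm')) ^ i with hσ
  set σ' := ∑ i ∈ Finset.range r, (-(Tκ * Q)) ^ i with hσ'
  have g1 : ∀ {X : Type} [Fintype X] [DecidableEq X] (ρ : Matrix X X (RG w)), ρ ^ r = 0 →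
      (∑ i ∈ Finset.range r, (-ρ) ^ i) * (1 + ρ) = 1 ∧
        (1 + ρ) * (∑ i ∈ Finset.range r, (-ρ) ^ i) = 1 := by
    intro X _ _ ρ h0
    have e0 : (-ρ) ^ r = 0 := by rw [neg_pow, h0, mul_zero]
    have e1 := geom_sum_mul (-ρ) r
    have e2 := mul_geom_sum (-ρ) r
    rw [e0, zero_sub] at e1 e2
    have e3 : -ρ - 1 = -(1 + ρ) := by abel
    rw [e3] at e1 e2
    rw [mul_neg, neg_inj] at e1
    rw [neg_mul, neg_inj] at e2
    exact ⟨e1, e2⟩
  obtain ⟨s1, s2⟩ := g1 _ hρ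
  obtain ⟨s1', s2'⟩ := g1 _ hρ'
  have hPP' : Pm * Pm' = 1 := by
    rw [hPm, hPm', ← Matrix.map_mul, F.pair.mul, Matrix.map_one _ (map_zero _) (map_one _)]
  have hP'P : Pm' * Pm = 1 := by
    rw [hPm, hPm', ← Matrix.map_mul, F.pair.mul', Matrix.map_one _ (map_zero _) (map_one _)]
  have hPd : dd (F.X.map (inc w (A ⊓ B))) (F.Y.map (inc w (A ⊓ B))) Pm = 0 := by
    rw [hPm, dd_map inc_star, F.pair.closed]; ext a b; simp
  have hρm : IsMap (F.X.map (inc w (A ⊓ B))) (F.X.map (inc w (A ⊓ B))) (F.κ * Pm') :=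
    isMap_of_forms F.homκ F.closedκ (F.pair.hom.map _) (F.pair.hom'.map _) hPP' hP'P hPd
  have hσm : IsMap (F.X.map (inc w (A ⊓ B))) (F.X.map (inc w (A ⊓ B))) σ := hρm.neg.geom r
  have hρs : ∀ a b, SuppIn {g | g ∈ VM A B V} ((F.κ * Pm') a b) := by
    intro a b
    refine supp_sum _ _ fun c _ => supp_mul_inc (U := {g | g ∈ VM A B V}) ?_ ?_ _
    · intro u hu c hc
      exact (VM A B V).mul_mem hu (Submonoid.subset_closure (Or.inr ⟨hc.1, hc.2⟩))
    · intro g hg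
      exact Submonoid.subset_closure (Or.inl (F.memκ a c g hg))
  set F' := SForm.base F hσm (supp_geom hρs r) with hF'
  have hN1 : F'.N₁ = σ * (F.q1.sym * Q) * σ' := by
    show (F.q1.pull hσm).sym * Q = _
    rw [pull_sym]
    have c1 : (F.κ * Pm')ᴴ = Q * Tκ := by
      have h := conj_eq F.homκ (F.pair.hom'.map (inc w (A ⊓ B)))
      rw [TT_map inc_star] at h
      exact h
    have c2 : (1 + F.κ * Pm')ᴴ * Q = Q * (1 + Tκ * Q) := by
      rw [conjTranspose_add, conjTranspose_one, c1, Matrix.add_mul, Matrix.one_mul,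
        Matrix.mul_add, Matrix.mul_one, Matrix.mul_assoc]
    have c3 : σᴴ * Q = Q * σ' := by
      calc σᴴ * Q = σᴴ * (Q * (1 + Tκ * Q)) * σ' := by
            rw [Matrix.mul_assoc, Matrix.mul_assoc Q, s2', Matrix.mul_one]
        _ = (σᴴ * (1 + F.κ * Pm')ᴴ) * Q * σ' := by
            rw [← c2, ← Matrix.mul_assoc]
        _ = Q * σ' := by
            rw [← conjTranspose_mul, s2, conjTranspose_one, Matrix.one_mul]
    rw [Matrix.mul_assoc, c3]
    simp only [Matrix.mul_assoc]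
  have hnil : F'.Nilpotent := by
    refine ⟨r, fun v => ?_⟩
    rw [hN1]
    exact hK v
  have hz : LZero F'.total := by
    refine zero_general good (U := VU A B V ∪ {g | g ∈ B ∧ g ∉ A}) (fun g hg => Or.inl hg)
      (fun g hg => Or.inr hg) ?_ ?_ ?_ F' hnil
    · rintro c hc u (⟨x, hx, u, hu, y, hy, rfl⟩ | hu)
      · left
        refine ⟨c * x, (VM A B V).mul_mem (Submonoid.subset_closure (Or.inr ⟨hc.1, hc.2⟩)) hx,
          u, hu, y, hy, by group⟩
      · right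
        exact ⟨B.mul_mem hc.2 hu.1, fun hh => hu.2 ((Subgroup.mul_mem_cancel_left A hc.1).1 hh)⟩
    · rintro u (⟨x, hx, u, hu, y, hy, rfl⟩ | hu)
      · left
        exact ⟨y, hy, u⁻¹, ⟨A.inv_mem hu.1, fun hh => hu.2 (by simpa using B.inv_mem hh)⟩, x, hx,
          by group⟩
      · right
        exact ⟨B.inv_mem hu.1, fun hh => hu.2 (by simpa using A.inv_mem hh)⟩
    · rintro u (⟨x, hx, u, hu, y, hy, rfl⟩ | hu) h
      · exact VM_ne hS hx hu.1 hu.2 hy (h2 _ h)
      · exact hu.2 (by rw [h2 u h]; exact A.one_mem)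
  have hA : IsMap ((F.X.map (inc w (A ⊓ B))).sum (F.Y.map (inc w (A ⊓ B))))
      ((F.X.map (inc w (A ⊓ B))).sum (F.Y.map (inc w (A ⊓ B))))
      (fromBlocks (1 + F.κ * Pm') 0 0 1) := by
    have h := (IsMap_one (F.X.map (inc w (A ⊓ B)))).add hρm
    constructor
    · rintro (a | a) (b | b) hab
      · exact h.hom a b hab
      · exact absurd rfl hab
      · exact absurd rfl hab
      · exact (IsMap_one (F.Y.map (inc w (A ⊓ B)))).hom a b hab
    · show fromBlocks _ 0 0 _ * fromBlocks _ 0 0 _ = fromBlocks _ 0 0 _ * fromBlocks _ 0 0 _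
      rw [fromBlocks_multiply, fromBlocks_multiply, h.comm]
      simp
  have hA' : IsMap ((F.X.map (inc w (A ⊓ B))).sum (F.Y.map (inc w (A ⊓ B))))
      ((F.X.map (inc w (A ⊓ B))).sum (F.Y.map (inc w (A ⊓ B))))
      (fromBlocks σ 0 0 1) := by
    constructor
    · rintro (a | a) (b | b) hab
      · exact hσm.hom a b hab
      · exact absurd rfl hab
      · exact absurd rfl hab
      · exact (IsMap_one (F.Y.map (inc w (A ⊓ B)))).hom a b hab
    · show fromBlocks _ 0 0 _ * fromBlocks _ 0 0 _ = fromBlocks _ 0 0 _ * fromBlocks _ 0 0 _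
      rw [fromBlocks_multiply, fromBlocks_multiply, hσm.comm]
      simp
  have h1 : fromBlocks (1 + F.κ * Pm') 0 0 1 * fromBlocks σ 0 0 1 =
      (1 : Matrix (F.X.ι ⊕ F.Y.ι) (F.X.ι ⊕ F.Y.ι) (RG w)) := by
    rw [fromBlocks_multiply, s2]; simp
  have h1' : fromBlocks σ 0 0 1 * fromBlocks (1 + F.κ * Pm') 0 0 1 =
      (1 : Matrix (F.X.ι ⊕ F.Y.ι) (F.X.ι ⊕ F.Y.ι) (RG w)) := by
    rw [fromBlocks_multiply, s1]; simp
  have hz' := lzero_pull F'.total hA hA' h1 h1' hz
  have e : F'.total.pull hA = F.total := by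
    refine Quad.ext' fun s => ?_
    have t1 : (1 + F.κ * Pm') * (σ * F.q1.ψ s * σᴴ) * (1 + F.κ * Pm')ᴴ = F.q1.ψ s := by
      calc (1 + F.κ * Pm') * (σ * F.q1.ψ s * σᴴ) * (1 + F.κ * Pm')ᴴ =
          ((1 + F.κ * Pm') * σ) * F.q1.ψ s * (σᴴ * (1 + F.κ * Pm')ᴴ) := by
            simp only [Matrix.mul_assoc]
        _ = F.q1.ψ s := by
            rw [s2, Matrix.one_mul, ← conjTranspose_mul, s2, conjTranspose_one, Matrix.mul_one]
    have t2 : (1 + F.κ * Pm') * (if s = 0 then Pm else 0) = if s = 0 then Pm + F.κ else 0 := by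
      split_ifs
      · rw [Matrix.add_mul, Matrix.one_mul, Matrix.mul_assoc, hP'P, Matrix.mul_one]
      · exact Matrix.mul_zero _
    have t3 := block_pull (1 + F.κ * Pm') (σ * F.q1.ψ s * σᴴ) (if s = 0 then Pm else 0)
      (F.q2.ψ s)
    rw [t1, t2] at t3
    exact t3
  rwa [e] at hz'

end

end Pool.Agent.H16.UN
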