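import Pool.Agent.H16.UN.GDf

/-!
# Amalgams and HNN extensions by their normal form (module HDf)
-/

namespace Pool.Agent.H16.UN

variable {G : Type} [Group G]

/-- The letters. There are two states, `false` and `true`. The letters from `false` to `true` are
the elements of `A ∖ B`, those from `true` to `false` the elements of `B ∖ A`, those from `false` to
`false` the elements of `V`, and those from `true` to `true` the inverses of the elements of `V`. -/
def Ltr (A B : Subgroup G) (V : Set G) : Bool → Bool → Set G
  | false, true => {g | g ∈ A ∧ g ∉ B}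
  | true, false => {g | g ∈ B ∧ g ∉ A}
  | false, false => V
  | true, true => {g | g⁻¹ ∈ V}

/-- `g` is a product of `n` composable letters, leading from the state `i` to the state `j` -/
def Word (A B : Subgroup G) (V : Set G) : ℕ → Bool → Bool → G → Prop
  | 0, i, j, g => i = j ∧ g = 1
  | n + 1, i, j, g => ∃ k a h, a ∈ Ltr A B V i k ∧ Word A B V n k j h ∧ g = a * h

/-- `G` contains the amalgam `A *_C B`, `C = A ∩ B` (if `V = ∅`), or `B = t A t⁻¹`, `V = A t⁻¹` and `G`
contains the HNN extension of `A` with stable letter `t` and associated subgroups `C = A ∩ B`,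
`t⁻¹ C t`: no product of `n > 0` composable letters is trivial (normal form theorem, Britton's
lemma). -/
structure Splits (A B : Subgroup G) (V : Set G) : Prop where
  hnn : V = ∅ ∨ ∃ t : G, (∀ g, g ∈ V ↔ g * t ∈ A) ∧ ∀ g, g ∈ B ↔ t⁻¹ * g * t ∈ A
  red : ∀ (n : ℕ) (i j : Bool), ¬ Word A B V (n + 1) i j 1

end Pool.Agent.H16.UN
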