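import Pool.Agent.H16.UN.HSt
import Pool.Agent.H16.UN.GUf
import Pool.Agent.H16.UN.GAm

/-!
# Words of coset components vanish if a power of the matrix vanishes (module HKl)
-/

namespace Pool.Agent.H16.UN

open Matrix Pool.Agent.H17.LTh

noncomputable section

variable {G : Type} [Group G] {w : G →* ℤˣ}

/-- the part of a vector in the coordinates of state `i` -/
def pj {ι R : Type} [Zero R] (s : ι → Bool) (i : Bool) (v : ι → R) : ι → R :=
  fun a => if s a = i then v a else 0

theorem pj_zero {ι R : Type} [Zero R] (s : ι → Bool) (i : Bool) : pj s i (0 : ι → R) = 0 := by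
  funext a; unfold pj; exact ite_self _

theorem pj_pj {ι R : Type} [Zero R] (s : ι → Bool) (i : Bool) (v : ι → R) :
    pj s i (pj s i v) = pj s i v := by
  funext a; unfold pj; split_ifs <;> rfl

theorem pj_pj_ne {ι R : Type} [Zero R] (s : ι → Bool) {i j : Bool} (h : i ≠ j) (v : ι → R) :
    pj s i (pj s j v) = 0 := by
  funext a; unfold pj
  by_cases h1 : s a = i
  · rw [if_pos h1, if_neg (by rw [h1]; exact h)]; rfl
  · rw [if_neg h1]; rfl

theorem pj_add {ι R : Type} [AddMonoid R] (s : ι → Bool) (i : Bool) (v v' : ι → R) :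
    pj s i (v + v') = pj s i v + pj s i v' := by
  funext a; unfold pj
  show _ = (if s a = i then v a else 0) + (if s a = i then v' a else 0)
  split_ifs
  · rfl
  · rw [add_zero]

theorem pj_sum {ι R : Type} [AddMonoid R] (s : ι → Bool) (v : ι → R) :
    pj s false v + pj s true v = v := by
  funext a; unfold pj
  show (if s a = false then v a else 0) + (if s a = true then v a else 0) = v a
  cases s a <;> simp

/-- all typed words of length `r` kill `v` -/
def TK {C : Subgroup G} {ι : Type} [Fintype ι] (s : ι → Bool) (N : Matrix ι ι (RG w)) :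
    ℕ → (ι → RC w C) → Prop
  | 0, v => v = 0
  | r + 1, v => ∀ (i j : Bool) (g : G), TK s N r (pj s j (letter N g (pj s i v)))

theorem TK_zero {C : Subgroup G} {ι : Type} [Fintype ι] (s : ι → Bool) (N : Matrix ι ι (RG w))
    (r : ℕ) : TK s N r (0 : ι → RC w C) := by
  induction r with
  | zero => rfl
  | succ r ih => intro i j g; rw [pj_zero, letter_zero, pj_zero]; exact ih

/-- the support of a power -/
theorem supp_pow {A B : Subgroup G} {V : Set G} {ι : Type} [Fintype ι] [DecidableEq ι]
    (s : ι → Bool) (N : Matrix ι ι (RG w)) (hN : ∀ a b, SuppIn (Ltr A B V (s a) (s b)) (N a b))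
    (r : ℕ) : ∀ (Q : Bool → Set G) (v : ι → RG w) (_ : ∀ a, SuppIn (Q (s a)) (v a)) (x : ι),
      SuppIn {g | ∃ j, ∃ q ∈ Q j, ∃ h, Word A B V r j (s x) h ∧ g = q * h} ((v ᵥ* N ^ r) x) := by
  induction r with
  | zero =>
    intro Q v hv x g hg
    rw [pow_zero, Matrix.vecMul_one] at hg
    exact ⟨s x, g, hv x g hg, 1, ⟨rfl, rfl⟩, by group⟩
  | succ r ih =>
    intro Q v hv x g hg
    rw [pow_succ', ← Matrix.vecMul_vecMul] at hg
    have h1 : ∀ b, SuppIn ((fun j => {g | ∃ i, ∃ q ∈ Q i, ∃ u ∈ Ltr A B V i j, g = q * u}) (s b))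
        ((v ᵥ* N) b) := by
      intro b
      refine supp_sum _ _ fun a _ => ?_
      intro k hk
      obtain ⟨q, hq, u, hu, rfl⟩ := supp_mul (hv a) (hN a b) k hk
      exact ⟨s a, q, hq, u, hu, rfl⟩
    obtain ⟨j, q', ⟨i, q, hq, u, hu, rfl⟩, h, hh, rfl⟩  :=
      ih (fun j => {g | ∃ i, ∃ q ∈ Q i, ∃ u ∈ Ltr A B V i j, g = q * u}) (v ᵥ* N) h1 x g hg
    exact ⟨i, q, hq, u * h, ⟨j, u, h, hu, hh, rfl⟩, by group⟩

theorem TK_of_pow {A B C : Subgroup G} {V : Set G} (hS : Splits A B V)
    (hC : ∀ g, g ∈ C ↔ g ∈ A ∧ g ∈ B) {ι : Type} [Fintype ι] [DecidableEq ι]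
    (s : ι → Bool) (N : Matrix ι ι (RG w)) (hN : ∀ a b, SuppIn (Ltr A B V (s a) (s b)) (N a b))
    (r : ℕ) : ∀ (i : Bool) (v : ι → RC w C) (_ : pj s i v = v)
      (_ : (fun a => inc w C (v a)) ᵥ* N ^ r = 0), TK s N r v := by
  induction r with
  | zero =>
    intro i v _ h
    rw [pow_zero, Matrix.vecMul_one] at h
    show v = 0
    funext a
    exact inc_inj (congrFun h a)
  | succ r ih =>
    intro i v hv h i' j g
    by_cases hi : i' = i
    swap
    · have : pj s i' v = 0 := by rw [← hv]; exact pj_pj_ne s hi v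
      rw [this, letter_zero, pj_zero]
      exact TK_zero s N r
    subst hi
    rw [hv]
    refine ih j _ (pj_pj _ _ _) ?_
    set W : ι → RG w := (fun a => inc w C (v a)) ᵥ* N with hW
    rw [pow_succ', ← Matrix.vecMul_vecMul, ← hW] at h
    -- the support of `W`
    have hWs : ∀ b, SuppIn (Ltr A B V i' (s b)) (W b) := by
      intro b
      refine supp_sum _ _ fun a _ => ?_
      by_cases ha : s a = i'
      · refine BU_left (C := C) (U := Ltr A B V i' (s b)) (fun c hc u hu =>
          ltr_mul_left hS hu ((hC c).1 hc).1 ((hC c).1 hc).2) _ ?_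
        have := hN a b
        rw [ha] at this
        exact this
      · have h0 : v a = 0 := by rw [← hv]; exact if_neg ha
        show SuppIn _ (inc w C (v a) * N a b)
        rw [h0, map_zero, zero_mul]
        exact supp_zero
    set W₁ : ι → RG w := fun a => inc w C (pj s j (letter N g v) a) with hW₁
    have hW₁' : ∀ b, s b = j → W₁ b = inc w C (comp w C g (W b)) := by
      intro b hb
      show inc w C (if s b = j then _ else 0) = _
      rw [if_pos hb]; rfl
    have hW₁'' : ∀ b, s b ≠ j → W₁ b = 0 := by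
      intro b hb
      show inc w C (if s b = j then _ else 0) = _
      rw [if_neg hb, map_zero]
    show W₁ ᵥ* N ^ r = 0
    by_cases hg : g ∈ Ltr A B V i' j
    swap
    · have h0 : W₁ = 0 := by
        funext b
        by_cases hb : s b = j
        · rw [hW₁' b hb]
          have : comp w C g (W b) = 0 := by
            refine GR.ext fun c => ?_
            rw [co_comp]
            by_contra hne
            have h1 := hWs b _ hne
            have hc := (hC c).1 c.2
            have h2 := ltr_mul_right hS h1 (A.inv_mem hc.1) (B.inv_mem hc.2)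
            rw [mul_inv_cancel_right, hb] at h2
            exact hg h2
          rw [this, map_zero]; rfl
        · exact hW₁'' b hb
      rw [h0, Matrix.zero_vecMul]
    set W₂ : ι → RG w := W - (GR.single g 1 : RG w) • W₁ with hW₂
    have hsum : (GR.single g 1 : RG w) • (W₁ ᵥ* N ^ r) + W₂ ᵥ* N ^ r = 0 := by
      rw [← Matrix.smul_vecMul, ← Matrix.add_vecMul, hW₂, add_sub_cancel, h]
    have s1 : ∀ b, SuppIn ((fun k => {x | k = j ∧ x ∈ C}) (s b)) (W₁ b) := by
      intro b k hk
      by_cases hb : s b = j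
      · refine ⟨hb, ?_⟩
        rw [hW₁' b hb] at hk
        by_contra hkC
        exact hk (co_inc_of_not_mem _ hkC)
      · rw [hW₁'' b hb] at hk; exact absurd rfl hk
    have s2 : ∀ b, SuppIn ((fun k => {x | x ∈ Ltr A B V i' k ∧ (k = j → g⁻¹ * x ∉ C)}) (s b))
        (W₂ b) := by
      classical
      intro b k hk
      have e : (W₂ b).co k + (GR.single g 1 * W₁ b).co k = (W b).co k := by
        rw [← Finsupp.add_apply, ← GR.co_add]
        congr 2
        show W b - GR.single g 1 * W₁ b + GR.single g 1 * W₁ b = W b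
        rw [sub_add_cancel]
      by_cases hb : s b = j
      · rw [hW₁' b hb, co_part] at e
        by_cases hk2 : g⁻¹ * k ∈ C
        · rw [if_pos hk2] at e
          exact absurd (by linarith) hk
        · rw [if_neg hk2, add_zero] at e
          exact ⟨hWs b k (by rw [← e]; exact hk), fun _ => hk2⟩
      · rw [hW₁'' b hb, mul_zero] at e
        have e : (W₂ b).co k + 0 = (W b).co k := e
        rw [add_zero] at e
        exact ⟨hWs b k (by rw [← e]; exact hk), fun h' => absurd h' hb⟩
    have p1 := supp_pow s N hN r (fun k => {x | k = j ∧ x ∈ C}) W₁ s1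
    have p2 := supp_pow s N hN r (fun k => {x | x ∈ Ltr A B V i' k ∧ (k = j → g⁻¹ * x ∉ C)}) W₂ s2
    funext x
    refine single_mul_zero (g := g) ?_
    refine GR.ext fun k => ?_
    have hs := congrArg (fun y : RG w => y.co k) (congrFun hsum x)
    have hs : (GR.single g 1 * (W₁ ᵥ* N ^ r) x : RG w).co k + ((W₂ ᵥ* N ^ r) x).co k = 0 := hs
    by_contra hne
    have hne2 : ((W₂ ᵥ* N ^ r) x).co k ≠ 0 := by
      intro h0; rw [h0, add_zero] at hs; exact hne hs
    obtain ⟨j', q, ⟨hqL, hqC⟩, h', hh', e'⟩ := p2 x k hne2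
    rw [co_single_mul, one_mul] at hne
    obtain ⟨j'', c, ⟨hj, hc⟩, h'', hh'', e''⟩ := p1 x _ hne
    subst hj
    have hc' := (hC c).1 hc
    have e3 : (g * c) * (h'' * 1) = q * (h' * 1) := by
      rw [mul_one, mul_one, ← e', mul_assoc, ← e'']; group
    obtain ⟨hjj, h6A, h6B⟩ := word_disj hS (ltr_mul_right hS hg hc'.1 hc'.2) hqL hh'' hh'
      A.one_mem B.one_mem A.one_mem B.one_mem e3
    refine hqC hjj.symm ?_
    have h5 : g⁻¹ * q = c * ((g * c)⁻¹ * q) := by group
    rw [h5, hC]
    exact ⟨A.mul_mem hc'.1 h6A, B.mul_mem hc'.2 h6B⟩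

end

end Pool.Agent.H16.UN
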