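import Pool.Agent.H16.UN.GSe
import Pool.Agent.H16.UN.HDf

/-!
# Splittings of groups: amalgams and HNN extensions by their normal form (module HSt)
-/

namespace Pool.Agent.H16.UN

open Matrix Pool.Agent.H17.LTh

noncomputable section

variable {G : Type} [Group G]

variable {A B : Subgroup G} {V : Set G}

theorem Splits.AV (h : Splits A B V) {a v : G} (ha : a ∈ A) (hv : v ∈ V) : a * v ∈ V := by
  rcases h.hnn with h1 | ⟨t, h1, h2⟩
  · rw [h1] at hv; exact absurd hv (Set.notMem_empty _)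
  · rw [h1] at hv ⊢
    rw [mul_assoc]; exact A.mul_mem ha hv

theorem Splits.VB (h : Splits A B V) {b v : G} (hb : b ∈ B) (hv : v ∈ V) : v * b ∈ V := by
  rcases h.hnn with h1 | ⟨t, h1, h2⟩
  · rw [h1] at hv; exact absurd hv (Set.notMem_empty _)
  · rw [h1] at hv ⊢
    have := A.mul_mem hv ((h2 b).1 hb)
    have e : v * t * (t⁻¹ * b * t) = v * b * t := by group
    rwa [e] at this

theorem Splits.VV (h : Splits A B V) {u v : G} (hu : u ∈ V) (hv : v ∈ V) : u⁻¹ * v ∈ B := by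
  rcases h.hnn with h1 | ⟨t, h1, h2⟩
  · rw [h1] at hv; exact absurd hv (Set.notMem_empty _)
  · rw [h1] at hu hv
    rw [h2]
    have := A.mul_mem (A.inv_mem hu) hv
    have e : (u * t)⁻¹ * (v * t) = t⁻¹ * (u⁻¹ * v) * t := by group
    rwa [e] at this

theorem Splits.VV' (h : Splits A B V) {u v : G} (hu : u ∈ V) (hv : v ∈ V) : u * v⁻¹ ∈ A := by
  rcases h.hnn with h1 | ⟨t, h1, h2⟩
  · rw [h1] at hv; exact absurd hv (Set.notMem_empty _)
  · rw [h1] at hu hv
    have := A.mul_mem hu (A.inv_mem hv)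
    have e : (u * t) * (v * t)⁻¹ = u * v⁻¹ := by group
    rwa [e] at this

/-- inverses of letters -/
theorem ltr_inv {i j : Bool} {g : G} (h : g ∈ Ltr A B V i j) : g⁻¹ ∈ Ltr A B V (!j) (!i) := by
  cases i <;> cases j
  · show g⁻¹⁻¹ ∈ V; rw [inv_inv]; exact h
  · exact ⟨A.inv_mem h.1, fun hh => h.2 (by simpa using B.inv_mem hh)⟩
  · exact ⟨B.inv_mem h.1, fun hh => h.2 (by simpa using A.inv_mem hh)⟩
  · exact h

/-- the quotient of two letters with the same source -/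
theorem ltr_div (hS : Splits A B V) {i j j' : Bool} {u u' : G} (hu : u ∈ Ltr A B V i j)
    (hu' : u' ∈ Ltr A B V i j') : (j = j' ∧ u⁻¹ * u' ∈ A ∧ u⁻¹ * u' ∈ B) ∨
      u⁻¹ * u' ∈ Ltr A B V (!j) j' := by
  cases i <;> cases j <;> cases j'
  · -- V, V
    have h := hS.VV hu hu'
    by_cases hA : u⁻¹ * u' ∈ A
    · exact Or.inl ⟨rfl, hA, h⟩
    · exact Or.inr ⟨h, hA⟩
  · right
    show (u⁻¹ * u')⁻¹ ∈ V
    have e : (u⁻¹ * u')⁻¹ = u'⁻¹ * u := by group
    rw [e]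
    exact hS.AV (A.inv_mem hu'.1) hu
  · right
    exact hS.AV (A.inv_mem hu.1) hu'
  · have h : u⁻¹ * u' ∈ A := A.mul_mem (A.inv_mem hu.1) hu'.1
    by_cases hB : u⁻¹ * u' ∈ B
    · exact Or.inl ⟨rfl, h, hB⟩
    · exact Or.inr ⟨h, hB⟩
  · have h : u⁻¹ * u' ∈ B := B.mul_mem (B.inv_mem hu.1) hu'.1
    by_cases hA : u⁻¹ * u' ∈ A
    · exact Or.inl ⟨rfl, hA, h⟩
    · exact Or.inr ⟨h, hA⟩
  · right
    show (u⁻¹ * u')⁻¹ ∈ V
    have e : (u⁻¹ * u')⁻¹ = u'⁻¹ * u := by group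
    rw [e]
    exact hS.VB hu.1 hu'
  · right
    show u⁻¹ * u' ∈ V
    exact hS.VB hu'.1 hu
  · have h : u⁻¹ * u' ∈ A := by
      have := hS.VV' (u := u⁻¹) (v := u'⁻¹) hu hu'
      rwa [inv_inv] at this
    by_cases hB : u⁻¹ * u' ∈ B
    · exact Or.inl ⟨rfl, h, hB⟩
    · exact Or.inr ⟨h, hB⟩

theorem ltr_mul_right (hS : Splits A B V) {i j : Bool} {g c : G} (h : g ∈ Ltr A B V i j)
    (hA : c ∈ A) (hB : c ∈ B) : g * c ∈ Ltr A B V i j := by
  cases i <;> cases j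
  · exact hS.VB hB h
  · exact ⟨A.mul_mem h.1 hA, fun hh => h.2 ((Subgroup.mul_mem_cancel_right B hB).1 hh)⟩
  · exact ⟨B.mul_mem h.1 hB, fun hh => h.2 ((Subgroup.mul_mem_cancel_right A hA).1 hh)⟩
  · show (g * c)⁻¹ ∈ V
    rw [_root_.mul_inv_rev]
    exact hS.AV (A.inv_mem hA) h

theorem ltr_mul_left (hS : Splits A B V) {i j : Bool} {g c : G} (h : g ∈ Ltr A B V i j)
    (hA : c ∈ A) (hB : c ∈ B) : c * g ∈ Ltr A B V i j := by
  have h1 := ltr_mul_right hS (ltr_inv h) (A.inv_mem hA) (B.inv_mem hB)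
  have h2 := ltr_inv h1
  rw [_root_.mul_inv_rev, inv_inv, inv_inv, Bool.not_not, Bool.not_not] at h2
  exact h2

theorem word_mul_right (hS : Splits A B V) {n : ℕ} : ∀ {i j : Bool} {g c : G},
    Word A B V (n + 1) i j g → c ∈ A → c ∈ B → Word A B V (n + 1) i j (g * c) := by
  induction n with
  | zero =>
    rintro i j g c ⟨k, a, h, ha, ⟨rfl, rfl⟩, rfl⟩ hA hB
    refine ⟨k, a * c, 1, ltr_mul_right hS ha hA hB, ⟨rfl, rfl⟩, by group⟩
  | succ n ih =>
    rintro i j g c ⟨k, a, h, ha, h1, rfl⟩ hA hB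
    exact ⟨k, a, h * c, ha, ih h1 hA hB, by group⟩

theorem word_no_eq (hS : Splits A B V) (n : ℕ) : ∀ {k : ℕ} {i j j' : Bool} {g h : G},
    Word A B V (k + 1) i j g → Word A B V n (!i) j' h → g ≠ h := by
  induction n with
  | zero =>
    rintro k i j j' g h hg ⟨_, rfl⟩ rfl
    exact hS.red k i j hg
  | succ n ih =>
    rintro k i j j' g h hg ⟨l, b, h', hb, h1, rfl⟩ he
    refine ih (k := k + 1) (i := !l) (j := j) (j' := j') (g := b⁻¹ * g) (h := h') ?_ ?_
      (by rw [he]; group)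
    · refine ⟨i, b⁻¹, g, ?_, hg, rfl⟩
      have := ltr_inv hb
      rwa [Bool.not_not] at this
    · rwa [Bool.not_not]

/-- products with different first letters are different -/
theorem word_disj (hS : Splits A B V) {n n' : ℕ} {i j j' k k' : Bool} {u u' h h' c c' : G}
    (hu : u ∈ Ltr A B V i j) (hu' : u' ∈ Ltr A B V i j') (hh : Word A B V n j k h)
    (hh' : Word A B V n' j' k' h') (hcA : c ∈ A) (hcB : c ∈ B) (hcA' : c' ∈ A) (hcB' : c' ∈ B)
    (he : u * (h * c) = u' * (h' * c')) : j = j' ∧ u⁻¹ * u' ∈ A ∧ u⁻¹ * u' ∈ B := by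
  rcases ltr_div hS hu hu' with h1 | hv
  · exact h1
  · exfalso
    have hd : Word A B V (n' + 1) (!j) k' (u⁻¹ * u' * h') := ⟨j', u⁻¹ * u', h', hv, hh', rfl⟩
    have hd2 := word_mul_right hS hd (A.mul_mem hcA' (A.inv_mem hcA))
      (B.mul_mem hcB' (B.inv_mem hcB))
    refine word_no_eq hS n hd2 (j' := k) (h := h) (by rwa [Bool.not_not]) ?_
    have : h * c = u⁻¹ * (u' * (h' * c')) := by rw [← he]; group
    calc u⁻¹ * u' * h' * (c' * c⁻¹) = (u⁻¹ * (u' * (h' * c'))) * c⁻¹ := by group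
      _ = h := by rw [← this]; group

theorem word_append {n n' : ℕ} : ∀ {i j k : Bool} {g h : G}, Word A B V n i j g →
    Word A B V n' j k h → Word A B V (n + n') i k (g * h) := by
  induction n with
  | zero =>
    rintro i j k g h ⟨rfl, rfl⟩ h2
    rwa [zero_add, one_mul]
  | succ n ih =>
    rintro i j k g h ⟨l, a, g', ha, h1, rfl⟩ h2
    rw [show n + 1 + n' = (n + n') + 1 by ring]
    exact ⟨l, a, g' * h, ha, ih h1 h2, by group⟩

theorem word_single {i j : Bool} {a : G} (ha : a ∈ Ltr A B V i j) : Word A B V 1 i j a :=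
  ⟨j, a, 1, ha, ⟨rfl, rfl⟩, by group⟩

theorem word_inv {n : ℕ} : ∀ {i j : Bool} {g : G}, Word A B V n i j g →
    Word A B V n (!j) (!i) g⁻¹ := by
  induction n with
  | zero =>
    rintro i j g ⟨rfl, rfl⟩
    exact ⟨rfl, by group⟩
  | succ n ih =>
    rintro i j g ⟨l, a, g', ha, h1, rfl⟩
    rw [_root_.mul_inv_rev]
    exact word_append (ih h1) (word_single (ltr_inv ha))

/-- the submonoid generated by `V` and `C` -/
def VM (A B : Subgroup G) (V : Set G) : Submonoid G :=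
  Submonoid.closure (V ∪ {g | g ∈ A ∧ g ∈ B})

theorem mem_VM (hS : Splits A B V) {x : G} (hx : x ∈ VM A B V) :
    ∃ n h c, Word A B V n false false h ∧ c ∈ A ∧ c ∈ B ∧ x = h * c := by
  refine Submonoid.closure_induction (motive := fun x _ => ∃ n h c, Word A B V n false false h ∧
    c ∈ A ∧ c ∈ B ∧ x = h * c) ?_ ?_ ?_ hx
  · rintro x (hx | hx)
    · exact ⟨1, x, 1, word_single hx, A.one_mem, B.one_mem, by group⟩
    · exact ⟨0, 1, x, ⟨rfl, rfl⟩, hx.1, hx.2, by group⟩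
  · exact ⟨0, 1, 1, ⟨rfl, rfl⟩, A.one_mem, B.one_mem, by group⟩
  · rintro x y - - ⟨n, h, c, hh, hcA, hcB, rfl⟩ ⟨n', h', c', hh', hcA', hcB', rfl⟩
    rcases n' with _ | n'
    · obtain ⟨_, rfl⟩ := hh'
      exact ⟨n, h, c * c', hh, A.mul_mem hcA hcA', B.mul_mem hcB hcB', by group⟩
    · obtain ⟨l, a, g', ha, h1, rfl⟩ := hh'
      have h2 : Word A B V (n' + 1) false false (c * (a * g')) :=
        ⟨l, c * a, g', ltr_mul_left hS ha hcA hcB, h1, by group⟩
      exact ⟨n + (n' + 1), h * (c * (a * g')), c', word_append hh h2, hcA', hcB', by group⟩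

/-- conjugates of the elements of `A ∖ C` by the monoid are not trivial -/
theorem VM_ne (hS : Splits A B V) {x u y : G} (hx : x ∈ VM A B V) (hu : u ∈ A) (hu' : u ∉ B)
    (hy : y ∈ VM A B V) : x * u * y⁻¹ ≠ 1 := by
  obtain ⟨n, h, c, hh, hcA, hcB, rfl⟩ := mem_VM hS hx
  obtain ⟨n', h', c', hh', hcA', hcB', rfl⟩ := mem_VM hS hy
  have h1 : u ∈ Ltr A B V false true := ⟨hu, hu'⟩
  have h2 := ltr_mul_left hS (ltr_mul_right hS h1 (A.inv_mem hcA') (B.inv_mem hcB')) hcA hcB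
  have h3 := word_append (word_append hh (word_single h2)) (word_inv hh')
  have e : h * (c * (u * c'⁻¹)) * h'⁻¹ = h * c * u * (h' * c')⁻¹ := by group
  rw [e] at h3
  rw [show n + 1 + n' = (n + n') + 1 by ring] at h3
  intro h4
  rw [h4] at h3
  exact hS.red _ _ _ h3

end

end Pool.Agent.H16.UN
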