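import Pool.Agent.H16.UN.HKl

/-!
# Calculus of words (module HTh)
-/

namespace Pool.Agent.H16.UN

open Matrix Pool.Agent.H17.LTh

noncomputable section

variable {G : Type} [Group G] {w : G →* ℤˣ} {C : Subgroup G}

theorem comp_single_mul (g h : G) (r : ℤ) (x : RG w) :
    comp w C h (GR.single g r * x) = r • comp w C (g⁻¹ * h) x := by
  refine GR.ext fun c => ?_
  rw [co_comp, co_single_mul]
  have : (r • comp w C (g⁻¹ * h) x).co c = r * (comp w C (g⁻¹ * h) x).co c := rfl
  rw [this, co_comp, mul_assoc]

theorem comp_inc_mem (g : G) (hg : g ∈ C) (x : RC w C) :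
    comp w C g (inc w C x) = GR.single (⟨g, hg⟩ : C)⁻¹ 1 * x := by
  refine GR.ext fun c => ?_
  rw [co_comp]
  have h1 := co_inc x (⟨g, hg⟩ * c)
  have h2 : (GR.single (⟨g, hg⟩ : C)⁻¹ 1 * x : RC w C).co c = 1 * x.co ((⟨g, hg⟩ : C)⁻¹⁻¹ * c) :=
    MonoidAlgebra.coeff_single_mul_apply (R := ℤ) (G := C) x 1 _ c
  rw [h2, inv_inv, one_mul, ← h1]
  rfl

theorem comp_inc_not_mem (g : G) (hg : g ∉ C) (x : RC w C) : comp w C g (inc w C x) = 0 := by
  refine GR.ext fun c => ?_
  rw [co_comp, co_inc_of_not_mem]
  · rfl
  · intro h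
    exact hg (by simpa using C.mul_mem h (C.inv_mem c.2))

/-- finite decomposition into cosets -/
theorem decomp {ι : Type} [Fintype ι] (V : ι → RG w) :
    ∃ F : Finset (G ⧸ C), V = ∑ l ∈ F, (GR.single (rep l) 1 : RG w) •
      fun a => inc w C (comp w C (rep l) (V a)) := by
  classical
  refine ⟨Finset.univ.biUnion fun a => Finset.image (fun g : G => (QuotientGroup.mk g : G ⧸ C))
    (V a).co.support, ?_⟩
  funext a
  refine GR.ext fun g => ?_
  have hs : ∀ (s : Finset (G ⧸ C)) (f : G ⧸ C → RG w),
      (∑ l ∈ s, f l).co g = ∑ l ∈ s, (f l).co g := by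
    intro s f
    induction s using Finset.induction_on with
    | empty => rfl
    | insert a s ha ih =>
      rw [Finset.sum_insert ha, Finset.sum_insert ha, GR.co_add, Finsupp.add_apply, ih]
  rw [Finset.sum_apply, hs]
  by_cases hg : (V a).co g = 0
  · rw [hg]
    symm
    refine Finset.sum_eq_zero fun l _ => ?_
    show (GR.single (rep l) 1 * inc w C (comp w C (rep l) (V a))).co g = 0
    rw [co_part]
    split_ifs <;> simp [hg]
  · rw [Finset.sum_eq_single (QuotientGroup.mk g : G ⧸ C)]
    · show _ = (GR.single (rep _) 1 * inc w C (comp w C (rep _) (V a))).co g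
      rw [co_part, if_pos (rep_mem g)]
    · intro l _ hne
      show (GR.single (rep l) 1 * inc w C (comp w C (rep l) (V a))).co g = 0
      rw [co_part, if_neg]
      intro h'
      exact hne (rep_unique h').symm
    · intro h
      refine absurd (Finset.mem_biUnion.2 ⟨a, Finset.mem_univ _, ?_⟩) h
      exact Finset.mem_image.2 ⟨g, Finsupp.mem_support_iff.2 hg, rfl⟩

variable {ι : Type} [Fintype ι] {s : ι → Bool} {N : Matrix ι ι (RG w)}

theorem letter_add (g : G) (v v' : ι → RC w C) :
    letter N g (v + v') = letter N g v + letter N g v' := by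
  funext b
  have h : (fun a => inc w C ((v + v') a)) =
      (fun a => inc w C (v a)) + fun a => inc w C (v' a) := by
    funext a; exact map_add _ _ _
  show comp w C g (((fun a => inc w C ((v + v') a)) ᵥ* N) b) = _
  rw [h, Matrix.add_vecMul]
  exact map_add _ _ _

theorem letter_smul (g : G) (c : C) (v : ι → RC w C) :
    letter N g ((GR.single c 1 : RC w C) • v) = letter N ((c : G)⁻¹ * g) v := by
  funext b
  have h : (fun a => inc w C (((GR.single c 1 : RC w C) • v) a)) =
      (GR.single (c : G) 1 : RG w) • fun a => inc w C (v a) := by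
    funext a
    show inc w C (GR.single c 1 * v a) = GR.single (c : G) 1 * inc w C (v a)
    rw [map_mul, inc_single]
  show comp w C g (((fun a => inc w C (((GR.single c 1 : RC w C) • v) a)) ᵥ* N) b) = _
  rw [h, Matrix.smul_vecMul]
  show comp w C g (GR.single (c : G) 1 * ((fun a => inc w C (v a)) ᵥ* N) b) = _
  rw [comp_single_mul, one_smul]
  rfl

theorem letter_zsmul (g : G) (n : ℤ) (v : ι → RC w C) :
    letter N g (n • v) = n • letter N g v := by
  induction n using Int.induction_on with
  | zero => rw [zero_smul, zero_smul, letter_zero]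
  | succ n ih => rw [add_smul, add_smul, letter_add, ih, one_smul, one_smul]
  | pred n ih =>
    have h := letter_add (N := N) g ((-(n : ℤ) - 1) • v) v
    have e : ((-(n : ℤ) - 1) • v + v : ι → RC w C) = (-(n : ℤ)) • v := by
      rw [sub_smul, one_smul, sub_add_cancel]
    rw [e, ih] at h
    rw [sub_smul (-(n : ℤ)) 1 (letter N g v), one_smul, h, add_sub_cancel_right]

theorem TK_add {r : ℕ} : ∀ {v v' : ι → RC w C}, TK s N r v → TK s N r v' → TK s N r (v + v') := by
  induction r with
  | zero =>
    intro v v' h h'
    have h : v = 0 := h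
    have h' : v' = 0 := h'
    show v + v' = 0
    rw [h, h', add_zero]
  | succ r ih =>
    intro v v' h h' i j g
    rw [pj_add, letter_add, pj_add]
    exact ih (h i j g) (h' i j g)

theorem TK_zsmul {r : ℕ} (n : ℤ) : ∀ {v : ι → RC w C}, TK s N r v → TK s N r (n • v) := by
  induction r with
  | zero =>
    intro v h
    have h : v = 0 := h
    show n • v = 0
    rw [h, smul_zero]
  | succ r ih =>
    intro v h i j g
    have hp : ∀ (k : Bool) (v : ι → RC w C), pj s k (n • v) = n • pj s k v := by
      intro k v
      funext a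
      show (if s a = k then n • v a else 0) = n • (if s a = k then v a else 0)
      split_ifs
      · rfl
      · rw [smul_zero]
    rw [hp, letter_zsmul, hp]
    exact ih (h i j g)

theorem TK_smul {r : ℕ} (c : C) {v : ι → RC w C} (h : TK s N r v) :
    TK s N r ((GR.single c 1 : RC w C) • v) := by
  rcases r with _ | r
  · have h : v = 0 := h
    show _ • v = 0
    rw [h, smul_zero]
  · intro i j g
    have hp : pj s i ((GR.single c 1 : RC w C) • v) = (GR.single c 1 : RC w C) • pj s i v := by
      funext a
      show (if s a = i then GR.single c 1 * v a else 0) =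
        GR.single c 1 * (if s a = i then v a else 0)
      split_ifs
      · rfl
      · rw [mul_zero]
    rw [hp, letter_smul]
    exact h i j _

theorem TK_pj {r : ℕ} (i : Bool) {v : ι → RC w C} (h : TK s N r v) : TK s N r (pj s i v) := by
  rcases r with _ | r
  · have h : v = 0 := h
    show pj s i v = 0
    rw [h, pj_zero]
  · intro i' j g
    by_cases hi : i' = i
    · subst hi
      rw [pj_pj]
      exact h _ j g
    · rw [pj_pj_ne s hi, letter_zero, pj_zero]
      exact TK_zero s N r

theorem TK_succ {r : ℕ} : ∀ {v : ι → RC w C}, TK s N r v → TK s N (r + 1) v := by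
  induction r with
  | zero =>
    intro v h
    have h : v = 0 := h
    rw [h]
    exact TK_zero s N _
  | succ r ih =>
    intro v h i j g
    exact ih (h i j g)

theorem TK_letter {r : ℕ} {v : ι → RC w C} (h : TK s N (r + 1) v) (g : G) :
    TK s N r (letter N g v) := by
  have h1 : ∀ i, TK s N r (letter N g (pj s i v)) := by
    intro i
    rw [← pj_sum s (letter N g (pj s i v))]
    exact TK_add (h i false g) (h i true g)
  rw [← pj_sum s v, letter_add]
  exact TK_add (h1 false) (h1 true)

theorem TK_sum {r : ℕ} {κ : Type} (F : Finset κ) (f : κ → ι → RC w C)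
    (h : ∀ k ∈ F, TK s N r (f k)) : TK s N r (∑ k ∈ F, f k) := by
  classical
  induction F using Finset.induction_on with
  | empty => exact TK_zero s N r
  | insert a F ha ih =>
    rw [Finset.sum_insert ha]
    exact TK_add (h a (Finset.mem_insert_self _ _))
      (ih fun k hk => h k (Finset.mem_insert_of_mem hk))

/-- all coset components are killed by words of length `r` -/
def TH (C : Subgroup G) (s : ι → Bool) (N : Matrix ι ι (RG w)) (r : ℕ) (V : ι → RG w) : Prop :=
  ∀ g, TK s N r (fun b => comp w C g (V b))

theorem TH_zero {V : ι → RG w} (h : TH C s N 0 V) : V = 0 := by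
  funext b
  refine GR.ext fun g => ?_
  have h1 : (fun b => comp w C g (V b)) = 0 := h g
  have h2 : (comp w C g (V b)).co 1 = (0 : RC w C).co 1 :=
    congrArg (fun y : RC w C => y.co 1) (congrFun h1 b)
  rw [co_comp] at h2
  have e : g * ((1 : C) : G) = g := mul_one g
  rw [e] at h2
  exact h2

theorem TH_add {r : ℕ} {V V' : ι → RG w} (h : TH C s N r V) (h' : TH C s N r V') :
    TH C s N r (V + V') := by
  intro g
  have e : (fun b => comp w C g ((V + V') b)) =
      (fun b => comp w C g (V b)) + fun b => comp w C g (V' b) := by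
    funext b; exact map_add _ _ _
  rw [e]
  exact TK_add (h g) (h' g)

theorem TH_neg {r : ℕ} {V : ι → RG w} (h : TH C s N r V) : TH C s N r (-V) := by
  intro g
  have e : (fun b => comp w C g ((-V) b)) = (-1 : ℤ) • fun b => comp w C g (V b) := by
    funext b
    show comp w C g (-(V b)) = (-1 : ℤ) • comp w C g (V b)
    rw [map_neg, neg_smul, one_smul]
  rw [e]
  exact TK_zsmul (-1) (h g)

theorem TH_succ {r : ℕ} {V : ι → RG w} (h : TH C s N r V) : TH C s N (r + 1) V :=
  fun g => TK_succ (h g)

theorem TH_inc {r : ℕ} {v : ι → RC w C} (h : TK s N r v) :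
    TH C s N r (fun a => inc w C (v a)) := by
  intro g
  by_cases hg : g ∈ C
  · have e : (fun b => comp w C g (inc w C (v b))) =
        (GR.single (⟨g, hg⟩ : C)⁻¹ 1 : RC w C) • v := by
      funext b; exact comp_inc_mem g hg _
    rw [e]
    exact TK_smul _ h
  · have e : (fun b => comp w C g (inc w C (v b))) = 0 := by
      funext b; exact comp_inc_not_mem g hg _
    rw [e]
    exact TK_zero s N r

theorem TH_pj {r : ℕ} (i : Bool) {V : ι → RG w} (h : TH C s N r V) : TH C s N r (pj s i V) := by
  intro g
  have e : (fun b => comp w C g (pj s i V b)) = pj s i fun b => comp w C g (V b) := by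
    funext b
    show comp w C g (if s b = i then V b else 0) = if s b = i then comp w C g (V b) else 0
    split_ifs
    · rfl
    · exact map_zero _
  rw [e]
  exact TK_pj i (h g)

theorem TH_mul {r : ℕ} {V : ι → RG w} (h : TH C s N (r + 1) V) : TH C s N r (V ᵥ* N) := by
  intro g
  obtain ⟨F, hF⟩ := decomp (C := C) V
  have e : (fun b => comp w C g ((V ᵥ* N) b)) =
      ∑ l ∈ F, letter N ((rep l)⁻¹ * g) (fun a => comp w C (rep l) (V a)) := by
    funext b
    rw [Finset.sum_apply]
    have h1 : V ᵥ* N = ∑ l ∈ F, (GR.single (rep l) 1 : RG w) •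
        ((fun a => inc w C (comp w C (rep l) (V a))) ᵥ* N) := by
      conv_lhs => rw [hF]
      rw [Matrix.sum_vecMul]
      exact Finset.sum_congr rfl fun l _ => Matrix.smul_vecMul _ _ _
    rw [h1, Finset.sum_apply, map_sum]
    refine Finset.sum_congr rfl fun l _ => ?_
    show comp w C g (GR.single (rep l) 1 * _) = _
    rw [comp_single_mul, one_smul]
    rfl
  rw [e]
  exact TK_sum F _ fun l _ => TK_letter (h (rep l)) _

end

end Pool.Agent.H16.UN
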