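import Pool.Agent.H16.UN.HTh

/-!
# Words after the base change (module HWd)
-/

set_option linter.unusedSectionVars false

namespace Pool.Agent.H16.UN

open Matrix Pool.Agent.H17.LTh

noncomputable section

variable {G : Type} [Group G] {w : G →* ℤˣ} {C : Subgroup G} {X Y : Type} [Fintype X] [Fintype Y]
  [DecidableEq X] [DecidableEq Y]

/-- the states of `X ⊕ Y` -/
def sXY (X Y : Type) : X ⊕ Y → Bool := Sum.elim (fun _ => false) fun _ => true

theorem pj_false {R : Type} [Zero R] (v : X → R) (u : Y → R) :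
    pj (sXY X Y) false (Sum.elim v u) = Sum.elim v (0 : Y → R) := by
  funext a
  rcases a with a | a
  · exact if_pos rfl
  · exact if_neg (show ¬ (true = false) by decide)

theorem pj_true {R : Type} [Zero R] (v : X → R) (u : Y → R) :
    pj (sXY X Y) true (Sum.elim v u) = Sum.elim (0 : X → R) u := by
  funext a
  rcases a with a | a
  · exact if_neg (show ¬ (false = true) by decide)
  · exact if_pos rfl

variable (ρ : Matrix X X (RG w)) (N₁ : Matrix X Y (RG w)) (N₂ : Matrix Y X (RG w))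
  (ρ' : Matrix Y Y (RG w))

/-- all words of length `r` kill the coset components of `V`, a vector on `X` -/
def KX (C : Subgroup G) (r : ℕ) (V : X → RG w) : Prop :=
  TH C (sXY X Y) (fromBlocks ρ N₁ N₂ ρ') r (Sum.elim V (0 : Y → RG w))

/-- all words of length `r` kill the coset components of `V`, a vector on `Y` -/
def KY (C : Subgroup G) (r : ℕ) (V : Y → RG w) : Prop :=
  TH C (sXY X Y) (fromBlocks ρ N₁ N₂ ρ') r (Sum.elim (0 : X → RG w) V)

variable {ρ N₁ N₂ ρ'}

theorem elim_vecMul (V : X → RG w) (U : Y → RG w) :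
    Sum.elim V U ᵥ* fromBlocks ρ N₁ N₂ ρ' =
      Sum.elim (V ᵥ* ρ + U ᵥ* N₂) (V ᵥ* N₁ + U ᵥ* ρ') :=
  Matrix.vecMul_fromBlocks _ _ _ _ _

theorem KX_ρ {r : ℕ} {V : X → RG w} (h : KX ρ N₁ N₂ ρ' C (r + 1) V) :
    KX ρ N₁ N₂ ρ' C r (V ᵥ* ρ) := by
  have h1 := TH_pj false (TH_mul h)
  rw [elim_vecMul, Matrix.zero_vecMul, Matrix.zero_vecMul, add_zero, add_zero, pj_false] at h1
  exact h1

theorem KX_N {r : ℕ} {V : X → RG w} (h : KX ρ N₁ N₂ ρ' C (r + 1) V) :
    KY ρ N₁ N₂ ρ' C r (V ᵥ* N₁) := by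
  have h1 := TH_pj true (TH_mul h)
  rw [elim_vecMul, Matrix.zero_vecMul, Matrix.zero_vecMul, add_zero, add_zero, pj_true] at h1
  exact h1

theorem KY_N {r : ℕ} {V : Y → RG w} (h : KY ρ N₁ N₂ ρ' C (r + 1) V) :
    KX ρ N₁ N₂ ρ' C r (V ᵥ* N₂) := by
  have h1 := TH_pj false (TH_mul h)
  rw [elim_vecMul, Matrix.zero_vecMul, Matrix.zero_vecMul, zero_add, zero_add, pj_false] at h1
  exact h1

theorem KY_ρ {r : ℕ} {V : Y → RG w} (h : KY ρ N₁ N₂ ρ' C (r + 1) V) :
    KY ρ N₁ N₂ ρ' C r (V ᵥ* ρ') := by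
  have h1 := TH_pj true (TH_mul h)
  rw [elim_vecMul, Matrix.zero_vecMul, Matrix.zero_vecMul, zero_add, zero_add, pj_true] at h1
  exact h1

theorem KX_add {r : ℕ} {V V' : X → RG w} (h : KX ρ N₁ N₂ ρ' C r V) (h' : KX ρ N₁ N₂ ρ' C r V') :
    KX ρ N₁ N₂ ρ' C r (V + V') := by
  have h1 := TH_add h h'
  have e : Sum.elim V (0 : Y → RG w) + Sum.elim V' (0 : Y → RG w) =
      Sum.elim (V + V') (0 : Y → RG w) := by
    funext a; rcases a with a | a
    · rfl
    · exact add_zero _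
  rw [e] at h1
  exact h1

theorem KY_add {r : ℕ} {V V' : Y → RG w} (h : KY ρ N₁ N₂ ρ' C r V) (h' : KY ρ N₁ N₂ ρ' C r V') :
    KY ρ N₁ N₂ ρ' C r (V + V') := by
  have h1 := TH_add h h'
  have e : Sum.elim (0 : X → RG w) V + Sum.elim (0 : X → RG w) V' =
      Sum.elim (0 : X → RG w) (V + V') := by
    funext a; rcases a with a | a
    · exact add_zero _
    · rfl
  rw [e] at h1
  exact h1

theorem KX_neg {r : ℕ} {V : X → RG w} (h : KX ρ N₁ N₂ ρ' C r V) :
    KX ρ N₁ N₂ ρ' C r (-V) := by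
  have h1 := TH_neg h
  have e : -Sum.elim V (0 : Y → RG w) = Sum.elim (-V) (0 : Y → RG w) := by
    funext a; rcases a with a | a
    · rfl
    · exact neg_zero
  rw [e] at h1
  exact h1

theorem KY_neg {r : ℕ} {V : Y → RG w} (h : KY ρ N₁ N₂ ρ' C r V) :
    KY ρ N₁ N₂ ρ' C r (-V) := by
  have h1 := TH_neg h
  have e : -Sum.elim (0 : X → RG w) V = Sum.elim (0 : X → RG w) (-V) := by
    funext a; rcases a with a | a
    · exact neg_zero
    · rfl
  rw [e] at h1
  exact h1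

theorem KX_geom (k : ℕ) : ∀ {r : ℕ} {V : X → RG w}, KX ρ N₁ N₂ ρ' C r V →
    KX ρ N₁ N₂ ρ' C r (V ᵥ* ∑ i ∈ Finset.range k, (-ρ) ^ i) := by
  induction k with
  | zero =>
    intro r V _
    rw [Finset.sum_range_zero, Matrix.vecMul_zero]
    intro g
    have e : (fun b : X ⊕ Y => comp w C g ((Sum.elim (0 : X → RG w) (0 : Y → RG w)) b)) = 0 := by
      funext b; rcases b with b | b <;> exact map_zero _
    rw [e]
    exact TK_zero _ _ _
  | succ k ih =>
    intro r V h
    rw [Finset.sum_range_succ']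
    have e : ∑ i ∈ Finset.range k, (-ρ) ^ (i + 1) = (-ρ) * ∑ i ∈ Finset.range k, (-ρ) ^ i := by
      rw [Finset.mul_sum]
      exact Finset.sum_congr rfl fun i _ => pow_succ' _ _
    rw [e, pow_zero, Matrix.vecMul_add, Matrix.vecMul_one, ← Matrix.vecMul_vecMul]
    refine KX_add (ih ?_) h
    rw [Matrix.vecMul_neg]
    exact KX_neg (KX_ρ (TH_succ h))

theorem KY_geom (k : ℕ) : ∀ {r : ℕ} {V : Y → RG w}, KY ρ N₁ N₂ ρ' C r V →
    KY ρ N₁ N₂ ρ' C r (V ᵥ* ∑ i ∈ Finset.range k, (-ρ') ^ i) := by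
  induction k with
  | zero =>
    intro r V _
    rw [Finset.sum_range_zero, Matrix.vecMul_zero]
    intro g
    have e : (fun b : X ⊕ Y => comp w C g ((Sum.elim (0 : X → RG w) (0 : Y → RG w)) b)) = 0 := by
      funext b; rcases b with b | b <;> exact map_zero _
    rw [e]
    exact TK_zero _ _ _
  | succ k ih =>
    intro r V h
    rw [Finset.sum_range_succ']
    have e : ∑ i ∈ Finset.range k, (-ρ') ^ (i + 1) = (-ρ') * ∑ i ∈ Finset.range k, (-ρ') ^ i := by
      rw [Finset.mul_sum]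
      exact Finset.sum_congr rfl fun i _ => pow_succ' _ _
    rw [e, pow_zero, Matrix.vecMul_add, Matrix.vecMul_one, ← Matrix.vecMul_vecMul]
    refine KY_add (ih ?_) h
    rw [Matrix.vecMul_neg]
    exact KY_neg (KY_ρ (TH_succ h))

theorem KX_inc {r : ℕ} {V : X → RG w} (h : KX ρ N₁ N₂ ρ' C r V) (g : G) :
    KX ρ N₁ N₂ ρ' C r (fun b => inc w C (comp w C g (V b))) := by
  have h1 := TH_inc (h g)
  have e : (fun a : X ⊕ Y => inc w C (comp w C g ((Sum.elim V (0 : Y → RG w)) a))) =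
      Sum.elim (fun b => inc w C (comp w C g (V b))) (0 : Y → RG w) := by
    funext a; rcases a with a | a
    · rfl
    · show inc w C (comp w C g 0) = 0
      rw [map_zero, map_zero]
  rw [e] at h1
  exact h1

theorem KY_inc {r : ℕ} {V : Y → RG w} (h : KY ρ N₁ N₂ ρ' C r V) (g : G) :
    KY ρ N₁ N₂ ρ' C r (fun b => inc w C (comp w C g (V b))) := by
  have h1 := TH_inc (h g)
  have e : (fun a : X ⊕ Y => inc w C (comp w C g ((Sum.elim (0 : X → RG w) V) a))) =
      Sum.elim (0 : X → RG w) (fun b => inc w C (comp w C g (V b))) := by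
    funext a; rcases a with a | a
    · show inc w C (comp w C g 0) = 0
      rw [map_zero, map_zero]
    · rfl
  rw [e] at h1
  exact h1

theorem kills_geom (k : ℕ) (p : ℕ) :
    (∀ v : X → RC w C, KX ρ N₁ N₂ ρ' C p (fun a => inc w C (v a)) →
      Kills p ((∑ i ∈ Finset.range k, (-ρ) ^ i) * N₁ * ∑ i ∈ Finset.range k, (-ρ') ^ i) N₂ v) ∧
    (∀ v : Y → RC w C, KY ρ N₁ N₂ ρ' C p (fun a => inc w C (v a)) →
      Kills p N₂ ((∑ i ∈ Finset.range k, (-ρ) ^ i) * N₁ * ∑ i ∈ Finset.range k, (-ρ') ^ i) v) := by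
  induction p with
  | zero =>
    constructor
    · intro v h
      show v = 0
      have h1 := TH_zero h
      funext a
      exact inc_inj (congrFun h1 (Sum.inl a))
    · intro v h
      show v = 0
      have h1 := TH_zero h
      funext a
      exact inc_inj (congrFun h1 (Sum.inr a))
  | succ p ih =>
    constructor
    · intro v h g
      refine ih.2 _ ?_
      refine KY_inc ?_ g
      rw [← Matrix.vecMul_vecMul, ← Matrix.vecMul_vecMul]
      exact KY_geom k (KX_N (KX_geom k h))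
    · intro v h g
      refine ih.1 _ ?_
      exact KX_inc (KY_N h) g

theorem KX_pow (k : ℕ) : ∀ {V : X → RG w}, KX ρ N₁ N₂ ρ' C k V → V ᵥ* ρ ^ k = 0 := by
  induction k with
  | zero =>
    intro V h
    have h1 := TH_zero h
    rw [pow_zero, Matrix.vecMul_one]
    funext a
    exact congrFun h1 (Sum.inl a)
  | succ k ih =>
    intro V h
    rw [pow_succ', ← Matrix.vecMul_vecMul]
    exact ih (KX_ρ h)

theorem KY_pow (k : ℕ) : ∀ {V : Y → RG w}, KY ρ N₁ N₂ ρ' C k V → V ᵥ* ρ' ^ k = 0 := by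
  induction k with
  | zero =>
    intro V h
    have h1 := TH_zero h
    rw [pow_zero, Matrix.vecMul_one]
    funext a
    exact congrFun h1 (Sum.inr a)
  | succ k ih =>
    intro V h
    rw [pow_succ', ← Matrix.vecMul_vecMul]
    exact ih (KY_ρ h)

/-- the consequences of the vanishing of all words -/
theorem words_base {r : ℕ}
    (h : ∀ v : X ⊕ Y → RC w C, TK (sXY X Y) (fromBlocks ρ N₁ N₂ ρ') r v) :
    ρ ^ r = 0 ∧ ρ' ^ r = 0 ∧ ∀ v : X → RC w C,
      Kills r ((∑ i ∈ Finset.range r, (-ρ) ^ i) * N₁ * ∑ i ∈ Finset.range r, (-ρ') ^ i) N₂ v := by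
  have hX : ∀ V : X → RG w, KX ρ N₁ N₂ ρ' C r V := fun V g => h _
  have hY : ∀ V : Y → RG w, KY ρ N₁ N₂ ρ' C r V := fun V g => h _
  refine ⟨?_, ?_, fun v => (kills_geom r r).1 v (hX _)⟩
  · ext a b
    have h1 := congrFun (KX_pow r (hX (Pi.single a 1))) b
    rwa [Matrix.single_one_vecMul] at h1
  · ext a b
    have h1 := congrFun (KY_pow r (hY (Pi.single a 1))) b
    rwa [Matrix.single_one_vecMul] at h1

end

end Pool.Agent.H16.UN
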