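import Pool.Agent.H16.UN.Dat

/-!
# Module Hml: homology of the cone and of the cocone

`Z` lives in degrees `≥ k`.
* `cone_ex` (`i > k`): `(x, z)` cycle of degree `i`: `z` is a cycle of degree `i - 1` of `Z` and
  `x D + z F = 0`.  If `i - 1 > k`, `z = z' D_Z` by `hZe`; if `i - 1 = k` then `z F = -(x D)` is a boundary and
  `hinj` gives `z = z' D_Z`.  Then `x + z' F` is a cycle of degree `i` (`F` chain map), `= x₁ D`, and
  `(x, z) = (x₁, -z') D''` with `D'' = [[D, 0], [F, -D_Z]]`.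
* `cone_cyc`: a cycle of degree `k` of the cone: `z` is supported in degree `k - 1` of `Z`, so `z = 0`.
* `cone_bd`: `x = z F + x₁ D`, `z` supported in degree `k`, `z D_Z = 0` (degree `k - 1`), so
  `(x, 0) = (x₁, z) D''`.
* `cocone_cyc`: first component.
* `cocone_bd` (`i ≥ k`): `(y, w)` cycle of degree `i`, `y = y' D_Y`: then `(y, w) - (y', 0) D'' = (0, w₁)` is a
  cycle, `w₁ (Z.Dᴴ Z.eps) = 0`, so `w₁ Z.Dᴴ = 0` (`Z.eps` is invertible); `w₁` is supported in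
  `Z.deg = m - 1 - i < m - k`, so `hco` gives `w₂` of degree `m - 2 - i` with `w₂ Z.Dᴴ = w₁`, and
  `w₁ = w₃ (-(Z.Dᴴ Z.eps))` with `w₃ = - sg (m - 1 - i) • w₂`.
* `cocone_ex` (`i > k`): from `cocone_bd` and `hY`.
-/

namespace Pool.Agent.H16.UN

open Matrix

variable {R : Type} [Ring R]

private theorem Hml_vm_ne {n k : Type} [Fintype n] {v : n → R} {M : Matrix n k R} {b : k}
    (h : (v ᵥ* M) b ≠ 0) : ∃ a, v a ≠ 0 ∧ M a b ≠ 0 := by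
  have h1 : (v ᵥ* M) b = ∑ a, v a * M a b := rfl
  rw [h1] at h
  obtain ⟨a, -, ha⟩ := Finset.exists_ne_zero_of_sum_ne_zero h
  exact ⟨a, left_ne_zero_of_mul ha, right_ne_zero_of_mul ha⟩

private theorem Hml_hom_map {X Y : FC R} {F : Matrix X.ι Y.ι R} (hF : HM X Y F) {i : ℤ}
    {v : X.ι → R} (hv : X.Hom i v) : Y.Hom i (v ᵥ* F) := by
  intro b hb
  obtain ⟨a, h1, h2⟩ := Hml_vm_ne hb
  rw [← hF a b h2]; exact hv a h1

private theorem Hml_hom_D {X : FC R} {i : ℤ} {v : X.ι → R} (hv : X.Hom (i + 1) v) :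
    X.Hom i (v ᵥ* X.D) := by
  intro b hb
  obtain ⟨a, h1, h2⟩ := Hml_vm_ne hb
  have h3 := hv a h1
  have h4 := X.hdeg a b h2
  omega

private theorem Hml_hom_add {X : FC R} {i : ℤ} {v w : X.ι → R} (hv : X.Hom i v)
    (hw : X.Hom i w) : X.Hom i (v + w) := by
  intro a ha
  by_cases h0 : v a = 0
  · exact hw a (by intro h1; apply ha; simp [h0, h1])
  · exact hv a h0

private theorem Hml_hom_neg {X : FC R} {i : ℤ} {v : X.ι → R} (hv : X.Hom i v) :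
    X.Hom i (-v) := fun a ha => hv a (by intro h; apply ha; simp [h])

private theorem Hml_hom_sub {X : FC R} {i : ℤ} {v w : X.ι → R} (hv : X.Hom i v)
    (hw : X.Hom i w) : X.Hom i (v - w) := by
  rw [sub_eq_add_neg]; exact Hml_hom_add hv (Hml_hom_neg hw)

private theorem Hml_elim_eq {α β : Type} {x : α → R} {y : β → R} {v : α ⊕ β → R}
    (h1 : x = v ∘ Sum.inl) (h2 : y = v ∘ Sum.inr) : Sum.elim x y = v := by
  subst h1 h2
  exact Sum.elim_comp_inl_inr v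

private theorem Hml_elim_zero {α β : Type} {x : α → R} {y : β → R}
    (h : Sum.elim x y = 0) : x = 0 ∧ y = 0 := by
  constructor
  · funext a; exact congrFun h (Sum.inl a)
  · funext a; exact congrFun h (Sum.inr a)

private theorem Hml_cone_D (Z X : FC R) (F : Matrix Z.ι X.ι R) (hF : IsMap Z X F)
    (v : X.ι ⊕ Z.ι → R) : v ᵥ* (FC.cone Z X F hF).D =
      Sum.elim ((v ∘ Sum.inl) ᵥ* X.D + (v ∘ Sum.inr) ᵥ* F) (-((v ∘ Sum.inr) ᵥ* Z.D)) := by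
  show v ᵥ* fromBlocks X.D 0 F (-Z.D) = _
  rw [vecMul_fromBlocks, vecMul_zero, zero_add, vecMul_neg]

theorem cone_ex (Z X : FC R) (F : Matrix Z.ι X.ι R) (hF : IsMap Z X F) (k : ℤ)
    (hX : ∀ i, k < i → X.Ex i) (hZk : ∀ a, k ≤ Z.deg a) (hZe : ∀ i, k < i → Z.Ex i)
    (hinj : ∀ z, Z.Hom k z → X.Bd k (z ᵥ* F) → Z.Bd k z) (i : ℤ) (hi : k < i) :
    (FC.cone Z X F hF).Ex i := by
  intro v hv
  obtain ⟨hh, hc⟩ := hv
  have hx : X.Hom i (v ∘ Sum.inl) := fun a ha => hh (Sum.inl a) ha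
  have hz : Z.Hom (i - 1) (v ∘ Sum.inr) := fun a ha => by
    have h1 : Z.deg a + 1 = i := hh (Sum.inr a) ha
    omega
  rw [Hml_cone_D] at hc
  obtain ⟨hc1, hc2⟩ := Hml_elim_zero hc
  have hc3 : (v ∘ Sum.inr) ᵥ* Z.D = 0 := neg_eq_zero.mp hc2
  have hbd : Z.Bd (i - 1) (v ∘ Sum.inr) := by
    by_cases h1 : k < i - 1
    · exact hZe (i - 1) h1 _ ⟨hz, hc3⟩
    · have h2 : i - 1 = k := by omega
      rw [h2] at hz ⊢
      refine hinj _ hz ⟨-(v ∘ Sum.inl), ?_, ?_⟩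
      · have h3 : k + 1 = i := by omega
        rw [h3]; exact Hml_hom_neg hx
      · rw [neg_vecMul]
        exact neg_eq_of_add_eq_zero_right hc1
  obtain ⟨z', hz', hz'D⟩ := hbd
  rw [sub_add_cancel] at hz'
  have hcyc : X.Cyc i (v ∘ Sum.inl + z' ᵥ* F) := by
    refine ⟨Hml_hom_add hx (Hml_hom_map hF.hom hz'), ?_⟩
    rw [add_vecMul, vecMul_vecMul, ← hF.comm, ← vecMul_vecMul, hz'D, hc1]
  obtain ⟨x₁, hx₁, hx₁D⟩ := hX i hi _ hcyc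
  refine ⟨Sum.elim x₁ (-z'), ?_, ?_⟩
  · rintro (a | a) ha
    · exact hx₁ a ha
    · have h4 : Z.deg a = i := Hml_hom_neg hz' a ha
      show Z.deg a + 1 = i + 1
      omega
  · rw [Hml_cone_D]
    refine Hml_elim_eq ?_ ?_
    · rw [Sum.elim_comp_inl, Sum.elim_comp_inr, hx₁D, neg_vecMul, add_neg_cancel_right]
    · rw [Sum.elim_comp_inr, neg_vecMul, neg_neg, hz'D]

theorem cone_cyc (Z X : FC R) (F : Matrix Z.ι X.ι R) (hF : IsMap Z X F) (k : ℤ)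
    (hZk : ∀ a, k ≤ Z.deg a) (v : X.ι ⊕ Z.ι → R) (hv : (FC.cone Z X F hF).Cyc k v) :
    ∃ x, X.Cyc k x ∧ v = Sum.elim x 0 := by
  obtain ⟨hh, hc⟩ := hv
  have hz : v ∘ Sum.inr = (0 : Z.ι → R) := by
    funext a
    by_contra ha
    have h1 : Z.deg a + 1 = k := hh (Sum.inr a) ha
    have h2 := hZk a
    omega
  rw [Hml_cone_D, hz, zero_vecMul, add_zero] at hc
  obtain ⟨hc1, -⟩ := Hml_elim_zero hc
  exact ⟨v ∘ Sum.inl, ⟨fun a ha => hh (Sum.inl a) ha, hc1⟩, (Hml_elim_eq rfl hz.symm).symm⟩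

theorem cone_bd (Z X : FC R) (F : Matrix Z.ι X.ι R) (hF : IsMap Z X F) (k : ℤ)
    (hZk : ∀ a, k ≤ Z.deg a) (x : X.ι → R) (z : Z.ι → R) (hz : Z.Hom k z)
    (h : X.Bd k (x - z ᵥ* F)) : (FC.cone Z X F hF).Bd k (Sum.elim x 0) := by
  obtain ⟨x₁, hx₁, hx₁D⟩ := h
  have hzD : z ᵥ* Z.D = 0 := by
    funext b
    by_contra hb
    obtain ⟨a, h1, h2⟩ := Hml_vm_ne hb
    have h3 := hz a h1
    have h4 := Z.hdeg a b h2
    have h5 := hZk b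
    omega
  refine ⟨Sum.elim x₁ z, ?_, ?_⟩
  · rintro (a | a) ha
    · exact hx₁ a ha
    · have h4 : Z.deg a = k := hz a ha
      show Z.deg a + 1 = k + 1
      omega
  · rw [Hml_cone_D, Sum.elim_comp_inl, Sum.elim_comp_inr, hx₁D, sub_add_cancel, hzD, neg_zero]

variable [StarRing R]

private theorem Hml_cocone_D {X Y : FC R} {m : ℤ} {P : Matrix X.ι Y.ι R}
    {P' : Matrix Y.ι X.ι R} (h : Pair X Y m P P') (Z : FC R) (F : Matrix Z.ι X.ι R)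
    (hF : IsMap Z X F) (v : Y.ι ⊕ Z.ι → R) : v ᵥ* (FC.cocone h Z F hF).D =
      Sum.elim ((v ∘ Sum.inl) ᵥ* Y.D)
        ((v ∘ Sum.inl) ᵥ* (Pᴴ * Fᴴ * Z.eps) - (v ∘ Sum.inr) ᵥ* (Z.Dᴴ * Z.eps)) := by
  show v ᵥ* fromBlocks Y.D (Pᴴ * Fᴴ * Z.eps) 0 (-(Z.Dᴴ * Z.eps)) = _
  rw [vecMul_fromBlocks, vecMul_zero, add_zero, vecMul_neg, ← sub_eq_add_neg]

theorem cocone_cyc {X Y : FC R} {m : ℤ} {P : Matrix X.ι Y.ι R} {P' : Matrix Y.ι X.ι R}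
    (h : Pair X Y m P P') (Z : FC R) (F : Matrix Z.ι X.ι R) (hF : IsMap Z X F) (i : ℤ)
    (v : Y.ι ⊕ Z.ι → R) (hv : (FC.cocone h Z F hF).Cyc i v) : Y.Cyc i (v ∘ Sum.inl) := by
  obtain ⟨hh, hc⟩ := hv
  refine ⟨fun a ha => hh (Sum.inl a) ha, ?_⟩
  rw [Hml_cocone_D] at hc
  exact (Hml_elim_zero hc).1

theorem cocone_bd {X Y : FC R} {m : ℤ} {P : Matrix X.ι Y.ι R} {P' : Matrix Y.ι X.ι R}
    (h : Pair X Y m P P') (Z : FC R) (F : Matrix Z.ι X.ι R) (hF : IsMap Z X F) (k : ℤ)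
    (hco : ∀ i, i < m - k → Z.CoEx i) (i : ℤ) (hi : k ≤ i) (v : Y.ι ⊕ Z.ι → R)
    (hv : (FC.cocone h Z F hF).Cyc i v) (hb : Y.Bd i (v ∘ Sum.inl)) :
    (FC.cocone h Z F hF).Bd i v := by
  obtain ⟨hh, hc⟩ := hv
  obtain ⟨y', hy', hy'D⟩ := hb
  have hD2 : (Sum.elim y' 0 : Y.ι ⊕ Z.ι → R) ᵥ* (FC.cocone h Z F hF).D =
      Sum.elim (v ∘ Sum.inl) (y' ᵥ* (Pᴴ * Fᴴ * Z.eps)) := by
    rw [Hml_cocone_D, Sum.elim_comp_inl, Sum.elim_comp_inr, zero_vecMul, sub_zero, hy'D]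
  have hhom2 : (FC.cocone h Z F hF).Hom (i + 1) (Sum.elim y' 0) := by
    rintro (a | a) ha
    · exact hy' a ha
    · exact absurd rfl ha
  have hhom3 := Hml_hom_D hhom2
  rw [hD2] at hhom3
  have hw1h : Z.Hom (m - 1 - i) (v ∘ Sum.inr - y' ᵥ* (Pᴴ * Fᴴ * Z.eps)) := by
    have h1 : ∀ a, (v ∘ Sum.inr) a ≠ 0 → Z.deg a = m - 1 - i := fun a ha => by
      have h2 : m - Z.deg a - 1 = i := hh (Sum.inr a) ha
      omega
    have h2 : ∀ a, (y' ᵥ* (Pᴴ * Fᴴ * Z.eps)) a ≠ 0 → Z.deg a = m - 1 - i := fun a ha => by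
      have h2 : m - Z.deg a - 1 = i := hhom3 (Sum.inr a) ha
      omega
    exact Hml_hom_sub h1 h2
  have hc4 : (v ∘ Sum.inr - y' ᵥ* (Pᴴ * Fᴴ * Z.eps)) ᵥ* Z.Dᴴ = 0 := by
    have h1 : (v - Sum.elim (v ∘ Sum.inl) (y' ᵥ* (Pᴴ * Fᴴ * Z.eps))) ᵥ*
        (FC.cocone h Z F hF).D = 0 := by
      rw [sub_vecMul, hc, ← hD2, vecMul_vecMul, (FC.cocone h Z F hF).hD, vecMul_zero, sub_zero]
    have h2 : v - Sum.elim (v ∘ Sum.inl) (y' ᵥ* (Pᴴ * Fᴴ * Z.eps)) =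
        Sum.elim (0 : Y.ι → R) (v ∘ Sum.inr - y' ᵥ* (Pᴴ * Fᴴ * Z.eps)) := by
      funext a
      rcases a with a | a
      · exact sub_self _
      · rfl
    rw [h2, Hml_cocone_D, Sum.elim_comp_inl, Sum.elim_comp_inr, zero_vecMul, zero_vecMul,
      zero_sub] at h1
    have h3 := neg_eq_zero.mp (Hml_elim_zero h1).2
    have h4 : ((v ∘ Sum.inr - y' ᵥ* (Pᴴ * Fᴴ * Z.eps)) ᵥ* (Z.Dᴴ * Z.eps)) ᵥ* Z.eps = 0 := by
      rw [h3, zero_vecMul]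
    rw [vecMul_vecMul, Matrix.mul_assoc Z.Dᴴ, eps_mul_eps, Matrix.mul_one] at h4
    exact h4
  obtain ⟨w₂, hw₂, hw₂D⟩ := hco (m - 1 - i) (by omega) _ hw1h hc4
  refine ⟨Sum.elim y' (-(sg (m - 1 - i) • w₂)), ?_, ?_⟩
  · rintro (a | a) ha
    · exact hy' a ha
    · have h5 : w₂ a ≠ 0 := by
        intro h0; apply ha; simp [h0]
      have h6 := hw₂ a h5
      show m - Z.deg a - 1 = i + 1
      omega
  · rw [Hml_cocone_D]
    refine Hml_elim_eq ?_ ?_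
    · rw [Sum.elim_comp_inl, hy'D]
    · rw [Sum.elim_comp_inl, Sum.elim_comp_inr, neg_vecMul, sub_neg_eq_add, smul_vecMul,
        ← vecMul_vecMul w₂, hw₂D]
      funext a
      have h7 : ((v ∘ Sum.inr - y' ᵥ* (Pᴴ * Fᴴ * Z.eps)) ᵥ* Z.eps) a =
          sg (Z.deg a) • (v ∘ Sum.inr - y' ᵥ* (Pᴴ * Fᴴ * Z.eps)) a := by
        unfold FC.eps
        rw [vecMul_diagonal, zsmul_eq_mul]
        exact ((Int.cast_commute _ _).eq).symm
      show (y' ᵥ* (Pᴴ * Fᴴ * Z.eps)) a + sg (m - 1 - i) •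
        ((v ∘ Sum.inr - y' ᵥ* (Pᴴ * Fᴴ * Z.eps)) ᵥ* Z.eps) a = (v ∘ Sum.inr) a
      rw [h7, smul_smul]
      by_cases h8 : (v ∘ Sum.inr - y' ᵥ* (Pᴴ * Fᴴ * Z.eps)) a = 0
      · rw [h8, smul_zero, add_zero]
        exact (sub_eq_zero.mp h8).symm
      · rw [hw1h a h8, sg_mul_self, one_smul]
        show (y' ᵥ* (Pᴴ * Fᴴ * Z.eps)) a + ((v ∘ Sum.inr) a - (y' ᵥ* (Pᴴ * Fᴴ * Z.eps)) a) = _
        exact add_sub_cancel _ _

theorem cocone_ex {X Y : FC R} {m : ℤ} {P : Matrix X.ι Y.ι R} {P' : Matrix Y.ι X.ι R}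
    (h : Pair X Y m P P') (Z : FC R) (F : Matrix Z.ι X.ι R) (hF : IsMap Z X F) (k : ℤ)
    (hco : ∀ i, i < m - k → Z.CoEx i) (i : ℤ) (hi : k ≤ i) (hY : Y.Ex i) :
    (FC.cocone h Z F hF).Ex i := by
  intro v hv
  exact cocone_bd h Z F hF k hco i hi v hv (hY _ (cocone_cyc h Z F hF i v hv))

end Pool.Agent.H16.UN
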