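import Pool.Agent.H16.UN.WSg

/-!
# Module Inv: nilpotent data have invertible symmetrization

PROOF.  `𝒟.quad.sym = fromBlocks Λ₁ Pj Tj Λ₂` with `Λ₁ = q1.sym`, `Λ₂ = q2.sym`, `Pj = P.map j`,
`Tj = (TT X Y P).map j` (`TT_blocks`, `TT_map`).  Let `Q = (TT Y X P').map j` (inverse of `Tj`,
`𝒟.pair.swap`) and `P'j` (inverse of `Pj`), `K = fromBlocks 0 Q P'j 0`, `K' = fromBlocks 0 Pj Tj 0`,
`K K' = K' K = 1`.  Then `sym * K = fromBlocks 1 N N' 1 = 1 + 𝒩` with `N = 𝒟.N`, `N' = Λ₂ P'j = 𝒟.swap.N`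
(`TT_TT`, `tr_sym`), `𝒩 = fromBlocks 0 N N' 0`.  CLAIM `𝒩 ^ r = 0` for some `r`; then
`V = K * ∑ i < r, (-𝒩)^i` satisfies both identities (`sym = (1 + 𝒩) K'`).
CLAIM: for a vector `x : 𝒟.X.ι → R`, `(j ∘ x) ᵥ* N = ∑ l ∈ F, u l * (j ∘ 𝒟.st l x)` (one finite set `F` for
all coordinates, `𝒮.c_rec`, `N_B`).  By induction on `r`: if all words of length `r` starting at `x` vanish
(`x = 0` for `r = 0`; for `r + 1`: for every `l` all words of length `r` of `𝒟.swap` starting at `𝒟.st l x`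
vanish) then `(j ∘ x)` times the alternating product of `r` factors `N, N', N, ..` is zero.  With
`W_succ` words of length `r` from any vector are `W (True) r` words, which vanish for the `r` of
`𝒟.Nilp`.  Apply this to the basis vectors (`Pi.single a 1`): the alternating products `N N' N ..` and
`N' N N' ..` of length `r` vanish, which are the nonzero blocks of `𝒩 ^ r`.
-/

namespace Pool.Agent.H16.UN

open Matrix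

variable {R S : Type} [Ring R] [StarRing R] [Ring S] [StarRing S] {𝒮 : Setup R S} {m : ℤ}

private def Inv_NN (𝒟 : Dat 𝒮 m) : Matrix (𝒟.X.ι ⊕ 𝒟.Y.ι) (𝒟.X.ι ⊕ 𝒟.Y.ι) S :=
  fromBlocks 0 𝒟.N 𝒟.swap.N 0

private theorem Inv_expand (𝒟 : Dat 𝒮 m) (x : 𝒟.X.ι → R) :
    ∃ F : Finset 𝒮.J, (fun a => 𝒮.j (x a)) ᵥ* 𝒟.N =
      ∑ l ∈ F, 𝒮.u l • (fun b => 𝒮.j (𝒟.st l x b)) := by
  classical
  have hB : ∀ b, ((fun a => 𝒮.j (x a)) ᵥ* 𝒟.N) b ∈ 𝒮.B := by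
    intro b
    unfold Matrix.vecMul dotProduct
    exact 𝒮.B.sum_mem fun a _ => 𝒮.Bl _ _ (N_B 𝒟 a b)
  choose F hF1 hF2 using fun b => 𝒮.c_rec _ (hB b)
  refine ⟨Finset.univ.biUnion F, ?_⟩
  funext b
  rw [Finset.sum_apply]
  refine (hF2 b).trans ?_
  refine Finset.sum_subset (Finset.subset_biUnion_of_mem F (Finset.mem_univ b)) fun l _ hl => ?_
  show 𝒮.u l * 𝒮.j (𝒟.st l x b) = 0
  have h0 : 𝒟.st l x b = 0 := hF1 b l hl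
  rw [h0, map_zero, mul_zero]

private theorem Inv_left (𝒟 : Dat 𝒮 m) (v : 𝒟.X.ι → S) :
    (Sum.elim v 0 : 𝒟.X.ι ⊕ 𝒟.Y.ι → S) ᵥ* Inv_NN 𝒟 = Sum.elim (0 : 𝒟.X.ι → S) (v ᵥ* 𝒟.N) := by
  unfold Inv_NN
  rw [vecMul_fromBlocks]
  simp

private theorem Inv_right (𝒟 : Dat 𝒮 m) (v : 𝒟.Y.ι → S) :
    (Sum.elim 0 v : 𝒟.X.ι ⊕ 𝒟.Y.ι → S) ᵥ* Inv_NN 𝒟 = Sum.elim (v ᵥ* 𝒟.swap.N) 0 := by
  unfold Inv_NN
  rw [vecMul_fromBlocks]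
  simp

private theorem Inv_sumL (𝒟 : Dat 𝒮 m) (F : Finset 𝒮.J) (g : 𝒮.J → 𝒟.Y.ι → S)
    (u : 𝒮.J → S) : (Sum.elim 0 (∑ l ∈ F, u l • g l) : 𝒟.X.ι ⊕ 𝒟.Y.ι → S) =
      ∑ l ∈ F, u l • (Sum.elim 0 (g l) : 𝒟.X.ι ⊕ 𝒟.Y.ι → S) := by
  funext k
  rw [Finset.sum_apply]
  rcases k with k | k
  · simp
  · simp [Finset.sum_apply]

private theorem Inv_sumR (𝒟 : Dat 𝒮 m) (F : Finset 𝒮.J) (g : 𝒮.J → 𝒟.X.ι → S)
    (u : 𝒮.J → S) : (Sum.elim (∑ l ∈ F, u l • g l) 0 : 𝒟.X.ι ⊕ 𝒟.Y.ι → S) =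
      ∑ l ∈ F, u l • (Sum.elim (g l) 0 : 𝒟.X.ι ⊕ 𝒟.Y.ι → S) := by
  funext k
  rw [Finset.sum_apply]
  rcases k with k | k
  · simp [Finset.sum_apply]
  · simp

private theorem Inv_pow (𝒟 : Dat 𝒮 m) (r₀ : ℕ)
    (hX : ∀ x, W (fun _ _ => True) r₀ 𝒟 x → x = 0)
    (hY : ∀ y, W (fun _ _ => True) r₀ 𝒟.swap y → y = 0) (q : ℕ) :
    (∀ p (x : 𝒟.X.ι → R), p + q = r₀ → W (fun _ _ => True) p 𝒟 x →
      (Sum.elim (fun a => 𝒮.j (x a)) 0 : 𝒟.X.ι ⊕ 𝒟.Y.ι → S) ᵥ* Inv_NN 𝒟 ^ q = 0) ∧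
    (∀ p (y : 𝒟.Y.ι → R), p + q = r₀ → W (fun _ _ => True) p 𝒟.swap y →
      (Sum.elim 0 (fun b => 𝒮.j (y b)) : 𝒟.X.ι ⊕ 𝒟.Y.ι → S) ᵥ* Inv_NN 𝒟 ^ q = 0) := by
  induction q with
  | zero =>
    constructor
    · intro p x hp hW
      rw [add_zero] at hp
      subst hp
      rw [hX x hW, pow_zero, vecMul_one]
      funext k
      rcases k with k | k <;> simp
    · intro p y hp hW
      rw [add_zero] at hp
      subst hp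
      rw [hY y hW, pow_zero, vecMul_one]
      funext k
      rcases k with k | k <;> simp
  | succ q ih =>
    constructor
    · intro p x hp hW
      obtain ⟨F, hF⟩ := Inv_expand 𝒟 x
      rw [pow_succ', ← vecMul_vecMul, Inv_left, hF, Inv_sumL, sum_vecMul]
      refine Finset.sum_eq_zero fun l _ => ?_
      rw [smul_vecMul, ih.2 (p + 1) (𝒟.st l x) (by omega) (W_succ (fun _ _ => True) p 𝒟 x l hW),
        smul_zero]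
    · intro p y hp hW
      obtain ⟨F, hF⟩ := Inv_expand 𝒟.swap y
      rw [pow_succ', ← vecMul_vecMul, Inv_right]
      have hF' : (fun b => 𝒮.j (y b)) ᵥ* 𝒟.swap.N =
          ∑ l ∈ F, 𝒮.u l • (fun a => 𝒮.j (𝒟.swap.st l y a)) := hF
      rw [hF', Inv_sumR, sum_vecMul]
      refine Finset.sum_eq_zero fun l _ => ?_
      rw [smul_vecMul, ih.1 (p + 1) (𝒟.swap.st l y) (by omega)
        ((W_swap_swap (fun _ _ => True) (p + 1) 𝒟 (𝒟.swap.st l y)).1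
          (W_succ (fun _ _ => True) p 𝒟.swap y l hW)), smul_zero]

private theorem Inv_nil (𝒟 : Dat 𝒮 m) (h : 𝒟.Nilp) : ∃ r, Inv_NN 𝒟 ^ r = 0 := by
  obtain ⟨r, hX, hY⟩ := h
  refine ⟨r, ?_⟩
  have key := Inv_pow 𝒟 r hX hY r
  ext i k
  have h1 : (Pi.single i 1 ᵥ* Inv_NN 𝒟 ^ r) k = (Inv_NN 𝒟 ^ r) i k := by
    rw [single_one_vecMul]
    rfl
  rw [← h1]
  rcases i with a | b
  · have h2 := key.1 0 (Pi.single a 1) (by omega) trivial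
    have h3 : (Pi.single (Sum.inl a) 1 : 𝒟.X.ι ⊕ 𝒟.Y.ι → S) =
        Sum.elim (fun a' => 𝒮.j ((Pi.single a 1 : 𝒟.X.ι → R) a')) 0 := by
      funext k
      rcases k with k | k
      · by_cases hk : k = a
        · subst hk; simp
        · rw [Pi.single_eq_of_ne (by simpa using hk)]
          simp [hk]
      · simp
    rw [h3, h2]
    rfl
  · have h2 := key.2 0 (Pi.single b 1) (by omega) trivial
    have h3 : (Pi.single (Sum.inr b) 1 : 𝒟.X.ι ⊕ 𝒟.Y.ι → S) =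
        Sum.elim (0 : 𝒟.X.ι → S) (fun b' => 𝒮.j ((Pi.single b 1 : 𝒟.Y.ι → R) b')) := by
      funext k
      rcases k with k | k
      · simp
      · by_cases hk : k = b
        · subst hk; simp
        · rw [Pi.single_eq_of_ne (by simpa using hk)]
          simp [hk]
    rw [h3, h2]
    rfl

private theorem Inv_sym (𝒟 : Dat 𝒮 m) : 𝒟.quad.sym =
    fromBlocks 𝒟.q1.sym (𝒟.P.map 𝒮.j) ((TT 𝒟.X 𝒟.Y 𝒟.P).map 𝒮.j) 𝒟.q2.sym := by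
  unfold Quad.sym
  show fromBlocks (𝒟.q1.ψ 0) (if (0 : ℕ) = 0 then 𝒟.P.map 𝒮.j else 0) 0 (𝒟.q2.ψ 0) +
    TT ((𝒟.X.map 𝒮.j).sum (𝒟.Y.map 𝒮.j)) ((𝒟.X.map 𝒮.j).sum (𝒟.Y.map 𝒮.j))
      (fromBlocks (𝒟.q1.ψ 0) (if (0 : ℕ) = 0 then 𝒟.P.map 𝒮.j else 0) 0 (𝒟.q2.ψ 0)) = _
  rw [if_pos rfl, TT_blocks, fromBlocks_add, TT_zero, add_zero, zero_add, TT_map 𝒮.jstar]

theorem sym_inv (𝒟 : Dat 𝒮 m) (h : 𝒟.Nilp) :
    ∃ V : Matrix 𝒟.E.ι 𝒟.E.ι S, 𝒟.quad.sym * V = 1 ∧ V * 𝒟.quad.sym = 1 := by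
  obtain ⟨r, hr⟩ := Inv_nil 𝒟 h
  set Pj := 𝒟.P.map 𝒮.j with hPj
  set P'j := 𝒟.P'.map 𝒮.j with hP'j
  set Tj := (TT 𝒟.X 𝒟.Y 𝒟.P).map 𝒮.j with hTj
  set Q := (TT 𝒟.Y 𝒟.X 𝒟.P').map 𝒮.j with hQ
  have one_map : ∀ {n : Type} [Fintype n] [DecidableEq n],
      ((1 : Matrix n n R).map 𝒮.j) = 1 := by
    intro n _ _
    ext a b
    by_cases hab : a = b
    · subst hab; simp
    · simp [hab]
  have e1 : Pj * P'j = 1 := by rw [hPj, hP'j, ← Matrix.map_mul, 𝒟.pair.mul, one_map]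
  have e2 : P'j * Pj = 1 := by rw [hPj, hP'j, ← Matrix.map_mul, 𝒟.pair.mul', one_map]
  have e3 : Tj * Q = 1 := by rw [hTj, hQ, ← Matrix.map_mul, 𝒟.pair.swap.mul, one_map]
  have e4 : Q * Tj = 1 := by rw [hTj, hQ, ← Matrix.map_mul, 𝒟.pair.swap.mul', one_map]
  set K : Matrix (𝒟.X.ι ⊕ 𝒟.Y.ι) (𝒟.X.ι ⊕ 𝒟.Y.ι) S := fromBlocks 0 Q P'j 0 with hK
  set K' : Matrix (𝒟.X.ι ⊕ 𝒟.Y.ι) (𝒟.X.ι ⊕ 𝒟.Y.ι) S := fromBlocks 0 Pj Tj 0 with hK'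
  have k1 : K * K' = 1 := by
    rw [hK, hK', fromBlocks_multiply, ← fromBlocks_one]
    simp [e2, e4]
  have k2 : K' * K = 1 := by
    rw [hK, hK', fromBlocks_multiply, ← fromBlocks_one]
    simp [e1, e3]
  have hN : 𝒟.q1.sym * Q = 𝒟.N := rfl
  have hN' : 𝒟.q2.sym * P'j = 𝒟.swap.N := by
    show 𝒟.q2.sym * P'j = 𝒟.q2.tr.sym * (TT 𝒟.X 𝒟.Y (TT 𝒟.Y 𝒟.X 𝒟.P')).map 𝒮.j
    rw [tr_sym, TT_TT]
  have hsK : 𝒟.quad.sym * K = 1 + Inv_NN 𝒟 := by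
    rw [Inv_sym, hK]
    unfold Inv_NN
    rw [fromBlocks_multiply, ← fromBlocks_one, fromBlocks_add, ← hTj, ← hPj, e1, e3, hN, hN']
    simp
  have hs : 𝒟.quad.sym = (1 + Inv_NN 𝒟) * K' := by
    rw [← hsK, Matrix.mul_assoc, k1, Matrix.mul_one]
  have hpow : (-Inv_NN 𝒟) ^ r = 0 := by
    rw [neg_pow, hr, mul_zero]
  refine ⟨K * ∑ i ∈ Finset.range r, (-Inv_NN 𝒟) ^ i, ?_, ?_⟩
  · have h1 := mul_neg_geom_sum (-Inv_NN 𝒟) r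
    rw [hpow, sub_zero, sub_neg_eq_add] at h1
    rw [← Matrix.mul_assoc, hsK]
    exact h1
  · have h1 := geom_sum_mul_neg (-Inv_NN 𝒟) r
    rw [hpow, sub_zero, sub_neg_eq_add] at h1
    rw [hs, Matrix.mul_assoc, ← Matrix.mul_assoc (∑ i ∈ Finset.range r, (-Inv_NN 𝒟) ^ i), h1,
      Matrix.one_mul]
    exact k1

end Pool.Agent.H16.UN
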