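import Pool.Agent.H16.UN.CtA
import Pool.Agent.H16.UN.Ops

/-!
# Module Pul: invariance under isomorphisms

`A : E' → E` an isomorphism of complexes with inverse `A'`.  `(q.pull hA).sym = A q.sym Aᴴ`
(`TT_mul_left`, `TT_mul_right`).
* `nullCob_pull`: from `(L, I, η)` for `q` take `(L, I A', η)`: `(I A') (A ψ Aᴴ) (I A')ᴴ = I ψ Iᴴ` because
  `A' A = 1`; the total matrix is conjugate by `diag(1, A, 1)` resp. `diag(1, A', 1)` (`contr_conj`).
* `poinc_pull`: `[[D', A Φ Aᴴ], [0, sg m • ε' D'ᴴ]]` with `D' A = A D`, conjugate to the one of `q` by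
  `diag(A, A'ᴴ)`: `A'ᴴ (sg m • ε D ᴴ) = (sg m • ε' D'ᴴ) A'ᴴ`, from `A' D' = D A'` and `ε' A = A ε`
  (`eps_HM`, `eps_conj`).
-/

namespace Pool.Agent.H16.UN

open Matrix

variable {S : Type} [Ring S] [StarRing S]

theorem pull_sym {E E' : FC S} {m : ℤ} (q : Quad E m) {A : Matrix E'.ι E.ι S}
    (hA : IsMap E' E A) : (q.pull hA).sym = A * q.sym * Aᴴ := by
  show A * q.ψ 0 * Aᴴ + TT E' E' (A * q.ψ 0 * Aᴴ) = A * (q.ψ 0 + TT E E (q.ψ 0)) * Aᴴ
  rw [TT_mul_right hA.hom, TT_mul_left hA.hom]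
  simp only [Matrix.mul_add, Matrix.add_mul, Matrix.mul_assoc]

theorem nullCob_pull {E E' : FC S} {m : ℤ} (q : Quad E m) {A : Matrix E'.ι E.ι S}
    (hA : IsMap E' E A) {A' : Matrix E.ι E'.ι S} (hA' : IsMap E E' A') (h1 : A * A' = 1)
    (h2 : A' * A = 1) (h : NullCob q) : NullCob (q.pull hA) := by
  obtain ⟨L, I, η, hI, hη, hc, hM⟩ := h
  have h3 : Aᴴ * A'ᴴ = 1 := by rw [← conjTranspose_mul, h2, conjTranspose_one]
  have key : ∀ X : Matrix E.ι E.ι S, I * A' * (A * X * Aᴴ) * (I * A')ᴴ = I * X * Iᴴ := by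
    intro X
    rw [conjTranspose_mul]
    calc I * A' * (A * X * Aᴴ) * (A'ᴴ * Iᴴ) = I * (A' * A) * X * (Aᴴ * A'ᴴ) * Iᴴ := by
          simp only [Matrix.mul_assoc]
      _ = I * X * Iᴴ := by rw [h2, h3, Matrix.mul_one, Matrix.mul_one]
  refine ⟨L, I * A', η, hI.mul hA', hη, fun s => ?_, ?_⟩
  · rw [← hc s]
    exact key (q.ψ s)
  · have hsym : A' * ((q.pull hA).sym * (I * A')ᴴ) = q.sym * Iᴴ := by
      rw [pull_sym, conjTranspose_mul]
      calc A' * (A * q.sym * Aᴴ * (A'ᴴ * Iᴴ)) = (A' * A) * q.sym * (Aᴴ * A'ᴴ) * Iᴴ := by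
            simp only [Matrix.mul_assoc]
        _ = q.sym * Iᴴ := by rw [h2, h3, Matrix.one_mul, Matrix.mul_one]
    refine contr_conj (fromBlocks (fromBlocks 1 0 0 A') 0 0 1) (fromBlocks (fromBlocks 1 0 0 A) 0 0 1)
      ?_ ?_ ?_ hM
    · simp only [fromBlocks_multiply, Matrix.mul_zero, Matrix.zero_mul, add_zero, zero_add,
        Matrix.mul_one, h2, fromBlocks_one]
    · simp only [fromBlocks_multiply, Matrix.mul_zero, Matrix.zero_mul, add_zero, zero_add,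
        Matrix.mul_one, h1, fromBlocks_one]
    · rw [fromBlocks_multiply, fromBlocks_multiply]
      simp only [fromBlocks_multiply, Matrix.mul_zero, Matrix.zero_mul, add_zero, zero_add,
        Matrix.mul_one, Matrix.one_mul, fromBlocks_mul_fromRows, hsym, hA'.comm]

theorem poinc_pull {E E' : FC S} {m : ℤ} (q : Quad E m) {A : Matrix E'.ι E.ι S}
    (hA : IsMap E' E A) {A' : Matrix E.ι E'.ι S} (hA' : IsMap E E' A') (h1 : A * A' = 1)
    (h2 : A' * A = 1) (h : Poinc q) : Poinc (q.pull hA) := by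
  have h3 : Aᴴ * A'ᴴ = 1 := by rw [← conjTranspose_mul, h2, conjTranspose_one]
  have h4 : A'ᴴ * Aᴴ = 1 := by rw [← conjTranspose_mul, h1, conjTranspose_one]
  have hsym : A' * (q.pull hA).sym = q.sym * Aᴴ := by
    rw [pull_sym]
    calc A' * (A * q.sym * Aᴴ) = (A' * A) * q.sym * Aᴴ := by simp only [Matrix.mul_assoc]
      _ = q.sym * Aᴴ := by rw [h2, Matrix.one_mul]
  have he : Aᴴ * E'.eps = E.eps * Aᴴ := by
    have := congrArg conjTranspose (eps_HM hA.hom)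
    rw [conjTranspose_mul, conjTranspose_mul, eps_conj, eps_conj] at this
    exact this
  have hD : Aᴴ * E'.Dᴴ = E.Dᴴ * Aᴴ := by
    rw [← conjTranspose_mul, hA.comm, conjTranspose_mul]
  have hd : Aᴴ * (sg m • (E'.eps * E'.Dᴴ)) = (sg m • (E.eps * E.Dᴴ)) * Aᴴ := by
    rw [Matrix.mul_smul, Matrix.smul_mul, ← Matrix.mul_assoc, he, Matrix.mul_assoc, hD,
      Matrix.mul_assoc]
  refine contr_conj (fromBlocks A' 0 0 Aᴴ) (fromBlocks A 0 0 A'ᴴ) ?_ ?_ ?_ h
  · simp only [fromBlocks_multiply, Matrix.mul_zero, Matrix.zero_mul, add_zero, zero_add,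
      h2, h3, fromBlocks_one]
  · simp only [fromBlocks_multiply, Matrix.mul_zero, Matrix.zero_mul, add_zero, zero_add,
      h1, h4, fromBlocks_one]
  · simp only [fromBlocks_multiply, Matrix.mul_zero, Matrix.zero_mul, add_zero, zero_add,
      hsym, hd, hA'.comm]

end Pool.Agent.H16.UN
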