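import Pool.Agent.H16.UN.CtA
import Pool.Agent.H16.UN.Ops

/-!
# Module Sms: sums, negatives, transposes

* `nullCob_sum`: `(L₁ ⊕ L₂, diag(I₁, I₂), diag(η₁, η₂))`; with `dd_blocks`, `TT_blocks`,
  `fromBlocks_multiply`.  The total matrix, reindexed by the obvious equivalence
  `((L₁ ⊕ L₂) ⊕ (E₁ ⊕ E₂)) ⊕ (L₁ ⊕ L₂) ≃ ((L₁ ⊕ E₁) ⊕ L₁) ⊕ ((L₂ ⊕ E₂) ⊕ L₂)`, is `fromBlocks M₁ 0 0 M₂`
  (`contr_sum`, `contr_reindex`; compare entries by cases).
* `poinc_sum`: the same with two blocks.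
* `nullCob_neg`: `(L, I, -η)`; the new total matrix is conjugate to the old one by `diag(1, 1, -1)`
  (index `(L ⊕ E) ⊕ L`; `Φ` becomes `-Φ`, the differentials do not change).  `poinc_neg`: `diag(1, -1)`.
* `nullCob_tr`: `(L, I, TT η)`: `I (TT ψ) Iᴴ = TT (I ψ Iᴴ)`, `TT_dd`, `TT_TT`; the symmetrizations
  `TT ψ₀ + TT (TT ψ₀) = ψ₀ + TT ψ₀` do not change, so the total matrix is the same.
-/

namespace Pool.Agent.H16.UN

open Matrix

variable {S : Type} [Ring S] [StarRing S]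

private def smsEquiv (A B C D : Type) :
    (((A ⊕ B) ⊕ (C ⊕ D)) ⊕ (A ⊕ B)) ≃ (((A ⊕ C) ⊕ A) ⊕ ((B ⊕ D) ⊕ B)) where
  toFun
    | .inl (.inl (.inl a)) => .inl (.inl (.inl a))
    | .inl (.inl (.inr b)) => .inr (.inl (.inl b))
    | .inl (.inr (.inl c)) => .inl (.inl (.inr c))
    | .inl (.inr (.inr d)) => .inr (.inl (.inr d))
    | .inr (.inl a) => .inl (.inr a)
    | .inr (.inr b) => .inr (.inr b)
  invFun
    | .inl (.inl (.inl a)) => .inl (.inl (.inl a))
    | .inr (.inl (.inl b)) => .inl (.inl (.inr b))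
    | .inl (.inl (.inr c)) => .inl (.inr (.inl c))
    | .inr (.inl (.inr d)) => .inl (.inr (.inr d))
    | .inl (.inr a) => .inr (.inl a)
    | .inr (.inr b) => .inr (.inr b)
  left_inv := by rintro (((a | a) | (a | a)) | (a | a)) <;> rfl
  right_inv := by rintro (((a | a) | a) | ((a | a) | a)) <;> rfl

private def smsEquiv2 (A B : Type) : ((A ⊕ B) ⊕ (A ⊕ B)) ≃ ((A ⊕ A) ⊕ (B ⊕ B)) where
  toFun
    | .inl (.inl a) => .inl (.inl a)
    | .inl (.inr b) => .inr (.inl b)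
    | .inr (.inl a) => .inl (.inr a)
    | .inr (.inr b) => .inr (.inr b)
  invFun
    | .inl (.inl a) => .inl (.inl a)
    | .inr (.inl b) => .inl (.inr b)
    | .inl (.inr a) => .inr (.inl a)
    | .inr (.inr b) => .inr (.inr b)
  left_inv := by rintro ((a | a) | (a | a)) <;> rfl
  right_inv := by rintro ((a | a) | (a | a)) <;> rfl

private theorem sms_sym {E E' : FC S} {m : ℤ} (q : Quad E m) (q' : Quad E' m) :
    (q.sum q').sym = fromBlocks q.sym 0 0 q'.sym := by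
  show fromBlocks (q.ψ 0) 0 0 (q'.ψ 0) +
    TT (E.sum E') (E.sum E') (fromBlocks (q.ψ 0) 0 0 (q'.ψ 0)) =
      fromBlocks (q.ψ 0 + TT E E (q.ψ 0)) 0 0 (q'.ψ 0 + TT E' E' (q'.ψ 0))
  rw [TT_blocks, TT_zero, TT_zero, fromBlocks_add, add_zero, add_zero]

private theorem sms_last (L L' : FC S) (m : ℤ) :
    sg m • ((L.sum L').eps * (L.sum L').Dᴴ) =
      fromBlocks (sg m • (L.eps * L.Dᴴ)) 0 0 (sg m • (L'.eps * L'.Dᴴ)) := by
  rw [sum_eps]
  show sg m • (fromBlocks L.eps 0 0 L'.eps * (fromBlocks L.D 0 0 L'.D)ᴴ) = _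
  rw [fromBlocks_conjTranspose, fromBlocks_multiply, fromBlocks_smul]
  simp

theorem nullCob_sum {E E' : FC S} {m : ℤ} {q : Quad E m} {q' : Quad E' m} (h : NullCob q)
    (h' : NullCob q') : NullCob (q.sum q') := by
  obtain ⟨L, I, η, hI, hη, he, hc⟩ := h
  obtain ⟨L', I', η', hI', hη', he', hc'⟩ := h'
  refine ⟨L.sum L', fromBlocks I 0 0 I', fun s => fromBlocks (η s) 0 0 (η' s), ⟨?_, ?_⟩, ?_, ?_,
    ?_⟩
  · rintro (a | a) (b | b) hab
    · exact hI.hom a b hab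
    · exact absurd rfl hab
    · exact absurd rfl hab
    · exact hI'.hom a b hab
  · show fromBlocks L.D 0 0 L'.D * fromBlocks I 0 0 I' =
      fromBlocks I 0 0 I' * fromBlocks E.D 0 0 E'.D
    rw [fromBlocks_multiply, fromBlocks_multiply]
    simp [hI.comm, hI'.comm]
  · exact fun s => HF_blocks (hη s) (HF_zero _ _ _) (HF_zero _ _ _) (hη' s)
  · intro s
    show fromBlocks I 0 0 I' * fromBlocks (q.ψ s) 0 0 (q'.ψ s) * (fromBlocks I 0 0 I')ᴴ = _
    rw [dd_blocks, TT_blocks, fromBlocks_conjTranspose, fromBlocks_multiply, fromBlocks_multiply,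
      fromBlocks_smul, fromBlocks_add, fromBlocks_add]
    have e1 := he s
    have e2 := he' s
    simp only [Matrix.mul_zero, Matrix.zero_mul, add_zero, zero_add, conjTranspose_zero, dd_zero,
      TT_zero, smul_zero, e1, e2]
  · have hA : fromBlocks (η 0) 0 0 (η' 0) + TT (L.sum L') (L.sum L') (fromBlocks (η 0) 0 0 (η' 0)) =
        fromBlocks (η 0 + TT L L (η 0)) 0 0 (η' 0 + TT L' L' (η' 0)) := by
      rw [TT_blocks, TT_zero, TT_zero, fromBlocks_add, add_zero, add_zero]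
    have hB : (q.sum q').sym * (fromBlocks I 0 0 I')ᴴ =
        fromBlocks (q.sym * Iᴴ) 0 0 (q'.sym * I'ᴴ) := by
      rw [sms_sym, fromBlocks_conjTranspose, fromBlocks_multiply]
      simp
    have hD : -(L.sum L').D = fromBlocks (-L.D) 0 0 (-L'.D) := by
      show -(fromBlocks L.D 0 0 L'.D) = _
      rw [fromBlocks_neg, neg_zero, neg_zero]
    have hM := contr_reindex (smsEquiv L.ι L'.ι E.ι E'.ι) (contr_sum hc hc')
    have key : fromBlocks (fromBlocks (-(L.sum L').D) (fromBlocks I 0 0 I') 0 (E.sum E').D)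
        (fromRows (fromBlocks (η 0) 0 0 (η' 0) +
          TT (L.sum L') (L.sum L') (fromBlocks (η 0) 0 0 (η' 0)))
          ((q.sum q').sym * (fromBlocks I 0 0 I')ᴴ)) 0
        (sg m • ((L.sum L').eps * (L.sum L').Dᴴ)) =
        (fromBlocks
          (fromBlocks (fromBlocks (-L.D) I 0 E.D)
            (fromRows (η 0 + TT L L (η 0)) (q.sym * Iᴴ)) 0 (sg m • (L.eps * L.Dᴴ))) 0 0
          (fromBlocks (fromBlocks (-L'.D) I' 0 E'.D)
            (fromRows (η' 0 + TT L' L' (η' 0)) (q'.sym * I'ᴴ)) 0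
              (sg m • (L'.eps * L'.Dᴴ)))).submatrix (smsEquiv L.ι L'.ι E.ι E'.ι)
          (smsEquiv L.ι L'.ι E.ι E'.ι) := by
      rw [hA, hB, hD, sms_last]
      ext i j
      rcases i with ((a | a) | (a | a)) | (a | a) <;>
        rcases j with ((b | b) | (b | b)) | (b | b) <;> rfl
    rw [key]
    exact hM

theorem poinc_sum {E E' : FC S} {m : ℤ} {q : Quad E m} {q' : Quad E' m} (h : Poinc q)
    (h' : Poinc q') : Poinc (q.sum q') := by
  have hM := contr_reindex (smsEquiv2 E.ι E'.ι) (contr_sum h h')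
  have key : fromBlocks (E.sum E').D (q.sum q').sym 0
      (sg m • ((E.sum E').eps * (E.sum E').Dᴴ)) =
      (fromBlocks (fromBlocks E.D q.sym 0 (sg m • (E.eps * E.Dᴴ))) 0 0
        (fromBlocks E'.D q'.sym 0 (sg m • (E'.eps * E'.Dᴴ)))).submatrix
          (smsEquiv2 E.ι E'.ι) (smsEquiv2 E.ι E'.ι) := by
    rw [sms_sym, sms_last]
    ext i j
    rcases i with (a | a) | (a | a) <;> rcases j with (b | b) | (b | b) <;> rfl
  unfold Poinc
  rw [key]
  exact hM

private theorem sms_contr_neg {n k : Type} [Fintype n] [DecidableEq n] [Fintype k]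
    [DecidableEq k] {P : Matrix n n S} {B : Matrix n k S} {C : Matrix k k S}
    (h : Contr (fromBlocks P B 0 C)) : Contr (fromBlocks P (-B) 0 C) := by
  refine contr_conj (fromBlocks (1 : Matrix n n S) 0 0 (-1 : Matrix k k S))
    (fromBlocks (1 : Matrix n n S) 0 0 (-1 : Matrix k k S)) ?_ ?_ ?_ h
  · rw [fromBlocks_multiply]
    simp
  · rw [fromBlocks_multiply]
    simp
  · rw [fromBlocks_multiply, fromBlocks_multiply]
    simp

private theorem sms_neg_sym {E : FC S} {m : ℤ} (q : Quad E m) : q.neg.sym = -q.sym := by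
  show -q.ψ 0 + TT E E (-q.ψ 0) = -(q.ψ 0 + TT E E (q.ψ 0))
  rw [TT_neg, neg_add]

private theorem sms_tr_sym {E : FC S} {m : ℤ} (q : Quad E m) : q.tr.sym = q.sym := by
  show TT E E (q.ψ 0) + TT E E (TT E E (q.ψ 0)) = q.ψ 0 + TT E E (q.ψ 0)
  rw [TT_TT, add_comm]

theorem nullCob_neg {E : FC S} {m : ℤ} {q : Quad E m} (h : NullCob q) : NullCob q.neg := by
  obtain ⟨L, I, η, hI, hη, he, hc⟩ := h
  refine ⟨L, I, fun s => -η s, hI, fun s => HF_neg (hη s), ?_, ?_⟩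
  · intro s
    show I * (-q.ψ s) * Iᴴ = dd L L (-η s) + (-η (s + 1) + (-1 : ℤ) ^ (s + 1) • TT L L (-η (s + 1)))
    rw [Matrix.mul_neg, Matrix.neg_mul, he s, dd_neg, TT_neg, smul_neg, neg_add, neg_add]
  · have e : fromRows (-η 0 + TT L L (-η 0)) (q.neg.sym * Iᴴ) =
        -fromRows (η 0 + TT L L (η 0)) (q.sym * Iᴴ) := by
      rw [sms_neg_sym, TT_neg, Matrix.neg_mul, fromRows_neg, neg_add]
    have h1 := sms_contr_neg hc
    rw [← e] at h1
    exact h1

theorem poinc_neg {E : FC S} {m : ℤ} {q : Quad E m} (h : Poinc q) : Poinc q.neg := by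
  have h1 := sms_contr_neg (show Contr (fromBlocks E.D q.sym 0 (sg m • (E.eps * E.Dᴴ))) from h)
  unfold Poinc
  rw [sms_neg_sym]
  exact h1

theorem nullCob_tr {E : FC S} {m : ℤ} {q : Quad E m} (h : NullCob q) : NullCob q.tr := by
  obtain ⟨L, I, η, hI, hη, he, hc⟩ := h
  refine ⟨L, I, fun s => TT L L (η s), hI, fun s => HF_TT (hη s), ?_, ?_⟩
  · intro s
    show I * TT E E (q.ψ s) * Iᴴ = dd L L (TT L L (η s)) +
      (TT L L (η (s + 1)) + (-1 : ℤ) ^ (s + 1) • TT L L (TT L L (η (s + 1))))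
    have e1 : TT L L (I * q.ψ s * Iᴴ) = I * TT E E (q.ψ s) * Iᴴ := by
      rw [TT_mul_right hI.hom, TT_mul_left hI.hom, Matrix.mul_assoc]
    rw [← e1, he s, TT_add, TT_add, TT_zsmul, TT_dd]
  · have e : fromRows (TT L L (η 0) + TT L L (TT L L (η 0))) (q.tr.sym * Iᴴ) =
        fromRows (η 0 + TT L L (η 0)) (q.sym * Iᴴ) := by
      rw [sms_tr_sym, TT_TT, add_comm]
    show Contr (fromBlocks (fromBlocks (-L.D) I 0 E.D)
      (fromRows (TT L L (η 0) + TT L L (TT L L (η 0))) (q.tr.sym * Iᴴ)) 0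
        (sg m • (L.eps * L.Dᴴ)))
    rw [e]
    exact hc

theorem poinc_tr {E : FC S} {m : ℤ} {q : Quad E m} (h : Poinc q) : Poinc q.tr := by
  unfold Poinc
  rw [sms_tr_sym]
  exact h

end Pool.Agent.H16.UN
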