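import Pool.Agent.H16.UN.Str
import Pool.Agent.H16.UN.Pul
import Pool.Agent.H16.UN.Sms

/-!
# Module LZt: transfer of `LZero`

* `nullCob_diag`: strict Lagrangian `I = (1, 1) : E → E ⊕ E`, `I' = (0, 1)`, `U (e₁, e₂) = e₁`,
  `U' (e₁, e₂) = e₂ - e₁`, `W = I' diag(Φ, -Φ) Iᴴ = -Φ`, `W' = -V` (`nullCob_strict`).
* `lzero_of_cob`: `Poinc q` by `poinc_of_inv`.  Let `ν` be the complex for `q'`.  Take
  `N = (E' ⊕ E') ⊕ N_ν` with `(q'.neg.sum q').sum ν`: `Poinc` by `poinc_sum`, `poinc_neg`; `NullCob` by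
  `nullCob_diag` (for `q'.neg`, whose double negative is `q'`, or pull back along the exchange) and
  `nullCob_sum`.  `q.sum ((q'.neg.sum q').sum ν)` is the pull back of
  `(q'.neg.sum q).sum (q'.sum ν)` along a permutation of the summands (a permutation matrix, which is
  an `IsMap` in both directions); `q'.neg.sum q = (q'.sum q.neg).neg` (componentwise, `Quad.ext'`) is
  null-cobordant by `nullCob_neg h`.
* `lzero_pull`, `lzero_tr`: add the identity of `N` (`pull` along `diag(A, 1)`), `q.tr.sum ν.tr = (q.sum ν).tr`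
  up to the equality of the components (`TT_blocks`, `TT_zero`).
-/

namespace Pool.Agent.H16.UN

open Matrix

variable {S : Type} [Ring S] [StarRing S]

private theorem LZt_sum_sym {E E' : FC S} {m : ℤ} (q : Quad E m) (q' : Quad E' m) :
    (q.sum q').sym = fromBlocks q.sym 0 0 q'.sym := by
  show fromBlocks (q.ψ 0) 0 0 (q'.ψ 0) +
    TT (E.sum E') (E.sum E') (fromBlocks (q.ψ 0) 0 0 (q'.ψ 0)) =
      fromBlocks (q.ψ 0 + TT E E (q.ψ 0)) 0 0 (q'.ψ 0 + TT E' E' (q'.ψ 0))
  rw [TT_blocks, TT_zero, TT_zero, fromBlocks_add, add_zero, add_zero]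

private theorem LZt_neg_sym {E : FC S} {m : ℤ} (q : Quad E m) : q.neg.sym = -q.sym := by
  show -q.ψ 0 + TT E E (-q.ψ 0) = -(q.ψ 0 + TT E E (q.ψ 0))
  rw [TT_neg, neg_add]

private theorem LZt_neg_neg {E : FC S} {m : ℤ} (q : Quad E m) : q.neg.neg = q :=
  Quad.ext' fun s => neg_neg (q.ψ s)

omit [StarRing S] in
private theorem LZt_I (E : FC S) : IsMap E (E.sum E) (fromCols 1 1) where
  hom := by
    rintro a (b | b) h
    · have : a = b := by by_contra h1; exact h (Matrix.one_apply_ne h1)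
      subst this; rfl
    · have : a = b := by by_contra h1; exact h (Matrix.one_apply_ne h1)
      subst this; rfl
  comm := by
    show E.D * fromCols 1 1 = fromCols 1 1 * fromBlocks E.D 0 0 E.D
    rw [mul_fromCols, fromCols_mul_fromBlocks]
    simp

theorem nullCob_diag {E : FC S} {m : ℤ} (q : Quad E m) (V : Matrix E.ι E.ι S)
    (h1 : q.sym * V = 1) (h2 : V * q.sym = 1) : NullCob (q.sum q.neg) := by
  have hIh : (fromCols (1 : Matrix E.ι E.ι S) (1 : Matrix E.ι E.ι S))ᴴ = fromRows 1 1 := by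
    rw [conjTranspose_fromCols_eq_fromRows_conjTranspose, conjTranspose_one]
  have hW : fromCols (0 : Matrix E.ι E.ι S) (1 : Matrix E.ι E.ι S) * (q.sum q.neg).sym *
      (fromCols (1 : Matrix E.ι E.ι S) (1 : Matrix E.ι E.ι S))ᴴ = -q.sym := by
    rw [hIh, LZt_sum_sym, LZt_neg_sym]
    show fromCols (0 : Matrix E.ι E.ι S) (1 : Matrix E.ι E.ι S) *
      fromBlocks q.sym 0 0 (-q.sym) * fromRows 1 1 = -q.sym
    rw [fromCols_mul_fromBlocks, fromCols_mul_fromRows]
    simp
  refine nullCob_strict (q.sum q.neg) E (fromCols 1 1) (LZt_I E) (fun s => ?_) (κ := E.ι)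
    (fromCols 0 1) (fromRows 1 0) (fromRows (-1) 1) ?_ ?_ ?_ ?_ ?_ (-V) ?_ ?_
  · rw [hIh]
    show fromCols (1 : Matrix E.ι E.ι S) (1 : Matrix E.ι E.ι S) *
      fromBlocks (q.ψ s) 0 0 (-q.ψ s) * fromRows 1 1 = 0
    rw [fromCols_mul_fromBlocks, fromCols_mul_fromRows]
    simp
  · show fromCols (1 : Matrix E.ι E.ι S) (1 : Matrix E.ι E.ι S) * fromRows 1 0 = 1
    rw [fromCols_mul_fromRows]
    simp
  · show fromCols (0 : Matrix E.ι E.ι S) (1 : Matrix E.ι E.ι S) * fromRows (-1) 1 = 1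
    rw [fromCols_mul_fromRows]
    simp
  · show fromCols (1 : Matrix E.ι E.ι S) (1 : Matrix E.ι E.ι S) * fromRows (-1) 1 = 0
    rw [fromCols_mul_fromRows]
    simp
  · show fromCols (0 : Matrix E.ι E.ι S) (1 : Matrix E.ι E.ι S) * fromRows 1 0 = 0
    rw [fromCols_mul_fromRows]
    simp
  · show fromRows (1 : Matrix E.ι E.ι S) (0 : Matrix E.ι E.ι S) * fromCols 1 1 +
      fromRows (-1 : Matrix E.ι E.ι S) (1 : Matrix E.ι E.ι S) * fromCols 0 1 = 1
    rw [fromRows_mul_fromCols, fromRows_mul_fromCols, fromBlocks_add, ← fromBlocks_one]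
    simp
  · refine Eq.trans (congrArg (fun X => X * (-V)) hW) ?_
    show -q.sym * -V = 1
    rw [Matrix.neg_mul, Matrix.mul_neg, neg_neg, h1]
  · refine Eq.trans (congrArg (fun X => (-V) * X) hW) ?_
    show -V * -q.sym = 1
    rw [Matrix.neg_mul, Matrix.mul_neg, neg_neg, h2]

private theorem LZt_reindex {E1 E2 : FC S} {m : ℤ} (q1 : Quad E1 m) (q2 : Quad E2 m)
    (e : E1.ι ≃ E2.ι) (hd : ∀ a, E2.deg (e a) = E1.deg a) (hD : E1.D = E2.D.submatrix e e)
    (hq : ∀ s, q1.ψ s = (q2.ψ s).submatrix e e) (h : NullCob q2) : NullCob q1 := by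
  have hA : IsMap E1 E2 ((1 : Matrix E2.ι E2.ι S).submatrix e id) := by
    refine ⟨fun a b hab => ?_, ?_⟩
    · have : e a = b := by by_contra h1; exact hab (Matrix.one_apply_ne h1)
      subst this
      exact (hd a).symm
    · rw [hD]
      ext a b
      have h1 : (E2.D.submatrix e e * (1 : Matrix E2.ι E2.ι S).submatrix e id) =
          (E2.D * 1).submatrix e id := submatrix_mul_equiv E2.D 1 e e id
      have h2 : ((1 : Matrix E2.ι E2.ι S).submatrix e id * E2.D) =
          ((1 : Matrix E2.ι E2.ι S) * E2.D).submatrix e id := by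
        rw [← submatrix_mul_equiv _ _ e (Equiv.refl _) id]
        rfl
      rw [h1, h2, Matrix.mul_one, Matrix.one_mul]
  have hA' : IsMap E2 E1 ((1 : Matrix E2.ι E2.ι S).submatrix id e) := by
    refine ⟨fun a b hab => ?_, ?_⟩
    · have : a = e b := by by_contra h1; exact hab (Matrix.one_apply_ne h1)
      subst this
      exact hd b
    · rw [hD]
      have h1 : (E2.D * (1 : Matrix E2.ι E2.ι S).submatrix id e) =
          (E2.D * 1).submatrix id e := by
        rw [← submatrix_mul_equiv _ _ id (Equiv.refl _) e]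
        rfl
      have h2 : ((1 : Matrix E2.ι E2.ι S).submatrix id e * E2.D.submatrix e e) =
          ((1 : Matrix E2.ι E2.ι S) * E2.D).submatrix id e := by
        rw [← submatrix_mul_equiv _ _ id e e]
      rw [h1, h2, Matrix.mul_one, Matrix.one_mul]
  have h1 : (1 : Matrix E2.ι E2.ι S).submatrix e id * (1 : Matrix E2.ι E2.ι S).submatrix id e =
      1 := by
    have h3 := submatrix_mul_equiv (1 : Matrix E2.ι E2.ι S) (1 : Matrix E2.ι E2.ι S) e
      (Equiv.refl _) e
    rw [Matrix.one_mul, submatrix_one_equiv] at h3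
    exact h3
  have h2 : (1 : Matrix E2.ι E2.ι S).submatrix id e * (1 : Matrix E2.ι E2.ι S).submatrix e id =
      1 := by
    have h3 := submatrix_mul_equiv (1 : Matrix E2.ι E2.ι S) (1 : Matrix E2.ι E2.ι S) id e id
    rw [Matrix.one_mul, submatrix_id_id] at h3
    exact h3
  have h3 := nullCob_pull q2 hA hA' h1 h2 h
  have h4 : q2.pull hA = q1 := by
    refine Quad.ext' fun s => ?_
    rw [hq s]
    show (1 : Matrix E2.ι E2.ι S).submatrix e id * q2.ψ s *
      ((1 : Matrix E2.ι E2.ι S).submatrix e id)ᴴ = (q2.ψ s).submatrix e e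
    rw [conjTranspose_submatrix, conjTranspose_one]
    have h5 := submatrix_mul_equiv (1 : Matrix E2.ι E2.ι S) (q2.ψ s) e (Equiv.refl _) id
    have h6 := submatrix_mul_equiv (q2.ψ s) (1 : Matrix E2.ι E2.ι S) e (Equiv.refl _) e
    rw [Matrix.one_mul] at h5
    rw [Matrix.mul_one] at h6
    refine Eq.trans (congrArg (fun X => X * (1 : Matrix E2.ι E2.ι S).submatrix id e) h5) ?_
    exact h6
  rwa [h4] at h3

private def LZt_equiv (A B C D : Type) : (A ⊕ ((B ⊕ C) ⊕ D)) ≃ ((B ⊕ A) ⊕ (C ⊕ D)) where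
  toFun
    | .inl a => .inl (.inr a)
    | .inr (.inl (.inl b)) => .inl (.inl b)
    | .inr (.inl (.inr c)) => .inr (.inl c)
    | .inr (.inr d) => .inr (.inr d)
  invFun
    | .inl (.inr a) => .inl a
    | .inl (.inl b) => .inr (.inl (.inl b))
    | .inr (.inl c) => .inr (.inl (.inr c))
    | .inr (.inr d) => .inr (.inr d)
  left_inv := by rintro (a | ((a | a) | a)) <;> rfl
  right_inv := by rintro ((a | a) | (a | a)) <;> rfl

/-- if `q' - q` is null-cobordant and `q'` is zero in the L-group, so is `q` -/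
theorem lzero_of_cob {E E' : FC S} {m : ℤ} (q : Quad E m) (q' : Quad E' m)
    (V : Matrix E.ι E.ι S) (h1 : q.sym * V = 1) (h2 : V * q.sym = 1)
    (V' : Matrix E'.ι E'.ι S) (h1' : q'.sym * V' = 1) (h2' : V' * q'.sym = 1)
    (h : NullCob (q'.sum q.neg)) (hz : LZero q') : LZero q := by
  obtain ⟨hp, N, ν, hν, hν0, hs⟩ := hz
  have hd : NullCob (q'.neg.sum q') := by
    have h3 := nullCob_diag q'.neg (-V')
      (by rw [LZt_neg_sym, Matrix.neg_mul, Matrix.mul_neg, neg_neg, h1'])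
      (by rw [LZt_neg_sym, Matrix.neg_mul, Matrix.mul_neg, neg_neg, h2'])
    rwa [LZt_neg_neg] at h3
  refine ⟨poinc_of_inv q V h1 h2, (E'.sum E').sum N, (q'.neg.sum q').sum ν,
    poinc_sum (poinc_sum (poinc_neg hp) hp) hν, nullCob_sum hd hν0, ?_⟩
  have hA : NullCob (q'.neg.sum q) := by
    have h3 := nullCob_neg h
    have h4 : (q'.sum q.neg).neg = q'.neg.sum q := by
      refine Quad.ext' fun s => ?_
      show -fromBlocks (q'.ψ s) 0 0 (-q.ψ s) = fromBlocks (-q'.ψ s) 0 0 (q.ψ s)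
      rw [fromBlocks_neg, neg_zero, neg_zero, neg_neg]
    rwa [h4] at h3
  refine LZt_reindex _ ((q'.neg.sum q).sum (q'.sum ν)) (LZt_equiv E.ι E'.ι E'.ι N.ι) ?_ ?_ ?_
    (nullCob_sum hA hs)
  · rintro (a | ((a | a) | a)) <;> rfl
  · ext i j
    rcases i with a | ((a | a) | a) <;> rcases j with b | ((b | b) | b) <;> rfl
  · intro s
    ext i j
    rcases i with a | ((a | a) | a) <;> rcases j with b | ((b | b) | b) <;> rfl

theorem lzero_pull {E E' : FC S} {m : ℤ} (q : Quad E m) {A : Matrix E'.ι E.ι S}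
    (hA : IsMap E' E A) {A' : Matrix E.ι E'.ι S} (hA' : IsMap E E' A') (h1 : A * A' = 1)
    (h2 : A' * A = 1) (h : LZero q) : LZero (q.pull hA) := by
  obtain ⟨hp, N, ν, hν, hν0, hs⟩ := h
  refine ⟨poinc_pull q hA hA' h1 h2 hp, N, ν, hν, hν0, ?_⟩
  have key : ∀ {X Y : FC S} {B : Matrix X.ι Y.ι S}, IsMap X Y B →
      IsMap (X.sum N) (Y.sum N) (fromBlocks B 0 0 1) := by
    intro X Y B hB
    refine ⟨?_, ?_⟩
    · rintro (a | a) (b | b) hab
      · exact hB.hom a b hab
      · exact absurd rfl hab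
      · exact absurd rfl hab
      · exact HM_one N a b hab
    · show fromBlocks X.D 0 0 N.D * fromBlocks B 0 0 1 = fromBlocks B 0 0 1 * fromBlocks Y.D 0 0 N.D
      rw [fromBlocks_multiply, fromBlocks_multiply]
      simp [hB.comm]
  have h3 := nullCob_pull (q.sum ν) (key hA) (key hA')
    (by
      rw [fromBlocks_multiply]
      simp only [Matrix.mul_zero, Matrix.zero_mul, add_zero, zero_add, Matrix.mul_one, h1]
      exact fromBlocks_one)
    (by
      rw [fromBlocks_multiply]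
      simp only [Matrix.mul_zero, Matrix.zero_mul, add_zero, zero_add, Matrix.mul_one, h2]
      exact fromBlocks_one) hs
  have h4 : (q.sum ν).pull (key hA) = (q.pull hA).sum ν := by
    refine Quad.ext' fun s => ?_
    show fromBlocks A 0 0 1 * fromBlocks (q.ψ s) 0 0 (ν.ψ s) * (fromBlocks A 0 0 1)ᴴ =
      fromBlocks (A * q.ψ s * Aᴴ) 0 0 (ν.ψ s)
    rw [fromBlocks_conjTranspose, fromBlocks_multiply, fromBlocks_multiply]
    simp
  rwa [h4] at h3

theorem lzero_tr {E : FC S} {m : ℤ} (q : Quad E m) (h : LZero q) : LZero q.tr := by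
  obtain ⟨hp, N, ν, hν, hν0, hs⟩ := h
  refine ⟨poinc_tr hp, N, ν.tr, poinc_tr hν, nullCob_tr hν0, ?_⟩
  have h3 := nullCob_tr hs
  have h4 : (q.sum ν).tr = q.tr.sum ν.tr := by
    refine Quad.ext' fun s => ?_
    show TT (E.sum N) (E.sum N) (fromBlocks (q.ψ s) 0 0 (ν.ψ s)) =
      fromBlocks (TT E E (q.ψ s)) 0 0 (TT N N (ν.ψ s))
    rw [TT_blocks, TT_zero, TT_zero]
  rwa [h4] at h3

end Pool.Agent.H16.UN
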