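import Pool.Agent.H16.UN.Bas

/-!
# Module NH: the null-homotopy lemma

`Z` is a complex (matrix `Z.D`, degrees `≥ k`), `A` a matrix on `κ` (a differential acting on row
vectors, gradings `g`), `B` a subgroup of the coefficients stable under multiplication by the entries
of `Z.D` on the left.  `G : Z → B^κ` satisfies `G A = s(deg - 1) • (Z.D G)` and we look for `H` with
`Z.D H + s(deg) • (H A) = G`.

PROOF.  Choose the rows `H a` by induction on the degree `n` of `a` (`n = k, k+1, ..`): the equation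
for the row `a` of degree `n` is `H_a A = s n • (G_a - (Z.D H)_a)`, where `(Z.D H)_a` only involves
rows of degree `n - 1` (`Z.hdeg`).  For `n = k` there are no such rows and `h0` gives `w` with
`w A = G_a`, take `H_a = s k • w`.  For `n > k` the right hand side `v = G_a - (Z.D H)_a` has entries in
`B`, is supported in degree `q - n`, and `v A = 0`:
`(G A)_a - ∑ D_ac (H_c A) = s(n-1) (Z.D G)_a - ∑ D_ac s(n-1) (G_c - (Z.D H)_c) = s(n-1) (Z.D Z.D H)_a = 0`
(using `s(n-1)^2 = 1`, `Z.hD`), so `h1` applies.  FORMALLY: prove by induction on `N : ℕ` that there is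
`H` (entries in `B`, right support, rows of degree `≥ k + N` equal to zero) such that the equation
holds for all rows of degree `< k + N`; step: `H'_a = H_a` for `deg a < k + N`, the chosen row for
`deg a = k + N` (use `Classical.choose` or `choose`), `0` otherwise; the products `(Z.D H')_a` for
`deg a ≤ k + N` only see rows of degree `< k + N`.  At the end take `N` larger than all `deg a - k`
(finite index type).
-/

namespace Pool.Agent.H16.UN

open Matrix

private theorem NH_sq {s : ℤ → ℤ} (hs : ∀ n, s n = 1 ∨ s n = -1) (n : ℤ) : s n * s n = 1 := by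
  rcases hs n with h | h <;> rw [h] <;> norm_num

private theorem NH_step {S : Type} [Ring S] (B : AddSubgroup S) (Z : FC S) {κ : Type} [Fintype κ]
    [DecidableEq κ] (g : κ → ℤ) (A : Matrix κ κ S) (s : ℤ → ℤ) (hs : ∀ n, s n = 1 ∨ s n = -1)
    (k q : ℤ) (hZ : ∀ a, k ≤ Z.deg a) (hZB : ∀ a b, ∀ x ∈ B, Z.D a b * x ∈ B)
    (G : Matrix Z.ι κ S) (hGB : ∀ a b, G a b ∈ B) (hG : ∀ a b, G a b ≠ 0 → Z.deg a + g b = q)
    (hcl : ∀ a b, (G * A) a b = s (Z.deg a - 1) • (Z.D * G) a b)
    (h0 : ∀ a, Z.deg a = k → ∃ w : κ → S, (∀ b, w b ∈ B) ∧ (∀ b, w b ≠ 0 → g b = q - 1 - k) ∧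
      w ᵥ* A = G a)
    (h1 : ∀ n, k < n → ∀ v : κ → S, (∀ b, v b ∈ B) → (∀ b, v b ≠ 0 → g b = q - n) →
      v ᵥ* A = 0 → ∃ w : κ → S, (∀ b, w b ∈ B) ∧ (∀ b, w b ≠ 0 → g b = q - 1 - n) ∧
      w ᵥ* A = v) (n : ℤ) (H : Matrix Z.ι κ S) (hHB : ∀ a b, H a b ∈ B)
    (hH : ∀ a b, H a b ≠ 0 → Z.deg a + g b = q - 1)
    (he : ∀ a, Z.deg a < n → ∀ b, (Z.D * H) a b + s (Z.deg a) • (H * A) a b = G a b)
    (a : Z.ι) (ha : Z.deg a = n) :
    ∃ w : κ → S, (∀ b, w b ∈ B) ∧ (∀ b, w b ≠ 0 → g b = q - 1 - n) ∧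
      ∀ b, (w ᵥ* A) b = G a b - (Z.D * H) a b := by
  rcases lt_or_eq_of_le (ha ▸ hZ a : k ≤ n) with hk | hk
  · obtain ⟨w, w1, w2, w3⟩ := h1 n hk (fun b => G a b - (Z.D * H) a b)
      (fun b => B.sub_mem (hGB a b) (by
        rw [Matrix.mul_apply]
        exact B.sum_mem fun c _ => hZB a c _ (hHB c b)))
      (fun b hb => by
        by_cases hg0 : G a b = 0
        · have hz : (Z.D * H) a b ≠ 0 := by
            intro h
            exact hb (by rw [hg0, h, sub_zero])
          rw [Matrix.mul_apply] at hz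
          obtain ⟨c, -, hc⟩ := Finset.exists_ne_zero_of_sum_ne_zero hz
          have e1 := Z.hdeg a c (left_ne_zero_of_mul hc)
          have e2 := hH c b (right_ne_zero_of_mul hc)
          omega
        · have := hG a b hg0
          omega)
      (by
        funext b
        have e1 : ((fun b => G a b - (Z.D * H) a b) ᵥ* A) b =
            (G * A) a b - (Z.D * H * A) a b := by
          change ∑ c, (G a c - (Z.D * H) a c) * A c b = _
          rw [Matrix.mul_apply, Matrix.mul_apply (M := Z.D * H), ← Finset.sum_sub_distrib]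
          exact Finset.sum_congr rfl fun c _ => sub_mul _ _ _
        have e2 : (Z.D * H * A) a b = s (n - 1) • (Z.D * G) a b := by
          have e3 : (Z.D * H * A) a b = ∑ c, Z.D a c * (s (n - 1) • (G c b - (Z.D * H) c b)) := by
            rw [Matrix.mul_assoc, Matrix.mul_apply]
            refine Finset.sum_congr rfl fun c _ => ?_
            by_cases hc : Z.D a c = 0
            · rw [hc, zero_mul, zero_mul]
            · have hd := Z.hdeg a c hc
              have hdc : Z.deg c = n - 1 := by omega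
              have e4 := he c (by omega) b
              rw [hdc] at e4
              rw [← e4, add_sub_cancel_left, smul_smul, NH_sq hs, one_smul]
          have e5 : (Z.D * (Z.D * H)) a b = 0 := by
            rw [← Matrix.mul_assoc, Z.hD, Matrix.zero_mul]
            rfl
          have e6 : (∑ c, Z.D a c * (G c b - (Z.D * H) c b)) = (Z.D * G) a b := by
            calc (∑ c, Z.D a c * (G c b - (Z.D * H) c b))
                = (Z.D * G) a b - (Z.D * (Z.D * H)) a b := by
                  rw [Matrix.mul_apply, Matrix.mul_apply (M := Z.D) (N := Z.D * H),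
                    ← Finset.sum_sub_distrib]
                  exact Finset.sum_congr rfl fun c _ => mul_sub _ _ _
              _ = (Z.D * G) a b := by rw [e5, sub_zero]
          rw [e3, ← e6, Finset.smul_sum]
          exact Finset.sum_congr rfl fun c _ => mul_smul_comm _ _ _
        rw [e1, e2, hcl a b, ha, sub_self]
        rfl)
    exact ⟨w, w1, w2, fun b => congrFun w3 b⟩
  · subst hk
    obtain ⟨w, w1, w2, w3⟩ := h0 a ha
    refine ⟨w, w1, w2, fun b => ?_⟩
    have hz : (Z.D * H) a b = 0 := by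
      rw [Matrix.mul_apply]
      refine Finset.sum_eq_zero fun c _ => ?_
      by_cases hc : Z.D a c = 0
      · rw [hc, zero_mul]
      · have e1 := Z.hdeg a c hc
        have e2 := hZ c
        omega
    rw [w3, hz, sub_zero]

private theorem NH_ind {S : Type} [Ring S] (B : AddSubgroup S) (Z : FC S) {κ : Type} [Fintype κ]
    [DecidableEq κ] (g : κ → ℤ) (A : Matrix κ κ S) (s : ℤ → ℤ) (hs : ∀ n, s n = 1 ∨ s n = -1)
    (k q : ℤ) (hZ : ∀ a, k ≤ Z.deg a) (hZB : ∀ a b, ∀ x ∈ B, Z.D a b * x ∈ B)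
    (G : Matrix Z.ι κ S) (hGB : ∀ a b, G a b ∈ B) (hG : ∀ a b, G a b ≠ 0 → Z.deg a + g b = q)
    (hcl : ∀ a b, (G * A) a b = s (Z.deg a - 1) • (Z.D * G) a b)
    (h0 : ∀ a, Z.deg a = k → ∃ w : κ → S, (∀ b, w b ∈ B) ∧ (∀ b, w b ≠ 0 → g b = q - 1 - k) ∧
      w ᵥ* A = G a)
    (h1 : ∀ n, k < n → ∀ v : κ → S, (∀ b, v b ∈ B) → (∀ b, v b ≠ 0 → g b = q - n) →
      v ᵥ* A = 0 → ∃ w : κ → S, (∀ b, w b ∈ B) ∧ (∀ b, w b ≠ 0 → g b = q - 1 - n) ∧
      w ᵥ* A = v) (N : ℕ) :
    ∃ H : Matrix Z.ι κ S, (∀ a b, H a b ∈ B) ∧ (∀ a b, H a b ≠ 0 → Z.deg a + g b = q - 1) ∧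
      ∀ a, Z.deg a < k + N → ∀ b, (Z.D * H) a b + s (Z.deg a) • (H * A) a b = G a b := by
  classical
  induction N with
  | zero =>
    refine ⟨0, fun a b => B.zero_mem, fun a b h => absurd rfl h, fun a ha b => ?_⟩
    have := hZ a
    push_cast at ha
    omega
  | succ N ih =>
    obtain ⟨H, hHB, hH, he⟩ := ih
    have key := NH_step B Z g A s hs k q hZ hZB G hGB hG hcl h0 h1 (k + N) H hHB hH he
    choose w w1 w2 w3 using key
    obtain ⟨H', hH'⟩ : ∃ H' : Matrix Z.ι κ S, H' = Matrix.of fun a b =>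
      if ha : Z.deg a = k + N then s (k + N) • w a ha b else H a b := ⟨_, rfl⟩
    have hn : ∀ a, Z.deg a ≠ k + N → ∀ b, H' a b = H a b := by
      intro a ha b
      rw [hH', Matrix.of_apply, dif_neg ha]
    have hy : ∀ a (ha : Z.deg a = k + N) b, H' a b = s (k + N) • w a ha b := by
      intro a ha b
      rw [hH', Matrix.of_apply, dif_pos ha]
    have hD : ∀ a, Z.deg a < k + (N + 1 : ℕ) → ∀ b, (Z.D * H') a b = (Z.D * H) a b := by
      intro a ha b
      rw [Matrix.mul_apply, Matrix.mul_apply]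
      refine Finset.sum_congr rfl fun c _ => ?_
      by_cases hc : Z.D a c = 0
      · rw [hc, zero_mul, zero_mul]
      · have e1 := Z.hdeg a c hc
        rw [hn c (by push_cast at ha; omega)]
    refine ⟨H', fun a b => ?_, fun a b hab => ?_, fun a ha b => ?_⟩
    · by_cases h : Z.deg a = k + N
      · rw [hy a h]
        exact B.zsmul_mem (w1 a h b) _
      · rw [hn a h]
        exact hHB a b
    · by_cases h : Z.deg a = k + N
      · have h2 := w2 a h b (fun h3 => hab (by rw [hy a h, h3, smul_zero]))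
        omega
      · rw [hn a h] at hab
        exact hH a b hab
    · rw [hD a ha b]
      by_cases h : Z.deg a = k + N
      · have e1 : (H' * A) a b = s (k + N) • (G a b - (Z.D * H) a b) := by
          rw [← w3 a h b]
          change (H' * A) a b = s (k + N) • ∑ c, w a h c * A c b
          rw [Matrix.mul_apply, Finset.smul_sum]
          refine Finset.sum_congr rfl fun c _ => ?_
          rw [hy a h, smul_mul_assoc]
        rw [e1, h, smul_smul, NH_sq hs, one_smul, add_sub_cancel]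
      · have e1 : (H' * A) a b = (H * A) a b := by
          rw [Matrix.mul_apply, Matrix.mul_apply]
          exact Finset.sum_congr rfl fun c _ => by rw [hn a h]
        rw [e1]
        exact he a (by push_cast at ha; omega) b

/-- **the null-homotopy lemma** -/
theorem nh {S : Type} [Ring S] (B : AddSubgroup S) (Z : FC S) {κ : Type} [Fintype κ]
    [DecidableEq κ] (g : κ → ℤ) (A : Matrix κ κ S) (s : ℤ → ℤ) (hs : ∀ n, s n = 1 ∨ s n = -1)
    (k q : ℤ) (hZ : ∀ a, k ≤ Z.deg a) (hZB : ∀ a b, ∀ x ∈ B, Z.D a b * x ∈ B)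
    (G : Matrix Z.ι κ S) (hGB : ∀ a b, G a b ∈ B) (hG : ∀ a b, G a b ≠ 0 → Z.deg a + g b = q)
    (hcl : ∀ a b, (G * A) a b = s (Z.deg a - 1) • (Z.D * G) a b)
    (h0 : ∀ a, Z.deg a = k → ∃ w : κ → S, (∀ b, w b ∈ B) ∧ (∀ b, w b ≠ 0 → g b = q - 1 - k) ∧
      w ᵥ* A = G a)
    (h1 : ∀ n, k < n → ∀ v : κ → S, (∀ b, v b ∈ B) → (∀ b, v b ≠ 0 → g b = q - n) →
      v ᵥ* A = 0 → ∃ w : κ → S, (∀ b, w b ∈ B) ∧ (∀ b, w b ≠ 0 → g b = q - 1 - n) ∧
      w ᵥ* A = v) :
    ∃ H : Matrix Z.ι κ S, (∀ a b, H a b ∈ B) ∧ (∀ a b, H a b ≠ 0 → Z.deg a + g b = q - 1) ∧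
      Z.D * H + Matrix.of (fun a b => s (Z.deg a) • (H * A) a b) = G := by
  obtain ⟨H, h2, h3, h4⟩ := NH_ind B Z g A s hs k q hZ hZB G hGB hG hcl h0 h1
    ((Finset.univ.sup fun a => (Z.deg a - k).toNat) + 1)
  refine ⟨H, h2, h3, ?_⟩
  ext a b
  refine h4 a ?_ b
  have h5 : (Z.deg a - k).toNat ≤ Finset.univ.sup fun a => (Z.deg a - k).toNat :=
    Finset.le_sup (f := fun a => (Z.deg a - k).toNat) (Finset.mem_univ a)
  push_cast
  omega

end Pool.Agent.H16.UN
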