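import Pool.Agent.H16.UN.Tat

/-!
# Module Rfn: quadratic refinement of the extended form

PROOF.  Restriction of forms on the cone to `X` is `toBlocks₁₁`; it commutes with `dd` and `TT`
(the differential of the cone is `[[D, 0], [F, -D_Z]]`, so `(D'' φ)₁₁ = D φ₁₁`, `(φ D''ᴴ)₁₁ = φ₁₁ Dᴴ`).
STEP: if `c` is `B`-valued of degree `r` on the cone, `TT c = σ c` and `c₁₁ = d + σ TT d` with `d`
`B`-valued of degree `r`, there is `d''` `B`-valued of degree `r` with `d''₁₁ = d` and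
`c = d'' + σ TT d''`: by `tate_split` `c = O + σ TT O`, put `d'' = O` with the block 11 replaced by `d`
(i.e. `fromBlocks d O₁₂ O₂₁ O₂₂`); only the block 11 of `d'' + σ TT d''` changes, from `O₁₁ + σ TT O₁₁ = c₁₁`
to `d + σ TT d = c₁₁`.
RECURSION over `s` (build a sequence `ψ' s` with `Nat.rec` on the subtype of `B`-valued forms of degree
`m + s` with `(ψ' s)₁₁ = q.ψ s` and `TT (dd (ψ' s)) = (-1)^(s+1) dd (ψ' s)`): `ψ' 0` from the step with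
`c = φ`, `σ = 1`, `d = q.ψ 0`; then `φ = ψ' 0 + TT (ψ' 0)` and `dd φ = 0` give
`TT (dd (ψ' 0)) = - dd (ψ' 0)`.  `ψ' (s+1)` from the step with `c = dd (ψ' s)`, `σ = (-1)^(s+1)`,
`d = q.ψ (s+1)` (`c₁₁ = dd (q.ψ s) = q.cyc s`); then `dd c = 0` gives
`dd (ψ' (s+1)) + σ TT (dd (ψ' (s+1))) = 0`, i.e. `TT (dd (ψ' (s+1))) = (-1)^(s+2) dd (ψ' (s+1))`.
-/

namespace Pool.Agent.H16.UN

open Matrix

variable {R S : Type} [Ring R] [StarRing R] [Ring S] [StarRing S]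

theorem rfn_dd11 (𝒮 : Setup R S) (X Z : FC R) (F : Matrix Z.ι X.ι R) (hF : IsMap Z X F)
    (G : Matrix (X.ι ⊕ Z.ι) (X.ι ⊕ Z.ι) S) :
    (dd ((FC.cone Z X F hF).map 𝒮.j) ((FC.cone Z X F hF).map 𝒮.j) G).toBlocks₁₁ =
      dd (X.map 𝒮.j) (X.map 𝒮.j) G.toBlocks₁₁ := by
  ext a b
  change (((FC.cone Z X F hF).map 𝒮.j).D * G) (Sum.inl a) (Sum.inl b) +
      (((FC.cone Z X F hF).map 𝒮.j).eps * G * ((FC.cone Z X F hF).map 𝒮.j).Dᴴ)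
        (Sum.inl a) (Sum.inl b) =
    ((X.map 𝒮.j).D * G.toBlocks₁₁) a b + ((X.map 𝒮.j).eps * G.toBlocks₁₁ * (X.map 𝒮.j).Dᴴ) a b
  congr 1
  · rw [Matrix.mul_apply, Matrix.mul_apply, Fintype.sum_sum_type]
    have h0 : ∀ c : Z.ι, ((FC.cone Z X F hF).map 𝒮.j).D (Sum.inl a) (Sum.inr c) = 0 :=
      fun c => map_zero 𝒮.j
    have h1 : ∑ c : Z.ι, ((FC.cone Z X F hF).map 𝒮.j).D (Sum.inl a) (Sum.inr c) *
        G (Sum.inr c) (Sum.inl b) = 0 :=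
      Finset.sum_eq_zero fun c _ => by rw [h0 c, zero_mul]
    exact (congrArg₂ (· + ·) rfl h1).trans (add_zero _)
  · rw [Matrix.mul_apply, Matrix.mul_apply, Fintype.sum_sum_type]
    have h0 : ∀ c : Z.ι, ((FC.cone Z X F hF).map 𝒮.j).Dᴴ (Sum.inr c) (Sum.inl b) = 0 := by
      intro c
      rw [conjTranspose_apply]
      have : ((FC.cone Z X F hF).map 𝒮.j).D (Sum.inl b) (Sum.inr c) = 0 := map_zero 𝒮.j
      rw [this, star_zero]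
    simp only [h0, mul_zero, Finset.sum_const_zero, add_zero]
    refine Finset.sum_congr rfl fun c _ => ?_
    congr 1
    rw [eps_apply_left ((FC.cone Z X F hF).map 𝒮.j) G (Sum.inl a) (Sum.inl c),
      eps_apply_left (X.map 𝒮.j) G.toBlocks₁₁ a c]
    rfl

theorem rfn_TT11 (𝒮 : Setup R S) (X Z : FC R) (F : Matrix Z.ι X.ι R) (hF : IsMap Z X F)
    (G : Matrix (X.ι ⊕ Z.ι) (X.ι ⊕ Z.ι) S) :
    (TT ((FC.cone Z X F hF).map 𝒮.j) ((FC.cone Z X F hF).map 𝒮.j) G).toBlocks₁₁ =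
      TT (X.map 𝒮.j) (X.map 𝒮.j) G.toBlocks₁₁ := rfl

/-- the differential of a `B`-valued form is `B`-valued -/
theorem rfn_ddB (𝒮 : Setup R S) (E : FC R) (G : Matrix E.ι E.ι S) (hG : ∀ a b, G a b ∈ 𝒮.B) :
    ∀ a b, dd (E.map 𝒮.j) (E.map 𝒮.j) G a b ∈ 𝒮.B := by
  intro a b
  refine 𝒮.B.add_mem ?_ ?_
  · rw [Matrix.mul_apply]
    exact 𝒮.B.sum_mem fun c _ => 𝒮.Bl _ _ (hG c b)
  · rw [Matrix.mul_apply]
    refine 𝒮.B.sum_mem fun c _ => ?_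
    rw [eps_apply_left, conjTranspose_apply, FC.map_D, Matrix.map_apply, ← 𝒮.jstar]
    exact 𝒮.Br _ (𝒮.Bz _ (hG a c))

theorem rfn_step (𝒮 : Setup R S) (X Z : FC R) (F : Matrix Z.ι X.ι R) (hF : IsMap Z X F)
    (r σ : ℤ) (hσ : σ = 1 ∨ σ = -1) (c : Matrix (X.ι ⊕ Z.ι) (X.ι ⊕ Z.ι) S)
    (d : Matrix X.ι X.ι S) (hcB : ∀ a b, c a b ∈ 𝒮.B) (hdB : ∀ a b, d a b ∈ 𝒮.B)
    (hc : HF ((FC.cone Z X F hF).map 𝒮.j) ((FC.cone Z X F hF).map 𝒮.j) r c)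
    (hd : HF (X.map 𝒮.j) (X.map 𝒮.j) r d)
    (hcT : TT ((FC.cone Z X F hF).map 𝒮.j) ((FC.cone Z X F hF).map 𝒮.j) c = σ • c)
    (h11 : c.toBlocks₁₁ = d + σ • TT (X.map 𝒮.j) (X.map 𝒮.j) d) :
    ∃ d' : Matrix (X.ι ⊕ Z.ι) (X.ι ⊕ Z.ι) S, (∀ a b, d' a b ∈ 𝒮.B) ∧
      HF ((FC.cone Z X F hF).map 𝒮.j) ((FC.cone Z X F hF).map 𝒮.j) r d' ∧
      d'.toBlocks₁₁ = d ∧
      c = d' + σ • TT ((FC.cone Z X F hF).map 𝒮.j) ((FC.cone Z X F hF).map 𝒮.j) d' := by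
  obtain ⟨O, hOB, hO, hcO⟩ := tate_split 𝒮 ((FC.cone Z X F hF).map 𝒮.j) r σ hσ c hcB hc hcT
  have hO' := congrFun₂ hcO
  refine ⟨fromBlocks d O.toBlocks₁₂ O.toBlocks₂₁ O.toBlocks₂₂, ?_, ?_, ?_, ?_⟩
  · rintro (a | a) (b | b)
    · exact hdB a b
    · exact hOB _ _
    · exact hOB _ _
    · exact hOB _ _
  · rintro (a | a) (b | b) h
    · exact hd a b h
    · exact hO _ _ h
    · exact hO _ _ h
    · exact hO _ _ h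
  · exact toBlocks_fromBlocks₁₁ _ _ _ _
  · ext (a | a) (b | b)
    · exact congrFun₂ h11 a b
    · exact hO' _ _
    · exact hO' _ _
    · exact hO' _ _

theorem rfn_close (E : FC S) (σ : ℤ) (hσ : σ = 1 ∨ σ = -1) (c d : Matrix E.ι E.ι S)
    (hc : c = d + σ • TT E E d) (hd : dd E E c = 0) :
    TT E E (dd E E d) = (-σ) • dd E E d := by
  have hσσ : σ * σ = 1 := by rcases hσ with rfl | rfl <;> rfl
  rw [hc, dd_add, dd_zsmul, ← TT_dd] at hd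
  have h1 : σ • TT E E (dd E E d) = - dd E E d := by
    rw [eq_neg_iff_add_eq_zero, add_comm]; exact hd
  have h2 : σ • (σ • TT E E (dd E E d)) = σ • (- dd E E d) := by rw [h1]
  rw [smul_smul, hσσ, one_smul, smul_neg] at h2
  rw [h2, neg_smul]

/-- a symmetric closed form on the cone which extends the symmetrization of `q` has a quadratic
refinement which extends `q` -/
theorem refine (𝒮 : Setup R S) (X Z : FC R) (F : Matrix Z.ι X.ι R) (hF : IsMap Z X F) (m : ℤ)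
    (q : Quad (X.map 𝒮.j) m) (hq : ∀ s a b, q.ψ s a b ∈ 𝒮.B)
    (φ : Matrix (X.ι ⊕ Z.ι) (X.ι ⊕ Z.ι) S) (h11 : φ.toBlocks₁₁ = q.sym)
    (hφB : ∀ a b, φ a b ∈ 𝒮.B)
    (hφ : HF ((FC.cone Z X F hF).map 𝒮.j) ((FC.cone Z X F hF).map 𝒮.j) m φ)
    (hφT : TT ((FC.cone Z X F hF).map 𝒮.j) ((FC.cone Z X F hF).map 𝒮.j) φ = φ)
    (hφd : dd ((FC.cone Z X F hF).map 𝒮.j) ((FC.cone Z X F hF).map 𝒮.j) φ = 0) :
    ∃ q' : Quad ((FC.cone Z X F hF).map 𝒮.j) m, (∀ s a b, q'.ψ s a b ∈ 𝒮.B) ∧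
      (∀ s, (q'.ψ s).toBlocks₁₁ = q.ψ s) := by
  let E : FC S := (FC.cone Z X F hF).map 𝒮.j
  let P : ℕ → Matrix (X.ι ⊕ Z.ι) (X.ι ⊕ Z.ι) S → Prop := fun s ψ =>
    (∀ a b, ψ a b ∈ 𝒮.B) ∧ HF E E (m + s) ψ ∧ ψ.toBlocks₁₁ = q.ψ s ∧
      TT E E (dd E E ψ) = ((-1 : ℤ) ^ (s + 1)) • dd E E ψ
  have h0 : ∃ ψ, P 0 ψ := by
    obtain ⟨ψ, h1, h2, h3, h4⟩ := rfn_step 𝒮 X Z F hF (m + (0 : ℕ)) 1 (Or.inl rfl) φ (q.ψ 0)
      hφB (hq 0) (by simpa using hφ) (q.hom 0) (by rw [one_smul]; exact hφT)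
      (by rw [one_smul]; exact h11)
    refine ⟨ψ, h1, h2, h3, ?_⟩
    have h5 := rfn_close E 1 (Or.inl rfl) φ ψ h4 hφd
    rw [h5]
    norm_num
  have hs : ∀ (s : ℕ) (ψ : Matrix (X.ι ⊕ Z.ι) (X.ι ⊕ Z.ι) S), P s ψ →
      ∃ ψ', P (s + 1) ψ' ∧ dd E E ψ = ψ' + (-1 : ℤ) ^ (s + 1) • TT E E ψ' := by
    rintro s ψ ⟨h1, h2, h3, h4⟩
    have hσ : ((-1 : ℤ) ^ (s + 1)) = 1 ∨ ((-1 : ℤ) ^ (s + 1)) = -1 := neg_one_pow_eq_or ℤ (s + 1)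
    have hH : HF E E (m + ((s + 1 : ℕ) : ℤ)) (dd E E ψ) := by
      have h := HF_dd h2
      rw [add_assoc] at h
      exact_mod_cast h
    obtain ⟨ψ', k1, k2, k3, k4⟩ := rfn_step 𝒮 X Z F hF (m + ((s + 1 : ℕ) : ℤ))
      ((-1 : ℤ) ^ (s + 1)) hσ (dd E E ψ) (q.ψ (s + 1))
      (rfn_ddB 𝒮 (FC.cone Z X F hF) ψ h1) (hq (s + 1)) hH (q.hom (s + 1)) h4 (by
        have := rfn_dd11 𝒮 X Z F hF ψ
        refine this.trans ?_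
        rw [h3]
        exact q.cyc s)
    refine ⟨ψ', ⟨k1, k2, k3, ?_⟩, k4⟩
    have h5 := rfn_close E ((-1 : ℤ) ^ (s + 1)) hσ (dd E E ψ) ψ' k4 (dd_dd E E ψ)
    rw [h5, pow_succ (-1 : ℤ) (s + 1)]
    congr 1
    ring
  choose g hg1 hg2 using hs
  obtain ⟨ψ0, hψ0⟩ := h0
  let f : (s : ℕ) → {ψ : Matrix (X.ι ⊕ Z.ι) (X.ι ⊕ Z.ι) S // P s ψ} := fun s =>
    Nat.rec ⟨ψ0, hψ0⟩ (fun s p => ⟨g s p.1 p.2, hg1 s p.1 p.2⟩) s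
  refine ⟨⟨fun s => (f s).1, fun s => (f s).2.2.1, fun s => hg2 s (f s).1 (f s).2⟩,
    fun s => (f s).2.1, fun s => (f s).2.2.2.1⟩

end Pool.Agent.H16.UN
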