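import Pool.Agent.H16.UN.Dat

/-!
# Module Tat: the Tate lemma

PROOF of `tate_split`.  Put `O = G.map 𝒮.π`.  From `TT G = σ G`, entrywise
`σ • G a b = sg(deg b * deg a) • star (G b a)`, i.e. `star (G b a) = σ sg(..) • G a b`, so
`σ • (TT O) a b = σ sg(..) • star (π (G b a)) = star (π (σ sg(..) • G b a)) = star (π (star (G a b)))`
and `O a b + σ • (TT O) a b = π (G a b) + star (π (star (G a b))) = G a b` by `𝒮.tate`.

PROOF of `tate_exact`.  Induction on the degree (for both signs): for `q < 2k` every form of degree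
`q` is `0` (`hE`), take `H = 0`.  Otherwise let `H₁` be `B`-valued of degree `q - 1` with `dd H₁ = G`
(`hex`) and `Y = H₁ - σ • TT H₁`: `TT Y = -σ • Y`, `dd Y = G - σ • TT G = 0`; by the induction
hypothesis (degree `q - 1`, sign `-σ`) `Y = dd J` with `TT J = -σ • J`, `J` of degree `q - 2`; by
`tate_split` `J = O - σ • TT O`; then `H = H₁ - dd O` satisfies `dd H = G` and
`H - σ • TT H = Y - dd (O - σ • TT O) = Y - dd J = 0`, i.e. `TT H = σ • H`.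
Use `dd_dd`, `TT_dd`, `dd_sub`, `TT_TT`; `B`-valuedness of `dd O`: entries of `D * O` and `eps * O * Dᴴ`,
hypotheses `hDB`.  Formal induction: on `n : ℕ` with `q ≤ 2 * k - 1 + n`.
-/

namespace Pool.Agent.H16.UN

open Matrix

variable {R S : Type} [Ring R] [StarRing R] [Ring S] [StarRing S]

/-- forms with `TT G = σ G` are of the form `O + σ TT O` -/
theorem tate_split (𝒮 : Setup R S) (E : FC S) (q : ℤ) (σ : ℤ) (hσ : σ = 1 ∨ σ = -1)
    (G : Matrix E.ι E.ι S) (hGB : ∀ a b, G a b ∈ 𝒮.B) (hG : HF E E q G)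
    (hT : TT E E G = σ • G) :
    ∃ O : Matrix E.ι E.ι S, (∀ a b, O a b ∈ 𝒮.B) ∧ HF E E q O ∧ G = O + σ • TT E E O := by
  refine ⟨G.map 𝒮.π, fun a b => 𝒮.hπ _ (hGB a b), fun a b hab => hG a b fun h0 => hab ?_, ?_⟩
  · rw [Matrix.map_apply, h0, map_zero]
  · ext a b
    have h := congrFun (congrFun hT b) a
    have h1 : sg (E.deg a * E.deg b) • star (G a b) = σ • G b a := h
    have h2 : star (G a b) = (sg (E.deg a * E.deg b) * σ) • G b a := by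
      rw [mul_smul, ← h1, smul_smul, sg_mul_self, one_smul]
    have h3 := 𝒮.tate (G a b) (hGB a b)
    rw [h2, map_zsmul, star_zsmul] at h3
    change G a b = 𝒮.π (G a b) + σ • (sg (E.deg b * E.deg a) • star (𝒮.π (G b a)))
    rw [smul_smul, mul_comm σ, mul_comm (E.deg b)]
    exact h3.symm

/-- **the Tate lemma** -/
theorem tate_exact (𝒮 : Setup R S) (X : FC R) (k q0 : ℤ) (hE : ∀ a, k ≤ X.deg a)
    (hex : ∀ q, q ≤ q0 → ∀ G : Matrix X.ι X.ι S, (∀ a b, G a b ∈ 𝒮.B) →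
      HF (X.map 𝒮.j) (X.map 𝒮.j) q G → dd (X.map 𝒮.j) (X.map 𝒮.j) G = 0 →
      ∃ H : Matrix X.ι X.ι S, (∀ a b, H a b ∈ 𝒮.B) ∧
        HF (X.map 𝒮.j) (X.map 𝒮.j) (q - 1) H ∧ dd (X.map 𝒮.j) (X.map 𝒮.j) H = G)
    (q : ℤ) (hq : q ≤ q0) (σ : ℤ) (hσ : σ = 1 ∨ σ = -1) (G : Matrix X.ι X.ι S)
    (hGB : ∀ a b, G a b ∈ 𝒮.B) (hG : HF (X.map 𝒮.j) (X.map 𝒮.j) q G)
    (hd : dd (X.map 𝒮.j) (X.map 𝒮.j) G = 0)
    (hT : TT (X.map 𝒮.j) (X.map 𝒮.j) G = σ • G) :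
    ∃ H : Matrix X.ι X.ι S, (∀ a b, H a b ∈ 𝒮.B) ∧
      HF (X.map 𝒮.j) (X.map 𝒮.j) (q - 1) H ∧
      TT (X.map 𝒮.j) (X.map 𝒮.j) H = σ • H ∧ dd (X.map 𝒮.j) (X.map 𝒮.j) H = G := by
  have key : ∀ n : ℕ, ∀ q : ℤ, q ≤ q0 → q ≤ 2 * k - 1 + n → ∀ σ : ℤ, (σ = 1 ∨ σ = -1) →
      ∀ G : Matrix X.ι X.ι S, (∀ a b, G a b ∈ 𝒮.B) → HF (X.map 𝒮.j) (X.map 𝒮.j) q G →
      dd (X.map 𝒮.j) (X.map 𝒮.j) G = 0 → TT (X.map 𝒮.j) (X.map 𝒮.j) G = σ • G →
      ∃ H : Matrix X.ι X.ι S, (∀ a b, H a b ∈ 𝒮.B) ∧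
        HF (X.map 𝒮.j) (X.map 𝒮.j) (q - 1) H ∧
        TT (X.map 𝒮.j) (X.map 𝒮.j) H = σ • H ∧ dd (X.map 𝒮.j) (X.map 𝒮.j) H = G := by
    intro n
    induction n with
    | zero =>
      intro q _ hn σ _ G _ hG _ _
      have h0 : G = 0 := by
        ext a b
        by_contra h1
        have h2 := hG a b h1
        have h3 := hE a
        have h4 := hE b
        change X.deg a + X.deg b = q at h2
        push_cast at hn
        omega
      refine ⟨0, fun a b => 𝒮.B.zero_mem, HF_zero _ _ _, ?_, ?_⟩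
      · rw [TT_zero, smul_zero]
      · rw [dd_zero, h0]
    | succ n ih =>
      intro q hq hn σ hσ G hGB hG hd hT
      have hσσ : σ * σ = 1 := by rcases hσ with rfl | rfl <;> rfl
      obtain ⟨H₁, hB1, hH1, hd1⟩ := hex q hq G hGB hG hd
      have hYB : ∀ a b, (H₁ - σ • TT (X.map 𝒮.j) (X.map 𝒮.j) H₁) a b ∈ 𝒮.B := by
        intro a b
        exact 𝒮.B.sub_mem (hB1 a b) (𝒮.Bz _ (𝒮.Bz _ (𝒮.Bs _ (hB1 b a))))
      have hYH : HF (X.map 𝒮.j) (X.map 𝒮.j) (q - 1)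
          (H₁ - σ • TT (X.map 𝒮.j) (X.map 𝒮.j) H₁) :=
        HF_sub hH1 (HF_zsmul σ (HF_TT hH1))
      have hYd : dd (X.map 𝒮.j) (X.map 𝒮.j) (H₁ - σ • TT (X.map 𝒮.j) (X.map 𝒮.j) H₁) = 0 := by
        rw [dd_sub, dd_zsmul, ← TT_dd, hd1, hT, smul_smul, hσσ, one_smul, sub_self]
      have hYT : TT (X.map 𝒮.j) (X.map 𝒮.j) (H₁ - σ • TT (X.map 𝒮.j) (X.map 𝒮.j) H₁) =
          (-σ) • (H₁ - σ • TT (X.map 𝒮.j) (X.map 𝒮.j) H₁) := by
        rw [TT_sub, TT_zsmul, TT_TT, smul_sub, smul_smul, neg_mul, hσσ, neg_smul, neg_smul,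
          one_smul]
        abel
      obtain ⟨J, hJB, hJH, hJT, hJd⟩ := ih (q - 1) (by omega) (by push_cast at hn; omega) (-σ)
        (by rcases hσ with rfl | rfl
            · exact Or.inr rfl
            · exact Or.inl (neg_neg 1)) _ hYB hYH hYd hYT
      obtain ⟨O, hOB, hOH, hJO⟩ := tate_split 𝒮 (X.map 𝒮.j) (q - 1 - 1) (-σ)
        (by rcases hσ with rfl | rfl
            · exact Or.inr rfl
            · exact Or.inl (neg_neg 1)) J hJB hJH hJT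
      have hdO : dd (X.map 𝒮.j) (X.map 𝒮.j) O - σ • dd (X.map 𝒮.j) (X.map 𝒮.j)
          (TT (X.map 𝒮.j) (X.map 𝒮.j) O) = H₁ - σ • TT (X.map 𝒮.j) (X.map 𝒮.j) H₁ := by
        rw [← hJd, hJO, dd_add, dd_zsmul, neg_smul, sub_eq_add_neg]
      have hDB : ∀ a b, dd (X.map 𝒮.j) (X.map 𝒮.j) O a b ∈ 𝒮.B := by
        intro a b
        refine 𝒮.B.add_mem ?_ ?_
        · rw [Matrix.mul_apply]
          exact 𝒮.B.sum_mem fun c _ => 𝒮.Bl _ _ (hOB c b)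
        · rw [Matrix.mul_apply]
          refine 𝒮.B.sum_mem fun c _ => ?_
          rw [eps_apply_left, conjTranspose_apply, FC.map_D, Matrix.map_apply, ← 𝒮.jstar]
          exact 𝒮.Br _ (𝒮.Bz _ (hOB a c))
      refine ⟨H₁ - dd (X.map 𝒮.j) (X.map 𝒮.j) O, fun a b => 𝒮.B.sub_mem (hB1 a b) (hDB a b),
        HF_sub hH1 ?_, ?_, ?_⟩
      · have h := HF_dd hOH
        rwa [sub_add_cancel] at h
      · have h1 : σ • (dd (X.map 𝒮.j) (X.map 𝒮.j) O - σ • dd (X.map 𝒮.j) (X.map 𝒮.j)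
            (TT (X.map 𝒮.j) (X.map 𝒮.j) O)) = σ • (H₁ - σ • TT (X.map 𝒮.j) (X.map 𝒮.j) H₁) := by
          rw [hdO]
        rw [smul_sub, smul_sub, smul_smul, smul_smul, hσσ, one_smul, one_smul] at h1
        rw [TT_sub, TT_dd, smul_sub]
        rw [sub_eq_sub_iff_add_eq_add] at h1 ⊢
        rw [add_comm, ← h1, add_comm]
      · rw [dd_sub, dd_dd, sub_zero, hd1]
  exact key (q - (2 * k - 1)).toNat q hq (by have := Int.self_le_toNat (q - (2 * k - 1)); omega)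
    σ hσ G hGB hG hd hT

end Pool.Agent.H16.UN
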