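import Pool.Agent.H16.UN.FVan
import Pool.Agent.H16.UN.Tat
import Pool.Agent.H16.UN.CFm
import Pool.Agent.H16.UN.Rfn
import Pool.Agent.H16.UN.Bet

/-!
# Module SEx: existence of the surgery

PROOF.  `β` from `bet`.  Put `δ = β * (F.map j)ᴴ` (form on `Z × Z` of degree `m - 1`, entries in `B`).
`dd δ = (dd β) (F.map j)ᴴ = F sym Fᴴ` (`dd_mul_right`), which is `TT`-invariant (`TT_mul_left`,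
`TT_mul_right`, `sym_TT`), so `G = δ - TT δ` is closed (`TT_dd`) of degree `m - 1` with `TT G = - G`.
By `tate_exact` (with `q0 = m - 1`, hypothesis `hex` = `fvan`) there is `t` with entries in `B`, degree
`m - 2`, `TT t = -t`, `dd t = G`.  `cform` (with `f = 𝒟.q1.sym`: `sym_B`, `sym_HF`, `sym_TT`, `sym_dd`)
gives `φ`, and `refine` gives the quadratic structure.
-/

namespace Pool.Agent.H16.UN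

open Matrix

variable {R S : Type} [Ring R] [StarRing R] [Ring S] [StarRing S]

/-- existence of the extension of `q1` to the cone -/
theorem surg_ex {𝒮 : Setup R S} {m : ℤ} (𝒟 : Dat 𝒮 m) (k : ℤ) (hY : ∀ i, k < i → 𝒟.Y.Ex i)
    (Z : FC R) (F : Matrix Z.ι 𝒟.X.ι R) (hF : IsMap Z 𝒟.X F) (hZ : ∀ a, k ≤ Z.deg a)
    (hK : ∀ z, Z.Hom k z → ∀ l, 𝒟.Y.Bd k (𝒟.st l (z ᵥ* F)))
    (hco : ∀ i, i < m - k → Z.CoEx i) :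
    ∃ q : Quad ((FC.cone Z 𝒟.X F hF).map 𝒮.j) m, (∀ s a b, q.ψ s a b ∈ 𝒮.B) ∧
      (∀ s, (q.ψ s).toBlocks₁₁ = 𝒟.q1.ψ s) := by
  obtain ⟨β, hβB, hβ, hβd⟩ := bet 𝒟 k hY Z F hF hZ hK
  have hFj := hF.map 𝒮.j
  have hδ : HF (Z.map 𝒮.j) (Z.map 𝒮.j) (m - 1) (β * (F.map 𝒮.j)ᴴ) :=
    HF_mul_right hFj.hom hβ
  have hδB : ∀ a b, (β * (F.map 𝒮.j)ᴴ) a b ∈ 𝒮.B := fun a b => by
    rw [Matrix.mul_apply]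
    refine AddSubgroup.sum_mem _ fun c _ => ?_
    rw [conjTranspose_apply, Matrix.map_apply, ← 𝒮.jstar]
    exact 𝒮.Br _ (hβB a c)
  have hδd : dd (Z.map 𝒮.j) (Z.map 𝒮.j) (β * (F.map 𝒮.j)ᴴ) =
      F.map 𝒮.j * 𝒟.q1.sym * (F.map 𝒮.j)ᴴ := by
    rw [dd_mul_right hFj, hβd]
  have hδT : TT (Z.map 𝒮.j) (Z.map 𝒮.j) (F.map 𝒮.j * 𝒟.q1.sym * (F.map 𝒮.j)ᴴ) =
      F.map 𝒮.j * 𝒟.q1.sym * (F.map 𝒮.j)ᴴ := by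
    rw [TT_mul_right hFj.hom, TT_mul_left hFj.hom, sym_TT, Matrix.mul_assoc]
  have hGB : ∀ a b, (β * (F.map 𝒮.j)ᴴ - TT (Z.map 𝒮.j) (Z.map 𝒮.j) (β * (F.map 𝒮.j)ᴴ)) a b ∈
      𝒮.B := fun a b => 𝒮.B.sub_mem (hδB a b) (𝒮.Bz _ (𝒮.Bs _ (hδB b a)))
  have hGd : dd (Z.map 𝒮.j) (Z.map 𝒮.j)
      (β * (F.map 𝒮.j)ᴴ - TT (Z.map 𝒮.j) (Z.map 𝒮.j) (β * (F.map 𝒮.j)ᴴ)) = 0 := by
    rw [dd_sub, ← TT_dd, hδd, hδT, sub_self]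
  have hGT : TT (Z.map 𝒮.j) (Z.map 𝒮.j)
      (β * (F.map 𝒮.j)ᴴ - TT (Z.map 𝒮.j) (Z.map 𝒮.j) (β * (F.map 𝒮.j)ᴴ)) =
      (-1 : ℤ) • (β * (F.map 𝒮.j)ᴴ - TT (Z.map 𝒮.j) (Z.map 𝒮.j) (β * (F.map 𝒮.j)ᴴ)) := by
    rw [TT_sub, TT_TT, neg_smul, one_smul, neg_sub]
  obtain ⟨t, htB, ht, htT, htd⟩ := tate_exact 𝒮 Z k (m - 1) hZ
    (fun q hq G h1 h2 h3 => fvan 𝒮 Z k m hZ hco q hq G h1 h2 h3) (m - 1) le_rfl (-1) (Or.inr rfl)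
    _ hGB (HF_sub hδ (HF_TT hδ)) hGd hGT
  have e1 : m - 1 - 1 = m - 2 := by ring
  rw [e1] at ht
  rw [neg_smul, one_smul] at htT
  obtain ⟨φ, hφ11, hφB, hφ, hφT, hφd⟩ := cform 𝒮 𝒟.X Z F hF m 𝒟.q1.sym (sym_B 𝒟)
    (sym_HF 𝒟.q1) (sym_TT 𝒟.q1) (sym_dd 𝒟.q1) β hβB hβ hβd t htB ht htT htd
  exact refine 𝒮 𝒟.X Z F hF m 𝒟.q1 𝒟.b1 φ hφ11 hφB hφ hφT hφd

end Pool.Agent.H16.UN
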