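import Pool.Agent.H16.UN.Wrd

/-!
# Module WSg: words after a surgery

`s : Surg 𝒟`, `s.dat.X = cone` (index `X ⊕ Z`), `s.dat.Y = cocone` (index `Y ⊕ Z`),
`s.dat.P' = fromBlocks P' 0 0 1`, `s.dat.q2 = q2.pull pr` with components `fromBlocks (q2.ψ i) 0 0 0`
(`pr_conj`), so `s.dat.swap.N = fromBlocks 𝒟.swap.N 0 0 0` (compute `TT` of the blocks entrywise: the
upper left block of `TT (cocone) (cone) (fromBlocks P' 0 0 1)` is `TT Y X P'`) and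
`s.dat.N = [[𝒟.N, *], [*, *]]` since `(s.q.sym)₁₁ = 𝒟.q1.sym` (`s.res 0`; `TT` of the cone restricted to the
first block is `TT` of `X`).
* `st_surg`: `s.dat.st l (Sum.elim x 0) ∘ Sum.inl = 𝒟.st l x`;
* `st_surg_swap`: `s.dat.swap.st l y = Sum.elim (𝒟.swap.st l (y ∘ Sum.inl)) 0`.
* `W_cyc_surg`: by induction on `p`, both statements at once.  `p = 0`: a cycle of degree `k` of the cone is
  `(x, z)` with `z` supported in degree `k - 1` of `Z`: `z = 0`, `x` a cycle; the first component of a cycle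
  of the cocone is a cycle of `Y`.  Step for `s.dat`: `x'' = s.dat.swap.st l y''`, use `st_surg_swap`.
  Step for `s.dat.swap`: `y'' = s.dat.st l x''` (after `Dat.swap_swap`), `x'' = (x, 0)`, use `st_surg`.
* `W_true_surg`: the same induction for words from arbitrary vectors, with a shift by one:
  `p = 0` is trivial for the second statement (`W _ 0` is `True`), and for the first one
  `x'' = s.dat.swap.st l y''` has the form `(x, 0)`.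
* `nilp_surg`: if all words of length `r` vanish for `𝒟`, those of length `r + 2` vanish for `s.dat`:
  `x''` of length `r + 2` is `(x, 0)` with `x` of length `r + 1` for `𝒟`, `x = 𝒟.swap.st l y`, `y = 0`, so
  `x = 0` (`st_zero`); `y'' = s.dat.st l x''` with `x''` of length `r + 1`, `x'' = (x, 0)`, `x` of length `r`, `x = 0`.
The relation `W Q p 𝒟.swap.swap x ↔ W Q p 𝒟 x` (`W_swap_swap`) follows from `Dat.swap_swap` (destructure
`𝒟`, or `Eq.rec`; all index types are definitionally the same).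
-/

namespace Pool.Agent.H16.UN

open Matrix

variable {R S : Type} [Ring R] [StarRing R] [Ring S] [StarRing S] {𝒮 : Setup R S} {m : ℤ}

private theorem WSg_ss (C : (𝒟 : Dat 𝒮 m) → (𝒟.X.ι → R) → (𝒟.Y.ι → R) → Prop) (𝒟 : Dat 𝒮 m)
    (x : 𝒟.X.ι → R) (y : 𝒟.Y.ι → R) : C 𝒟.swap.swap x y ↔ C 𝒟 x y := by
  obtain ⟨X, Y, P, P', pair, q1, q2, b1, b2⟩ := 𝒟
  have key : ∀ (P₁ : Matrix X.ι Y.ι R) (P₁' : Matrix Y.ι X.ι R) (pair₁ : Pair X Y m P₁ P₁')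
      (q₁ : Quad (X.map 𝒮.j) m) (q₂ : Quad (Y.map 𝒮.j) m)
      (b₁ : ∀ s a b, q₁.ψ s a b ∈ 𝒮.B) (b₂ : ∀ s a b, q₂.ψ s a b ∈ 𝒮.B),
      P₁ = P → P₁' = P' → q₁ = q1 → q₂ = q2 →
      (C ⟨X, Y, P₁, P₁', pair₁, q₁, q₂, b₁, b₂⟩ x y ↔ C ⟨X, Y, P, P', pair, q1, q2, b1, b2⟩ x y) := by
    intro P₁ P₁' pair₁ q₁ q₂ b₁ b₂ h1 h2 h3 h4
    subst h1 h2 h3 h4
    exact Iff.rfl
  exact key _ _ _ _ _ _ _ (TT_TT _ _ _) (TT_TT _ _ _) (Quad.tr_tr _) (Quad.tr_tr _)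

theorem W_swap_swap (Q : (Z : FC R) → (Z.ι → R) → Prop) (p : ℕ) (𝒟 : Dat 𝒮 m)
    (x : 𝒟.X.ι → R) : W Q p 𝒟.swap.swap x ↔ W Q p 𝒟 x :=
  WSg_ss (fun 𝒟 x _ => W Q p 𝒟 x) 𝒟 x 0

private theorem WSg_st (𝒟 : Dat 𝒮 m) (l : 𝒮.J) (x : 𝒟.X.ι → R) :
    𝒟.swap.swap.st l x = 𝒟.st l x := by
  have h := (WSg_ss (fun 𝒟 x y => y = 𝒟.st l x) 𝒟 x (𝒟.st l x)).2 rfl
  exact h.symm

/-- words can be extended at the end -/
theorem W_succ (Q : (Z : FC R) → (Z.ι → R) → Prop) (p : ℕ) (𝒟 : Dat 𝒮 m) (x : 𝒟.X.ι → R)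
    (l : 𝒮.J) (h : W Q p 𝒟 x) : W Q (p + 1) 𝒟.swap (𝒟.st l x) :=
  ⟨x, l, (W_swap_swap Q p 𝒟 x).2 h, (WSg_st 𝒟 l x).symm⟩

theorem nilp_swap {𝒟 : Dat 𝒮 m} (h : 𝒟.Nilp) : 𝒟.swap.Nilp := by
  obtain ⟨r, h1, h2⟩ := h
  exact ⟨r, h2, fun y hy => h1 y ((W_swap_swap _ r 𝒟 y).1 hy)⟩

private theorem WSg_N {𝒟 : Dat 𝒮 m} (s : Surg 𝒟) (a : 𝒟.X.ι) (b : 𝒟.Y.ι) :
    s.dat.N (Sum.inl a) (Sum.inl b) = 𝒟.N a b := by
  unfold Dat.N
  rw [Matrix.mul_apply, Matrix.mul_apply]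
  erw [Fintype.sum_sum_type]
  have h2 : ∑ z : s.Z.ι, s.dat.q1.sym (Sum.inl a) (Sum.inr z) *
      ((TT s.dat.Y s.dat.X s.dat.P').map 𝒮.j) (Sum.inr z) (Sum.inl b) = 0 := by
    refine Finset.sum_eq_zero fun z _ => ?_
    have : ((TT s.dat.Y s.dat.X s.dat.P').map 𝒮.j) (Sum.inr z) (Sum.inl b) = 0 := by
      simp [TT]
    rw [this, mul_zero]
  have h1 : ∀ c : 𝒟.X.ι, s.dat.q1.sym (Sum.inl a) (Sum.inl c) *
      ((TT s.dat.Y s.dat.X s.dat.P').map 𝒮.j) (Sum.inl c) (Sum.inl b) =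
      𝒟.q1.sym a c * ((TT 𝒟.Y 𝒟.X 𝒟.P').map 𝒮.j) c b := by
    intro c
    have r1 : s.q.ψ 0 (Sum.inl a) (Sum.inl c) = 𝒟.q1.ψ 0 a c := by
      rw [← s.res 0]; rfl
    have r2 : s.q.ψ 0 (Sum.inl c) (Sum.inl a) = 𝒟.q1.ψ 0 c a := by
      rw [← s.res 0]; rfl
    have e1 : s.dat.q1.sym (Sum.inl a) (Sum.inl c) = 𝒟.q1.sym a c := by
      unfold Quad.sym
      rw [Matrix.add_apply, Matrix.add_apply]
      unfold TT
      rw [Matrix.of_apply, Matrix.of_apply]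
      show s.q.ψ 0 (Sum.inl a) (Sum.inl c) + _ • star (s.q.ψ 0 (Sum.inl c) (Sum.inl a)) = _
      rw [r1, r2]
      rfl
    rw [e1]
    rfl
  erw [h2]
  rw [add_zero]
  exact Finset.sum_congr rfl fun c _ => h1 c

theorem st_surg {𝒟 : Dat 𝒮 m} (s : Surg 𝒟) (l : 𝒮.J) (x : 𝒟.X.ι → R) :
    (fun b => s.dat.st l (Sum.elim x 0) (Sum.inl b)) = 𝒟.st l x := by
  funext b
  unfold Dat.st
  congr 1
  unfold Matrix.vecMul dotProduct
  erw [Fintype.sum_sum_type]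
  have h2 : ∑ z : s.Z.ι, 𝒮.j ((Sum.elim x 0 : 𝒟.X.ι ⊕ s.Z.ι → R) (Sum.inr z)) *
      s.dat.N (Sum.inr z) (Sum.inl b) = 0 := by
    refine Finset.sum_eq_zero fun z _ => ?_
    simp
  erw [h2]
  rw [add_zero]
  refine Finset.sum_congr rfl fun a _ => ?_
  exact congrArg (fun t => 𝒮.j (x a) * t) (WSg_N s a b)

private theorem WSg_Nswap {𝒟 : Dat 𝒮 m} (s : Surg 𝒟) :
    s.dat.swap.N = fromBlocks 𝒟.swap.N 0 0 0 := by
  unfold Dat.N
  have e0 : (TT s.dat.swap.Y s.dat.swap.X s.dat.swap.P') = fromBlocks 𝒟.P' 0 0 1 :=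
    TT_TT _ _ _
  have e0' : (TT 𝒟.swap.Y 𝒟.swap.X 𝒟.swap.P') = 𝒟.P' := TT_TT _ _ _
  have e1 : s.dat.q2.ψ 0 = fromBlocks (𝒟.q2.ψ 0) 0 0 0 := pr_conj 𝒮.j (k := s.Z.ι) (𝒟.q2.ψ 0)
  have e2 : s.dat.swap.q1.sym = fromBlocks 𝒟.swap.q1.sym 0 0 0 := by
    unfold Quad.sym
    show TT _ _ (s.dat.q2.ψ 0) + TT _ _ (TT _ _ (s.dat.q2.ψ 0)) = _
    rw [e1]
    ext (a | a) (b | b)
    · rfl
    all_goals simp [TT]
  rw [e0, e0', e2]
  ext (a | a) (b | b)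
  · rw [Matrix.mul_apply]
    erw [Fintype.sum_sum_type]
    have : ∑ z : s.Z.ι, (fromBlocks 𝒟.swap.q1.sym 0 0 0 :
        Matrix (𝒟.Y.ι ⊕ s.Z.ι) (𝒟.Y.ι ⊕ s.Z.ι) S) (Sum.inl a) (Sum.inr z) *
        ((fromBlocks 𝒟.P' 0 0 1 : Matrix (𝒟.Y.ι ⊕ s.Z.ι) (𝒟.X.ι ⊕ s.Z.ι) R).map 𝒮.j)
          (Sum.inr z) (Sum.inl b) = 0 := by
      refine Finset.sum_eq_zero fun z _ => ?_
      simp
    erw [this]
    rw [add_zero]
    rfl
  all_goals
    rw [Matrix.mul_apply]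
    refine Finset.sum_eq_zero fun z _ => ?_
    rcases z with z | z <;> simp

theorem st_surg_swap {𝒟 : Dat 𝒮 m} (s : Surg 𝒟) (l : 𝒮.J) (y : 𝒟.Y.ι ⊕ s.Z.ι → R) :
    s.dat.swap.st l y = Sum.elim (𝒟.swap.st l (y ∘ Sum.inl)) 0 := by
  funext b
  unfold Dat.st
  rw [WSg_Nswap]
  rcases b with b | b
  · show 𝒮.c l _ = 𝒮.c l _
    congr 1
    unfold Matrix.vecMul dotProduct
    erw [Fintype.sum_sum_type]
    have h2 : ∑ z : s.Z.ι, 𝒮.j (y (Sum.inr z)) * (fromBlocks 𝒟.swap.N 0 0 0 :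
        Matrix (𝒟.Y.ι ⊕ s.Z.ι) (𝒟.X.ι ⊕ s.Z.ι) S) (Sum.inr z) (Sum.inl b) = 0 := by
      refine Finset.sum_eq_zero fun z _ => ?_
      simp
    erw [h2]
    rw [add_zero]
    rfl
  · show 𝒮.c l _ = 0
    have : ((fun a => 𝒮.j (y a)) ᵥ* (fromBlocks 𝒟.swap.N 0 0 0 :
        Matrix (𝒟.Y.ι ⊕ s.Z.ι) (𝒟.X.ι ⊕ s.Z.ι) S)) (Sum.inr b) = 0 := by
      unfold Matrix.vecMul dotProduct
      refine Finset.sum_eq_zero fun z _ => ?_
      rcases z with z | z <;> simp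
    erw [this]
    exact map_zero _

theorem W_cyc_surg {𝒟 : Dat 𝒮 m} (s : Surg 𝒟) (k : ℤ) (hk : ∀ a, k ≤ s.Z.deg a) (p : ℕ) :
    (∀ x, W (fun Z v => Z.Cyc k v) p s.dat x →
      ∃ x₀, W (fun Z v => Z.Cyc k v) p 𝒟 x₀ ∧ x = Sum.elim x₀ 0) ∧
    (∀ y : 𝒟.Y.ι ⊕ s.Z.ι → R, W (fun Z v => Z.Cyc k v) p s.dat.swap y →
      W (fun Z v => Z.Cyc k v) p 𝒟.swap (y ∘ Sum.inl)) := by
  induction p with
  | zero =>
    constructor
    · intro x hx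
      obtain ⟨h1, h2⟩ := (hx : s.dat.X.Cyc k x)
      have hz : ∀ z : s.Z.ι, x (Sum.inr z) = 0 := by
        intro z
        by_contra h0
        have h3 : s.Z.deg z + 1 = k := h1 (Sum.inr z) h0
        have h4 := hk z
        omega
      refine ⟨fun a => x (Sum.inl a), ⟨fun a ha => h1 (Sum.inl a) ha, ?_⟩, ?_⟩
      · funext b
        have h3 := congrFun h2 (Sum.inl b)
        unfold Matrix.vecMul dotProduct at h3 ⊢
        erw [Fintype.sum_sum_type] at h3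
        have h5 : ∑ z : s.Z.ι, x (Sum.inr z) * s.dat.X.D (Sum.inr z) (Sum.inl b) = 0 :=
          Finset.sum_eq_zero fun z _ => by rw [hz z, zero_mul]
        erw [h5, add_zero] at h3
        exact h3
      · funext a
        rcases a with a | a
        · rfl
        · exact hz a
    · intro y hy
      obtain ⟨h1, h2⟩ := (hy : s.dat.Y.Cyc k y)
      refine ⟨fun a ha => h1 (Sum.inl a) ha, ?_⟩
      funext b
      have h3 := congrFun h2 (Sum.inl b)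
      unfold Matrix.vecMul dotProduct at h3 ⊢
      erw [Fintype.sum_sum_type] at h3
      have h5 : ∑ z : s.Z.ι, y (Sum.inr z) * s.dat.Y.D (Sum.inr z) (Sum.inl b) = 0 :=
        Finset.sum_eq_zero fun z _ => by
          have : s.dat.Y.D (Sum.inr z) (Sum.inl b) = 0 := rfl
          rw [this, mul_zero]
      erw [h5, add_zero] at h3
      exact h3
  | succ p ih =>
    constructor
    · rintro x ⟨y, l, hy, hx⟩
      refine ⟨𝒟.swap.st l (y ∘ Sum.inl), ⟨y ∘ Sum.inl, l, ih.2 y hy, rfl⟩, ?_⟩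
      rw [hx]
      exact st_surg_swap s l y
    · rintro y ⟨x, l, hx, hy⟩
      obtain ⟨x₀, h1, h2⟩ := ih.1 x ((W_swap_swap _ p s.dat x).1 hx)
      have h3 : y ∘ Sum.inl = 𝒟.st l x₀ := by
        rw [← st_surg s l x₀, hy]
        have := WSg_st s.dat l x
        funext b
        rw [← h2]
        exact congrFun this (Sum.inl b)
      rw [h3]
      exact W_succ _ p 𝒟 x₀ l h1

theorem W_true_surg {𝒟 : Dat 𝒮 m} (s : Surg 𝒟) (p : ℕ) :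
    (∀ x, W (fun _ _ => True) (p + 1) s.dat x →
      ∃ x₀, W (fun _ _ => True) p 𝒟 x₀ ∧ x = Sum.elim x₀ 0) ∧
    (∀ y : 𝒟.Y.ι ⊕ s.Z.ι → R, W (fun _ _ => True) (p + 1) s.dat.swap y →
      W (fun _ _ => True) p 𝒟.swap (y ∘ Sum.inl)) := by
  induction p with
  | zero =>
    constructor
    · rintro x ⟨y, l, -, hx⟩
      refine ⟨𝒟.swap.st l (y ∘ Sum.inl), trivial, ?_⟩
      rw [hx]
      exact st_surg_swap s l y
    · intro y _
      trivial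
  | succ p ih =>
    constructor
    · rintro x ⟨y, l, hy, hx⟩
      refine ⟨𝒟.swap.st l (y ∘ Sum.inl), ⟨y ∘ Sum.inl, l, ih.2 y hy, rfl⟩, ?_⟩
      rw [hx]
      exact st_surg_swap s l y
    · rintro y ⟨x, l, hx, hy⟩
      obtain ⟨x₀, h1, h2⟩ := ih.1 x ((W_swap_swap _ (p + 1) s.dat x).1 hx)
      have h3 : y ∘ Sum.inl = 𝒟.st l x₀ := by
        rw [← st_surg s l x₀, hy]
        have := WSg_st s.dat l x
        funext b
        rw [← h2]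
        exact congrFun this (Sum.inl b)
      rw [h3]
      exact W_succ _ p 𝒟 x₀ l h1

theorem nilp_surg {𝒟 : Dat 𝒮 m} (s : Surg 𝒟) (h : 𝒟.Nilp) : s.dat.Nilp := by
  obtain ⟨r, h1, h2⟩ := h
  refine ⟨r + 2, ?_, ?_⟩
  · intro x hx
    obtain ⟨x₀, ⟨y, l, hy, h4⟩, h3⟩ := (W_true_surg s (r + 1)).1 x hx
    have hy0 := h2 y hy
    subst hy0
    rw [h3, h4]
    have h5 : 𝒟.swap.st l (0 : 𝒟.swap.X.ι → R) = 0 := st_zero 𝒟.swap l
    rw [h5]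
    funext a
    rcases a with a | a <;> rfl
  · rintro y ⟨x, l, hx, hy⟩
    obtain ⟨x₀, h3, h4⟩ := (W_true_surg s r).1 x ((W_swap_swap _ (r + 1) s.dat x).1 hx)
    have hx0 := h1 x₀ h3
    subst hx0
    have h5 : x = 0 := by
      rw [h4]
      funext a
      rcases a with a | a <;> rfl
    rw [hy, h5]
    have h6 := WSg_st s.dat l 0
    exact h6.trans (st_zero s.dat l)

end Pool.Agent.H16.UN
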