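import Pool.Agent.H16.UN.Good
import Pool.Agent.H16.UN.SEx
import Pool.Agent.H16.UN.WSg
import Pool.Agent.H16.UN.Inv
import Pool.Agent.H16.UN.Cob
import Pool.Agent.H16.UN.LZt
import Pool.Agent.H16.UN.Hml

/-!
# Module Stp: one surgery

`surg_good`: let `K` be the submodule of `kerK 𝒟 k`; it contains the boundaries (`st_bd`; a boundary is
a cycle).  `good.res 𝒟.X k K` gives `Z`, `F`; `good.aus` (with `𝒟.pair`, `hY`) gives `hco`.  For `z` in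
`Z.Hom k`, `z ᵥ* F ∈ K`, so `hK` of `surg_ex` holds.  `surg_ex` gives the extension of `q1`, hence
`s : Surg 𝒟`.  `cone_ex`, `cocone_ex` give exactness above `k`; `nilp_surg` the nilpotency; `sym_inv`
(for `𝒟` and `s.dat`), `surg_cob` and `lzero_of_cob` the transfer of `LZero`.  A cycle `x` of degree `k` of
`X` with all letters boundaries lies in `K`, so `x - z ᵥ* F` is a boundary for some `z` and `cone_bd` applies.
Last clause: words of the new datum are words of `𝒟` (`W_cyc_surg`).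
`step`: take `s.dat`.  `VX k p` of `s.dat`: a word `x''` of length `p` ending in the cone is `(x, 0)` with `x`
a word of length `p` of `𝒟`; every letter `𝒟.st l x` is a word of length `p + 1` ending in `Y` (`W_succ`),
hence a boundary by the hypothesis; and `x` is a cycle (words of cycles are cycles, `st_cyc`: prove by
induction on `p`, or use `cone_cyc` for `x''`, which is a cycle of the cone by the same induction).
`step0`: if `Y` is exact in degree `k`, all letters of cycles are boundaries (`st_cyc`), so every cycle of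
degree `k` of the cone is a boundary (`cone_cyc`), and `cocone_ex` with `i = k`.
-/

namespace Pool.Agent.H16.UN

open Matrix

variable {R S : Type} [Ring R] [StarRing R] [Ring S] [StarRing S] {𝒮 : Setup R S} {m : ℤ}

omit [StarRing R] in
private theorem Stp_bd_cyc {X : FC R} {i : ℤ} {v : X.ι → R} (h : X.Bd i v) : X.Cyc i v := by
  obtain ⟨w, hw, rfl⟩ := h
  refine ⟨fun b hb => ?_, ?_⟩
  · have h1 : (w ᵥ* X.D) b = ∑ a, w a * X.D a b := rfl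
    rw [h1] at hb
    obtain ⟨a, -, ha⟩ := Finset.exists_ne_zero_of_sum_ne_zero hb
    have h2 := hw a (left_ne_zero_of_mul ha)
    have h3 := X.hdeg a b (right_ne_zero_of_mul ha)
    omega
  · rw [vecMul_vecMul, X.hD, vecMul_zero]

private theorem Stp_W_cyc (k : ℤ) (p : ℕ) : ∀ (𝒟 : Dat 𝒮 m) (x : 𝒟.X.ι → R),
    W (fun Z v => Z.Cyc k v) p 𝒟 x → 𝒟.X.Cyc k x := by
  induction p with
  | zero => exact fun 𝒟 x hx => hx
  | succ p ih =>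
    rintro 𝒟 x ⟨y, l, hy, hx⟩
    rw [hx]
    exact st_cyc 𝒟.swap l (ih 𝒟.swap y hy)

/-- the surgery on the kernel in degree `k` -/
theorem surg_good (good : Good R) (𝒟 : Dat 𝒮 m) (hn : 𝒟.Nilp) (k : ℤ)
    (hX : ∀ i, k < i → 𝒟.X.Ex i) (hY : ∀ i, k < i → 𝒟.Y.Ex i) :
    ∃ s : Surg 𝒟, (∀ a, k ≤ s.Z.deg a) ∧ s.dat.Nilp ∧ (∀ i, k < i → s.dat.X.Ex i) ∧
      (∀ i, k ≤ i → 𝒟.Y.Ex i → s.dat.Y.Ex i) ∧
      (∀ x, 𝒟.X.Cyc k x → (∀ l, 𝒟.Y.Bd k (𝒟.st l x)) → s.dat.X.Bd k (Sum.elim x 0)) ∧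
      (LZero s.dat.quad → LZero 𝒟.quad) := by
  obtain ⟨K, hK⟩ := kerK 𝒟 k
  obtain ⟨Z, F, hF, hZk, hZe, hFK, hKF, hinj⟩ := good.res 𝒟.X k K (fun v hv => ((hK v).1 hv).1)
    (fun v hv => (hK v).2 ⟨Stp_bd_cyc hv, fun l => st_bd 𝒟 l hv⟩) hX
  have hco := good.aus 𝒟.X 𝒟.Y m 𝒟.P 𝒟.P' 𝒟.pair k hY Z F hF hZk hZe hinj
  obtain ⟨q, hqB, hq⟩ := surg_ex 𝒟 k hY Z F hF hZk (fun z hz l => ((hK _).1 (hFK z hz)).2 l) hco
  have hn' : (Surg.dat (𝒟 := 𝒟) ⟨Z, F, hF, q, hqB, hq⟩).Nilp := nilp_surg _ hn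
  refine ⟨⟨Z, F, hF, q, hqB, hq⟩, hZk, hn', ?_, ?_, ?_, ?_⟩
  · intro i hi
    exact cone_ex Z 𝒟.X F hF k hX hZk hZe hinj i hi
  · intro i hi h
    exact cocone_ex 𝒟.pair Z F hF k hco i hi h
  · intro x hx hl
    obtain ⟨z, hz, hb⟩ := hKF x ((hK x).2 ⟨hx, hl⟩)
    exact cone_bd Z 𝒟.X F hF k hZk x z hz hb
  · intro hz
    obtain ⟨V, h1, h2⟩ := sym_inv 𝒟 hn
    obtain ⟨V', h1', h2'⟩ := sym_inv _ hn'
    exact lzero_of_cob 𝒟.quad _ V h1 h2 V' h1' h2' (surg_cob _ V h1 h2) hz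

theorem step (good : Good R) (𝒟 : Dat 𝒮 m) (hn : 𝒟.Nilp) (k : ℤ)
    (hX : ∀ i, k < i → 𝒟.X.Ex i) (hY : ∀ i, k < i → 𝒟.Y.Ex i) (p : ℕ)
    (h : 𝒟.swap.VX k (p + 1)) :
    ∃ 𝒟' : Dat 𝒮 m, 𝒟'.Nilp ∧ (∀ i, k < i → 𝒟'.X.Ex i) ∧ (∀ i, k < i → 𝒟'.Y.Ex i) ∧
      𝒟'.VX k p ∧ (LZero 𝒟'.quad → LZero 𝒟.quad) := by
  obtain ⟨s, hZ, hn', hX', hY', hb, hl⟩ := surg_good good 𝒟 hn k hX hY
  refine ⟨s.dat, hn', hX', fun i hi => hY' i hi.le (hY i hi), ?_, hl⟩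
  intro x hx
  obtain ⟨x₀, h1, h2⟩ := (W_cyc_surg s k hZ p).1 x hx
  rw [h2]
  refine hb x₀ (Stp_W_cyc k p 𝒟 x₀ h1) ?_
  intro l
  exact h _ (W_succ _ p 𝒟 x₀ l h1)

theorem step0 (good : Good R) (𝒟 : Dat 𝒮 m) (hn : 𝒟.Nilp) (k : ℤ)
    (hX : ∀ i, k < i → 𝒟.X.Ex i) (hY : ∀ i, k ≤ i → 𝒟.Y.Ex i) :
    ∃ 𝒟' : Dat 𝒮 m, 𝒟'.Nilp ∧ (∀ i, k ≤ i → 𝒟'.X.Ex i) ∧ (∀ i, k ≤ i → 𝒟'.Y.Ex i) ∧
      (LZero 𝒟'.quad → LZero 𝒟.quad) := by
  obtain ⟨s, hZ, hn', hX', hY', hb, hl⟩ := surg_good good 𝒟 hn k hX (fun i hi => hY i hi.le)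
  refine ⟨s.dat, hn', ?_, fun i hi => hY' i hi (hY i hi), hl⟩
  intro i hi
  rcases hi.lt_or_eq with h1 | h1
  · exact hX' i h1
  · subst h1
    intro v hv
    obtain ⟨x, hx, hvx⟩ := cone_cyc s.Z 𝒟.X s.F s.hF k hZ v hv
    rw [hvx]
    exact hb x hx (fun l => hY k le_rfl _ (st_cyc 𝒟 l hx))

end Pool.Agent.H16.UN
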