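import Pool.Agent.H16.UN.CtA
import Pool.Agent.H16.UN.NMp

/-!
# Module Str: strict Lagrangians and invertible symmetrizations

* `poinc_of_inv`: `M = [[D, Φ], [0, D']]`, `D' = sg m • ε Dᴴ`, `M M = 0` because `D D = 0`, `D' D' = 0` and
  `D Φ + Φ D' = D Φ + ε Φ Dᴴ = dd Φ = 0` (`eps_HF (sym_HF q)`: `ε Φ = sg m • Φ ε`); take
  `H₀ = [[0, 0], [V, 0]]`: `M H₀ + H₀ M = [[ΦV, 0], [D'V + VD, VΦ]] = [[1, 0], [x, 1]]`, invertible with
  inverse `[[1, 0], [-x, 1]]`; apply `contr_of_unit`.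
* `nullCob_strict`: take `η = 0`.  The first three conditions are `hI`, `HF_zero`, `h0` (`dd_zero`,
  `TT_zero`).  `M = [[-D_L, I, 0], [0, D_E, P], [0, 0, D']]` with `P = Φ Iᴴ`, `D' = sg m • ε_L D_Lᴴ` (the block
  `η 0 + TT (η 0)` is `0`).  `M M = 0`: `-D_L I + I D_E = 0`, `I P = I Φ Iᴴ = 0` (from `h0 0` and its `TT`:
  `I (TT ψ₀) Iᴴ = TT (I ψ₀ Iᴴ)`, `TT_mul_left`, `TT_mul_right`), and
  `D_E P + P D' = 0`: `D_E Φ = - ε_E Φ D_Eᴴ`, `D_Eᴴ Iᴴ = Iᴴ D_Lᴴ`, `ε_E Φ Iᴴ = sg m • Φ Iᴴ ε_L`.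
  With `W = I' Φ Iᴴ`, `V = W' I'`: `P = (U I + U' I') P = U' W`, so `P V = U' W W' I' = U' I'`,
  `V P = W' W = 1`.  `H₀ = [[0,0,0],[U,0,0],[0,V,0]]` gives
  `M H₀ + H₀ M = [[I U, 0, 0], [D_E U - U D_L, P V + U I, 0], [0, D' V + V D_E, V P]]
  = [[1,0,0],[x,1,0],[0,y,1]]`, invertible (inverse `[[1,0,0],[-x,1,0],[y x,-y,1]]`); `contr_of_unit`.
  Remember that the matrix in `NullCob` is
  `fromBlocks (fromBlocks (-L.D) I 0 E.D) (fromRows (..) (..)) 0 (..)` with index `(L ⊕ E) ⊕ L`.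
-/

namespace Pool.Agent.H16.UN

open Matrix

variable {S : Type} [Ring S] [StarRing S]

private theorem Str_Dp (L : FC S) (m : ℤ) :
    (sg m • (L.eps * L.Dᴴ)) * (sg m • (L.eps * L.Dᴴ)) = 0 := by
  have h : L.Dᴴ * L.Dᴴ = 0 := by rw [← conjTranspose_mul, L.hD, conjTranspose_zero]
  have e : L.eps * L.Dᴴ * (L.eps * L.Dᴴ) = 0 := by
    rw [Matrix.mul_assoc, ← Matrix.mul_assoc L.Dᴴ, ← neg_eq_iff_eq_neg.2 (eps_Dh L)]
    rw [Matrix.neg_mul, Matrix.mul_assoc, h, Matrix.mul_zero, neg_zero, Matrix.mul_zero]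
  rw [Matrix.smul_mul, Matrix.mul_smul, e, smul_zero, smul_zero]

private theorem Str_sym {E : FC S} {m : ℤ} (q : Quad E m) :
    E.D * q.sym + q.sym * (sg m • (E.eps * E.Dᴴ)) = 0 := by
  have h1 := sym_dd q
  unfold dd at h1
  rw [eps_HF (sym_HF q), Matrix.smul_mul, Matrix.mul_assoc] at h1
  rw [Matrix.mul_smul]
  exact h1

theorem poinc_of_inv {E : FC S} {m : ℤ} (q : Quad E m) (V : Matrix E.ι E.ι S)
    (h1 : q.sym * V = 1) (h2 : V * q.sym = 1) : Poinc q := by
  unfold Poinc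
  refine contr_of_unit _ (fromBlocks 0 0 V 0)
    (fromBlocks 1 0 (-(sg m • (E.eps * E.Dᴴ) * V + V * E.D)) 1) ?_ ?_ ?_
  · rw [fromBlocks_multiply, E.hD, Str_sym q, Str_Dp E m]
    simp
  · rw [fromBlocks_multiply, fromBlocks_multiply, fromBlocks_add, fromBlocks_multiply,
      ← fromBlocks_one]
    congr 1 <;> simp [h1, h2]
  · rw [fromBlocks_multiply, fromBlocks_multiply, fromBlocks_add, fromBlocks_multiply,
      ← fromBlocks_one]
    congr 1 <;> simp [h1, h2]

omit [StarRing S] in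
private theorem Str_cols_add {a b c : Type} (A C : Matrix a b S) (B D : Matrix a c S) :
    fromCols A B + fromCols C D = fromCols (A + C) (B + D) := by
  ext i (j | j) <;> simp

omit [StarRing S] in
private theorem Str_rows_add {a b c : Type} (A C : Matrix a c S) (B D : Matrix b c S) :
    fromRows A B + fromRows C D = fromRows (A + C) (B + D) := by
  ext (i | i) j <;> simp

/-- a quadratic complex with invertible symmetrization and a strict Lagrangian `I : L → E` is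
null-cobordant -/
theorem nullCob_strict {E : FC S} {m : ℤ} (q : Quad E m) (L : FC S) (I : Matrix L.ι E.ι S)
    (hI : IsMap L E I) (h0 : ∀ s, I * q.ψ s * Iᴴ = 0) {κ : Type} [Fintype κ] [DecidableEq κ]
    (I' : Matrix κ E.ι S) (U : Matrix E.ι L.ι S) (U' : Matrix E.ι κ S) (h11 : I * U = 1)
    (h22 : I' * U' = 1) (h12 : I * U' = 0) (h21 : I' * U = 0) (hs : U * I + U' * I' = 1)
    (W' : Matrix L.ι κ S) (hW : I' * q.sym * Iᴴ * W' = 1) (hW' : W' * (I' * q.sym * Iᴴ) = 1) :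
    NullCob q := by
  have hIP : I * (q.sym * Iᴴ) = 0 := by
    have e1 : TT L L (I * q.ψ 0 * Iᴴ) = I * (TT E E (q.ψ 0) * Iᴴ) := by
      rw [TT_mul_right hI.hom, TT_mul_left hI.hom]
    rw [h0 0, TT_zero] at e1
    unfold Quad.sym
    rw [Matrix.add_mul, Matrix.mul_add, ← Matrix.mul_assoc, h0 0, ← e1, add_zero]
  have hDP : E.D * (q.sym * Iᴴ) + q.sym * Iᴴ * (sg m • (L.eps * L.Dᴴ)) = 0 := by
    have e1 : E.eps * Iᴴ = Iᴴ * L.eps := by
      have := congrArg conjTranspose (eps_HM hI.hom)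
      rw [conjTranspose_mul, conjTranspose_mul, eps_conj, eps_conj] at this
      exact this.symm
    have e2 : E.Dᴴ * Iᴴ = Iᴴ * L.Dᴴ := by
      rw [← conjTranspose_mul, ← conjTranspose_mul, hI.comm]
    have e3 := congrArg (fun X => X * Iᴴ) (Str_sym q)
    simp only [Matrix.add_mul, Matrix.zero_mul] at e3
    rw [← e3, Matrix.mul_assoc E.D, add_right_inj, Matrix.mul_smul, Matrix.mul_smul,
      Matrix.smul_mul]
    congr 1
    rw [Matrix.mul_assoc, Matrix.mul_assoc, Matrix.mul_assoc, e2, ← Matrix.mul_assoc Iᴴ,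
      ← e1, Matrix.mul_assoc]
  generalize hP : q.sym * Iᴴ = P at hIP hDP
  rw [Matrix.mul_assoc I' q.sym Iᴴ, hP] at hW hW'
  have hP2 : P = U' * (I' * P) := by
    calc P = (U * I + U' * I') * P := by rw [hs, Matrix.one_mul]
      _ = U * (I * P) + U' * (I' * P) := by rw [Matrix.add_mul, Matrix.mul_assoc, Matrix.mul_assoc]
      _ = _ := by rw [hIP, Matrix.mul_zero, zero_add]
  have hPV : P * (W' * I') = U' * I' := by
    rw [← Matrix.mul_assoc]
    congr 1
    rw [hP2, Matrix.mul_assoc, hW, Matrix.mul_one]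
  have hVP : W' * I' * P = 1 := by rw [Matrix.mul_assoc, hW']
  have hPU : P * (W' * I') + U * I = 1 := by rw [hPV, add_comm, hs]
  refine ⟨L, I, fun _ => 0, hI, fun s => HF_zero _ _ _, fun s => ?_, ?_⟩
  · rw [h0 s, dd_zero, TT_zero, smul_zero, add_zero, add_zero]
  · have e0 : ((fun _ : ℕ => (0 : Matrix L.ι L.ι S)) 0 +
        TT L L ((fun _ : ℕ => (0 : Matrix L.ι L.ι S)) 0)) = 0 := by
      show (0 : Matrix L.ι L.ι S) + TT L L 0 = 0
      rw [TT_zero, add_zero]
    rw [e0, hP]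
    refine contr_of_unit _ (fromBlocks (fromBlocks 0 0 U 0) 0 (fromCols 0 (W' * I')) 0)
      (fromBlocks (fromBlocks 1 0 (-(E.D * U - U * L.D)) 1) 0
        (fromCols ((sg m • (L.eps * L.Dᴴ) * (W' * I') + W' * I' * E.D) * (E.D * U - U * L.D))
          (-(sg m • (L.eps * L.Dᴴ) * (W' * I') + W' * I' * E.D))) 1) ?_ ?_ ?_
    · simp only [fromBlocks_multiply, fromRows_mul, fromBlocks_mul_fromRows, Matrix.mul_zero,
        Matrix.zero_mul, add_zero, zero_add, Str_rows_add, Str_Dp L m, L.hD, E.hD, hI.comm, hIP,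
        hDP, Matrix.neg_mul, Matrix.mul_neg, neg_zero, neg_add_cancel, fromRows_zero,
        fromBlocks_zero]
    all_goals
      have hK : fromBlocks (fromBlocks (-L.D) I 0 E.D) (fromRows 0 P) 0
          (sg m • (L.eps * L.Dᴴ)) * fromBlocks (fromBlocks 0 0 U 0) 0 (fromCols 0 (W' * I')) 0 +
          fromBlocks (fromBlocks 0 0 U 0) 0 (fromCols 0 (W' * I')) 0 *
          fromBlocks (fromBlocks (-L.D) I 0 E.D) (fromRows 0 P) 0 (sg m • (L.eps * L.Dᴴ)) =
          fromBlocks (fromBlocks 1 0 (E.D * U - U * L.D) 1) 0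
            (fromCols 0 (sg m • (L.eps * L.Dᴴ) * (W' * I') + W' * I' * E.D)) 1 := by
        simp only [fromBlocks_multiply, fromRows_mul_fromCols]
        simp only [fromBlocks_multiply, fromBlocks_add,
          fromCols_mul_fromBlocks, fromBlocks_mul_fromRows, fromCols_mul_fromRows, mul_fromCols,
          Matrix.mul_zero, Matrix.zero_mul, add_zero, zero_add, h11, hPU, hVP, Matrix.mul_neg,
          sub_eq_add_neg, Str_cols_add, fromRows_zero, neg_zero]
      rw [hK]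
      generalize E.D * U - U * L.D = x
      generalize sg m • (L.eps * L.Dᴴ) * (W' * I') + W' * I' * E.D = y
      rw [fromBlocks_multiply, fromBlocks_multiply, fromCols_mul_fromBlocks,
        ← fromBlocks_one]
      congr 1
      · rw [← fromBlocks_one]
        simp
      · simp
      · simp only [Matrix.mul_zero, Matrix.zero_mul, add_zero, zero_add, Matrix.mul_one,
          Matrix.one_mul, Str_cols_add, Matrix.mul_neg, Matrix.neg_mul, neg_add_cancel,
          add_neg_cancel, fromCols_zero]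
      · simp

end Pool.Agent.H16.UN
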