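import Pool.Agent.H16.UN.NMp

/-!
# Module Wrd: letters

`𝒟.st l x = c_l ((j ∘ x) ᵥ* N)`, `N = 𝒟.N` a chain map of degree 0 with entries in `B` (`N_isMap`, `N_B`).
* additivity: `vecMul` and `𝒮.c l` are additive.
* `st_hom`: `((j ∘ x) ᵥ* N) b ≠ 0` implies `x a ≠ 0`, `N a b ≠ 0` for some `a`, so `Y.deg b = X.deg a = i`.
* `st_D`: `(𝒟.st l x) ᵥ* Y.D = 𝒟.st l (x ᵥ* X.D)`: `c_l` is right `R`-linear on `B` (`𝒮.c_mul`) and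
  `N (Y.D.map j) = (X.D.map j) N`; `(j ∘ (x ᵥ* X.D)) = (j ∘ x) ᵥ* (X.D.map j)`.
* `st_cyc`, `st_bd` follow.
* `kerK`: the cycles `x` of degree `k` all whose letters are boundaries form an `R`-submodule: it is an
  additive subgroup; for `r : R`: `(j ∘ (r • x)) ᵥ* N = j r * ((j ∘ x) ᵥ* N)`, and
  `(j ∘ x) ᵥ* N` has entries `v b = ∑ l ∈ F, u l * j (c l (v b))` (one finite set `F` for all `b`), so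
  `c l' (j r * v b) = ∑ l ∈ F, c l' (j r * u l) * (𝒟.st l x) b`, a left `R`-linear combination of boundaries.
-/

namespace Pool.Agent.H16.UN

open Matrix

variable {R S : Type} [Ring R] [StarRing R] [Ring S] [StarRing S]

private theorem Wrd_vB {𝒮 : Setup R S} {m : ℤ} (𝒟 : Dat 𝒮 m) (x : 𝒟.X.ι → R) (b : 𝒟.Y.ι) :
    ((fun a => 𝒮.j (x a)) ᵥ* 𝒟.N) b ∈ 𝒮.B :=
  𝒮.B.sum_mem fun a _ => 𝒮.Bl _ _ (N_B 𝒟 a b)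

theorem st_add {𝒮 : Setup R S} {m : ℤ} (𝒟 : Dat 𝒮 m) (l : 𝒮.J) (x x' : 𝒟.X.ι → R) :
    𝒟.st l (x + x') = 𝒟.st l x + 𝒟.st l x' := by
  funext b
  have e : (fun a => 𝒮.j ((x + x') a)) = (fun a => 𝒮.j (x a)) + fun a => 𝒮.j (x' a) := by
    funext a
    simp only [Pi.add_apply, map_add]
  show 𝒮.c l (((fun a => 𝒮.j ((x + x') a)) ᵥ* 𝒟.N) b) = _
  rw [e, add_vecMul, Pi.add_apply, map_add]
  rfl

theorem st_zero {𝒮 : Setup R S} {m : ℤ} (𝒟 : Dat 𝒮 m) (l : 𝒮.J) :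
    𝒟.st l (0 : 𝒟.X.ι → R) = 0 := by
  have h := st_add 𝒟 l 0 0
  rw [add_zero] at h
  exact left_eq_add.1 h

theorem st_hom {𝒮 : Setup R S} {m : ℤ} (𝒟 : Dat 𝒮 m) (l : 𝒮.J) {i : ℤ} {x : 𝒟.X.ι → R}
    (h : 𝒟.X.Hom i x) : 𝒟.Y.Hom i (𝒟.st l x) := by
  intro b hb
  have h1 : ((fun a => 𝒮.j (x a)) ᵥ* 𝒟.N) b ≠ 0 := by
    intro h0
    apply hb
    show 𝒮.c l (((fun a => 𝒮.j (x a)) ᵥ* 𝒟.N) b) = 0
    rw [h0, map_zero]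
  obtain ⟨a, -, ha⟩ := Finset.exists_ne_zero_of_sum_ne_zero h1
  have h2 : x a ≠ 0 := by
    intro h0
    apply left_ne_zero_of_mul ha
    show 𝒮.j (x a) = 0
    rw [h0, map_zero]
  have h3 : 𝒟.X.deg a = 𝒟.Y.deg b := (N_isMap 𝒟).hom a b (right_ne_zero_of_mul ha)
  rw [← h3]
  exact h a h2

theorem st_D {𝒮 : Setup R S} {m : ℤ} (𝒟 : Dat 𝒮 m) (l : 𝒮.J) (x : 𝒟.X.ι → R) :
    (𝒟.st l x) ᵥ* 𝒟.Y.D = 𝒟.st l (x ᵥ* 𝒟.X.D) := by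
  funext b'
  have e1 : (fun a => 𝒮.j ((x ᵥ* 𝒟.X.D) a)) = (fun a => 𝒮.j (x a)) ᵥ* 𝒟.X.D.map 𝒮.j := by
    funext a
    exact RingHom.map_vecMul 𝒮.j 𝒟.X.D x a
  have e2 : 𝒟.X.D.map 𝒮.j * 𝒟.N = 𝒟.N * 𝒟.Y.D.map 𝒮.j := (N_isMap 𝒟).comm
  have e3 : (fun a => 𝒮.j ((x ᵥ* 𝒟.X.D) a)) ᵥ* 𝒟.N =
      ((fun a => 𝒮.j (x a)) ᵥ* 𝒟.N) ᵥ* 𝒟.Y.D.map 𝒮.j := by
    rw [e1, vecMul_vecMul, e2, vecMul_vecMul]
  show ∑ b, 𝒟.st l x b * 𝒟.Y.D b b' = 𝒮.c l (((fun a => 𝒮.j ((x ᵥ* 𝒟.X.D) a)) ᵥ* 𝒟.N) b')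
  rw [e3]
  show _ = 𝒮.c l (∑ b, ((fun a => 𝒮.j (x a)) ᵥ* 𝒟.N) b * 𝒮.j (𝒟.Y.D b b'))
  rw [map_sum]
  refine Finset.sum_congr rfl fun b _ => ?_
  rw [𝒮.c_mul l _ (Wrd_vB 𝒟 x b)]
  rfl

theorem st_cyc {𝒮 : Setup R S} {m : ℤ} (𝒟 : Dat 𝒮 m) (l : 𝒮.J) {i : ℤ} {x : 𝒟.X.ι → R}
    (h : 𝒟.X.Cyc i x) : 𝒟.Y.Cyc i (𝒟.st l x) :=
  ⟨st_hom 𝒟 l h.1, by rw [st_D, h.2, st_zero]⟩

theorem st_bd {𝒮 : Setup R S} {m : ℤ} (𝒟 : Dat 𝒮 m) (l : 𝒮.J) {i : ℤ} {x : 𝒟.X.ι → R}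
    (h : 𝒟.X.Bd i x) : 𝒟.Y.Bd i (𝒟.st l x) := by
  obtain ⟨w, h1, h2⟩ := h
  exact ⟨𝒟.st l w, st_hom 𝒟 l h1, by rw [st_D, h2]⟩

private theorem Wrd_hom_add {R : Type} [Ring R] (X : FC R) {i : ℤ} {v w : X.ι → R}
    (h : X.Hom i v) (h' : X.Hom i w) : X.Hom i (v + w) := by
  intro a ha
  by_cases hv : v a = 0
  · exact h' a fun hw => ha (by rw [Pi.add_apply, hv, hw, add_zero])
  · exact h a hv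

private theorem Wrd_hom_smul {R : Type} [Ring R] (X : FC R) {i : ℤ} (r : R) {v : X.ι → R}
    (h : X.Hom i v) : X.Hom i (r • v) := fun a ha =>
  h a fun h0 => ha (by rw [Pi.smul_apply, h0, smul_zero])

private theorem Wrd_bd_zero {R : Type} [Ring R] (X : FC R) (i : ℤ) : X.Bd i 0 :=
  ⟨0, fun _ ha => absurd rfl ha, zero_vecMul _⟩

private theorem Wrd_bd_add {R : Type} [Ring R] (X : FC R) {i : ℤ} {v w : X.ι → R}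
    (h : X.Bd i v) (h' : X.Bd i w) : X.Bd i (v + w) := by
  obtain ⟨v', h1, h2⟩ := h
  obtain ⟨w', h3, h4⟩ := h'
  exact ⟨v' + w', Wrd_hom_add X h1 h3, by rw [add_vecMul, h2, h4]⟩

private theorem Wrd_bd_smul {R : Type} [Ring R] (X : FC R) {i : ℤ} (r : R) {v : X.ι → R}
    (h : X.Bd i v) : X.Bd i (r • v) := by
  obtain ⟨v', h1, h2⟩ := h
  exact ⟨r • v', Wrd_hom_smul X r h1, by rw [smul_vecMul, h2]⟩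

private theorem Wrd_smul {𝒮 : Setup R S} {m : ℤ} (𝒟 : Dat 𝒮 m) (r : R) (x : 𝒟.X.ι → R) :
    ∃ F : Finset 𝒮.J, ∀ l', 𝒟.st l' (r • x) =
      ∑ l ∈ F, 𝒮.c l' (𝒮.j r * 𝒮.u l) • 𝒟.st l x := by
  classical
  have h := fun b => 𝒮.c_rec _ (Wrd_vB 𝒟 x b)
  choose F hF1 hF2 using h
  refine ⟨Finset.univ.biUnion F, fun l' => ?_⟩
  funext b
  have e1 : ((fun a => 𝒮.j (x a)) ᵥ* 𝒟.N) b =
      ∑ l ∈ Finset.univ.biUnion F, 𝒮.u l * 𝒮.j (𝒟.st l x b) := by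
    have h1 : ((fun a => 𝒮.j (x a)) ᵥ* 𝒟.N) b = ∑ l ∈ F b, 𝒮.u l * 𝒮.j (𝒟.st l x b) := hF2 b
    rw [h1]
    refine Finset.sum_subset (Finset.subset_biUnion_of_mem F (Finset.mem_univ b)) ?_
    intro l _ hl
    have h2 : 𝒟.st l x b = 0 := hF1 b l hl
    rw [h2, map_zero, mul_zero]
  have e2 : ((fun a => 𝒮.j ((r • x) a)) ᵥ* 𝒟.N) b =
      𝒮.j r * ((fun a => 𝒮.j (x a)) ᵥ* 𝒟.N) b := by
    show ∑ a, 𝒮.j ((r • x) a) * 𝒟.N a b = 𝒮.j r * ∑ a, 𝒮.j (x a) * 𝒟.N a b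
    rw [Finset.mul_sum]
    refine Finset.sum_congr rfl fun a _ => ?_
    rw [Pi.smul_apply, smul_eq_mul, map_mul, mul_assoc]
  show 𝒮.c l' (((fun a => 𝒮.j ((r • x) a)) ᵥ* 𝒟.N) b) = _
  rw [e2, e1, Finset.mul_sum, map_sum, Finset.sum_apply]
  refine Finset.sum_congr rfl fun l _ => ?_
  rw [← mul_assoc, 𝒮.c_mul l' _ (𝒮.Bl r _ (𝒮.hu l)), Pi.smul_apply, smul_eq_mul]

/-- the kernel of `q1` on cycles of degree `k`, as a submodule -/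
theorem kerK {𝒮 : Setup R S} {m : ℤ} (𝒟 : Dat 𝒮 m) (k : ℤ) :
    ∃ K : Submodule R (𝒟.X.ι → R), ∀ x, x ∈ K ↔ 𝒟.X.Cyc k x ∧ ∀ l, 𝒟.Y.Bd k (𝒟.st l x) := by
  refine ⟨{ carrier := {x | 𝒟.X.Cyc k x ∧ ∀ l, 𝒟.Y.Bd k (𝒟.st l x)}
            add_mem' := ?_
            zero_mem' := ?_
            smul_mem' := ?_ }, fun x => Iff.rfl⟩
  · rintro x x' ⟨⟨h1, h2⟩, h3⟩ ⟨⟨h4, h5⟩, h6⟩
    refine ⟨⟨Wrd_hom_add _ h1 h4, by rw [add_vecMul, h2, h5, add_zero]⟩, fun l => ?_⟩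
    rw [st_add]
    exact Wrd_bd_add _ (h3 l) (h6 l)
  · refine ⟨⟨fun _ ha => absurd rfl ha, zero_vecMul _⟩, fun l => ?_⟩
    rw [st_zero]
    exact Wrd_bd_zero _ _
  · rintro r x ⟨⟨h1, h2⟩, h3⟩
    refine ⟨⟨Wrd_hom_smul _ r h1, by rw [smul_vecMul, h2, smul_zero]⟩, fun l' => ?_⟩
    obtain ⟨F, hF⟩ := Wrd_smul 𝒟 r x
    rw [hF l']
    exact Finset.sum_induction _ (fun v => 𝒟.Y.Bd k v) (fun _ _ => Wrd_bd_add _)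
      (Wrd_bd_zero _ _) fun l _ => Wrd_bd_smul _ _ (h3 l)

end Pool.Agent.H16.UN
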